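import Pool.Agent.MP_b13154_gt.H25.Defs

attribute [-instance] MonTypeEquivalenceMon.monMonoid NonUnitalRingHomClass.toMulHomClass
  littleWedderburn RKHS.instFunLike DivisionCommMonoid.toDivisionMonoid
  MonoidWithZero.toMulZeroOneClass NormedRing.toRing AlgHom.instNonUnitalAlgHomClassOfAlgHomClass
  NonAssocSemiring.toMulZeroOneClass SubsemiringClass.toCommSemiring IdemSemiring.toSemiring
  SemigroupWithZero.toSemigroup NonUnitalRing.toNonUnitalNonAssocRing UniformSpace.toTopologicalSpace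
  SeminormedRing.toRing ContinuousSemilinearMapClass.toSemilinearMapClass NormedCommRing.toCommRing
  MonoidWithZeroHomClass.toZeroHomClass MulZeroClass.toMul List.instDecidableMemOfLawfulBEq
  EuclideanDomain.toCommRing MonoidWithZero.toMonoid Prod.mulAction SetLike.GradeZero.instSemiring
  SetLike.GradeZero.instMonoid instNonUnitalAlgHomClassOfNonUnitalAlgEquivClass
  SetLike.GradeZero.instCommSemiring SetLike.GradeZero.instRing NormedField.toField
  SeminormedCommRing.toCommRing NonUnitalSemiring.toNonUnitalNonAssocSemiring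
  NonAssocSemiring.toNonUnitalNonAssocSemiring TestFunctionClass.toDFunLike
  CoalgHomClass.toSemilinearMapClass ContDiffMapSupportedInClass.toDFunLike
  GroupWithZero.toDivisionMonoid NonUnitalNormedCommRing.toNonUnitalCommRing
  SemilinearIsometryClass.toSemilinearMapClass GroupWithZero.toDivInvMonoid BooleanRing.toRing
  Subgroup.normal_of_isMulCommutative LieAdmissibleRing.toNonUnitalNonAssocRing
  SemilatticeInf.toPartialOrder instCharZeroOfIsSemireal
  NonUnitalNonAssocCommSemiring.toNonUnitalNonAssocSemiring Fintype.decidableExistsFintype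
  BooleanRing.toCommRing Finset.decidableDforallFinset IdemCommSemiring.toCommSemiring MulOne.toOne
  AddCommMonoidWithOne.toAddMonoidWithOne NonUnitalSeminormedCommRing.toNonUnitalCommRing
  NonAssocRing.toNonUnitalNonAssocRing Multiset.decidableDforallMultiset
  RingHomClass.toLinearMapClassNNRat Field.toCommRing
  Vector.instDecidableForallForallMemOfDecidablePred instCoeTCOfCoe
  Array.instDecidableForallForallMemOfDecidablePred Option.decidableForallMem
  NonAssocCommRing.toNonUnitalNonAssocCommRing CompletePartialOrder.toPartialOrder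
  NonUnitalAlgSemiHomClass.toMulHomClass RingHomClass.toLinearMapClassRat
  Group.IsPerfect.subsingleton_of_isMulCommutative instCoeHTCOfCoeHeadOfCoeOTC
  SubsemiringClass.toSemiring NonUnitalAlgHomClass.instLinearMapClass RCLike.charZero_rclike
  Int.decidableLTLE LeftPreLieRing.toNonUnitalNonAssocRing
  NonUnitalAlgHomClass.instSemilinearMapClassOfNonUnitalAlgSemiHomClassToMonoidHomRingHom
  CommGroup.toGroup MonoidWithZeroHomClass.toMonoidHomClass AddCommGroupWithOne.toAddGroupWithOne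
  SubringClass.toRing AlgHomClass.linearMapClass

-- part MP_b13154_gt.H25.Tree
section

/-!
Group actions on simplicial trees, Bass-Serre trees of amalgams, collapse of a tree action
to an amalgam.
-/

namespace Pool.Agent.MP_b13154_gt.H25

section PartT1


/-- A simplicial tree given by its metric, with a type preserving action. -/
structure ZT (G : Type) [Group G] (V : Type) where
  d : V → V → ℕ
  a : G →* Equiv.Perm V
  d_self : ∀ x, d x x = 0
  eq_of : ∀ x y, d x y = 0 → x = y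
  comm : ∀ x y, d x y = d y x
  four : ∀ x y z w, d x y + d z w ≤ d x z + d y w ∨ d x y + d z w ≤ d x w + d y z
  step : ∀ x y, x ≠ y → ∃ z, d x z = 1 ∧ d z y + 1 = d x y
  par : ∀ x y z, (d x y + d y z + d x z) % 2 = 0
  inv : ∀ g x y, d (a g x) (a g y) = d x y
  ev : ∀ g x, d x (a g x) % 2 = 0

namespace ZT

variable {G G' : Type} [Group G] [Group G'] {V : Type} (T : ZT G V)

def comap (f : G' →* G) : ZT G' V where
  d := T.d
  a := T.a.comp f
  d_self := T.d_self
  eq_of := T.eq_of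
  comm := T.comm
  four := T.four
  step := T.step
  par := T.par
  inv := fun g => T.inv (f g)
  ev := fun g => T.ev (f g)

theorem mul (g h : G) (x : V) : T.a (g * h) x = T.a g (T.a h x) := by simp
theorem one (x : V) : T.a 1 x = x := by simp
theorem inv_a (g : G) (x : V) : T.a g⁻¹ (T.a g x) = x := by rw [← T.mul]; simp only [inv_mul_cancel, map_one, Equiv.Perm.coe_one, id_eq]
theorem a_inv (g : G) (x : V) : T.a g (T.a g⁻¹ x) = x := by rw [← T.mul]; simp only [mul_inv_cancel, map_one, Equiv.Perm.coe_one, id_eq]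
theorem fix_inv {g : G} {x : V} (h : T.a g x = x) : T.a g⁻¹ x = x := by
  conv_lhs => rw [← h]
  exact T.inv_a g x
theorem fix_zpow {g : G} {x : V} (h : T.a g x = x) (k : ℤ) : T.a (g ^ k) x = x := by
  induction k using Int.induction_on with
  | zero => simp
  | succ k ih => rw [zpow_add_one, T.mul, h, ih]
  | pred k ih => rw [zpow_sub_one, T.mul, T.fix_inv h, ih]
theorem fix_pow {g : G} {x : V} (h : T.a g x = x) (k : ℕ) : T.a (g ^ k) x = x := by
  simpa only [map_pow, zpow_natCast] using T.fix_zpow h k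
theorem d_inv (g : G) (x y : V) : T.d (T.a g⁻¹ x) y = T.d x (T.a g y) := by
  rw [← T.inv g, T.a_inv]
theorem pos {x y : V} (h : x ≠ y) : 0 < T.d x y :=
  Nat.pos_of_ne_zero fun h0 => h (T.eq_of _ _ h0)

theorem tri (x y z : V) : T.d x z ≤ T.d x y + T.d y z := by
  have := T.four x z y y
  have := T.d_self y
  have := T.comm y z
  omega

theorem ultra (v x y z : V) (k : ℕ) (h1 : T.d x y + k ≤ T.d v x + T.d v y)
    (h2 : T.d y z + k ≤ T.d v y + T.d v z) : T.d x z + k ≤ T.d v x + T.d v z := by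
  have := T.four x z v y
  have := T.comm x v
  have := T.comm z y
  have := T.comm z v
  omega

theorem adj {v v' : V} (h : T.d v v' = 1) (x : V) :
    T.d v' x + 1 = T.d v x ∨ T.d v x + 1 = T.d v' x := by
  have := T.par v v' x
  have := T.tri v v' x
  have := T.tri v' v x
  have := T.comm v v'
  omega

theorem uniq {v v1 v2 x : V} (h1 : T.d v v1 = 1) (h1' : T.d v1 x + 1 = T.d v x)
    (h2 : T.d v v2 = 1) (h2' : T.d v2 x + 1 = T.d v x) : v1 = v2 := by
  apply T.eq_of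
  have := T.four v1 v2 v x
  have := T.comm v v1
  have := T.comm v v2
  omega

/-- a neighbour towards `x` is a neighbour towards `y` when the Gromov product is positive -/
theorem tow {v v' x y : V} (h1 : T.d v v' = 1) (h1' : T.d v' x + 1 = T.d v x)
    (h : T.d x y < T.d v x + T.d v y) : T.d v' y + 1 = T.d v y := by
  have := T.par v x y
  have := T.ultra v v' x y 2 (by omega) (by omega)
  have := T.adj h1 y
  omega

theorem fix_tow {g : G} {v v' x : V} (h1 : T.d v v' = 1) (h1' : T.d v' x + 1 = T.d v x)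
    (hv : T.a g v = v) (hx : T.a g x = x) : T.a g v' = v' := by
  refine T.uniq ?_ ?_ h1 h1'
  · rw [← h1, ← T.inv g v v', hv]
  · rw [← h1', ← T.inv g v' x, hx]

theorem sep {x x' y w : V} (h : T.d x x' = 1) (hy : T.d y x < T.d y x') (hw : T.d w x' < T.d w x) :
    T.d y w = T.d y x + 1 + T.d x' w := by
  have := T.four y x' w x
  have := T.tri y x w
  have := T.tri x x' w
  have := T.adj h y
  have := T.adj h w
  have := T.comm x x'
  have := T.comm y x
  have := T.comm y x'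
  have := T.comm w x
  have := T.comm w x'
  omega

theorem crit_pow {g : G} {v : V} (h : 2 * T.d v (T.a g v) ≤ T.d (T.a g v) (T.a g⁻¹ v)) (k : ℕ) :
    T.d v (T.a (g ^ k) v) = k * T.d v (T.a g v) := by
  by_cases h0 : T.a g v = v
  · rw [T.fix_pow h0, h0, T.d_self]; simp
  have hD := T.pos (Ne.symm h0)
  have key : ∀ k : ℕ, T.d v (T.a (g ^ (k + 1)) v) = T.d v (T.a (g ^ k) v) + T.d v (T.a g v) := by
    intro k
    induction k with
    | zero => simp [T.d_self]
    | succ k ih =>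
      have e1 : T.d (T.a (g ^ (k + 1)) v) (T.a (g ^ (k + 1 + 1)) v) = T.d v (T.a g v) := by
        rw [pow_succ g (k + 1), T.mul, T.inv]
      have e2 : T.d (T.a (g ^ k) v) (T.a (g ^ (k + 1)) v) = T.d v (T.a g v) := by
        rw [pow_succ g k, T.mul, T.inv]
      have e3 : T.d (T.a (g ^ (k + 1 + 1)) v) (T.a (g ^ k) v) = T.d (T.a g v) (T.a g⁻¹ v) := by
        rw [← T.inv (g ^ (k + 1)) (T.a g v), ← T.mul, ← T.mul, ← pow_succ, pow_succ g k,
          mul_inv_cancel_right]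
      have := T.four v (T.a (g ^ (k + 1)) v) (T.a (g ^ (k + 1 + 1)) v) (T.a (g ^ k) v)
      have := T.tri v (T.a (g ^ (k + 1)) v) (T.a (g ^ (k + 1 + 1)) v)
      have := T.comm (T.a (g ^ k) v) (T.a (g ^ (k + 1)) v)
      omega
  induction k with
  | zero => simp only [pow_zero, map_one, Equiv.Perm.coe_one, id_eq, T.d_self, zero_mul]
  | succ k ih => rw [key, ih]; ring

theorem crit {g : G} {v : V} (h : 2 * T.d v (T.a g v) ≤ T.d (T.a g v) (T.a g⁻¹ v)) (w : V) :
    T.d v (T.a g v) ≤ T.d w (T.a g w) := by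
  have key : ∀ k : ℕ, T.d w (T.a (g ^ k) w) ≤ k * T.d w (T.a g w) := by
    intro k
    induction k with
    | zero => simp [T.d_self]
    | succ k ih =>
      have := T.tri w (T.a (g ^ k) w) (T.a (g ^ (k + 1)) w)
      have e : T.d (T.a (g ^ k) w) (T.a (g ^ (k + 1)) w) = T.d w (T.a g w) := by
        rw [pow_succ g k, T.mul, T.inv]
      rw [add_mul]
      omega
  by_contra hlt
  set k := 2 * T.d v w + 1 with hk
  have h1 := T.crit_pow h k
  have h2 := key k
  have h3 := T.tri v w (T.a (g ^ k) v)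
  have h4 := T.tri w (T.a (g ^ k) w) (T.a (g ^ k) v)
  have h5 := T.inv (g ^ k) w v
  have h6 := T.comm v w
  have h7 : k * (T.d w (T.a g w) + 1) ≤ k * T.d v (T.a g v) := Nat.mul_le_mul_left _ (by omega)
  rw [mul_add] at h7
  omega

/-- product criterion -/
theorem critP {g h : G} {v : V} (hg : T.a g v ≠ v) (hh : T.a h v ≠ v)
    (h1 : T.d v (T.a g v) + T.d v (T.a h v) ≤ T.d (T.a g⁻¹ v) (T.a h v))
    (h2 : T.d v (T.a g v) + T.d v (T.a h v) ≤ T.d (T.a g v) (T.a h⁻¹ v)) (w : V) :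
    T.d v (T.a g v) + T.d v (T.a h v) ≤ T.d w (T.a (g * h) w) := by
  have e1 : T.d (T.a g⁻¹ v) (T.a h v) = T.d v (T.a (g * h) v) := by rw [T.d_inv, T.mul]
  have e2 : T.d (T.a g v) (T.a (g * h) v) = T.d v (T.a h v) := by rw [T.mul, T.inv]
  have e3 : T.d (T.a (g * h)⁻¹ v) v = T.d v (T.a (g * h) v) := by rw [T.d_inv]
  have e4 : T.d (T.a h⁻¹ v) v = T.d v (T.a h v) := by rw [T.d_inv]
  have e5 : T.d (T.a h⁻¹ v) (T.a (g * h)⁻¹ v) = T.d v (T.a g v) := by
    rw [mul_inv_rev, T.mul, T.inv, T.comm, T.d_inv]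
  have p1 := T.pos (Ne.symm hg)
  have p2 := T.pos (Ne.symm hh)
  refine le_trans (by omega) (T.crit (g := g * h) (v := v) ?_ w)
  by_contra hlt
  have t1 := T.tri v (T.a g v) (T.a (g * h) v)
  have c1 := T.comm (T.a (g * h)⁻¹ v) v
  have c2 := T.comm (T.a h⁻¹ v) v
  have c3 := T.comm (T.a h⁻¹ v) (T.a (g * h)⁻¹ v)
  have u1 := T.ultra v (T.a g v) (T.a (g * h) v) (T.a (g * h)⁻¹ v) 1 (by omega) (by omega)
  have u2 := T.ultra v (T.a g v) (T.a (g * h)⁻¹ v) (T.a h⁻¹ v) 1 (by omega) (by omega)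
  omega

/-- two elliptic elements: the criterion at a fixed point of the first -/
theorem critE {x y : G} {p p' q : V} (hx : T.a x p = p) (hy : T.a y q = q) (h1 : T.d p p' = 1)
    (h2 : T.d p' q + 1 = T.d p q) (hx' : T.a x p' ≠ p') (hy' : T.a y p ≠ p) :
    T.d p (T.a (x * y) p) = T.d p (T.a y p) ∧
    2 * T.d p (T.a (x * y) p) ≤ T.d (T.a (x * y) p) (T.a (x * y)⁻¹ p) := by
  have e1 : T.d p (T.a (x * y) p) = T.d p (T.a y p) := by rw [T.mul, ← T.inv x p (T.a y p), hx]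
  refine ⟨e1, ?_⟩
  have e2 : T.a (x * y)⁻¹ p = T.a y⁻¹ p := by rw [mul_inv_rev, T.mul, T.fix_inv hx]
  have e3 : T.d (T.a y⁻¹ p) p = T.d p (T.a y p) := T.d_inv _ _ _
  have e4 : T.d q (T.a y p) = T.d q p := by rw [← T.inv y q p, hy]
  have e5 : T.d (T.a y⁻¹ p) q = T.d p q := by rw [T.d_inv, hy]
  have p1 := T.pos (Ne.symm hy')
  have c1 := T.comm p q
  have c2 := T.comm (T.a y⁻¹ p) p
  have c3 := T.comm (T.a y⁻¹ p) q
  have t1 : T.d p' (T.a y p) + 1 = T.d p (T.a y p) := T.tow h1 h2 (by omega)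
  have t2 : T.d p' (T.a y⁻¹ p) + 1 = T.d p (T.a y⁻¹ p) := T.tow h1 h2 (by omega)
  have t3 : T.d (T.a x p') (T.a (x * y) p) + 1 = T.d p (T.a (x * y) p) := by
    rw [e1, T.mul, T.inv, t1]
  have t4 : T.d p (T.a x p') = 1 := by rw [← h1, ← T.inv x p p', hx]
  rw [e2]
  by_contra hlt
  exact hx' (T.uniq t4 (T.tow t4 t3 (by omega)) h1 t2)

theorem S3 {x y : G} {p p' q w : V} (hx : T.a x p = p) (hy : T.a y q = q) (h1 : T.d p p' = 1)
    (h2 : T.d p' q + 1 = T.d p q) (hx' : T.a x p' ≠ p') (hw : T.a (x * y) w = w) :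
    T.a y p = p := by
  by_contra hy'
  obtain ⟨e, c⟩ := T.critE hx hy h1 h2 hx' hy'
  have := T.crit c w
  rw [hw, T.d_self, e] at this
  have := T.pos (Ne.symm hy')
  omega

/-- bridge between the fixed sets of two sets of elements -/
theorem bridge (S S' : Set G) (hS : ∃ p, ∀ s ∈ S, T.a s p = p) (hS' : ∃ q, ∀ s ∈ S', T.a s q = q) :
    (∃ w, (∀ s ∈ S, T.a s w = w) ∧ ∀ s ∈ S', T.a s w = w) ∨
    ∃ p p' q q', (∀ s ∈ S, T.a s p = p) ∧ (∀ s ∈ S', T.a s q = q) ∧ T.d p p' = 1 ∧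
      T.d p' q + 1 = T.d p q ∧ T.d q q' = 1 ∧ T.d q' p + 1 = T.d q p ∧
      (∃ s ∈ S, T.a s p' ≠ p') ∧ ∃ s ∈ S', T.a s q' ≠ q' := by
  classical
  have hex : ∃ r, ∃ p q, (∀ s ∈ S, T.a s p = p) ∧ (∀ s ∈ S', T.a s q = q) ∧ T.d p q = r := by
    obtain ⟨p, hp⟩ := hS
    obtain ⟨q, hq⟩ := hS'
    exact ⟨_, p, q, hp, hq, rfl⟩
  obtain ⟨p, q, hp, hq, hr⟩ := Nat.find_spec hex
  by_cases hpq : p = q
  · subst hpq; exact Or.inl ⟨p, hp, hq⟩
  right
  obtain ⟨p', h1, h2⟩ := T.step p q hpq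
  obtain ⟨q', h3, h4⟩ := T.step q p (Ne.symm hpq)
  refine ⟨p, p', q, q', hp, hq, h1, h2, h3, h4, ?_, ?_⟩
  · by_contra hc
    push Not at hc
    have := Nat.find_min' hex ⟨p', q, hc, hq, rfl⟩
    omega
  · by_contra hc
    push Not at hc
    have := Nat.find_min' hex ⟨p, q', hp, hc, rfl⟩
    have := T.comm p q'
    have := T.comm p q
    omega

theorem bridge2 {x y : G} {p0 q0 : V} (hx : T.a x p0 = p0) (hy : T.a y q0 = q0) :
    (∃ w, T.a x w = w ∧ T.a y w = w) ∨
    ∃ p p' q q', T.a x p = p ∧ T.a y q = q ∧ T.d p p' = 1 ∧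
      T.d p' q + 1 = T.d p q ∧ T.d q q' = 1 ∧ T.d q' p + 1 = T.d q p ∧
      T.a x p' ≠ p' ∧ T.a y q' ≠ q' := by
  simpa only [ne_eq, exists_and_left, Set.mem_singleton_iff, forall_eq, exists_eq_left] using T.bridge {x} {y} ⟨p0, by simpa using hx⟩ ⟨q0, by simpa using hy⟩

theorem torus {x y : G} {p0 q0 : V} (hx : T.a x p0 = p0) (hy : T.a y q0 = q0) (k : ℕ)
    (h : (x * y) ^ (k + 1) = x * (x * y) ^ k * x) : ∃ w, T.a x w = w ∧ T.a y w = w := by
  rcases T.bridge2 hx hy with h | ⟨p, p', q, q', hp, hq, h1, h2, -, -, h5, -⟩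
  · exact h
  by_cases hy' : T.a y p = p
  · exact ⟨p, hp, hy'⟩
  obtain ⟨e, c⟩ := T.critE hp hq h1 h2 h5 hy'
  have a1 := T.crit_pow c (k + 1)
  have a2 := T.crit_pow c k
  have a3 : T.d p (T.a ((x * y) ^ (k + 1)) p) = T.d p (T.a ((x * y) ^ k) p) := by
    rw [h, T.mul, T.mul, hp, ← T.inv x p (T.a ((x * y) ^ k) p), hp]
  have := T.pos (Ne.symm hy')
  rw [add_mul] at a1
  omega

end ZT

/-- the relations of the figure eight knot group -/
def Fig {G : Type} [Group G] (a b t : G) : Prop :=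
  t * a * t⁻¹ = a * b ∧ t * b * t⁻¹ = b * (a * b)

theorem Fig.shift {G : Type} [Group G] {a b t : G} (h : Fig a b t) : Fig b (a * b) t :=
  ⟨h.2, by
    calc t * (a * b) * t⁻¹ = (t * a * t⁻¹) * (t * b * t⁻¹) := by group
      _ = _ := by rw [h.1, h.2]⟩

namespace ZT

variable {G : Type} [Group G] {V : Type} (T : ZT G V)

theorem d_conj (t g : G) (v : V) :
    T.d (T.a t v) (T.a (t * g * t⁻¹) (T.a t v)) = T.d v (T.a g v) := by
  rw [T.mul, T.mul, T.inv_a, T.inv]

theorem fix_conj {g : G} {v : V} (h : T.a g v = v) (t : G) :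
    T.a (t * g * t⁻¹) (T.a t v) = T.a t v := by
  rw [T.mul, T.mul, T.inv_a, h]

theorem offaxis {g h : G} {v : V} (hg : T.a g v ≠ v)
    (hmin : ∀ w, T.d v (T.a g v) + T.d v (T.a h v) ≤ T.d w (T.a g w) + T.d w (T.a h w))
    (hoff : T.d (T.a g v) (T.a g⁻¹ v) < 2 * T.d v (T.a g v)) (x y : V)
    (hx : x = T.a g v ∨ x = T.a g⁻¹ v) (hy : y = T.a h v ∨ y = T.a h⁻¹ v) :
    T.d v (T.a g v) + T.d v (T.a h v) ≤ T.d x y := by
  obtain ⟨v', h1, h2⟩ := T.step v _ (Ne.symm hg)
  have e1 : T.d (T.a g⁻¹ v) v = T.d v (T.a g v) := T.d_inv _ _ _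
  have e2 : T.d (T.a h⁻¹ v) v = T.d v (T.a h v) := T.d_inv _ _ _
  have c1 := T.comm (T.a g⁻¹ v) v
  have c2 := T.comm (T.a h⁻¹ v) v
  have h3 : T.d v' (T.a g⁻¹ v) + 1 = T.d v (T.a g⁻¹ v) := T.tow h1 h2 (by omega)
  have e3 : T.d (T.a g⁻¹ v) v' = T.d v (T.a g v') := T.d_inv _ _ _
  have e4 : T.d (T.a g v) (T.a g v') = 1 := by rw [T.inv, h1]
  have e5 : T.d (T.a h v) (T.a h v') = 1 := by rw [T.inv, h1]
  have e6 : T.d (T.a h⁻¹ v') v' = T.d v' (T.a h v') := T.d_inv _ _ _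
  have e7 : T.d (T.a h⁻¹ v') (T.a h⁻¹ v) = 1 := by rw [T.inv, T.comm, h1]
  have ev := T.ev g v
  have f := T.four v' (T.a g v') v (T.a g v)
  have c3 := T.comm (T.a g⁻¹ v) v'
  have c4 := T.comm v v'
  have c5 := T.comm (T.a g v) (T.a g v')
  have c6 := T.comm v (T.a g v')
  have hm := hmin v'
  by_contra hlt
  have hx' : T.d v' x + 1 = T.d v x ∧ T.d v x = T.d v (T.a g v) := by
    rcases hx with rfl | rfl <;> omega
  have hy0 : T.d v y = T.d v (T.a h v) := by
    rcases hy with rfl | rfl <;> omega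
  have hy' : T.d v' y + 1 = T.d v y := T.tow h1 hx'.1 (by omega)
  rcases hy with rfl | rfl
  · have := T.tri v' (T.a h v) (T.a h v')
    omega
  · have := T.tri (T.a h⁻¹ v') (T.a h⁻¹ v) v'
    have := T.comm (T.a h⁻¹ v) v'
    omega

theorem fig_ell {a b t : G} (h : Fig a b t) (v0 : V) : ∃ v, T.a a v = v ∨ T.a b v = v := by
  classical
  have hex : ∃ r, ∃ v, T.d v (T.a a v) + T.d v (T.a b v) = r := ⟨_, v0, rfl⟩
  obtain ⟨v, hv⟩ := Nat.find_spec hex
  have hmin : ∀ w, T.d v (T.a a v) + T.d v (T.a b v) ≤ T.d w (T.a a w) + T.d w (T.a b w) :=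
    fun w => hv ▸ Nat.find_min' hex ⟨w, rfl⟩
  refine ⟨v, ?_⟩
  by_contra hc
  push Not at hc
  obtain ⟨ha, hb⟩ := hc
  have pa := T.pos (Ne.symm ha)
  have pb := T.pos (Ne.symm hb)
  have k1 : T.d v (T.a a v) + T.d v (T.a b v) ≤ T.d (T.a a⁻¹ v) (T.a b v) →
      T.d v (T.a a v) + T.d v (T.a b v) ≤ T.d (T.a a v) (T.a b⁻¹ v) → False := by
    intro h1 h2
    have := T.critP ha hb h1 h2 (T.a t v)
    rw [← h.1, T.d_conj] at this
    omega
  have e1 : T.d (T.a a⁻¹ v) v = T.d v (T.a a v) := T.d_inv _ _ _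
  have e2 : T.d (T.a b⁻¹ v) v = T.d v (T.a b v) := T.d_inv _ _ _
  have c1 := T.comm (T.a a⁻¹ v) v
  have c2 := T.comm (T.a b⁻¹ v) v
  have k2 : T.d v (T.a a v) + T.d v (T.a b v) ≤ T.d (T.a b⁻¹ v) (T.a a⁻¹ v) →
      T.d v (T.a a v) + T.d v (T.a b v) ≤ T.d (T.a b v) (T.a a v) → False := by
    intro h1 h2
    have ha' : T.a a⁻¹ v ≠ v := fun e => ha (by simpa using T.fix_inv e)
    have := T.critP hb ha' (by omega) (by rw [inv_inv]; omega) (T.a t⁻¹ v)
    have e : b * a⁻¹ = t⁻¹ * b * t⁻¹⁻¹ := by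
      have e1 : t * (b * a⁻¹) * t⁻¹ = b := by
        calc t * (b * a⁻¹) * t⁻¹ = (t * b * t⁻¹) * (t * a * t⁻¹)⁻¹ := by group
          _ = b := by rw [h.1, h.2]; group
      conv_rhs => rw [← e1]
      group
    rw [e, T.d_conj] at this
    omega
  by_cases oa : T.d (T.a a v) (T.a a⁻¹ v) < 2 * T.d v (T.a a v)
  · exact k1 (T.offaxis ha hmin oa _ _ (Or.inr rfl) (Or.inl rfl))
      (T.offaxis ha hmin oa _ _ (Or.inl rfl) (Or.inr rfl))
  by_cases ob : T.d (T.a b v) (T.a b⁻¹ v) < 2 * T.d v (T.a b v)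
  · have hmin' : ∀ w, T.d v (T.a b v) + T.d v (T.a a v) ≤ T.d w (T.a b w) + T.d w (T.a a w) :=
      fun w => by have := hmin w; omega
    have o1 := T.offaxis hb hmin' ob _ _ (Or.inr rfl) (Or.inr rfl)
    have o2 := T.offaxis hb hmin' ob _ _ (Or.inl rfl) (Or.inl rfl)
    exact k2 (by omega) (by omega)
  have f1 := T.ultra v (T.a a v) (T.a b v) (T.a a⁻¹ v) 1
  have f2 := T.ultra v (T.a b⁻¹ v) (T.a a⁻¹ v) (T.a b v) 1
  have f3 := T.ultra v (T.a a v) (T.a b⁻¹ v) (T.a a⁻¹ v) 1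
  have f4 := T.ultra v (T.a b v) (T.a a v) (T.a b⁻¹ v) 1
  have c3 := T.comm (T.a a v) (T.a b v)
  have c4 := T.comm (T.a a⁻¹ v) (T.a b v)
  have c5 := T.comm (T.a b⁻¹ v) (T.a b v)
  by_cases g1 : T.d v (T.a a v) + T.d v (T.a b v) ≤ T.d (T.a a⁻¹ v) (T.a b v)
  · by_cases g2 : T.d v (T.a a v) + T.d v (T.a b v) ≤ T.d (T.a a v) (T.a b⁻¹ v)
    · exact k1 g1 g2
    · have c6 := T.comm (T.a a v) (T.a b⁻¹ v)
      have f5 := T.ultra v (T.a a v) (T.a b⁻¹ v) (T.a a⁻¹ v) 1
      have f6 := T.ultra v (T.a b⁻¹ v) (T.a a v) (T.a b v) 1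
      exact k2 (by omega) (by omega)
  · exact k2 (by omega) (by omega)

theorem fig_half {a b t : G} (h : Fig a b t) {v : V} (hv : T.a a v = v)
    (hn : ∀ p p', T.d p p' = 1 → T.a (a ^ 3) p = p → T.a (a ^ 3) p' = p' →
      T.a ((a * b) ^ 3) p = p → T.a ((a * b) ^ 3) p' = p' → False) :
    ∃ w, T.a a w = w ∧ T.a b w = w := by
  have hy : T.a (a * b) (T.a t v) = T.a t v := by rw [← h.1]; exact T.fix_conj hv t
  rcases T.bridge2 hv hy with ⟨w, h1, h2⟩ | ⟨p, p', q, q', hp, hq, h1, h2, h3, h4, h5, h6⟩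
  · refine ⟨w, h1, ?_⟩
    have : b = a⁻¹ * (a * b) := by group
    rw [this, T.mul, h2, T.fix_inv h1]
  exfalso
  have e1 : (a * b)⁻¹ * a ^ 3 = ((a * a)⁻¹ * t⁻¹) * a * ((a * a)⁻¹ * t⁻¹)⁻¹ := by
    have e : t * (a * a * b⁻¹) * t⁻¹ = a := by
      calc t * (a * a * b⁻¹) * t⁻¹ = (t * a * t⁻¹) * (t * a * t⁻¹) * (t * b * t⁻¹)⁻¹ := by group
        _ = a := by rw [h.1, h.2]; group
    calc (a * b)⁻¹ * a ^ 3 = ((a * a)⁻¹ * t⁻¹) * (t * (a * a * b⁻¹) * t⁻¹) * ((a * a)⁻¹ * t⁻¹)⁻¹ := by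
          group
      _ = _ := by rw [e]
  have e2 : a⁻¹ * (a * b) ^ 3 = ((a * b)⁻¹ * t * t) * a * ((a * b)⁻¹ * t * t)⁻¹ := by
    calc a⁻¹ * (a * b) ^ 3 = (a * b)⁻¹ * (a * b * (b * (a * b))) * (a * b) := by
          simp only [pow_succ]; group
      _ = (a * b)⁻¹ * (t * (t * a * t⁻¹) * t⁻¹) * (a * b) := by rw [← h.shift.2, h.1, h.shift.2]
      _ = _ := by group
  have w1 := T.fix_conj hv ((a * a)⁻¹ * t⁻¹)
  have w2 := T.fix_conj hv ((a * b)⁻¹ * t * t)
  rw [← e1] at w1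
  rw [← e2] at w2
  have q1 : T.a (a ^ 3) q = q := T.S3 (T.fix_inv hq) (T.fix_pow hp 3) h3 h4
    (fun e => h6 (by simpa only [map_mul, Equiv.Perm.coe_mul, Function.comp_apply, mul_inv_rev, inv_inv] using T.fix_inv e)) w1
  have p1 : T.a ((a * b) ^ 3) p = p := T.S3 (T.fix_inv hp) (T.fix_pow hq 3) h1 h2
    (fun e => h5 (by simpa using T.fix_inv e)) w2
  exact hn p p' h1 (T.fix_pow hp 3) (T.fix_tow h1 h2 (T.fix_pow hp 3) q1) p1
    (T.fix_tow h1 h2 p1 (T.fix_pow hq 3))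

theorem fig_fix {a b t : G} (h : Fig a b t) (v0 : V)
    (hn : ∀ p p', T.d p p' = 1 → T.a (a ^ 3) p = p → T.a (a ^ 3) p' = p' →
      T.a ((a * b) ^ 3) p = p → T.a ((a * b) ^ 3) p' = p' → False)
    (hn' : ∀ p p', T.d p p' = 1 → T.a (b ^ 3) p = p → T.a (b ^ 3) p' = p' →
      T.a ((b * (a * b)) ^ 3) p = p → T.a ((b * (a * b)) ^ 3) p' = p' → False) :
    ∃ w, T.a a w = w ∧ T.a b w = w ∧ T.a t w = w := by
  have : ∃ w, T.a a w = w ∧ T.a b w = w := by
    obtain ⟨v, hv | hv⟩ := T.fig_ell h v0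
    · exact T.fig_half h hv hn
    · obtain ⟨w, h1, h2⟩ := T.fig_half h.shift hv hn'
      exact ⟨w, by rwa [T.mul, h1] at h2, h1⟩
  obtain ⟨w, ha, hb⟩ := this
  refine ⟨w, ha, hb, ?_⟩
  by_contra ht
  obtain ⟨p', h1, h2⟩ := T.step w _ (Ne.symm ht)
  have hab : T.a (a * b) w = w := by rw [T.mul, hb, ha]
  have k1 := T.fix_conj ha t
  have k2 := T.fix_conj hb t
  rw [h.1] at k1
  rw [h.2, T.mul, k1] at k2
  have k3 := k1
  rw [T.mul, k2] at k3
  exact hn w p' h1 (T.fix_pow ha 3) (T.fix_pow (T.fix_tow h1 h2 ha k3) 3) (T.fix_pow hab 3)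
    (T.fix_pow (T.fix_tow h1 h2 hab k1) 3)

end ZT

end PartT1

section PartT2


open FreeGroup

section Free

variable {E : Type} [DecidableEq E]

def cp : List (E × Bool) → List (E × Bool) → ℕ
  | a :: l, b :: m => if a = b then cp l m + 1 else 0
  | _, _ => 0

theorem cp_ultra : ∀ x y z : List (E × Bool), cp x y ≤ cp x z ∨ cp y z ≤ cp x z
  | [], _, _ => by simp only [cp, Std.le_refl, nonpos_iff_eq_zero, true_or]
  | _ :: _, [], _ => by simp only [cp, zero_le, or_self]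
  | _ :: _, _ :: _, [] => by simp only [cp, nonpos_iff_eq_zero, ite_eq_right_iff, Nat.add_eq_zero_iff, one_ne_zero, and_false, imp_false, Std.le_refl, or_true]
  | a :: l, b :: m, c :: n => by
    have := cp_ultra l m n
    simp only [cp]
    by_cases h1 : a = b
    · subst h1
      by_cases h2 : a = c <;> simp only [h2, ↓ reduceIte, add_le_add_iff_right, nonpos_iff_eq_zero, Nat.add_eq_zero_iff, one_ne_zero, and_false, Std.le_refl, or_true]
      omega
    · simp [h1]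

theorem norm_red {L : List (E × Bool)} (h : IsReduced L) : norm (mk L) = L.length := by
  simp [FreeGroup.norm, h.reduce_eq]

theorem norm_cp : ∀ x y : List (E × Bool), IsReduced x → IsReduced y →
    norm ((mk x)⁻¹ * mk y) + 2 * cp x y = x.length + y.length
  | [], y, _, hy => by simp [cp, ← one_eq_mk, norm_red hy]
  | a :: l, [], hx, _ => by
    rw [← one_eq_mk, mul_one, norm_inv_eq, norm_red hx]; simp [cp]
  | a :: l, b :: m, hx, hy => by
    by_cases h : a = b
    · subst h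
      have := norm_cp l m (List.IsChain.tail hx)
        (List.IsChain.tail hy)
      have e : (mk (a :: l))⁻¹ * mk (a :: m) = (mk l)⁻¹ * mk m := by
        have e1 : mk (a :: l) = mk [a] * mk l := by rw [mul_mk]; rfl
        have e2 : mk (a :: m) = mk [a] * mk m := by rw [mul_mk]; rfl
        rw [e1, e2]; group
      rw [e]
      simp only [cp, if_true, List.length_cons]
      omega
    · have hr : IsReduced (invRev (a :: l) ++ b :: m) := by
        refine List.IsChain.append ?_ hy ?_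
        · exact IsReduced.of_reduce_eq (by rw [reduce_invRev, hx.reduce_eq])
        · intro u hu v hv h1
          obtain ⟨a1, a2⟩ := a
          obtain ⟨b1, b2⟩ := b
          simp [invRev] at hu hv
          subst hu hv
          simp only at h1
          subst h1
          revert h
          cases a2 <;> cases b2 <;> simp
      rw [inv_mk, mul_mk, norm_red hr]
      simp [cp, h]

theorem norm_base (x y z : FreeGroup E) : norm (y⁻¹ * z) +
    2 * cp (x⁻¹ * y).toWord (x⁻¹ * z).toWord = norm (x⁻¹ * y) + norm (x⁻¹ * z) := by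
  have := norm_cp _ _ (isReduced_toWord (x := x⁻¹ * y)) (isReduced_toWord (x := x⁻¹ * z))
  rw [mk_toWord, mk_toWord] at this
  have e : (x⁻¹ * y)⁻¹ * (x⁻¹ * z) = y⁻¹ * z := by group
  rw [e] at this
  exact this

theorem norm_map (σ : Equiv.Perm E) (w : FreeGroup E) : norm (map σ w) = norm w := by
  have key : ∀ (σ : Equiv.Perm E) (w : FreeGroup E), norm (map σ w) ≤ norm w := by
    intro σ w
    conv_lhs => rw [← mk_toWord (x := w), map.mk]
    exact norm_mk_le.trans (by simp [FreeGroup.norm])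
  refine le_antisymm (key σ w) ?_
  have := key σ⁻¹ (map σ w)
  rw [map.comp] at this
  simpa using this

theorem norm_one_cases {w : FreeGroup E} (h : norm w = 1) : ∃ e, w = of e ∨ w = (of e)⁻¹ := by
  obtain ⟨⟨e, b⟩, he⟩ := List.length_eq_one_iff.1 h
  refine ⟨e, ?_⟩
  rw [← mk_toWord (x := w), he]
  cases b
  · right; rw [of, inv_mk]; rfl
  · left; rfl

theorem free_step (x y : FreeGroup E) (h : x ≠ y) :
    ∃ z, norm (x⁻¹ * z) = 1 ∧ norm (z⁻¹ * y) + 1 = norm (x⁻¹ * y) := by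
  have hr := isReduced_toWord (x := x⁻¹ * y)
  have hm := mk_toWord (x := x⁻¹ * y)
  cases hw : (x⁻¹ * y).toWord with
  | nil => exact absurd (inv_mul_eq_one.1 (toWord_eq_nil_iff.1 hw)) h
  | cons a l =>
    rw [hw] at hr hm
    refine ⟨x * mk [a], by simp [FreeGroup.norm], ?_⟩
    have e1 : mk (a :: l) = mk [a] * mk l := by rw [mul_mk]; rfl
    have e : (x * mk [a])⁻¹ * y = mk l := by
      rw [mul_inv_rev, mul_assoc, ← hm, e1]; group
    rw [e, ← hm, norm_red hr, norm_red (L := l) (List.IsChain.tail hr)]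
    simp

end Free

/-- universal property of an amalgam, for subgroups -/
def HasUP {G : Type} [Group G] (A B C : Subgroup G) : Prop :=
  ∀ (H : Type) [Group H] (f : A →* H) (f' : B →* H),
    (∀ (x : G) (_ : x ∈ C) (hA : x ∈ A) (hB : x ∈ B), f ⟨x, hA⟩ = f' ⟨x, hB⟩) →
    ∃ F : G →* H, (∀ x : A, F x = f x) ∧ ∀ x : B, F x = f' x

theorem sup_ind {G : Type} [Group G] {A B : Subgroup G} (h : A ⊔ B = ⊤) (P : G → Prop)
    (hA : ∀ a ∈ A, P a) (hB : ∀ b ∈ B, P b) (hm : ∀ x y, P x → P y → P (x * y)) (g : G) :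
    P g := by
  have hg : g ∈ Subgroup.closure ((A : Set G) ∪ B) := by
    rw [Subgroup.closure_union]; simp [h]
  induction hg using Subgroup.closure_induction'' with
  | mem x hx => exact hx.elim (hA x) (hB x)
  | inv_mem x hx => exact hx.elim (fun h => hA _ (A.inv_mem h)) (fun h => hB _ (B.inv_mem h))
  | one => exact hA _ A.one_mem
  | mul x y _ _ h1 h2 => exact hm x y h1 h2

/-- projection of a fixed vertex to the orbit of an edge -/
theorem ZT.proj {G : Type} [Group G] {V : Type} (T : ZT G V) {A B : Subgroup G} (h : A ⊔ B = ⊤)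
    {u v : V} (huv : T.d u v = 1) (hA : ∀ a ∈ A, T.a a u = u) (hB : ∀ b ∈ B, T.a b v = v)
    (S : Set G) (w : V) (hw : ∀ s ∈ S, T.a s w = w) :
    ∃ g, (∀ s ∈ S, T.a s (T.a g u) = T.a g u) ∨ ∀ s ∈ S, T.a s (T.a g v) = T.a g v := by
  classical
  have hex : ∃ r, ∃ x, (∃ g, x = T.a g u ∨ x = T.a g v) ∧ T.d w x = r :=
    ⟨_, u, ⟨1, Or.inl (T.one u).symm⟩, rfl⟩
  obtain ⟨x, hx, hr⟩ := Nat.find_spec hex
  set r := Nat.find hex
  have hu : ∀ g, r ≤ T.d w (T.a g u) := fun g => Nat.find_min' hex ⟨_, ⟨g, Or.inl rfl⟩, rfl⟩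
  have hv : ∀ g, r ≤ T.d w (T.a g v) := fun g => Nat.find_min' hex ⟨_, ⟨g, Or.inr rfl⟩, rfl⟩
  have e1 : ∀ g, T.d (T.a g u) (T.a g v) + 2 * r ≤ T.d w (T.a g u) + T.d w (T.a g v) := by
    intro g
    have := T.par w (T.a g u) (T.a g v)
    have := hu g
    have := hv g
    have := T.inv g u v
    omega
  have e1' : ∀ g, T.d (T.a g v) (T.a g u) + 2 * r ≤ T.d w (T.a g v) + T.d w (T.a g u) := by
    intro g
    have := e1 g
    have := T.comm (T.a g u) (T.a g v)
    omega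
  have e2 : ∀ g k, T.d (T.a k u) (T.a (k * g) u) + 2 * r ≤
      T.d w (T.a k u) + T.d w (T.a (k * g) u) := by
    intro g
    induction g using sup_ind h with
    | hA a ha =>
      intro k
      rw [T.mul, hA a ha, T.d_self]
      have := hu k
      omega
    | hB b hb =>
      intro k
      have := e1' (k * b)
      rw [T.mul k b v, hB b hb] at this
      exact T.ultra _ _ _ _ _ (e1 k) this
    | hm x y h1 h2 =>
      intro k
      rw [← mul_assoc]
      exact T.ultra _ _ _ _ _ (h1 k) (h2 _)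
  have key : ∀ s ∈ S, T.a s x = x := by
    intro s hs
    have e3 : T.d w (T.a s x) = r := by rw [← hr, ← T.inv s w x, hw s hs]
    have e4 : T.d x (T.a s x) + 2 * r ≤ T.d w x + T.d w (T.a s x) := by
      obtain ⟨g, rfl | rfl⟩ := hx
      · have := e2 (g⁻¹ * s * g) g
        rwa [← mul_assoc, ← mul_assoc, mul_inv_cancel, one_mul, T.mul] at this
      · have := e2 (g⁻¹ * s * g) g
        rw [← mul_assoc, ← mul_assoc, mul_inv_cancel, one_mul] at this
        rw [← T.mul]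
        exact T.ultra _ _ _ _ _ (T.ultra _ _ _ _ _ (e1' g) this) (e1 _)
    exact (T.eq_of _ _ (by omega)).symm
  obtain ⟨g, rfl | rfl⟩ := hx
  · exact ⟨g, Or.inl key⟩
  · exact ⟨g, Or.inr key⟩

/-- What we use of the Bass-Serre tree of an amalgam. -/
structure BS {G : Type} [Group G] (A B C : Subgroup G) {V : Type} (T : ZT G V) (u v : V) :
    Prop where
  adj : T.d u v = 1
  su : ∀ g, T.a g u = u ↔ g ∈ A
  sv : ∀ g, T.a g v = v ↔ g ∈ B
  ne : ∀ g, T.a g u ≠ v
  edge : ∀ x y, T.d x y = 1 → ∃ g, ∀ s, T.a s x = x → T.a s y = y → g⁻¹ * s * g ∈ C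
  inter : ∀ s ∈ A, s ∈ B → s ∈ C
  vert : ∀ (S : Set G) (w : V), (∀ s ∈ S, T.a s w = w) →
    ∃ g, (∀ s ∈ S, g⁻¹ * s * g ∈ A) ∨ ∀ s ∈ S, g⁻¹ * s * g ∈ B

theorem exists_BS {G : Type} [Group G] {A B C : Subgroup G} (h : A ⊔ B = ⊤) (hCA : C ≤ A)
    (hCB : C ≤ B) (hup : HasUP A B C) :
    ∃ (V : Type) (T : ZT G V) (u v : V), BS A B C T u v := by
  classical
  let E := G ⧸ C
  let e0 : E := ((1 : G) : G ⧸ C)
  let σ : G →* Equiv.Perm E := MulAction.toPermHom G E
  let μ : G →* Equiv.Perm (FreeGroup E) :=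
    { toFun := fun g => (freeGroupCongr (σ g)).toEquiv
      map_one' := by ext w; simp
      map_mul' := by intro g k; ext w; simp [map.comp] }
  have hμ : ∀ g w, μ g w = map (σ g) w := fun _ _ => rfl
  let L : Equiv.Perm (FreeGroup E) := Equiv.mulLeft (of e0)
  obtain ⟨F, hFA, hFB⟩ := hup (Equiv.Perm (FreeGroup E)) (μ.comp A.subtype)
    ((MulAut.conj L).toMonoidHom.comp (μ.comp B.subtype)) (by
      intro x hx _ _
      have : σ x e0 = e0 := QuotientGroup.eq.2 (by simpa using hx)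
      ext w
      simp [L, hμ, this])
  have FA : ∀ a ∈ A, ∀ w, F a w = map (σ a) w := fun a ha w => by
    rw [hFA ⟨a, ha⟩]; rfl
  have FB : ∀ b ∈ B, ∀ w, F b w = of e0 * map (σ b) ((of e0)⁻¹ * w) := fun b hb w => by
    rw [hFB ⟨b, hb⟩]; simp [L, hμ]
  have Fd : ∀ g x y, (F g x)⁻¹ * F g y = map (σ g) (x⁻¹ * y) := by
    intro g
    induction g using sup_ind h with
    | hA a ha => intro x y; simp [FA a ha]
    | hB b hb => intro x y; simp [FB b hb, mul_assoc]
    | hm g k h1 h2 => intro x y; simp [h1, h2, map.comp]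
  have hpar : ∀ x y z : FreeGroup E, (norm (x⁻¹ * y) + norm (y⁻¹ * z) + norm (x⁻¹ * z)) % 2 = 0 := by
    intro x y z
    have := norm_base x y z
    omega
  have hinv : ∀ g x y, norm ((F g x)⁻¹ * F g y) = norm (x⁻¹ * y) := fun g x y => by
    rw [Fd, norm_map]
  have hcomm : ∀ x y : FreeGroup E, norm (x⁻¹ * y) = norm (y⁻¹ * x) := fun x y => by
    rw [← norm_inv_eq]; simp
  have hell : ∀ g w, F g w = w → ∀ x, norm (x⁻¹ * F g x) % 2 = 0 := by
    intro g w hw x
    have h1 := hinv g w x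
    rw [hw] at h1
    have := hpar w x (F g x)
    omega
  have FA1 : ∀ a ∈ A, F a 1 = 1 := fun a ha => by simp [FA a ha]
  have FB1 : ∀ b ∈ B, F b (of e0) = of e0 := fun b hb => by simp [FB b hb]
  let T : ZT G (FreeGroup E) :=
    { d := fun x y => norm (x⁻¹ * y)
      a := F
      d_self := by simp
      eq_of := fun x y h => inv_mul_eq_one.1 (norm_eq_zero.1 h)
      comm := hcomm
      four := by
        intro x y z w
        have := norm_base x z w
        have := norm_base x y w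
        have := norm_base x z y
        have := hcomm y z
        have := cp_ultra (x⁻¹ * z).toWord (x⁻¹ * y).toWord (x⁻¹ * w).toWord
        omega
      step := free_step
      par := hpar
      inv := hinv
      ev := by
        intro g
        induction g using sup_ind h with
        | hA a ha => exact hell a _ (FA1 a ha)
        | hB b hb => exact hell b _ (FB1 b hb)
        | hm g k h1 h2 =>
          intro x
          have := hpar x (F g x) (F (g * k) x)
          have e : norm ((F g x)⁻¹ * F (g * k) x) = norm (x⁻¹ * F k x) := by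
            rw [F.map_mul, Equiv.Perm.mul_apply, hinv]
          have := h1 x
          have := h2 x
          omega }
  -- the equivariant projection to cosets
  let X := (G ⧸ A) ⊕ (G ⧸ B)
  let τ : G →* Equiv.Perm X := MulAction.toPermHom G X
  let x0 : X := Sum.inl ((1 : G) : G ⧸ A)
  let y0 : X := Sum.inr ((1 : G) : G ⧸ B)
  let ψ : FreeGroup E →* Equiv.Perm X := lift fun e =>
    Equiv.swap (Sum.inl (Subgroup.quotientMapOfLE hCA e)) (Sum.inr (Subgroup.quotientMapOfLE hCB e))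
  have hψ : ∀ g w, ψ (map (σ g) w) = τ g * ψ w * (τ g)⁻¹ := by
    intro g w
    have : ψ.comp (map (σ g)) = (MulAut.conj (τ g)).toMonoidHom.comp ψ := by
      ext1 e
      induction e using QuotientGroup.induction_on with
      | H k =>
        simp only [ψ, MonoidHom.comp_apply, map.of, lift_apply_of, MulEquiv.coe_toMonoidHom,
          MulAut.conj_apply, ← Equiv.swap_apply_apply]
        rfl
    exact DFunLike.congr_fun this w
  have ψ0 : ψ (of e0) = Equiv.swap x0 y0 := by simp only [ψ, lift_apply_of]; rfl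
  have tx : ∀ g, τ g x0 = x0 ↔ g ∈ A := fun g => by
    show (Sum.inl ((g * 1 : G) : G ⧸ A) : X) = Sum.inl _ ↔ _
    simp [QuotientGroup.eq]
  have ty : ∀ g, τ g y0 = y0 ↔ g ∈ B := fun g => by
    show (Sum.inr ((g * 1 : G) : G ⧸ B) : X) = Sum.inr _ ↔ _
    simp [QuotientGroup.eq]
  have hπ : ∀ g w, (ψ (F g w))⁻¹ x0 = τ g ((ψ w)⁻¹ x0) := by
    intro g
    induction g using sup_ind h with
    | hA a ha =>
      intro w
      have := (tx a⁻¹).2 (A.inv_mem ha)
      rw [τ.map_inv] at this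
      rw [FA a ha, hψ]
      simp only [mul_inv_rev, inv_inv, Equiv.Perm.mul_apply, this]
    | hB b hb =>
      intro w
      have := (ty b⁻¹).2 (B.inv_mem hb)
      rw [τ.map_inv] at this
      rw [FB b hb, ψ.map_mul, hψ, ψ.map_mul, ψ.map_inv, ψ0]
      simp only [mul_inv_rev, inv_inv, Equiv.Perm.mul_apply, Equiv.swap_inv,
        Equiv.swap_apply_left, this, Equiv.swap_apply_right]
    | hm g k h1 h2 =>
      intro w
      simp only [F.map_mul, τ.map_mul, Equiv.Perm.mul_apply, h1, h2]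
  have p1 : (ψ 1)⁻¹ x0 = x0 := by simp
  have p2 : (ψ (of e0))⁻¹ x0 = y0 := by simp [ψ0]
  have su : ∀ g, F g 1 = 1 ↔ g ∈ A := fun g =>
    ⟨fun hg => (tx g).1 (by rw [← p1, ← hπ, hg]), FA1 g⟩
  have sv : ∀ g, F g (of e0) = of e0 ↔ g ∈ B := fun g =>
    ⟨fun hg => (ty g).1 (by rw [← p2, ← hπ, hg]), FB1 g⟩
  have lab : ∀ s x y e, F s x = x → F s y = y → x⁻¹ * y = of e → σ s e = e := by
    intro s x y e hx hy he
    have := Fd s x y
    rw [hx, hy, he, map.of] at this
    exact (of_injective this).symm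
  have adj : T.d 1 (of e0) = 1 := by simp [T]
  refine ⟨_, T, 1, of e0, adj, su, sv, ?_, ?_, ?_, ?_⟩
  · intro g hg
    have := hπ g 1
    rw [show F g 1 = of e0 from hg, p1, p2] at this
    exact Sum.inr_ne_inl this
  · intro x y hxy
    obtain ⟨e, he⟩ := norm_one_cases hxy
    induction e using QuotientGroup.induction_on with
    | H g =>
      refine ⟨g, fun s hx hy => ?_⟩
      have : σ s g = g := by
        rcases he with he | he
        · exact lab s x y _ hx hy he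
        · exact lab s y x _ hy hx (by rw [← inv_inj, ← he]; simp)
      have := QuotientGroup.eq.1 (show ((g : G) : G ⧸ C) = (s * g : G) from this.symm)
      simpa only [mul_assoc] using this
  · intro s hA hB
    have := lab s 1 (of e0) e0 (FA1 s hA) (FB1 s hB) (by simp)
    simpa using QuotientGroup.eq.1 (show ((1 : G) : G ⧸ C) = (s * 1 : G) from this.symm)
  · intro S w hw
    obtain ⟨g, hg | hg⟩ := T.proj h adj FA1 FB1 S w hw
    · refine ⟨g, Or.inl fun s hs => (su _).1 ?_⟩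
      show T.a _ _ = _
      rw [T.mul, T.mul, hg s hs, T.inv_a]
    · refine ⟨g, Or.inr fun s hs => (sv _).1 ?_⟩
      show T.a _ _ = _
      rw [T.mul, T.mul, hg s hs, T.inv_a]

end PartT2

section PartT3


section PingPong

variable {G H : Type} [Group G] [Group H] {P Q : Subgroup G}

inductive NF (f : P →* H) (f' : Q →* H) : Bool → G → H → Prop
  | base (b : Bool) (c : G) (hP : c ∈ P) (hQ : c ∈ Q) : NF f f' b c (f ⟨c, hP⟩)
  | sP (a : G) (ha : a ∈ P) (hn : a ∉ Q) (g : G) (h : H) :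
      NF f f' false g h → NF f f' true (a * g) (f ⟨a, ha⟩ * h)
  | sQ (a : G) (ha : a ∈ Q) (hn : a ∉ P) (g : G) (h : H) :
      NF f f' true g h → NF f f' false (a * g) (f' ⟨a, ha⟩ * h)

variable {f : P →* H} {f' : Q →* H}

theorem NF.absorb (hf : ∀ (x : G) (hP : x ∈ P) (hQ : x ∈ Q), f ⟨x, hP⟩ = f' ⟨x, hQ⟩)
    {c : G} (hP : c ∈ P) (hQ : c ∈ Q) {b : Bool} {g : G} {h : H} (hn : NF f f' b g h) :
    NF f f' b (c * g) (f ⟨c, hP⟩ * h) := by
  cases hn with
  | base _ _ hP' hQ' =>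
    rw [← f.map_mul]
    exact NF.base b _ (P.mul_mem hP hP') (Q.mul_mem hQ hQ')
  | sP a ha hn g h hr =>
    rw [← mul_assoc, ← mul_assoc, ← f.map_mul]
    exact NF.sP _ (P.mul_mem hP ha) (fun h => hn ((Q.mul_mem_cancel_left hQ).1 h)) _ _ hr
  | sQ a ha hn g h hr =>
    rw [← mul_assoc, ← mul_assoc, hf c hP hQ, ← f'.map_mul]
    exact NF.sQ _ (Q.mul_mem hQ ha) (fun h => hn ((P.mul_mem_cancel_left hP).1 h)) _ _ hr

theorem NF.mulP (hf : ∀ (x : G) (hP : x ∈ P) (hQ : x ∈ Q), f ⟨x, hP⟩ = f' ⟨x, hQ⟩)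
    {a : G} (ha : a ∈ P) {b : Bool} {g : G} {h : H} (hn : NF f f' b g h) :
    ∃ b, NF f f' b (a * g) (f ⟨a, ha⟩ * h) := by
  have key : ∀ (a : G) (ha : a ∈ P) (g : G) (h : H), NF f f' false g h →
      ∃ b, NF f f' b (a * g) (f ⟨a, ha⟩ * h) := by
    intro a ha g h hn
    by_cases hQ : a ∈ Q
    · exact ⟨_, hn.absorb hf ha hQ⟩
    · exact ⟨_, NF.sP a ha hQ g h hn⟩
  cases hn with
  | base _ _ hP' hQ' => exact key a ha _ _ (NF.base _ _ hP' hQ')
  | sP a' ha' hn g h hr =>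
    rw [← mul_assoc, ← mul_assoc, ← f.map_mul]
    exact key _ (P.mul_mem ha ha') _ _ hr
  | sQ a' ha' hn g h hr => exact key a ha _ _ (NF.sQ a' ha' hn g h hr)

theorem NF.mulQ (hf : ∀ (x : G) (hP : x ∈ P) (hQ : x ∈ Q), f ⟨x, hP⟩ = f' ⟨x, hQ⟩)
    {a : G} (ha : a ∈ Q) {b : Bool} {g : G} {h : H} (hn : NF f f' b g h) :
    ∃ b, NF f f' b (a * g) (f' ⟨a, ha⟩ * h) := by
  have key : ∀ (a : G) (ha : a ∈ Q) (g : G) (h : H), NF f f' true g h →
      ∃ b, NF f f' b (a * g) (f' ⟨a, ha⟩ * h) := by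
    intro a ha g h hn
    by_cases hP : a ∈ P
    · exact ⟨_, hf a hP ha ▸ hn.absorb hf hP ha⟩
    · exact ⟨_, NF.sQ a ha hP g h hn⟩
  cases hn with
  | base _ _ hP' hQ' => exact key a ha _ _ (NF.base _ _ hP' hQ')
  | sP a' ha' hn g h hr => exact key a ha _ _ (NF.sP a' ha' hn g h hr)
  | sQ a' ha' hn g h hr =>
    rw [← mul_assoc, ← mul_assoc, ← f'.map_mul]
    exact key _ (Q.mul_mem ha ha') _ _ hr

theorem up_of_pingpong (hgen : P ⊔ Q = ⊤) (X Y : G → Prop)
    (h1 : ∀ a ∈ P, a ∉ Q → ∀ g, (g ∈ P ∧ g ∈ Q) ∨ Y g → X (a * g))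
    (h2 : ∀ a ∈ Q, a ∉ P → ∀ g, (g ∈ P ∧ g ∈ Q) ∨ X g → Y (a * g)) (hX : ¬ X 1) (hY : ¬ Y 1)
    (hf : ∀ (x : G) (hP : x ∈ P) (hQ : x ∈ Q), f ⟨x, hP⟩ = f' ⟨x, hQ⟩) :
    ∃ F : G →* H, (∀ x : P, F x = f x) ∧ ∀ x : Q, F x = f' x := by
  have pp : ∀ b g h, NF f f' b g h → (∃ hP : g ∈ P, g ∈ Q ∧ h = f ⟨g, hP⟩) ∨
      (b = true ∧ X g) ∨ (b = false ∧ Y g) := by
    intro b g h hn
    induction hn with
    | base b c hP hQ => exact Or.inl ⟨hP, hQ, rfl⟩
    | sP a ha hn g h _ ih =>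
      refine Or.inr (Or.inl ⟨rfl, h1 a ha hn g ?_⟩)
      rcases ih with ⟨e1, e2, -⟩ | ⟨e, -⟩ | ⟨-, e⟩
      exacts [Or.inl ⟨e1, e2⟩, absurd e (by simp), Or.inr e]
    | sQ a ha hn g h _ ih =>
      refine Or.inr (Or.inr ⟨rfl, h2 a ha hn g ?_⟩)
      rcases ih with ⟨e1, e2, -⟩ | ⟨-, e⟩ | ⟨e, -⟩
      exacts [Or.inl ⟨e1, e2⟩, Or.inr e, absurd e (by simp)]
  let Γ : Subgroup (G × H) :=
    { carrier := {z | (∀ b g h, NF f f' b g h → ∃ b, NF f f' b (z.1 * g) (z.2 * h)) ∧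
        ∀ b g h, NF f f' b g h → ∃ b, NF f f' b (z.1⁻¹ * g) (z.2⁻¹ * h)}
      one_mem' := ⟨fun b g h hn => ⟨b, by simpa using hn⟩, fun b g h hn => ⟨b, by simpa using hn⟩⟩
      mul_mem' := by
        rintro x y ⟨hx, hx'⟩ ⟨hy, hy'⟩
        refine ⟨fun b g h hn => ?_, fun b g h hn => ?_⟩
        · obtain ⟨b, e⟩ := hy b g h hn
          simpa [mul_assoc] using hx b _ _ e
        · obtain ⟨b, e⟩ := hx' b g h hn
          simpa only [Prod.fst_mul, mul_inv_rev, mul_assoc, Prod.snd_mul, Bool.exists_bool] using hy' b _ _ e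
      inv_mem' := by
        rintro x ⟨hx, hx'⟩
        exact ⟨hx', by simpa only [Prod.fst_inv, inv_inv, Prod.snd_inv, Bool.exists_bool, Bool.forall_bool] using hx⟩ }
  have mP : ∀ x : P, ((x : G), f x) ∈ Γ := fun x =>
    ⟨fun b g h hn => hn.mulP hf x.2, fun b g h hn => by
      have := hn.mulP hf (P.inv_mem x.2)
      rwa [show f ⟨(x : G)⁻¹, P.inv_mem x.2⟩ = (f x)⁻¹ from f.map_inv x] at this⟩
  have mQ : ∀ x : Q, ((x : G), f' x) ∈ Γ := fun x =>
    ⟨fun b g h hn => hn.mulQ hf x.2, fun b g h hn => by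
      have := hn.mulQ hf (Q.inv_mem x.2)
      rwa [show f' ⟨(x : G)⁻¹, Q.inv_mem x.2⟩ = (f' x)⁻¹ from f'.map_inv x] at this⟩
  let π : Γ →* G := (MonoidHom.fst G H).comp Γ.subtype
  have hb : Function.Bijective π := by
    constructor
    · refine (injective_iff_map_eq_one π).2 ?_
      rintro ⟨⟨g, h⟩, hz⟩ hg
      obtain rfl : g = 1 := hg
      obtain ⟨b, e⟩ := hz.1 true 1 _ (NF.base true 1 P.one_mem Q.one_mem)
      rw [show f ⟨1, P.one_mem⟩ = 1 from f.map_one, mul_one, mul_one] at e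
      rcases pp _ _ _ e with ⟨e1, -, e3⟩ | ⟨-, e⟩ | ⟨-, e⟩
      · obtain rfl : h = 1 := e3.trans f.map_one
        rfl
      exacts [absurd e hX, absurd e hY]
    · intro g
      induction g using sup_ind hgen with
      | hA a ha => exact ⟨⟨_, mP ⟨a, ha⟩⟩, rfl⟩
      | hB a ha => exact ⟨⟨_, mQ ⟨a, ha⟩⟩, rfl⟩
      | hm x y h1 h2 =>
        obtain ⟨u, rfl⟩ := h1
        obtain ⟨v, rfl⟩ := h2
        exact ⟨u * v, π.map_mul _ _⟩
  let e := MulEquiv.ofBijective π hb
  refine ⟨((MonoidHom.snd G H).comp Γ.subtype).comp e.symm.toMonoidHom, fun x => ?_, fun x => ?_⟩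
  · have : e.symm x = ⟨_, mP x⟩ := e.symm_apply_eq.2 rfl
    simp only [MulEquiv.toMonoidHom_eq_coe, MonoidHom.coe_comp, MonoidHom.coe_snd, Subgroup.coe_subtype, MonoidHom.coe_coe, Function.comp_apply, this]
  · have : e.symm x = ⟨_, mQ x⟩ := e.symm_apply_eq.2 rfl
    simp only [MulEquiv.toMonoidHom_eq_coe, MonoidHom.coe_comp, MonoidHom.coe_snd, Subgroup.coe_subtype, MonoidHom.coe_coe, Function.comp_apply, this]

end PingPong

namespace ZT

variable {G : Type} [Group G] {V : Type} (T : ZT G V)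

theorem conn (p : V) (Q : V → Prop) (h0 : Q p) (h1 : ∀ v w, T.d v w = 1 → Q v → Q w) (v : V) :
    Q v := by
  induction h : T.d v p generalizing v with
  | zero => rwa [T.eq_of _ _ h]
  | succ k ih =>
    obtain ⟨z, e1, e2⟩ := T.step v p (by rintro rfl; simp [T.d_self] at h)
    exact h1 z v (by rwa [T.comm]) (ih z (by omega))

theorem potential (p : V) (R : V → V → Prop) (hR : ∀ v w, R v w → R w v) :
    ∃ ν : V → Prop, ∀ v w, T.d v w = 1 → ((ν v ↔ ν w) ↔ ¬ R v w) := by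
  have : ∀ v, ∃ z, v ≠ p → T.d v z = 1 ∧ T.d z p + 1 = T.d v p := by
    intro v
    by_cases h : v = p
    · exact ⟨v, fun h' => absurd h h'⟩
    · obtain ⟨z, hz⟩ := T.step v p h
      exact ⟨z, fun _ => hz⟩
  choose up hup using this
  let f : ℕ → V → Prop := fun k => Nat.rec (fun _ => False) (fun _ r v => ¬ (r (up v) ↔ R v (up v))) k
  have key : ∀ v w, T.d v w = 1 → T.d w p + 1 = T.d v p →
      ((f (T.d v p) v ↔ f (T.d w p) w) ↔ ¬ R v w) := by
    intro v w h1 h2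
    obtain ⟨e1, e2⟩ := hup v (by rintro rfl; simp [T.d_self] at h2)
    have e := T.uniq e1 e2 h1 h2
    rw [← h2]
    show ((¬ (f _ (up v) ↔ R v (up v))) ↔ _) ↔ _
    rw [e]
    generalize f (T.d w p) w = a
    generalize R v w = b
    by_cases a <;> by_cases b <;> simp [*]
  refine ⟨fun v => f (T.d v p) v, fun v w h => ?_⟩
  rcases T.adj h p with e | e
  · exact key v w h e
  · exact Iff.comm.trans ((key w v (by rwa [T.comm]) e).trans (not_congr ⟨hR w v, hR v w⟩))

/-- same side of all translates of the edge `p, p'` -/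
def Eqv (p p' v w : V) : Prop :=
  ∀ g, T.d v (T.a g p') < T.d v (T.a g p) ↔ T.d w (T.a g p') < T.d w (T.a g p)

theorem Eqv.act {T : ZT G V} {p p' v w : V} (h : T.Eqv p p' v w) (g : G) :
    T.Eqv p p' (T.a g v) (T.a g w) := fun k => by
  have := h (g⁻¹ * k)
  rw [T.mul, T.mul] at this
  simpa only [T.comm _ (T.a g⁻¹ _), T.d_inv, T.comm (T.a k _)] using this

theorem Eqv.symm {T : ZT G V} {p p' v w : V} (h : T.Eqv p p' v w) : T.Eqv p p' w v :=
  fun g => (h g).symm

theorem Eqv.trans {T : ZT G V} {p p' v w z : V} (h : T.Eqv p p' v w) (h' : T.Eqv p p' w z) :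
    T.Eqv p p' v z := fun g => (h g).trans (h' g)

theorem side_ne {p p' : V} (h : T.d p p' = 1) (g : G) (v : V) :
    T.d v (T.a g p') ≠ T.d v (T.a g p) := by
  have := T.par v (T.a g p) (T.a g p')
  have := T.inv g p p'
  omega

theorem Eqv.swap {T : ZT G V} {p p' v w : V} (hp : T.d p p' = 1) (h : T.Eqv p p' v w) :
    T.Eqv p' p v w := fun g => by
  have := h g
  have := T.side_ne hp g v
  have := T.side_ne hp g w
  omega

def St (p p' v : V) : Subgroup G where
  carrier := {a | T.Eqv p p' (T.a a v) v}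
  one_mem' := fun g => by simp only [map_one, Equiv.Perm.coe_one, id_eq]
  mul_mem' := fun {a b} ha hb => by
    show T.Eqv p p' _ _
    rw [T.mul]
    exact (Eqv.act hb a).trans ha
  inv_mem' := fun {a} ha => by
    have := Eqv.act ha a⁻¹
    rw [T.inv_a] at this
    exact this.symm

theorem St_swap {p p' : V} (hp : T.d p p' = 1) (v : V) : T.St p' p v = T.St p p' v :=
  Subgroup.ext fun _ => ⟨fun h => Eqv.swap (by rwa [T.comm]) h, fun h => Eqv.swap hp h⟩

theorem St_of_fix (p p' : V) {v : V} {a : G} (h : T.a a v = v) : a ∈ T.St p p' v := by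
  show T.Eqv p p' _ _
  rw [h]; exact fun _ => Iff.rfl

theorem St_side {p p' : V} (hp : T.d p p' = 1) {a : G} (ha : a ∈ T.St p p' p) :
    T.d (T.a a p) p < T.d (T.a a p) p' := by
  have := ha 1
  have := T.side_ne hp 1 (T.a a p)
  simp only [T.one, T.d_self] at *
  omega

theorem St_ping {p p' : V} (hp : T.d p p' = 1) {a : G} (ha : a ∈ T.St p p' p) {v : V}
    (hv : T.d v p' < T.d v p) (hv' : ¬ T.d (T.a a v) p < T.d (T.a a v) p') :
    T.a a p = p ∧ T.a a p' = p' := by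
  have n1 := T.side_ne hp 1 (T.a a v)
  simp only [T.one] at n1
  have s1 := T.St_side hp ha
  have s2 : T.d p (T.a a p) < T.d p (T.a a p') := by
    have := ha a
    have := T.side_ne hp a p
    simp only [T.inv, T.d_self] at *
    omega
  have i1 := T.inv a p p'
  have k1 := T.sep hp s1 (w := T.a a v) (by omega)
  have k2 := T.sep (i1.trans hp) s2 (w := T.a a v) (by rwa [T.inv, T.inv])
  have k3 := T.sep hp (y := p) (w := T.a a v) (by rw [T.d_self]; omega) (by omega)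
  have k4 := T.sep (i1.trans hp) (y := T.a a p) (w := T.a a v) (by rw [T.d_self]; omega)
    (by rwa [T.inv, T.inv])
  have c := T.comm p (T.a a p)
  rw [T.d_self] at k3 k4
  have e : T.a a p = p := T.eq_of _ _ (by omega)
  rw [e] at i1 k4
  exact ⟨e, T.uniq (i1.trans hp) (x := T.a a v) (by omega) hp (by omega)⟩

theorem St_inter {p p' : V} (hp : T.d p p' = 1) {a : G} (ha : a ∈ T.St p p' p)
    (ha' : a ∈ T.St p p' p') : T.a a p = p ∧ T.a a p' = p' := by
  have hp' : T.d p' p = 1 := by rwa [T.comm]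
  refine T.St_ping hp ha (v := p') (by rw [T.d_self]; omega) ?_
  have := T.St_side hp' (T.St_swap hp p' ▸ ha')
  omega

theorem St_gen {p p' : V} (hp : T.d p p' = 1) {S : Set G} (hS : Subgroup.closure S = ⊤)
    (hell : ∀ s ∈ S, ∃ w, T.a s w = w) : T.St p p' p ⊔ T.St p p' p' = ⊤ := by
  let R : V → V → Prop := fun v w =>
    ∃ g, (v = T.a g p ∧ w = T.a g p') ∨ (v = T.a g p' ∧ w = T.a g p)
  obtain ⟨ν, hν⟩ := T.potential p R (by rintro v w ⟨g, h⟩; exact ⟨g, h.symm.imp And.symm And.symm⟩)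
  have Ract : ∀ g v w, R v w → R (T.a g v) (T.a g w) := by
    rintro g v w ⟨k, ⟨rfl, rfl⟩ | ⟨rfl, rfl⟩⟩
    · exact ⟨g * k, Or.inl ⟨(T.mul _ _ _).symm, (T.mul _ _ _).symm⟩⟩
    · exact ⟨g * k, Or.inr ⟨(T.mul _ _ _).symm, (T.mul _ _ _).symm⟩⟩
  have hinv : ∀ g v, ν (T.a g v) ↔ ν v := by
    intro g
    have hg : g ∈ Subgroup.closure S := by simp [hS]
    induction hg using Subgroup.closure_induction with
    | mem x hx =>
      obtain ⟨w, hw⟩ := hell x hx
      refine T.conn w _ (by rw [hw]) fun v w h hv => ?_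
      have h1 := hν v w h
      have h2 := hν (T.a x v) (T.a x w) (by rwa [T.inv])
      have h3 := Ract x v w
      have h4 := Ract x⁻¹ (T.a x v) (T.a x w)
      rw [T.inv_a, T.inv_a] at h4
      have h5 := h1.trans ((not_congr ⟨h3, h4⟩).trans h2.symm)
      rw [hv] at h5
      revert h5
      generalize ν v = a
      generalize ν w = b
      generalize ν (T.a x w) = c
      by_cases a <;> by_cases b <;> by_cases c <;> simp [*]
    | one => simp
    | mul x y _ _ h1 h2 => intro v; rw [T.mul, h1, h2]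
    | inv x _ h1 => intro v; rw [← h1, T.a_inv]
  have hadj : ∀ v w, T.d v w = 1 → ¬ R v w → T.Eqv p p' v w := by
    intro v w h hn g
    have i1 := (T.inv g p p').trans hp
    have n1 := T.side_ne hp g v
    have n2 := T.side_ne hp g w
    by_contra hc
    by_cases h1 : T.d v (T.a g p') < T.d v (T.a g p)
    · have := T.sep (x := T.a g p') (x' := T.a g p) (by rwa [T.comm]) h1 (w := w) (by omega)
      exact hn ⟨g, Or.inr ⟨T.eq_of _ _ (by omega), (T.eq_of _ _ (by omega)).symm⟩⟩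
    · have := T.sep i1 (y := v) (w := w) (by omega) (by omega)
      exact hn ⟨g, Or.inl ⟨T.eq_of _ _ (by omega), (T.eq_of _ _ (by omega)).symm⟩⟩
  have hEν : ∀ v w, T.Eqv p p' v w → (ν v ↔ ν w) := by
    intro v w
    induction h : T.d v w generalizing v with
    | zero => intro _; rw [T.eq_of _ _ h]
    | succ k ih =>
      intro hE
      obtain ⟨z, e1, e2⟩ := T.step v w (by rintro rfl; simp [T.d_self] at h)
      have hn : ¬ R v z := by
        have c1 := T.comm z w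
        have c2 := T.comm v w
        rintro ⟨g, ⟨rfl, rfl⟩ | ⟨rfl, rfl⟩⟩ <;> have := hE g <;> rw [T.d_self] at this <;> omega
      exact ((hν v z e1).2 hn).trans (ih z (by omega) ((hadj v z e1 hn).symm.trans hE))
  have hne : ∀ g k, ¬ T.Eqv p p' (T.a g p) (T.a k p') := by
    intro g k h
    have := hEν _ _ h
    rw [hinv, hinv] at this
    exact (hν p p' hp).1 this ⟨1, Or.inl ⟨(T.one _).symm, (T.one _).symm⟩⟩
  set Γ := T.St p p' p ⊔ T.St p p' p'
  have hm : ∀ v, T.St p p' v ≤ Γ → ∀ g k, k ∈ Γ → T.Eqv p p' (T.a g v) (T.a k v) → g ∈ Γ := by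
    intro v hv g k hk h
    have := h.act k⁻¹
    rw [T.inv_a, ← T.mul] at this
    exact (Γ.mul_mem_cancel_left (Γ.inv_mem hk)).1 (hv this)
  have main : ∀ v, ∃ k ∈ Γ, T.Eqv p p' v (T.a k p) ∨ T.Eqv p p' v (T.a k p') := by
    refine T.conn p _ ⟨1, Γ.one_mem, Or.inl (by rw [T.one]; exact fun _ => Iff.rfl)⟩ ?_
    rintro v w h ⟨k, hk, hv⟩
    by_cases hn : R v w
    · obtain ⟨g, ⟨rfl, rfl⟩ | ⟨rfl, rfl⟩⟩ := hn
      · rcases hv with hv | hv
        · exact ⟨g, hm p le_sup_left g k hk hv, Or.inr fun _ => Iff.rfl⟩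
        · exact absurd hv (hne _ _)
      · rcases hv with hv | hv
        · exact absurd hv.symm (hne _ _)
        · exact ⟨g, hm p' le_sup_right g k hk hv, Or.inl fun _ => Iff.rfl⟩
    · have := (hadj v w h hn).symm
      exact ⟨k, hk, hv.imp this.trans this.trans⟩
  refine (Subgroup.eq_top_iff' _).2 fun g => ?_
  obtain ⟨k, hk, h | h⟩ := main (T.a g p)
  · exact hm p le_sup_left g k hk h
  · exact absurd h (hne _ _)

theorem find_edge (S : Set G) (hS : S.Finite) (v0 : V) (hell : ∀ s ∈ S, ∃ w, T.a s w = w) :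
    (∃ w, ∀ s ∈ S, T.a s w = w) ∨ ∃ x ∈ S, ∃ y ∈ S, ∃ p p', T.d p p' = 1 ∧ T.a x p = p ∧
      T.a x p' ≠ p' ∧ ¬ T.d (T.a y p) p < T.d (T.a y p) p' := by
  induction S, hS using Set.Finite.induction_on with
  | empty => exact Or.inl ⟨v0, by simp⟩
  | @insert y S _ _ ih =>
    rcases ih (fun s hs => hell s (Or.inr hs)) with h | ⟨x, hx, z, hz, h⟩
    · rcases T.bridge S {y} h (by simpa only [Set.mem_singleton_iff, forall_eq] using hell y (Or.inl rfl)) with
        ⟨w, h1, h2⟩ | ⟨p, p', q, q', hp, hq, h1, h2, h3, h4, ⟨x, hx, h5⟩, h6⟩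
      · exact Or.inl ⟨w, by rintro s (rfl | hs); exacts [h2 _ rfl, h1 s hs]⟩
      · refine Or.inr ⟨x, Or.inr hx, y, Or.inl rfl, p, p', h1, hp x hx, h5, fun hc => ?_⟩
        have hy : T.a y q = q := hq y rfl
        have c1 := T.comm q p
        have c2 := T.comm q p'
        have := T.sep h1 hc (w := q) (by omega)
        have e : T.d (T.a y p) q = T.d p q := by rw [← T.inv y p q, hy]
        have e' : T.a y p = p := T.eq_of _ _ (by omega)
        obtain ⟨s, rfl, hs⟩ := h6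
        exact hs (T.fix_tow h3 h4 hy e')
    · exact Or.inr ⟨x, Or.inr hx, z, Or.inr hz, h⟩

end ZT

section PT

variable {G : Type} [Group G]

def ZT.Cyc {V : Type} (T : ZT G V) (m : G) : Prop :=
  ∀ x y, T.d x y = 1 → ∃ g, ∀ s, T.a s x = x → T.a s y = y → s ∈ Subgroup.zpowers (g * m * g⁻¹)

/-- fixed point property for actions with meridional edge groups -/
def PT (m : G) : Prop :=
  ∀ (V : Type) (T : ZT G V), (∃ v, T.a m v = v) → T.Cyc m → ∃ v, ∀ g, T.a g v = v

theorem Mer.conj {m x : G} (h : Mer m x) : ∃ g, x = g * m * g⁻¹ ∨ x = g * m⁻¹ * g⁻¹ := by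
  rcases h with h | h <;> obtain ⟨g, hg⟩ := isConj_iff.1 h.symm
  exacts [⟨g, Or.inl hg.symm⟩, ⟨g, Or.inr hg.symm⟩]

theorem Mer.ell {V : Type} (T : ZT G V) {m x : G} (h : Mer m x) {v : V} (hv : T.a m v = v) :
    ∃ w, T.a x w = w := by
  obtain ⟨g, rfl | rfl⟩ := h.conj
  exacts [⟨_, T.fix_conj hv g⟩, ⟨_, T.fix_conj (T.fix_inv hv) g⟩]

theorem Mer.mem {m x : G} (h : Mer m x) {P : Subgroup G} (hx : x ∈ P) : ∃ g, g * m * g⁻¹ ∈ P := by
  obtain ⟨g, rfl | rfl⟩ := h.conj
  · exact ⟨g, hx⟩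
  · exact ⟨g, by simpa only [mul_assoc, mul_inv_rev, inv_inv] using P.inv_mem hx⟩

theorem pt_of_not_splits {m : G} {S : Set G} (hS : S.Finite) (hgen : Subgroup.closure S = ⊤)
    (hm : ∀ s ∈ S, Mer m s) (h : ¬ Splits m) : PT m := by
  rintro V T ⟨v, hv⟩ hc
  have hell : ∀ s ∈ S, ∃ w, T.a s w = w := fun s hs => (hm s hs).ell T hv
  rcases T.find_edge S hS v hell with ⟨w, hw⟩ | ⟨x, hx, y, hy, p, p', hp, h1, h2, h3⟩
  · refine ⟨w, fun g => ?_⟩
    have hg : g ∈ Subgroup.closure S := by simp [hgen]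
    induction hg using Subgroup.closure_induction with
    | mem x hx => exact hw x hx
    | one => simp
    | mul x y _ _ h1 h2 => rw [T.mul, h2, h1]
    | inv x _ h1 => exact T.fix_inv h1
  have hp' : T.d p' p = 1 := by rwa [T.comm]
  have hxP := T.St_of_fix p p' h1
  have hg := T.St_gen hp hgen hell
  refine absurd ⟨T.St p p' p, T.St p p' p', hg, fun e => ?_, fun e => ?_, (hm x hx).mem hxP, ?_,
    fun H _ f f' hf => ?_⟩ h
  · exact h3 (T.St_side hp (e ▸ Subgroup.mem_top y))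
  · exact h2 (T.St_inter hp hxP (e ▸ Subgroup.mem_top x)).2
  · obtain ⟨g, hg⟩ := hc p p' hp
    exact ⟨g, fun s hs => hg s (T.St_inter hp hs.1 hs.2).1 (T.St_inter hp hs.1 hs.2).2⟩
  · refine up_of_pingpong hg
      (fun g => T.d (T.a g p) p < T.d (T.a g p) p' ∧ T.d (T.a g p') p < T.d (T.a g p') p')
      (fun g => T.d (T.a g p) p' < T.d (T.a g p) p ∧ T.d (T.a g p') p' < T.d (T.a g p') p)
      ?_ ?_ (by simp only [map_one, Equiv.Perm.coe_one, id_eq, T.d_self, not_lt_zero, and_false, not_false_eq_true]) (by simp only [map_one, Equiv.Perm.coe_one, id_eq, T.d_self, not_lt_zero, false_and, not_false_eq_true]) hf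
    · intro a ha hn g hg
      have k : ∀ v, T.d v p' < T.d v p → T.d (T.a a v) p < T.d (T.a a v) p' := fun v hv => by
        by_contra hc
        exact hn (T.St_of_fix p p' (T.St_ping hp ha hv hc).2)
      simp only [T.mul]
      rcases hg with ⟨e1, e2⟩ | ⟨e1, e2⟩
      · obtain ⟨e1, e2⟩ := T.St_inter hp e1 e2
        rw [e1, e2]
        exact ⟨T.St_side hp ha, k _ (by rw [T.d_self]; omega)⟩
      · exact ⟨k _ e1, k _ e2⟩
    · intro a ha hn g hg
      rw [← T.St_swap hp] at ha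
      have k : ∀ v, T.d v p < T.d v p' → T.d (T.a a v) p' < T.d (T.a a v) p := fun v hv => by
        by_contra hc
        exact hn (T.St_of_fix p p' (T.St_ping hp' ha hv hc).2)
      simp only [T.mul]
      rcases hg with ⟨e1, e2⟩ | ⟨e1, e2⟩
      · obtain ⟨e1, e2⟩ := T.St_inter hp e1 e2
        rw [e1, e2]
        exact ⟨k _ (by rw [T.d_self]; omega), T.St_side hp' ha⟩
      · exact ⟨k _ e1, k _ e2⟩

theorem BS.cyc {A B C : Subgroup G} {V : Type} {T : ZT G V} {u v : V} (h : BS A B C T u v)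
    {m k : G} (hC : C ≤ Subgroup.zpowers (k * m * k⁻¹)) : T.Cyc m := by
  intro x y hxy
  obtain ⟨g, hg⟩ := h.edge x y hxy
  refine ⟨g * k, fun s h1 h2 => ?_⟩
  obtain ⟨j, hj⟩ := Subgroup.mem_zpowers_iff.1 (hC (hg s h1 h2))
  refine Subgroup.mem_zpowers_iff.2 ⟨j, ?_⟩
  rw [conj_zpow] at hj ⊢
  calc g * k * m ^ j * (g * k)⁻¹ = g * (k * m ^ j * k⁻¹) * g⁻¹ := by group
    _ = s := by rw [hj]; group

theorem top_of_conj {A : Subgroup G} {g : G} (h : ∀ s ∈ (Set.univ : Set G), g⁻¹ * s * g ∈ A) :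
    A = ⊤ := (Subgroup.eq_top_iff' _).2 fun s => by
  simpa [mul_assoc] using h (g * s * g⁻¹) trivial

theorem PT.not_splits {m : G} (h : PT m) : ¬ Splits m := by
  rintro ⟨P, Q, hg, hP, hQ, ⟨g, hm⟩, ⟨k, hk⟩, hup⟩
  obtain ⟨V, T, u, v, hT⟩ := exists_BS (C := P ⊓ Q) hg inf_le_left inf_le_right
    fun H _ f f' hf => hup H f f' fun x h1 h2 => hf x ⟨h1, h2⟩ h1 h2
  have := T.fix_conj ((hT.su _).2 hm) g⁻¹
  obtain ⟨w, hw⟩ := h V T ⟨_, by simpa only [mul_assoc, inv_mul_cancel_left, inv_inv, inv_mul_cancel, mul_one, map_inv, Equiv.Perm.coe_inv] using this⟩ (hT.cyc hk)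
  obtain ⟨g, h | h⟩ := hT.vert Set.univ w fun s _ => hw s
  exacts [hP (top_of_conj h), hQ (top_of_conj h)]

end PT

end PartT3

end Pool.Agent.MP_b13154_gt.H25

end

-- part MP_b13154_gt.H25.Alg
section

/-!
Sums of marked groups, figure eight pieces, the join of two marked groups.
-/

namespace Pool.Agent.MP_b13154_gt.H25

section PartA1


open Subgroup

section Mer

variable {G G' G'' : Type} [Group G] [Group G'] [Group G'']

theorem Mer.rfl' (m : G) : Mer m m := Or.inl (IsConj.refl m)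

theorem isConj_inv {x y : G} (h : IsConj x y) : IsConj x⁻¹ y⁻¹ := by
  obtain ⟨g, rfl⟩ := isConj_iff.1 h
  exact isConj_iff.2 ⟨g, by group⟩

theorem Mer.inv {m x : G} (h : Mer m x) : Mer m x⁻¹ :=
  h.symm.imp (fun h => by simpa only [isConj_iff, inv_inv] using isConj_inv h) isConj_inv

theorem Mer.of_inv {m x : G} (h : Mer m x⁻¹) : Mer m x := by simpa using h.inv

theorem Mer.symm' {m x : G} (h : Mer m x) : Mer x m :=
  h.imp IsConj.symm fun h => by simpa only [isConj_iff, inv_inv] using isConj_inv h.symm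

theorem Mer.trans' {m x y : G} (h : Mer m x) (h' : Mer x y) : Mer m y := by
  rcases h' with h' | h'
  · exact h.imp h'.trans h'.trans
  · exact h.inv.imp h'.trans h'.trans

theorem Mer.map {m x : G} (h : Mer m x) (f : G →* G') : Mer (f m) (f x) :=
  h.imp f.map_isConj fun h => by simpa only [isConj_iff, map_inv] using f.map_isConj h

theorem Mer.cj {m x : G} (h : Mer m x) (g : G) : Mer m (g * x * g⁻¹) :=
  h.trans' (Or.inl (isConj_iff.2 ⟨g, rfl⟩).symm)

theorem Mer.cj' {m x : G} (h : Mer m x) (g : G) : Mer m (g⁻¹ * x * g) := by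
  simpa only [inv_inv] using h.cj g⁻¹

theorem Mer.zpowers_le {m x : G} (h : Mer m x) (g : G) :
    ∃ k, zpowers (g * x * g⁻¹) ≤ zpowers (k * m * k⁻¹) := by
  obtain ⟨k, rfl | rfl⟩ := h.conj
  · exact ⟨g * k, le_of_eq (congrArg _ (by group))⟩
  · exact ⟨g * k, le_of_eq ((congrArg _ (by group)).trans zpowers_inv)⟩

def MIso (m : G) (m' : G') : Prop := ∃ e : G ≃* G', Mer m' (e m)

theorem MIso.rfl' (m : G) : MIso m m := ⟨MulEquiv.refl G, Mer.rfl' m⟩

theorem MIso.symm {m : G} {m' : G'} (h : MIso m m') : MIso m' m := by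
  obtain ⟨e, he⟩ := h
  exact ⟨e.symm, by simpa using he.symm'.map e.symm.toMonoidHom⟩

theorem MIso.trans {m : G} {m' : G'} {m'' : G''} (h : MIso m m') (h' : MIso m' m'') :
    MIso m m'' := by
  obtain ⟨e, he⟩ := h
  obtain ⟨e', he'⟩ := h'
  exact ⟨e.trans e', he'.trans' (he.map e'.toMonoidHom)⟩

def val (φ : G →* Multiplicative ℤ) (g : G) : ℤ := (φ g).toAdd

variable (φ : G →* Multiplicative ℤ)

@[simp] theorem val_mul (g h : G) : val φ (g * h) = val φ g + val φ h := by simp [val]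
@[simp] theorem val_inv (g : G) : val φ g⁻¹ = - val φ g := by simp [val]
@[simp] theorem val_one : val φ 1 = 0 := by simp [val]
@[simp] theorem val_zpow (g : G) (k : ℤ) : val φ (g ^ k) = k * val φ g := by simp [val]
@[simp] theorem val_pow (g : G) (k : ℕ) : val φ (g ^ k) = k * val φ g := by simp [val]

theorem Mer.val_eq {m x : G} (h : Mer m x) : val φ x = val φ m ∨ val φ x = - val φ m := by
  obtain ⟨g, rfl | rfl⟩ := h.conj <;> simp only [val_mul, val_inv, add_neg_cancel_comm, true_or, or_true]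

theorem val_conj {x y : G} (h : IsConj x y) : val φ x = val φ y := by
  obtain ⟨g, rfl⟩ := isConj_iff.1 h
  simp

theorem conj_of_mer {m x y : G} (hm : val φ m ≠ 0) (hx : Mer m x) (hy : Mer m y)
    (h : val φ x = val φ y) : IsConj x y := by
  rcases hx with hx | hx <;> rcases hy with hy | hy
  exacts [hx.trans hy.symm, by
    have := val_conj φ hx; have := val_conj φ hy; simp only [ne_eq, isConj_iff, val_inv] at *; omega, by
    have := val_conj φ hx; have := val_conj φ hy; simp only [ne_eq, isConj_iff, val_inv] at *; omega, hx.trans hy.symm]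

def HasPhi (m : G) : Prop := ∃ φ : G →* Multiplicative ℤ, val φ m = 1

theorem HasPhi.comap {m : G'} (h : HasPhi m) (f : G →* G') {x : G} (hx : Mer m (f x)) :
    HasPhi x := by
  obtain ⟨φ, hφ⟩ := h
  rcases hx.val_eq φ with e | e
  · exact ⟨φ.comp f, e.trans hφ⟩
  · exact ⟨invMonoidHom.comp (φ.comp f), by simp only [val] at *; simp only [MonoidHom.coe_comp, coe_invMonoidHom, Function.comp_apply, toAdd_inv, e, hφ, Int.reduceNeg, neg_neg]⟩

theorem PT.retract {m : G} (h : PT m) (i : G →* G') (r : G' →* G) (hr : ∀ k, r (i k) = k)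
    {m' : G'} (hm : Mer m' (i m)) {V : Type} (T : ZT G' V) (hv : ∃ v, T.a m' v = v)
    (hc : T.Cyc m') : ∃ v, ∀ k, T.a (i k) v = v := by
  obtain ⟨v, hv⟩ := hv
  refine h V (T.comap i) (hm.ell T hv) fun x y hxy => ?_
  obtain ⟨g, hg⟩ := hc x y hxy
  have h1 : Mer m (r m') := by simpa [hr] using (hm.map r).symm'
  obtain ⟨k, hk⟩ := h1.zpowers_le (r g)
  refine ⟨k, fun s h1 h2 => hk ?_⟩
  obtain ⟨j, hj⟩ := mem_zpowers_iff.1 (hg (i s) h1 h2)
  exact mem_zpowers_iff.2 ⟨j, by simpa only [conj_zpow, map_mul, map_zpow, map_inv, hr] using congrArg r hj⟩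

structure Good (m : G) : Prop where
  pt : PT m
  nc : ¬ IsCyclic G
  phi : HasPhi m

theorem Good.iso {m : G} {m' : G'} (h : Good m) (hi : MIso m m') : Good m' := by
  obtain ⟨e, he⟩ := hi
  refine ⟨fun V T hv hc => ?_, fun hc => h.nc (isCyclic_of_surjective e.symm e.symm.surjective),
    h.phi.comap e.symm.toMonoidHom (by simpa using he.symm'.map e.symm.toMonoidHom)⟩
  obtain ⟨v, hv⟩ := h.pt.retract e.toMonoidHom e.symm.toMonoidHom (by simp) he T hv hc
  exact ⟨v, fun g => by simpa using hv (e.symm g)⟩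

end Mer

section Sum

variable {G K L K' L' : Type} [Group G] [Group K] [Group L] [Group K'] [Group L']

structure IsSum (iK : K →* G) (iL : L →* G) (mK : K) (mL : L) : Prop where
  eq : iK mK = iL mL
  gen : iK.range ⊔ iL.range = ⊤
  up : ∀ (H : Type) [Group H] (f : K →* H) (g : L →* H), f mK = g mL →
    ∃ F : G →* H, (∀ k, F (iK k) = f k) ∧ ∀ l, F (iL l) = g l

variable {iK : K →* G} {iL : L →* G} {mK : K} {mL : L}

theorem IsSum.symm (h : IsSum iK iL mK mL) : IsSum iL iK mL mK :=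
  ⟨h.eq.symm, by rw [sup_comm, h.gen], fun H _ f g e => by
    obtain ⟨F, h1, h2⟩ := h.up H g f e.symm
    exact ⟨F, h2, h1⟩⟩

theorem IsSum.retr (h : IsSum iK iL mK mL) (hL : HasPhi mL) :
    ∃ r : G →* K, ∀ k, r (iK k) = k := by
  obtain ⟨φ, hφ⟩ := hL
  obtain ⟨F, h1, -⟩ := h.up K (MonoidHom.id K) ((zpowersHom K mK).comp φ)
    (by simp only [val] at hφ; simp [hφ])
  exact ⟨F, h1⟩

theorem IsSum.phi (h : IsSum iK iL mK mL) (hK : HasPhi mK) (hL : HasPhi mL) :
    HasPhi (iK mK) := by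
  obtain ⟨r, hr⟩ := h.retr hL
  exact hK.comap r (by rw [hr]; exact Mer.rfl' _)

theorem IsSum.tree (h : IsSum iK iL mK mL) : ∃ (V : Type) (T : ZT G V) (u v : V),
    BS iK.range iL.range (zpowers (iK mK)) T u v := by
  have m1 : iK mK ∈ iK.range := ⟨_, rfl⟩
  have m2 : iK mK ∈ iL.range := ⟨_, h.eq.symm⟩
  refine exists_BS h.gen (zpowers_le.2 m1) (zpowers_le.2 m2) fun H _ f f' hf => ?_
  obtain ⟨F, h1, h2⟩ := h.up H (f.comp iK.rangeRestrict) (f'.comp iL.rangeRestrict)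
    ((hf _ (mem_zpowers _) m1 m2).trans (congrArg f' (Subtype.ext h.eq)))
  refine ⟨F, ?_, ?_⟩
  · rintro ⟨_, k, rfl⟩; exact h1 k
  · rintro ⟨_, k, rfl⟩; exact h2 k

theorem BS.cyc' {A B : Subgroup G} {V : Type} {T : ZT G V} {u v : V} {m : G}
    (h : BS A B (zpowers m) T u v) : T.Cyc m := h.cyc (k := 1) (by simp)

theorem mem_of_retr {r : G →* K} (hr : ∀ k, r (iK k) = k) {x : K}
    (h : iK x ∈ zpowers (iK mK)) : x ∈ zpowers mK := by
  obtain ⟨j, hj⟩ := mem_zpowers_iff.1 h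
  exact mem_zpowers_iff.2 ⟨j, by simpa [hr] using congrArg r hj⟩

theorem IsSum.hyp (h : IsSum iK iL mK mL) (hK : HasPhi mK) (hL : HasPhi mL) {x : K} {y : L}
    (hx : x ∉ zpowers mK) (hy : y ∉ zpowers mL) (g : G) :
    iK x * iL y ∉ zpowers (g * iK mK * g⁻¹) := by
  intro hm
  obtain ⟨V, T, u, v, hT⟩ := h.tree
  obtain ⟨r, hr⟩ := h.retr hL
  obtain ⟨r', hr'⟩ := h.symm.retr hK
  obtain ⟨j, hj⟩ := mem_zpowers_iff.1 hm
  have h1 := T.fix_zpow (T.fix_conj ((hT.su _).2 ⟨mK, rfl⟩) g) j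
  rw [hj] at h1
  have := T.S3 ((hT.su _).2 ⟨x, rfl⟩) ((hT.sv _).2 ⟨y, rfl⟩) hT.adj
    (by rw [T.d_self, hT.adj])
    (fun e => hx (mem_of_retr hr (hT.inter _ ⟨x, rfl⟩ ((hT.sv _).1 e)))) h1
  have := hT.inter _ ((hT.su _).1 this) ⟨y, rfl⟩
  rw [h.eq] at this
  exact hy (mem_of_retr hr' this)

theorem ZT.Cyc.two {V : Type} {T : ZT G V} {m : G} (hc : T.Cyc m) {u w : V} (h : u ≠ w) :
    ∃ g, ∀ s, T.a s u = u → T.a s w = w → s ∈ zpowers (g * m * g⁻¹) := by
  obtain ⟨z, h1, h2⟩ := T.step u w h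
  obtain ⟨g, hg⟩ := hc u z h1
  exact ⟨g, fun s e1 e2 => hg s e1 (T.fix_tow h1 h2 e1 e2)⟩

theorem cyc_of_retr {r : G →* K} (hr : ∀ k, r (iK k) = k) {z : G} (h : ∀ k, iK k ∈ zpowers z) :
    IsCyclic K := by
  refine ⟨r z, fun k => ?_⟩
  obtain ⟨j, hj⟩ := mem_zpowers_iff.1 (h k)
  exact ⟨j, by simpa [hr] using congrArg r hj⟩

theorem sum_half {iK' : K' →* G} {iL' : L' →* G} {mK' : K'} {mL' : L'}
    (h' : IsSum iK' iL' mK' mL') (hK' : Good mK') (hL' : Good mL') (hK : Good mK) {r : G →* K}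
    (hr : ∀ k, r (iK k) = k) (hm : Mer (iK mK) (iK' mK')) {g : G}
    (hg : ∀ k', g⁻¹ * iK' k' * g ∈ iK.range) : MIso mK' mK := by
  obtain ⟨V, T, u, v, hT⟩ := h'.tree
  obtain ⟨r', hr'⟩ := h'.retr hL'.phi
  obtain ⟨w, hw⟩ := hK.pt.retract iK r hr hm.symm' T ⟨u, (hT.su _).2 ⟨_, rfl⟩⟩ hT.cyc'
  have no2 : ∀ z, (∀ k', T.a (iK' k') z = z) → u = z := by
    intro z hz
    by_contra hne
    obtain ⟨c, hc⟩ := hT.cyc'.two hne
    exact hK'.nc (cyc_of_retr hr' fun k => hc _ ((hT.su _).2 ⟨k, rfl⟩) (hz k))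
  have fx : ∀ (c : G) (z : V), (∀ s ∈ iK.range, T.a (c⁻¹ * s * c) z = z) →
      u = T.a (g * c) z := by
    intro c z hz
    refine no2 _ fun k' => ?_
    have := hz _ (hg k')
    rw [← T.mul]
    conv_rhs => rw [← this, ← T.mul]
    congr 2
    group
  obtain ⟨c, hc | hc⟩ := hT.vert iK.range w (by rintro _ ⟨k, rfl⟩; exact hw k)
  · have hu := (hT.su _).1 (fx c u fun s hs => (hT.su _).2 (hc s hs)).symm
    let e : K' →* K := r.comp ((MulAut.conj g⁻¹).toMonoidHom.comp iK')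
    have he : ∀ k', iK (e k') = g⁻¹ * iK' k' * g := fun k' => by
      obtain ⟨k, hk⟩ := hg k'
      have : e k' = r (g⁻¹ * iK' k' * g) := by simp only [e, map_inv, MulEquiv.toMonoidHom_eq_coe, MonoidHom.coe_comp, MonoidHom.coe_coe, MulAut.coe_inv, Function.comp_apply, MulAut.conj_symm_apply, map_mul]
      rw [this, ← hk, hr]
    have hb : Function.Bijective e := by
      constructor
      · intro x y hxy
        have := congrArg iK hxy
        rw [he, he, mul_left_inj, mul_right_inj] at this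
        simpa [hr'] using congrArg r' this
      · intro k
        obtain ⟨k1, h1⟩ := hc _ ⟨k, rfl⟩
        obtain ⟨k2, h2⟩ := hu
        refine ⟨k2 * k1 * k2⁻¹, ?_⟩
        rw [← hr (e _), he, ← hr k]
        congr 1
        simp only [map_mul, map_inv, h1, h2]
        group
    refine ⟨MulEquiv.ofBijective e hb, ?_⟩
    have := (hm.cj' g).map r
    rw [← he, hr, hr] at this
    exact this
  · have := fx c v fun s hs => (hT.sv _).2 (hc s hs)
    exact absurd (by rw [this, T.inv_a]) (hT.ne (g * c)⁻¹)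

theorem sum_uniq {iK' : K' →* G} {iL' : L' →* G} {mK' : K'} {mL' : L'} (h : IsSum iK iL mK mL)
    (h' : IsSum iK' iL' mK' mL') (hK : Good mK) (hL : Good mL) (hK' : Good mK') (hL' : Good mL')
    (hm : Mer (iK mK) (iK' mK')) : MIso mK' mK ∨ MIso mK' mL := by
  obtain ⟨V, T, u, v, hT⟩ := h.tree
  obtain ⟨r', hr'⟩ := h'.retr hL'.phi
  obtain ⟨w, hw⟩ := hK'.pt.retract iK' r' hr' hm T ⟨u, (hT.su _).2 ⟨_, rfl⟩⟩ hT.cyc'
  obtain ⟨c, hc | hc⟩ := hT.vert iK'.range w (by rintro _ ⟨k, rfl⟩; exact hw k)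
  · obtain ⟨r, hr⟩ := h.retr hL.phi
    exact Or.inl (sum_half h' hK' hL' hK hr hm fun k => hc _ ⟨k, rfl⟩)
  · obtain ⟨r, hr⟩ := h.symm.retr hK.phi
    exact Or.inr (sum_half h' hK' hL' hL hr (h.eq ▸ hm) fun k => hc _ ⟨k, rfl⟩)

theorem IsSum.iso {G' : Type} [Group G'] (h : IsSum iK iL mK mL) (e : G ≃* G') :
    IsSum (e.toMonoidHom.comp iK) (e.toMonoidHom.comp iL) mK mL := by
  refine ⟨by simp [h.eq], ?_, fun H _ f g hf => ?_⟩
  · rw [MonoidHom.range_comp, MonoidHom.range_comp, ← Subgroup.map_sup, h.gen]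
    exact map_top_of_surjective _ e.surjective
  · obtain ⟨F, h1, h2⟩ := h.up H f g hf
    exact ⟨F.comp e.symm.toMonoidHom, by simpa only [MulEquiv.toMonoidHom_eq_coe, MonoidHom.coe_comp, MonoidHom.coe_coe, Function.comp_apply, MulEquiv.symm_apply_apply] using h1, by simpa only [MulEquiv.toMonoidHom_eq_coe, MonoidHom.coe_comp, MonoidHom.coe_coe, Function.comp_apply, MulEquiv.symm_apply_apply] using h2⟩

def Fam (K L : Type) : Bool → Type
  | false => K
  | true => L

instance famGroup : ∀ b, Group (Fam K L b)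
  | false => ‹Group K›
  | true => ‹Group L›

theorem pushout_inj {C : Type} [Group C] (i : C →* K) (j : C →* L) (hi : Function.Injective i)
    (hj : Function.Injective j) : ∃ (H : Type) (_ : Group H) (u : K →* H) (v : L →* H),
      (∀ c, u (i c) = v (j c)) ∧ Function.Injective v := by
  let φ : ∀ b, C →* Fam K L b := fun b => match b with
    | false => i
    | true => j
  refine ⟨Monoid.PushoutI φ, inferInstance, Monoid.PushoutI.of (φ := φ) false,
    Monoid.PushoutI.of (φ := φ) true, fun c => ?_,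
    Monoid.PushoutI.of_injective (fun b => by cases b; exacts [hi, hj]) true⟩
  exact (Monoid.PushoutI.of_apply_eq_base φ false c).trans
    (Monoid.PushoutI.of_apply_eq_base φ true c).symm

end Sum

end PartA1

section PartA2


open Subgroup

variable {G : Type} [Group G]

structure Piece (A : Subgroup G) (a b t : G) : Prop where
  fig : Fig a b t
  tA : t ∈ A
  lA : b * a * b⁻¹ * a⁻¹ ∈ A
  gen : A ⊔ closure {a, b, t} = ⊤
  up : ∀ (H : Type) [Group H] (f : A →* H) (a' b' : H), Fig a' b' (f ⟨t, tA⟩) →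
    f ⟨_, lA⟩ = b' * a' * b'⁻¹ * a'⁻¹ → ∃ F : G →* H, (∀ x : A, F x = f x) ∧ F a = a' ∧ F b = b'

theorem Fig.map {H : Type} [Group H] {a b t : G} (h : Fig a b t) (f : G →* H) :
    Fig (f a) (f b) (f t) :=
  ⟨by simpa only [map_mul, map_inv] using congrArg f h.1, by simpa only [map_mul, map_inv] using congrArg f h.2⟩

theorem Fig.val0 {a b t : G} (h : Fig a b t) (φ : G →* Multiplicative ℤ) :
    val φ a = 0 ∧ val φ b = 0 := by
  have h1 := congrArg (val φ) h.1
  have h2 := congrArg (val φ) h.2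
  simp only [val_mul, val_inv, add_neg_cancel_comm, left_eq_add] at h1 h2
  omega

theorem Fig.comm {a b t : G} (h : Fig a b t) : Commute t (b * a * b⁻¹ * a⁻¹) := by
  have : t * (b * a * b⁻¹ * a⁻¹) * t⁻¹ = b * a * b⁻¹ * a⁻¹ := by
    calc _ = (t * b * t⁻¹) * (t * a * t⁻¹) * (t * b * t⁻¹)⁻¹ * (t * a * t⁻¹)⁻¹ := by group
      _ = _ := by rw [h.1, h.2]; group
  exact mul_inv_eq_iff_eq_mul.1 this

abbrev V4 : Type := ZMod 2 × ZMod 2

def sig : V4 ≃ₗ[ZMod 2] V4 where
  toFun v := (v.2, v.1 + v.2)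
  invFun v := (v.1 + v.2, v.1)
  map_add' := by decide
  map_smul' := by decide
  left_inv := by intro v; revert v; decide
  right_inv := by intro v; revert v; decide

theorem sig_basis (k : ℤ) (hk : k = 2 ∨ k = -2) : ∃ a b : V4, (sig ^ k) a = a + b ∧
    (sig ^ k) b = b + (a + b) ∧ a ≠ 0 ∧ b ≠ 0 ∧ a ≠ b := by
  have h3 : sig ^ (3 : ℤ) = 1 := by
    rw [show (3 : ℤ) = 1 + 1 + 1 by rfl, zpow_add_one, zpow_add_one, zpow_one]
    refine LinearEquiv.ext fun v => ?_
    revert v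
    decide
  rcases hk with rfl | rfl
  · rw [zpow_two]
    exact ⟨(1, 0), (0, 1), by decide⟩
  · rw [show (-2 : ℤ) = 1 - 3 by rfl, zpow_sub, h3, zpow_one, inv_one, mul_one]
    exact ⟨(1, 0), (1, 1), by decide⟩

/-- crossed homomorphisms -/
def Crossed (φ : G →* Multiplicative ℤ) (δ : G → V4) : Prop :=
  ∀ g h, δ (g * h) = δ g + (sig ^ val φ g) (δ h)

theorem Piece.delta {A : Subgroup G} {a b t : G} (h : Piece A a b t) (φ : G →* Multiplicative ℤ)
    (ht : val φ t = 2 ∨ val φ t = -2) :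
    ∃ δ, Crossed φ δ ∧ (∀ g ∈ A, δ g = 0) ∧ δ a ≠ 0 ∧ δ b ≠ 0 ∧ δ a ≠ δ b := by
  obtain ⟨a0, b0, h1, h2, h3, h4, h5⟩ := sig_basis _ ht
  obtain ⟨va, vb⟩ := h.fig.val0 φ
  let ρ : G →* Equiv.Perm V4 :=
    (MulAction.toPermHom (V4 ≃ₗ[ZMod 2] V4) V4).comp ((zpowersHom _ sig).comp φ)
  have hρ : ∀ g v, ρ g v = (sig ^ val φ g) v := fun _ _ => rfl
  have hc : ∀ x v, (ρ t * Equiv.addLeft x * (ρ t)⁻¹) v = (sig ^ val φ t) x + v := by
    intro x v
    obtain ⟨w, rfl⟩ := (ρ t).surjective v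
    simp only [Equiv.Perm.mul_apply, Equiv.Perm.inv_def, Equiv.symm_apply_apply]
    simp [hρ]
  obtain ⟨F, f1, f2, f3⟩ := h.up _ (ρ.comp A.subtype) (Equiv.addLeft a0) (Equiv.addLeft b0)
    ⟨Equiv.ext fun v => (hc _ v).trans (by simp [h1, add_assoc]),
      Equiv.ext fun v => (hc _ v).trans (by simp [h2, add_assoc])⟩
    (Equiv.ext fun v => by
      refine (hρ _ v).trans ?_
      simp only [subtype_apply, val_mul, vb, va, add_zero, val_inv, neg_zero, zpow_ofNat, pow_zero, LinearEquiv.coe_one, id_eq, Equiv.neg_addLeft, Equiv.Perm.coe_mul, Equiv.coe_addLeft, comp_add_left, add_neg_cancel_comm, Function.comp_apply, add_neg_cancel_left])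
  have key : ∀ g v, F g v = F g 0 + (sig ^ val φ g) v := by
    have mul : ∀ x y, (∀ v, F x v = F x 0 + (sig ^ val φ x) v) →
        (∀ v, F y v = F y 0 + (sig ^ val φ y) v) →
        ∀ v, F (x * y) v = F (x * y) 0 + (sig ^ val φ (x * y)) v := by
      intro x y h1 h2 v
      simp only [F.map_mul, Equiv.Perm.mul_apply, val_mul, zpow_add, LinearEquiv.mul_apply]
      rw [h1, h2, h1 (F y 0), map_add, add_assoc]
    have onA : ∀ x ∈ A, ∀ v, F x v = F x 0 + (sig ^ val φ x) v := fun x hx v => by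
      rw [f1 ⟨x, hx⟩]; simp only [MonoidHom.coe_comp, coe_subtype, Function.comp_apply, hρ, map_zero, zero_add]
    intro g
    induction g using sup_ind h.gen with
    | hA x hx => exact onA x hx
    | hm x y h1 h2 => exact mul x y h1 h2
    | hB x hx =>
      induction hx using closure_induction'' with
      | mem x hx =>
        rcases hx with rfl | rfl | rfl
        · simp [f2, va]
        · simp [f3, vb]
        · exact onA _ h.tA
      | inv_mem x hx =>
        rcases hx with rfl | rfl | rfl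
        · simp only [map_inv, f2, Equiv.neg_addLeft, Equiv.coe_addLeft, add_zero, val_inv, va, neg_zero, zpow_ofNat, pow_zero, LinearEquiv.coe_one, id_eq, implies_true]
        · simp [f3, vb]
        · exact onA _ (A.inv_mem h.tA)
      | one => simp
      | mul x y _ _ h1 h2 => exact mul x y h1 h2
  refine ⟨fun g => F g 0, fun g k => ?_, fun g hg => ?_, by simpa [f2], by simpa [f3],
    by simpa [f2, f3]⟩
  · simp only [F.map_mul, Equiv.Perm.mul_apply]
    exact key g _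
  · show F g 0 = 0
    rw [f1 ⟨g, hg⟩]; simp only [MonoidHom.coe_comp, coe_subtype, Function.comp_apply, hρ, map_zero]

section Crossed

variable {φ : G →* Multiplicative ℤ} {δ : G → V4}

theorem Crossed.one (h : Crossed φ δ) : δ 1 = 0 := by simpa using h 1 1

theorem Crossed.add (h : Crossed φ δ) {g : G} (hg : val φ g = 0) (k : G) :
    δ (g * k) = δ g + δ k := by simpa [hg] using h g k

theorem Crossed.conj (h : Crossed φ δ) {s : G} (hs : val φ s = 0) (h0 : δ s = 0) (g : G) :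
    δ (g * s * g⁻¹) = 0 := by
  rw [mul_assoc, h, h.add hs, h0, zero_add, ← h, mul_inv_cancel, h.one]

theorem Crossed.zpow (h : Crossed φ δ) {z : G} (hz : val φ z = 0) (k : ℤ) :
    δ (z ^ k) = 0 ∨ δ (z ^ k) = δ z := by
  have e : ∀ k : ℤ, δ (z ^ (k + 1)) = δ (z ^ k) + δ z := fun k => by
    rw [zpow_add_one, h.add (by simp [hz])]
  induction k using Int.induction_on with
  | zero => simp [h.one]
  | succ k ih =>
    rw [e]
    revert ih
    generalize δ (z ^ (k : ℤ)) = x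
    generalize δ z = y
    revert x y
    decide
  | pred k ih =>
    have := e (-k - 1)
    rw [sub_add_cancel] at this
    rw [this] at ih
    revert ih
    generalize δ (z ^ (-(k : ℤ) - 1)) = x
    generalize δ z = y
    revert x y
    decide

theorem Crossed.cube (h : Crossed φ δ) {z : G} (hz : val φ z = 0) : δ (z ^ 3) = δ z := by
  rw [pow_three, h.add hz, h.add hz]
  generalize δ z = y
  revert y
  decide

theorem Crossed.fix (h : Crossed φ δ) {a b t : G} (hf : Fig a b t) (ha : δ a ≠ 0) (hb : δ b ≠ 0)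
    (hab : δ a ≠ δ b) {V : Type} (T : ZT G V) (v0 : V)
    (hT : ∀ x y, T.d x y = 1 → ∃ z, val φ z = 0 ∧
      ∀ s, val φ s = 0 → T.a s x = x → T.a s y = y → s ∈ zpowers z) :
    ∃ w, T.a a w = w ∧ T.a b w = w ∧ T.a t w = w := by
  obtain ⟨va, vb⟩ := hf.val0 φ
  have key : ∀ x y, val φ x = 0 → val φ y = 0 → δ x ≠ 0 → δ y ≠ 0 → δ x ≠ δ y →
      ∀ p p', T.d p p' = 1 → T.a (x ^ 3) p = p → T.a (x ^ 3) p' = p' →
      T.a (y ^ 3) p = p → T.a (y ^ 3) p' = p' → False := by
    intro x y hx hy h1 h2 h3 p p' hp e1 e2 e3 e4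
    obtain ⟨z, hz, hs⟩ := hT p p' hp
    obtain ⟨i, hi⟩ := mem_zpowers_iff.1 (hs _ (by simp [hx]) e1 e2)
    obtain ⟨j, hj⟩ := mem_zpowers_iff.1 (hs _ (by simp [hy]) e3 e4)
    have k1 := h.zpow hz i
    have k2 := h.zpow hz j
    rw [hi, h.cube hx] at k1
    rw [hj, h.cube hy] at k2
    exact h3 ((k1.resolve_left h1).trans (k2.resolve_left h2).symm)
  have hv : ∀ x y : V4, x ≠ 0 → y ≠ 0 → x ≠ y →
      x + y ≠ 0 ∧ x ≠ x + y ∧ y + (x + y) ≠ 0 ∧ y ≠ y + (x + y) := by decide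
  obtain ⟨n1, n2, n3, n4⟩ := hv _ _ ha hb hab
  exact T.fig_fix hf v0
    (key _ _ va (by simp [va, vb]) ha (by rwa [h.add va]) (by rwa [h.add va]))
    (key _ _ vb (by simp [va, vb]) hb (by rwa [h.add vb, h.add va]) (by rwa [h.add vb, h.add va]))

end Crossed

theorem Piece.tree {A : Subgroup G} {a b t : G} (h : Piece A a b t) :
    ∃ (V : Type) (T : ZT G V) (u v : V),
      BS A (closure {a, b, t}) (closure {t, b * a * b⁻¹ * a⁻¹}) T u v := by
  have ma : a ∈ closure ({a, b, t} : Set G) := subset_closure (by simp)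
  have mb : b ∈ closure ({a, b, t} : Set G) := subset_closure (by simp)
  have mt : t ∈ closure ({a, b, t} : Set G) := subset_closure (by simp)
  have ml := mul_mem (mul_mem (mul_mem mb ma) (inv_mem mb)) (inv_mem ma)
  refine exists_BS h.gen ?_ ?_ fun H _ f f' hf => ?_
  · rw [closure_le]; rintro _ (rfl | rfl); exacts [h.tA, h.lA]
  · rw [closure_le]; rintro _ (rfl | rfl); exacts [mt, ml]
  have e1 := hf t (subset_closure (by simp only [Set.mem_insert_iff, Set.mem_singleton_iff, true_or])) h.tA mt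
  have e2 := hf _ (subset_closure (by simp only [Set.mem_insert_iff, Set.mem_singleton_iff, or_true])) h.lA ml
  have hfig : Fig (⟨a, ma⟩ : closure ({a, b, t} : Set G)) ⟨b, mb⟩ ⟨t, mt⟩ :=
    ⟨Subtype.ext h.fig.1, Subtype.ext h.fig.2⟩
  obtain ⟨F, f1, f2, f3⟩ := h.up H f (f' ⟨a, ma⟩) (f' ⟨b, mb⟩) (e1 ▸ hfig.map f')
    (by rw [e2, ← map_inv, ← map_inv, ← map_mul, ← map_mul, ← map_mul]; rfl)
  refine ⟨F, f1, ?_⟩
  rintro ⟨x, hx⟩
  induction hx using closure_induction with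
  | mem x hx =>
    rcases hx with rfl | rfl | rfl
    exacts [f2, f3, (f1 ⟨_, h.tA⟩).trans e1]
  | one => exact F.map_one.trans f'.map_one.symm
  | mul x y hx hy h1 h2 =>
    exact (F.map_mul x y).trans ((congrArg₂ (· * ·) h1 h2).trans (f'.map_mul _ _).symm)
  | inv x hx h1 => exact (F.map_inv x).trans ((congrArg (·⁻¹) h1).trans (f'.map_inv _).symm)

theorem mem_lam {t l s : G} (hc : Commute t l) (φ : G →* Multiplicative ℤ) (ht : val φ t ≠ 0)
    (hl : val φ l = 0) (hs : s ∈ closure ({t, l} : Set G)) (h0 : val φ s = 0) :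
    s ∈ zpowers l := by
  have : ∃ i j : ℤ, s = t ^ i * l ^ j := by
    clear h0
    induction hs using closure_induction with
    | mem x hx =>
      rcases hx with rfl | rfl
      exacts [⟨1, 0, by simp⟩, ⟨0, 1, by simp⟩]
    | one => exact ⟨0, 0, by simp⟩
    | mul x y _ _ h1 h2 =>
      obtain ⟨i, j, rfl⟩ := h1
      obtain ⟨i', j', rfl⟩ := h2
      exact ⟨i + i', j + j', by
        rw [zpow_add, zpow_add, (hc.zpow_zpow i' j).mul_mul_mul_comm]⟩
    | inv x _ h1 =>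
      obtain ⟨i, j, rfl⟩ := h1
      exact ⟨-i, -j, by rw [mul_inv_rev, ← zpow_neg, ← zpow_neg, (hc.zpow_zpow _ _).eq]⟩
  obtain ⟨i, j, rfl⟩ := this
  obtain rfl : i = 0 := by simpa [hl, ht] using h0
  simp

theorem Fig.mem_N {a b t s : G} (h : Fig a b t) (φ : G →* Multiplicative ℤ) (ht : val φ t ≠ 0)
    (hs : s ∈ closure ({a, b, t} : Set G)) (h0 : val φ s = 0) : s ∈ normalClosure {a, b} := by
  obtain ⟨va, vb⟩ := h.val0 φ
  set N := normalClosure ({a, b} : Set G)
  have hN : N ≤ φ.ker := normalClosure_le_normal (by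
    rintro _ (rfl | rfl)
    exacts [va, vb])
  have h1 : closure ({a, b, t} : Set G) ≤ N ⊔ zpowers t := by
    rw [closure_le]
    rintro _ (rfl | rfl | rfl)
    · exact mem_sup_left (subset_normalClosure (by simp))
    · exact mem_sup_left (subset_normalClosure (by simp))
    · exact mem_sup_right (mem_zpowers _)
  have h2 : s ∈ ((N ⊔ zpowers t : Subgroup G) : Set G) := h1 hs
  rw [normal_mul] at h2
  obtain ⟨n, hn, _, ⟨k, rfl⟩, rfl⟩ := h2
  have : val φ n = 0 := hN hn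
  obtain rfl : k = 0 := by simpa [this, ht] using h0
  simpa using hn

theorem piece_count {ι : Type} [Fintype ι] (A : ι → Subgroup G) (a b t : ι → G)
    (h : ∀ i, Piece (A i) (a i) (b i) (t i)) (φ : G →* Multiplicative ℤ)
    (ht : ∀ i, val φ (t i) = 2 ∨ val φ (t i) = -2)
    (hinj : Function.Injective fun i => normalClosure ({a i, b i} : Set G)) {k : ℕ}
    (x : Fin k → G) (hx : closure (Set.range x) = ⊤) : Fintype.card ι ≤ 2 * k := by
  classical
  choose δ hδ h0 ha hb hab using fun i => (h i).delta φ (ht i)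
  have ht0 : ∀ i, val φ (t i) ≠ 0 := fun i => by have := ht i; omega
  have cmp : ∀ i j, δ i (a j) = 0 ∨
      normalClosure ({a j, b j} : Set G) ≤ normalClosure {a i, b i} := by
    intro i j
    obtain ⟨V, T, u, v, hT⟩ := (h i).tree
    obtain ⟨va, vb⟩ := (h i).fig.val0 φ
    obtain ⟨va', vb'⟩ := (h j).fig.val0 φ
    obtain ⟨w, w1, w2, -⟩ := (hδ j).fix (h j).fig (ha j) (hb j) (hab j) T u fun p p' hp => by
      obtain ⟨g, hg⟩ := hT.edge p p' hp
      refine ⟨g * (b i * a i * (b i)⁻¹ * (a i)⁻¹) * g⁻¹, by simp only [val_mul, val_inv, add_neg_cancel_comm, add_neg_cancel, add_zero], fun s hs e1 e2 => ?_⟩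
      obtain ⟨n, hn⟩ := mem_zpowers_iff.1
        (mem_lam (h i).fig.comm φ (ht0 i) (by simp only [val_mul, val_inv, add_neg_cancel_comm, add_neg_cancel]) (hg s e1 e2) (by simp [hs]))
      exact mem_zpowers_iff.2 ⟨n, by rw [conj_zpow, hn]; group⟩
    obtain ⟨g, hg | hg⟩ := hT.vert {a j, b j} w (by rintro _ (rfl | rfl); exacts [w1, w2])
    · have := (hδ i).conj (by simp [va']) (h0 i _ (hg (a j) (by simp))) g
      exact Or.inl (by simpa only [mul_assoc, mul_inv_cancel_left, mul_inv_cancel, mul_one] using this)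
    · refine Or.inr (normalClosure_le_normal fun s hs => ?_)
      have := (h i).fig.mem_N φ (ht0 i) (hg s hs) (by rcases hs with rfl | rfl <;> simp [*])
      simpa [mul_assoc] using normalClosure_normal.conj_mem _ this g
  have hli : LinearIndependent (ZMod 2) fun i => fun j => δ i (x j) := by
    rw [Fintype.linearIndependent_iff]
    intro c hc
    have hz : ∀ g, ∑ i, c i • δ i g = 0 := by
      have cr : Crossed φ fun g => ∑ i, c i • δ i g := fun g k => by
        simp only [hδ _ g k, smul_add, Finset.sum_add_distrib, map_sum, map_smul]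
      intro g
      have hg : g ∈ closure (Set.range x) := by simp [hx]
      induction hg using closure_induction with
      | mem _ hy =>
        obtain ⟨j, rfl⟩ := hy
        simpa only [Finset.sum_apply, Pi.smul_apply, Pi.zero_apply] using congrFun hc j
      | one => exact cr.one
      | mul y z _ _ h1 h2 => exact (cr y z).trans (by simp only [h1, h2]; simp only [map_zero, add_zero])
      | inv y _ h1 =>
        have := cr y⁻¹ y
        simp only [inv_mul_cancel, h1] at this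
        simpa only [this, val_inv, zpow_neg, LinearEquiv.coe_inv, map_zero, add_zero] using cr.one
    by_contra hne
    push Not at hne
    obtain ⟨j, hj, hmax⟩ := (Finset.univ.filter fun i => c i ≠ 0).exists_maximalFor
      (fun i => normalClosure ({a i, b i} : Set G)) (by
        obtain ⟨i, hi⟩ := hne
        exact ⟨i, by simpa only [ne_eq, Finset.mem_filter, Finset.mem_univ, true_and] using hi⟩)
    have := hz (a j)
    rw [Finset.sum_eq_single j (fun i _ hij => ?_) (by simp only [Finset.mem_univ, not_true_eq_false, smul_eq_zero, IsEmpty.forall_iff])] at this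
    · exact ha j ((smul_eq_zero.1 this).resolve_left (by simpa only [ne_eq, Finset.mem_filter, Finset.mem_univ, true_and] using hj))
    · by_cases hi : c i = 0
      · simp [hi]
      rcases cmp i j with e | e
      · simp [e]
      · exact absurd (hinj (le_antisymm (hmax (by simpa only [ne_eq, Finset.mem_filter, Finset.mem_univ, true_and] using hi) e) e)) hij
  have := hli.fintype_card_le_finrank
  simp only [Module.finrank_pi_fintype, Module.finrank_prod, Module.finrank_self, Nat.reduceAdd, Finset.sum_const, Finset.card_univ, Fintype.card_fin, smul_eq_mul] at this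
  omega

end PartA2

section PartA3


open Subgroup

variable {G K L K' L' G0 : Type} [Group G] [Group K] [Group L] [Group K'] [Group L'] [Group G0]

theorem descend {H : Type} [Group H] {π : G →* G0} (hπ : Function.Surjective π) {a b : G}
    (hk : π.ker = normalClosure {a, b}) (F : G →* H) (ha : F a = 1) (hb : F b = 1) :
    ∃ F0 : G0 →* H, ∀ g, F0 (π g) = F g :=
  ⟨π.liftOfSurjective hπ ⟨F, hk ▸ normalClosure_le_normal (by
    rintro _ (rfl | rfl)
    exacts [ha, hb])⟩, fun g => by simp⟩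

/-- `G` is obtained from the sum of `K` and `L` by tying a figure eight knot into two strands. -/
def JD (m : G) (mK : K) (mL : L) (N : Subgroup G) : Prop :=
  ∃ (A : Subgroup G) (a b x' y' : G) (G0 : Type) (_ : Group G0) (π : G →* G0) (iK : K →* G0)
    (iL : L →* G0) (x : K) (y : L), Piece A a b (x' * y') ∧ N = normalClosure {a, b} ∧
    Function.Surjective π ∧ π.ker = N ∧ IsSum iK iL mK mL ∧ Mer (iK mK) (π m) ∧ IsConj x' y' ∧
    Mer m x' ∧ π x' = iK x ∧ π y' = iL y ∧ x ∉ zpowers mK ∧ y ∉ zpowers mL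

theorem Piece.iso {G' : Type} [Group G'] {A : Subgroup G} {a b t : G} (h : Piece A a b t)
    (e : G ≃* G') : Piece (A.map e.toMonoidHom) (e a) (e b) (e t) := by
  refine ⟨h.fig.map e.toMonoidHom, ⟨t, h.tA, rfl⟩, ⟨_, h.lA, by simp only [MulEquiv.toMonoidHom_eq_coe, MonoidHom.coe_coe, map_mul, map_inv]⟩, ?_,
    fun H _ f a' b' h1 h2 => ?_⟩
  · have := congrArg (Subgroup.map e.toMonoidHom) h.gen
    rw [Subgroup.map_sup, MonoidHom.map_closure, map_top_of_surjective _ e.surjective] at this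
    simpa only [MulEquiv.toMonoidHom_eq_coe, MonoidHom.coe_coe, Set.image_insert_eq, Set.image_singleton] using this
  · obtain ⟨F, f1, f2, f3⟩ := h.up H (f.comp (e.toMonoidHom.subgroupMap A)) a' b' h1
      (h2 ▸ congrArg f (Subtype.ext (show e (b * a * b⁻¹ * a⁻¹) = _ by simp only [map_mul, map_inv])))
    refine ⟨F.comp e.symm.toMonoidHom, ?_, by simpa, by simpa⟩
    rintro ⟨_, x, hx, rfl⟩
    exact (congrArg F (e.symm_apply_apply x)).trans (f1 ⟨x, hx⟩)

variable {m : G} {mK : K} {mL : L} {N : Subgroup G}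

theorem JD.iso {G' : Type} [Group G'] {m' : G'} (h : JD m mK mL N) (hi : MIso m m') :
    ∃ N', JD m' mK mL N' := by
  obtain ⟨e, he⟩ := hi
  obtain ⟨A, a, b, x', y', G0, _, π, iK, iL, x, y, h1, h2, h3, h4, h5, h6, h7, h8, h9, h10, h11⟩ := h
  refine ⟨_, A.map e.toMonoidHom, e a, e b, e x', e y', G0, inferInstance,
    π.comp e.symm.toMonoidHom, iK, iL, x, y, by simpa only [MulEquiv.toMonoidHom_eq_coe, map_mul] using h1.iso e, rfl,
    h3.comp e.symm.surjective, ?_, h5, ?_, e.toMonoidHom.map_isConj h7,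
    he.trans' (h8.map e.toMonoidHom), by simpa, by simpa, h11⟩
  · have := map_normalClosure {a, b} e.toMonoidHom e.surjective
    rw [← h2, ← h4] at this
    rw [← MonoidHom.comap_ker, ← Subgroup.map_equiv_eq_comap_symm']
    simpa [Set.image_insert_eq] using this
  · exact h6.trans' (by simpa only [MulEquiv.toMonoidHom_eq_coe, MonoidHom.coe_comp, MonoidHom.coe_coe, Function.comp_apply, MulEquiv.symm_apply_apply] using he.symm'.map (π.comp e.symm.toMonoidHom))

theorem JD.phi (h : JD m mK mL N) (hK : Good mK) (hL : Good mL) : HasPhi m := by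
  obtain ⟨A, a, b, x', y', G0, _, π, iK, iL, x, y, -, -, -, -, h5, h6, -⟩ := h
  exact (h5.phi hK.phi hL.phi).comap π h6

theorem JD.nc (h : JD m mK mL N) (hK : Good mK) (hL : Good mL) : ¬ IsCyclic G := by
  obtain ⟨A, a, b, x', y', G0, _, π, iK, iL, x, y, -, -, h3, -, h5, -⟩ := h
  obtain ⟨r, hr⟩ := h5.retr hL.phi
  exact fun _ => hK.nc (isCyclic_of_surjective (r.comp π)
    (Function.Surjective.comp (g := r) (fun k => ⟨_, hr k⟩) h3))

theorem JD.uniq {mK' : K'} {mL' : L'} (h : JD m mK mL N) (h' : JD m mK' mL' N) (hK : Good mK)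
    (hL : Good mL) (hK' : Good mK') (hL' : Good mL') :
    (MIso mK' mK ∨ MIso mK' mL) ∧ (MIso mL' mK ∨ MIso mL' mL) := by
  obtain ⟨A, a, b, x', y', G0, _, π, iK, iL, x, y, -, -, h3, h4, h5, h6, -⟩ := h
  obtain ⟨A', a', b', x'', y'', G1, _, π', iK', iL', x1, y1, -, -, k3, k4, k5, k6, -⟩ := h'
  let u := π'.liftOfSurjective k3 ⟨π, (k4.trans h4.symm).le⟩
  let v := π.liftOfSurjective h3 ⟨π', (h4.trans k4.symm).le⟩
  have hu : ∀ g, u (π' g) = π g := fun g => by simp [u]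
  have hv : ∀ g, v (π g) = π' g := fun g => by simp [v]
  let e : G1 ≃* G0 := MonoidHom.toMulEquiv u v
    (MonoidHom.ext fun g => by obtain ⟨g, rfl⟩ := k3 g; simp [hu, hv])
    (MonoidHom.ext fun g => by obtain ⟨g, rfl⟩ := h3 g; simp [hu, hv])
  have hm : Mer (iK mK) (u (iK' mK')) := h6.trans' (by simpa [hu] using (k6.map u).symm')
  have s := k5.iso e
  exact ⟨sum_uniq h5 s hK hL hK' hL' hm,
    sum_uniq h5 s.symm hK hL hL' hK' (by rw [← s.eq]; exact hm)⟩

theorem val_two (φ : G →* Multiplicative ℤ) (hφ : val φ m = 1) {x' y' : G} (h : IsConj x' y')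
    (h' : Mer m x') : val φ (x' * y') = 2 ∨ val φ (x' * y') = -2 := by
  have := val_conj φ h
  have := h'.val_eq φ
  rw [val_mul]
  omega

theorem jd_count (hφ : HasPhi m) {k : ℕ} (x : Fin k → G) (hx : closure (Set.range x) = ⊤)
    (S : Finset (Subgroup G))
    (hS : ∀ N ∈ S, ∃ (K L : Type) (_ : Group K) (_ : Group L) (mK : K) (mL : L), JD m mK mL N) :
    S.card ≤ 2 * k := by
  obtain ⟨φ, hφ⟩ := hφ
  have : ∀ N : S, ∃ A a b t, Piece A a b t ∧ (val φ t = 2 ∨ val φ t = -2) ∧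
      normalClosure ({a, b} : Set G) = N := by
    rintro ⟨N, hN⟩
    obtain ⟨K, L, _, _, mK, mL, A, a, b, x', y', G0, _, π, iK, iL, x, y, h1, h2, -, -, -, -, h7,
      h8, -⟩ := hS N hN
    exact ⟨A, a, b, _, h1, val_two φ hφ h7 h8, h2.symm⟩
  choose A a b t h1 h2 h3 using this
  simpa only [ge_iff_le, Fintype.card_coe] using piece_count A a b t h1 φ h2
    (fun i j e => Subtype.ext ((h3 i).symm.trans (e.trans (h3 j)))) x hx

theorem split_core {π : G →* G0} {iK : K →* G0} {iL : L →* G0} (hπ : Function.Surjective π)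
    (hs : IsSum iK iL mK mL) (hK : Good mK) (hL : Good mL) (hm : Mer (iK mK) (π m)) {x : K} {y : L}
    (hx : x ∉ zpowers mK) (hy : y ∉ zpowers mL) {P Q : Subgroup G} (hg : P ⊔ Q = ⊤) (hP : P ≠ ⊤)
    {k : G} (hC : P ⊓ Q ≤ zpowers (k * m * k⁻¹)) (hup : HasUP P Q (P ⊓ Q))
    (hell : ∃ g, g * m * g⁻¹ ∈ P ∨ g * m * g⁻¹ ∈ Q) {a b t : G} (ha : a ∈ P) (hb : b ∈ P)
    (ht : t ∈ P) (pa : π a = 1) (pb : π b = 1)
    (hd : ∀ (H : Type) [Group H] (F : G →* H), F a = 1 → F b = 1 →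
      ∃ F0 : G0 →* H, ∀ g, F0 (π g) = F g)
    {g0 : G0} (pt : π t = g0⁻¹ * (iK x * iL y) * g0) : False := by
  obtain ⟨φ, hφ⟩ := hs.phi hK.phi hL.phi
  obtain ⟨r, hr⟩ := hs.retr hL.phi
  obtain ⟨r', hr'⟩ := hs.symm.retr hK.phi
  obtain ⟨V, T, u, v, hT⟩ := exists_BS (A := P.map π) (B := Q.map π) (C := (P ⊓ Q).map π)
    (by rw [← Subgroup.map_sup, hg, map_top_of_surjective _ hπ]) (map_mono inf_le_left)
    (map_mono inf_le_right) (by
      intro H _ f f' hf
      obtain ⟨F, f1, f2⟩ := hup H (f.comp (π.subgroupMap P)) (f'.comp (π.subgroupMap Q))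
        fun s hs h1 h2 => hf _ ⟨s, hs, rfl⟩ ⟨s, h1, rfl⟩ ⟨s, h2, rfl⟩
      obtain ⟨F0, h0⟩ := hd H F
        ((f1 ⟨a, ha⟩).trans ((congrArg f (Subtype.ext pa)).trans f.map_one))
        ((f1 ⟨b, hb⟩).trans ((congrArg f (Subtype.ext pb)).trans f.map_one))
      refine ⟨F0, ?_, ?_⟩
      · rintro ⟨_, s, hs, rfl⟩; exact (h0 s).trans (f1 ⟨s, hs⟩)
      · rintro ⟨_, s, hs, rfl⟩; exact (h0 s).trans (f2 ⟨s, hs⟩))
  obtain ⟨k0, hk0⟩ := hm.zpowers_le (π k)
  have hC0 : (P ⊓ Q).map π ≤ zpowers (k0 * iK mK * k0⁻¹) :=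
    (map_mono hC).trans (by simpa only [MonoidHom.map_zpowers, map_mul, map_inv, zpowers_le] using hk0)
  have hc : T.Cyc (iK mK) := hT.cyc hC0
  have he : ∃ w, T.a (iK mK) w = w := by
    obtain ⟨g, h | h⟩ := hell
    · exact ((hm.cj (π g)).symm').ell T ((hT.su _).2 ⟨_, h, by simp only [map_mul, map_inv]⟩)
    · exact ((hm.cj (π g)).symm').ell T ((hT.sv _).2 ⟨_, h, by simp only [map_mul, map_inv]⟩)
  obtain ⟨p, hp⟩ := hK.pt.retract iK r hr (Mer.rfl' _) T he hc
  obtain ⟨q, hq⟩ := hL.pt.retract iL r' hr' (hs.eq ▸ Mer.rfl' _) T he hc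
  have htu : T.a (π t) u = u := (hT.su _).2 ⟨t, ht, rfl⟩
  by_cases hpq : p = q
  · subst hpq
    have hall : ∀ g, T.a g p = p := by
      intro g
      induction g using sup_ind hs.gen with
      | hA _ h => obtain ⟨_, rfl⟩ := h; exact hp _
      | hB _ h => obtain ⟨_, rfl⟩ := h; exact hq _
      | hm x y h1 h2 => rw [T.mul, h2, h1]
    obtain ⟨g, h | h⟩ := hT.vert Set.univ p fun s _ => hall s
    · have hi : Function.Injective ((φ.comp π).comp (P ⊓ Q).subtype) := by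
        refine (injective_iff_map_eq_one _).2 ?_
        rintro ⟨s, hs⟩ h0
        obtain ⟨j, rfl⟩ := mem_zpowers_iff.1 (hC hs)
        have h0 : val (φ.comp π) ((k * m * k⁻¹) ^ j) = 0 := h0
        have h1 : val (φ.comp π) m = 1 ∨ val (φ.comp π) m = -1 := hφ ▸ hm.val_eq φ
        obtain rfl : j = 0 := by rcases h1 with h1 | h1 <;> simpa only [conj_zpow, val_mul, val_zpow, h1, mul_one, val_inv, add_neg_cancel_comm, Int.reduceNeg, mul_neg, neg_eq_zero] using h0
        simp only [zpow_ofNat, pow_zero, mk_eq_one]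
      obtain ⟨H, _, U, W, e1, e2⟩ := pushout_inj _ (inclusion (inf_le_right : P ⊓ Q ≤ Q)) hi
        (inclusion_injective _)
      obtain ⟨F, f1, f2⟩ := hup H (U.comp ((φ.comp π).comp P.subtype)) W
        fun s hs _ _ => e1 ⟨s, hs⟩
      obtain ⟨F0, h0⟩ := hd H F ((f1 ⟨a, ha⟩).trans (by simp only [MonoidHom.coe_comp, coe_subtype, Function.comp_apply, pa, map_one]))
        ((f1 ⟨b, hb⟩).trans (by simp only [MonoidHom.coe_comp, coe_subtype, Function.comp_apply, pb, map_one]))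
      refine hP (top_le_iff.1 (hg ▸ sup_le le_rfl fun s hs => ?_))
      obtain ⟨c, hc, e⟩ := hT.inter (π s) (top_of_conj h ▸ mem_top _) ⟨s, hs, rfl⟩
      have : W ⟨c, hc.2⟩ = W ⟨s, hs⟩ := by rw [← f2, ← f2, ← h0, ← h0, e]
      obtain rfl : c = s := congrArg Subtype.val (e2 this)
      exact hc.1
    · obtain ⟨j, hj⟩ := mem_zpowers_iff.1
        (hC0 (hT.inter _ ⟨t, ht, rfl⟩ (top_of_conj h ▸ mem_top _)))
      refine hs.hyp hK.phi hL.phi hx hy (g0 * k0) (mem_zpowers_iff.2 ⟨j, ?_⟩)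
      rw [pt, conj_zpow] at hj
      rw [conj_zpow]
      calc g0 * k0 * iK mK ^ j * (g0 * k0)⁻¹ = g0 * (k0 * iK mK ^ j * k0⁻¹) * g0⁻¹ := by group
        _ = _ := by rw [hj]; group
  · have edge : ∀ p p' s, T.d p p' = 1 → T.a (iK mK) p = p → T.a (iK mK) p' = p' → T.a s p = p →
        T.a s p' = p' → s ∈ zpowers (iK mK) := by
      intro p p' s h1 h2 h3 h4 h5
      obtain ⟨g, hg⟩ := hc p p' h1
      obtain ⟨j, hj⟩ := mem_zpowers_iff.1 (hg _ h2 h3)
      have := congrArg (val φ) hj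
      obtain rfl : j = 1 := by simpa only [conj_zpow, val_mul, val_zpow, hφ, mul_one, val_inv, add_neg_cancel_comm] using this
      rw [← hj, zpow_one]
      exact hg s h4 h5
    have mq : T.a (iK mK) q = q := hs.eq ▸ hq mL
    obtain ⟨p', h1, h2⟩ := T.step p q hpq
    obtain ⟨q', h3, h4⟩ := T.step q p (Ne.symm hpq)
    have hw := T.fix_conj htu g0
    rw [pt, show g0 * (g0⁻¹ * (iK x * iL y) * g0) * g0⁻¹ = iK x * iL y by group] at hw
    have := T.S3 (hp x) (hq y) h1 h2 (fun e => hx (mem_of_retr hr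
      (edge p p' _ h1 (hp _) (T.fix_tow h1 h2 (hp _) mq) (hp x) e))) hw
    refine hy (mem_of_retr hr' ?_)
    rw [← hs.eq]
    exact edge q q' _ h3 mq (T.fix_tow h3 h4 mq (hp _)) (hq y) (T.fix_tow h3 h4 (hq y) this)

theorem JD.not_splits (h : JD m mK mL N) (hK : Good mK) (hL : Good mL) : ¬ Splits m := by
  obtain ⟨φ, hφ⟩ := h.phi hK hL
  obtain ⟨A, a, b, x', y', G0, _, π, iK, iL, x, y, h1, rfl, h3, h4, h5, h6, h7, h8, h9, h10, h11,
    h12⟩ := h
  rintro ⟨P, Q, hg, hP, hQ, ⟨g, hm⟩, ⟨k, hk⟩, hup⟩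
  have hup1 : HasUP P Q (P ⊓ Q) := fun H _ f f' hf =>
    hup H f f' fun x h1 h2 => hf x ⟨h1, h2⟩ h1 h2
  have hup2 : HasUP Q P (Q ⊓ P) := fun H _ f f' hf => by
    obtain ⟨F, f1, f2⟩ := hup H f' f fun x h1 h2 => (hf x ⟨h2, h1⟩ h2 h1).symm
    exact ⟨F, f2, f1⟩
  obtain ⟨V, T, u, v, hT⟩ := exists_BS hg inf_le_left inf_le_right hup1
  obtain ⟨δ, d1, -, d3, d4, d5⟩ := h1.delta φ (val_two φ hφ h7 h8)
  obtain ⟨w, w1, w2, w3⟩ := d1.fix h1.fig d3 d4 d5 T u fun p p' hp => ⟨1, by simp, by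
    obtain ⟨c, hc⟩ := hT.cyc hk p p' hp
    intro s hs e1 e2
    obtain ⟨j, rfl⟩ := mem_zpowers_iff.1 (hc s e1 e2)
    obtain rfl : j = 0 := by simpa only [conj_zpow, val_mul, val_zpow, hφ, mul_one, val_inv, add_neg_cancel_comm] using hs
    simp only [zpowers_one_eq_bot, zpow_ofNat, pow_zero, one_mem]⟩
  have pa : π a = 1 := (MonoidHom.mem_ker).1 (h4 ▸ subset_normalClosure (by simp))
  have pb : π b = 1 := (MonoidHom.mem_ker).1 (h4 ▸ subset_normalClosure (by simp))
  obtain ⟨c, hc⟩ := hT.vert {a, b, x' * y'} w (by rintro _ (rfl | rfl | rfl); exacts [w1, w2, w3])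
  have hd : ∀ (H : Type) [Group H] (F : G →* H), F (c⁻¹ * a * c) = 1 → F (c⁻¹ * b * c) = 1 →
      ∃ F0 : G0 →* H, ∀ g, F0 (π g) = F g := fun H _ F e1 e2 =>
    descend h3 h4 F (by simpa only [mul_assoc, map_mul, map_inv, inv_mul_eq_one, right_eq_mul] using e1)
      (by simpa only [mul_assoc, map_mul, map_inv, inv_mul_eq_one, right_eq_mul] using e2)
  have pt : π (c⁻¹ * (x' * y') * c) = (π c)⁻¹ * (iK x * iL y) * π c := by simp only [map_mul, map_inv, h9, h10]
  rcases hc with hc | hc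
  · exact split_core h3 h5 hK hL h6 h11 h12 hg hP hk hup1 ⟨g, Or.inl hm⟩ (hc a (by simp))
      (hc b (by simp)) (hc _ (by simp)) (by simp [pa]) (by simp [pb]) hd pt
  · exact split_core h3 h5 hK hL h6 h11 h12 (by rwa [sup_comm]) hQ (by rwa [inf_comm]) hup2
      ⟨g, Or.inr hm⟩ (hc a (by simp)) (hc b (by simp)) (hc _ (by simp)) (by simp [pa])
      (by simp [pb]) hd pt

open DihedralGroup

/-- number of dihedral colourings -/
noncomputable def Jn (p : ℕ) (m : G) : ℕ := Nat.card {f : G →* DihedralGroup p // f m = sr 0}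

theorem Jn_iso (p : ℕ) {m' : K} (h : MIso m m') : Jn p m = Jn p m' := by
  obtain ⟨e, he⟩ := h
  obtain ⟨g, hg⟩ := he.conj
  let e' := e.trans (MulAut.conj g⁻¹)
  refine Nat.card_congr (Equiv.subtypeEquiv e'.monoidHomCongrLeftEquiv fun f => ?_)
  obtain ⟨f, rfl⟩ := (e'.monoidHomCongrLeftEquiv (N := DihedralGroup p)).symm.surjective f
  have : e' m = m' ∨ e' m = m'⁻¹ := by
    rcases hg with hg | hg <;> simp only [e', map_inv, MulEquiv.trans_apply, hg, mul_assoc, MulAut.inv_apply, MulAut.conj_symm_apply, inv_mul_cancel_left, inv_mul_cancel, mul_one, true_or, or_true]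
  rcases this with h | h <;> simp only [MulEquiv.symm_monoidHomCongrLeftEquiv, MulEquiv.monoidHomCongrLeftEquiv_apply, MulEquiv.symm_symm, MulEquiv.toMonoidHom_eq_coe, MonoidHom.coe_comp, MonoidHom.coe_coe, Function.comp_apply, h, MulEquiv.apply_symm_apply, map_inv, inv_eq_iff_eq_inv, inv_sr]

theorem mer_sr {p : ℕ} {x : DihedralGroup p} (h : Mer (sr 0) x) : ∃ i, x = sr i := by
  obtain ⟨g, rfl | rfl⟩ := h.conj <;> cases g <;> simp

theorem fig_rot {p : ℕ} {a b : DihedralGroup p} {i : ZMod p} (h : Fig a b (r i)) :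
    a = 1 ∧ b = 1 := by
  obtain ⟨h1, h2⟩ := h
  rcases b with j | j
  · rcases a with k | k
    · simp only [r_mul_r, inv_r, r.injEq, one_def] at *
      constructor
      · linear_combination -h2 + h1
      · linear_combination -h1
    · simp at h2
  · rcases a with k | k <;> simp at h1

theorem JD.Jn (h : JD m mK mL N) (p : ℕ) : Jn p m = Jn p mK * Jn p mL := by
  obtain ⟨A, a, b, x', y', G0, _, π, iK, iL, x, y, h1, rfl, h3, h4, h5, h6, h7, h8, -⟩ := h
  have e1 : H25.Jn p (π m) = H25.Jn p m := by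
    refine Nat.card_eq_of_bijective (fun f => ⟨f.1.comp π, f.2⟩) ⟨fun f f' e => ?_, fun f => ?_⟩
    · refine Subtype.ext (MonoidHom.ext fun g => ?_)
      obtain ⟨g, rfl⟩ := h3 g
      exact DFunLike.congr_fun (congrArg Subtype.val e) g
    · obtain ⟨i, hi⟩ := mer_sr (f.2 ▸ h8.map f.1)
      obtain ⟨j, hj⟩ := mer_sr (f.2 ▸ (h8.trans' (Or.inl h7.symm)).map f.1)
      have := h1.fig.map f.1
      rw [map_mul, hi, hj, sr_mul_sr] at this
      obtain ⟨F, hF⟩ := descend h3 h4 f.1 (fig_rot this).1 (fig_rot this).2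
      exact ⟨⟨F, (hF m).trans f.2⟩, Subtype.ext (MonoidHom.ext hF)⟩
  rw [← e1, Jn_iso p (m := π m) ⟨MulEquiv.refl _, h6⟩, H25.Jn, H25.Jn, H25.Jn, ← Nat.card_prod]
  refine Nat.card_eq_of_bijective
    (fun f => (⟨f.1.comp iK, f.2⟩, ⟨f.1.comp iL, (congrArg f.1 h5.eq).symm.trans f.2⟩))
    ⟨fun f f' e => ?_, fun f => ?_⟩
  · refine Subtype.ext (MonoidHom.ext fun g => ?_)
    induction g using sup_ind h5.gen with
    | hA _ h =>
      obtain ⟨k, rfl⟩ := h
      exact DFunLike.congr_fun (congrArg (fun z => z.1.1) e) k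
    | hB _ h =>
      obtain ⟨k, rfl⟩ := h
      exact DFunLike.congr_fun (congrArg (fun z => z.2.1) e) k
    | hm x y h1 h2 => rw [map_mul, map_mul, h1, h2]
  · obtain ⟨F, f1, f2⟩ := h5.up _ f.1.1 f.2.1 (f.1.2.trans f.2.2.symm)
    exact ⟨⟨F, (f1 _).trans f.1.2⟩, Prod.ext (Subtype.ext (MonoidHom.ext f1))
      (Subtype.ext (MonoidHom.ext f2))⟩

end PartA3

end Pool.Agent.MP_b13154_gt.H25

end
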