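import Pool.Agent.MP_b13154_gt.Mg.H25_Alg

attribute [-instance] List.instDecidableMemOfLawfulBEq NonUnitalRingHomClass.toMulHomClass
  MonTypeEquivalenceMon.monMonoid Finset.decidableDforallFinset CommGroup.toDivisionCommMonoid
  Multiset.decidableDforallMultiset Vector.instDecidableForallForallMemOfDecidablePred
  Option.decidableForallMem Array.instDecidableForallForallMemOfDecidablePred
  NonUnitalAlgSemiHomClass.toMulHomClass littleWedderburn Int.decidableLTLE RKHS.instFunLike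
  AddQuantale.instAddLeftMono Int.decidableLELE Int.decidableLTLT Int.decidableLELT
  SemigroupWithZero.toSemigroup NormedRing.toRing AddQuantale.instAddRightMono FunLike.toDecidableEq
  CommMonoidWithZero.toMonoidWithZero NonUnitalRing.toNonUnitalNonAssocRing NormedCommRing.toCommRing
  IdemSemiring.toSemiring NonAssocSemiring.toMulZeroOneClass decidableEq_of_subsingleton
  LinearOrder.toDecidableEq NormedField.toField SeminormedRing.toRing GroupWithZero.toDivisionMonoid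
  SeminormedCommRing.toCommRing instCoeTCOfCoe EuclideanDomain.toCommRing Quantale.instMulRightMono
  CompletePartialOrder.toPartialOrder LinearOrderedCommGroupWithZero.toCommGroupWithZero
  NonAssocSemiring.toNonUnitalNonAssocSemiring NonUnitalSemiring.toNonUnitalNonAssocSemiring
  NumberField.to_charZero SubsemiringClass.toCommSemiring MonoidHomClass.toOneHomClass
  GroupWithZero.toDivInvMonoid NonUnitalNormedCommRing.toNonUnitalCommRing
  DivisionRing.toDivInvMonoid MonoidWithZero.toMonoid LieAdmissibleRing.toNonUnitalNonAssocRing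
  NeZero.of_gt' Group.IsPerfect.subsingleton_of_isMulCommutative BooleanRing.toRing
  NonUnitalNonAssocCommSemiring.toNonUnitalNonAssocSemiring SetLike.GradeZero.instSemiring
  SetLike.GradeZero.instCommSemiring IdemCommSemiring.toCommSemiring
  FirstOrder.Language.instDecidableEqRelations BooleanRing.toCommRing
  NonUnitalSeminormedCommRing.toNonUnitalCommRing TestFunctionClass.toDFunLike
  ContDiffMapSupportedInClass.toDFunLike IdemSemiring.toCanonicallyOrderedAdd Field.toCommRing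
  AddCommMonoidWithOne.toAddMonoidWithOne SemigroupWithZero.toMulZeroClass SetLike.GradeZero.instRing
  Valued.toUniformSpace NonAssocRing.toNonUnitalNonAssocRing Invertible.toNeZero
  NonAssocCommRing.toNonUnitalNonAssocCommRing SetLike.GradeZero.instMonoid

/-!
Diagrams: colourings, moves, the join, base knots, counting and asymptotics.
-/

namespace Pool.Agent.MP_b13154_gt.H25

section PartD1


open Subgroup

section Cr

variable {H H' : Type} [Group H] [Group H']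

/-- solved form of the relations at a crossing -/
def Cr : Bool → Bool → H → H → H → H → Prop
  | true, true, b, a, b', a' => b' = b⁻¹ ∧ a' = b⁻¹ * a⁻¹ * b
  | true, false, b, a, b', a' => a' = a⁻¹ ∧ b' = a⁻¹ * b⁻¹ * a
  | false, true, b, a, b', a' => b' = b⁻¹ ∧ a' = b * a⁻¹ * b⁻¹
  | false, false, b, a, b', a' => a' = a⁻¹ ∧ b' = a * b⁻¹ * a⁻¹

variable {s o : Bool} {b a b' a' : H}

theorem cr_iff : Cr s o b a b' a' ↔ ∀ r ∈ crossRels s o b a b' a', r = 1 := by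
  cases s <;> cases o <;> simp only [Cr, crossRels, Set.mem_insert_iff, Set.mem_singleton_iff,
    forall_eq_or_imp, forall_eq, Bool.false_eq_true, if_true, if_false] <;>
  refine ⟨fun ⟨h1, h2⟩ => by subst h1 h2; constructor <;> group, fun ⟨h1, h2⟩ => ?_⟩ <;>
  obtain rfl := eq_inv_of_mul_eq_one_right h2 <;> refine ⟨rfl, ?_⟩
  · exact (mul_inv_eq_one.1 h1).symm
  · calc a' = b * a⁻¹ * (a * b⁻¹ * a' * b⁻¹⁻¹) * b⁻¹ := by group
      _ = _ := by rw [h1]; group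
  · calc b' = a⁻¹ * (b⁻¹ * a * b'⁻¹ * a⁻¹)⁻¹ * b⁻¹ * a := by group
      _ = _ := by rw [h1]; group
  · calc a' = b⁻¹ * a⁻¹ * b * (b⁻¹ * a * b⁻¹⁻¹ * a') := by group
      _ = _ := by rw [h1]; group

theorem Cr.map (h : Cr s o b a b' a') (f : H →* H') : Cr s o (f b) (f a) (f b') (f a') := by
  cases s <;> cases o <;> obtain ⟨rfl, rfl⟩ := h <;> simp only [Cr, map_inv, map_mul, and_self]

theorem Cr.of_map (f : H →* H') (hf : Function.Injective f)
    (h : Cr s o (f b) (f a) (f b') (f a')) : Cr s o b a b' a' := by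
  cases s <;> cases o <;> exact ⟨hf (by simpa using h.1), hf (by simpa only [map_mul, map_inv] using h.2)⟩

theorem Cr.flip (h : Cr s o b a b' a') : Cr (!s) o b⁻¹ a⁻¹ b'⁻¹ a'⁻¹ := by
  cases s <;> cases o <;> obtain ⟨rfl, rfl⟩ := h <;> simp only [Cr, Bool.not_false, mul_assoc, mul_inv_rev, inv_inv, and_self, Bool.not_true]

theorem Cr.mer (h : Cr s o b a b' a') : Mer b b' ∧ Mer a a' := by
  cases s <;> cases o <;> obtain ⟨rfl, rfl⟩ := h
  exacts [⟨(Mer.rfl' _).inv.cj _, (Mer.rfl' _).inv⟩, ⟨(Mer.rfl' _).inv, (Mer.rfl' _).inv.cj _⟩,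
    ⟨(Mer.rfl' _).inv.cj' _, (Mer.rfl' _).inv⟩, ⟨(Mer.rfl' _).inv, (Mer.rfl' _).inv.cj' _⟩]

theorem Cr.of_comm (h : Commute a b) : Cr s o b a b⁻¹ a⁻¹ := by
  have h1 := h.inv_left.eq
  have h2 := h.inv_right.eq
  have h3 := h.inv_inv.eq
  cases s <;> cases o <;> refine ⟨rfl, ?_⟩
  · rw [h2]; group
  · rw [← h1]; group
  · rw [h3]; group
  · rw [← h3]; group

end Cr

namespace Diag

variable {n : ℕ} (D : Diag n) {H : Type} [Group H]

def t (p : ℕ) : ℕ := if h : p < 2 * n then D.mate ⟨p, h⟩ else 0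
def s (p : ℕ) : Bool := if h : p < 2 * n then D.side ⟨p, h⟩ else true
def o (p : ℕ) : Bool := if h : p < 2 * n then D.top ⟨p, h⟩ else true
def x (i : ℕ) : D.grp := if h : i < 2 * n + 1 then PresentedGroup.of ⟨i, h⟩ else 1

theorem t_lt {p : ℕ} (h : p < 2 * n) : D.t p < 2 * n := by simp [t, h]
theorem t_t {p : ℕ} (h : p < 2 * n) : D.t (D.t p) = p := by simp [t, h, D.mate_mate]
theorem t_ne {p : ℕ} (h : p < 2 * n) : D.t p ≠ p := by
  simpa [t, h, Fin.ext_iff] using D.mate_ne ⟨p, h⟩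
theorem s_t {p : ℕ} (h : p < 2 * n) : D.s (D.t p) = D.s p := by simp [t, s, h, D.side_mate]
theorem o_t {p : ℕ} (h : p < 2 * n) : D.o (D.t p) = D.o p := by simp [t, o, h, D.top_mate]
theorem pl {p q : ℕ} (hp : p < 2 * n) (hq : q < 2 * n) (h : D.s p = D.s q) :
    ¬ (p < q ∧ q < D.t p ∧ D.t p < D.t q) := by
  simp only [s, hp, hq, dif_pos] at h
  simp only [t, hp, hq, dif_pos]
  exact D.planar ⟨p, hp⟩ ⟨q, hq⟩ h
theorem x_zero : D.x 0 = D.mer := by simp [x, mer]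
theorem x_fin (i : Fin (2 * n + 1)) : D.x i = PresentedGroup.of i := by simp [x, i.2]

def LCol (c : ℕ → H) : Prop :=
  ∀ p < 2 * n, Cr (D.s p) (D.o p) (c p) (c (p + 1)) (c (D.t p)) (c (D.t p + 1))

theorem paren_aux (S : ℕ → Prop) (g I : ℕ → H) (hS : ∀ p < 2 * n, S p → S (D.t p))
    (hs : ∀ p q, S p → S q → D.s p = D.s q)
    (hg : ∀ p < 2 * n, S p → g p * g (D.t p) = 1) (h1 : ∀ p, S p → I (p + 1) = I p * g p)
    (h2 : ∀ p, ¬ S p → I (p + 1) = I p) (k : ℕ) : ∀ i j, j = i + k → j ≤ 2 * n →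
      (∀ r, S r → i ≤ r → r < j → i ≤ D.t r ∧ D.t r < j) → I j = I i := by
  induction k using Nat.strong_induction_on with
  | _ k ih =>
    intro i j hj hn hc
    rcases Nat.eq_zero_or_pos k with rfl | hk
    · rw [hj, add_zero]
    by_cases hi : S i
    · have a1 := hc i hi le_rfl (by omega)
      have a2 := D.t_ne (p := i) (by omega)
      have a3 := D.t_t (p := i) (by omega)
      have inner : ∀ r, S r → i + 1 ≤ r → r < D.t i → i + 1 ≤ D.t r ∧ D.t r < D.t i := by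
        intro r hr b1 b2
        have := hc r hr (by omega) (by omega)
        have := D.pl (p := i) (q := r) (by omega) (by omega) (hs _ _ hi hr)
        have e := D.t_t (p := r) (by omega)
        have : D.t r ≠ i := fun h => by rw [h] at e; omega
        have : D.t r ≠ D.t i := fun h => by rw [h] at e; omega
        omega
      have e1 := ih (D.t i - (i + 1)) (by omega) (i + 1) (D.t i) (by omega) (by omega) inner
      have e2 := ih (j - (D.t i + 1)) (by omega) (D.t i + 1) j (by omega) hn fun r hr b1 b2 => by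
        have := hc r hr (by omega) b2
        have e := D.t_t (p := r) (by omega)
        have : D.t r ≠ i := fun h => by rw [h] at e; omega
        have : D.t r ≠ D.t i := fun h => by rw [h] at e; omega
        have := inner (D.t r) (hS r (by omega) hr)
        omega
      rw [e2, h1 _ (hS i (by omega) hi), e1, h1 i hi, mul_assoc, hg i (by omega) hi, mul_one]
    · rw [← h2 i hi]
      refine ih (k - 1) (by omega) (i + 1) j (by omega) hn fun r hr b1 b2 => ?_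
      have := hc r hr (by omega) b2
      have : D.t r ≠ i := fun h => hi (h ▸ hS r (by omega) hr)
      omega

theorem paren {c : ℕ → H} (h : D.LCol c) : c (2 * n) = c 0 := by
  let I : ℕ → H := fun k => Nat.rec 1
    (fun p z => if D.s p = true then z * ((c p)⁻¹ * c (p + 1)) else z) k
  let O : ℕ → H := fun k => Nat.rec 1
    (fun p z => if D.s p = false then z * (c p * (c (p + 1))⁻¹) else z) k
  have hI : ∀ p, I (p + 1) = if D.s p = true then I p * ((c p)⁻¹ * c (p + 1)) else I p :=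
    fun _ => rfl
  have hO : ∀ p, O (p + 1) = if D.s p = false then O p * (c p * (c (p + 1))⁻¹) else O p :=
    fun _ => rfl
  have key : ∀ k, c k = (O k)⁻¹ * c 0 * I k := by
    intro k
    induction k with
    | zero => simp [I, O]
    | succ k ih =>
      rw [hI, hO]
      cases D.s k
      · simp only [if_true, Bool.false_eq_true, if_false]
        calc c (k + 1) = c (k + 1) * (c k)⁻¹ * c k := by group
          _ = _ := by nth_rewrite 2 [ih]; group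
      · simp only [if_true, Bool.true_eq_false, if_false]
        calc c (k + 1) = c k * ((c k)⁻¹ * c (k + 1)) := by group
          _ = _ := by nth_rewrite 1 [ih]; group
  have e1 : I (2 * n) = I 0 := D.paren_aux (fun p => D.s p = true)
    (fun p => (c p)⁻¹ * c (p + 1)) I (fun p hp h => (D.s_t hp).trans h)
    (fun p q h1 h2 => h1.trans h2.symm) (fun p hp hs => by
      have := h p hp
      rw [hs] at this
      cases ho : D.o p <;> rw [ho] at this <;> rw [this.1, this.2] <;> group)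
    (fun p hp => by simp [hI, hp]) (fun p hp => by simp [hI, hp]) _ 0 _ (zero_add _).symm le_rfl
    fun r _ _ hr => ⟨Nat.zero_le _, D.t_lt hr⟩
  have e2 : O (2 * n) = O 0 := D.paren_aux (fun p => D.s p = false)
    (fun p => c p * (c (p + 1))⁻¹) O (fun p hp h => (D.s_t hp).trans h)
    (fun p q h1 h2 => h1.trans h2.symm) (fun p hp hs => by
      have := h p hp
      rw [hs] at this
      cases ho : D.o p <;> rw [ho] at this <;> rw [this.1, this.2] <;> group)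
    (fun p hp => by simp [hO, hp]) (fun p hp => by simp [hO, hp]) _ 0 _ (zero_add _).symm le_rfl
    fun r _ _ hr => ⟨Nat.zero_le _, D.t_lt hr⟩
  rw [key, e1, e2]
  simp [I, O]

theorem cross_map {G : Type} [Group G] (f : G →* H) (s o : Bool) (b a b' a' : G) :
    (∀ r ∈ crossRels s o b a b' a', f r = 1) ↔ Cr s o (f b) (f a) (f b') (f a') := by
  rw [cr_iff]
  cases s <;> cases o <;> simp only [crossRels, Bool.false_eq_true, ↓ reduceIte, Set.mem_insert_iff, Set.mem_singleton_iff, forall_eq_or_imp, map_mul, map_inv, forall_eq]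

theorem x_lcol : D.LCol D.x := by
  intro p hp
  have := (cross_map (PresentedGroup.mk D.rels) _ _ _ _ _ _).1 fun r hr =>
    PresentedGroup.one_of_mem (Or.inr (Set.mem_iUnion.2 ⟨⟨p, hp⟩, hr⟩))
  have e1 := D.x_fin (Fin.castSucc ⟨p, hp⟩)
  have e2 := D.x_fin (Fin.succ ⟨p, hp⟩)
  have e3 := D.x_fin (Fin.castSucc (D.mate ⟨p, hp⟩))
  have e4 := D.x_fin (Fin.succ (D.mate ⟨p, hp⟩))
  simp only [Fin.val_castSucc, Fin.val_succ] at e1 e2 e3 e4
  simp only [s, o, t, hp, dif_pos, e1, e2, e3, e4]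
  exact this

theorem x_close : D.x (2 * n) = D.mer := (D.paren D.x_lcol).trans D.x_zero

theorem lift {c : ℕ → H} (h : D.LCol c) : ∃ f : D.grp →* H, ∀ i ≤ 2 * n, f (D.x i) = c i := by
  refine ⟨PresentedGroup.toGroup (f := fun i : Fin (2 * n + 1) => c i) ?_, fun i hi => ?_⟩
  · rintro r (rfl | hr)
    · simp [D.paren h]
    · obtain ⟨p, hp⟩ := Set.mem_iUnion.1 hr
      refine (cross_map _ _ _ _ _ _ _).2 ?_ r hp
      simpa [s, o, t] using h p p.2
  · simp [x, Nat.lt_succ_of_le hi]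

theorem gen (S : Subgroup D.grp) (h : ∀ i ≤ 2 * n, D.x i ∈ S) : S = ⊤ := by
  rw [eq_top_iff, ← PresentedGroup.closure_range_of, closure_le]
  rintro _ ⟨i, rfl⟩
  exact D.x_fin i ▸ h i (Nat.le_of_lt_succ i.2)

theorem hom_ext {f g : D.grp →* H} (h : ∀ i ≤ 2 * n, f (D.x i) = g (D.x i)) : f = g :=
  PresentedGroup.ext fun i => D.x_fin i ▸ h i (Nat.le_of_lt_succ i.2)

theorem isKnot_iff : D.IsKnot ↔ ∀ i ≤ 2 * n, Mer D.mer (D.x i) :=
  ⟨fun h i hi => by simpa [x, Nat.lt_succ_of_le hi] using h _,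
    fun h i => D.x_fin i ▸ h i (Nat.le_of_lt_succ i.2)⟩

theorem knot_pred (hD : D.IsKnot) (M : ℕ → Prop)
    (h : ∀ p < 2 * n, (M p → M (D.t p)) ∧ (M (p + 1) → M (D.t p + 1))) (h0 : M 0) :
    ∀ i ≤ 2 * n, M i := by
  classical
  let c : ℕ → Multiplicative (ZMod 2) := fun i => if M i then Multiplicative.ofAdd 1 else 1
  have hi : ∀ z : Multiplicative (ZMod 2), z⁻¹ = z := by decide
  obtain ⟨f, hf⟩ := D.lift (c := c) fun p hp => by
    have h1 := h p hp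
    have h2 := h _ (D.t_lt hp)
    rw [D.t_t hp] at h2
    have e1 : c (D.t p) = (c p)⁻¹ := by simp only [c, hi, show M (D.t p) ↔ M p from ⟨h2.1, h1.1⟩]
    have e2 : c (D.t p + 1) = (c (p + 1))⁻¹ := by
      simp only [c, hi, show M (D.t p + 1) ↔ M (p + 1) from ⟨h2.2, h1.2⟩]
    rw [e1, e2]
    exact Cr.of_comm (Commute.all _ _)
  intro i hi'
  have := ((D.isKnot_iff.1 hD) i hi').map f
  rw [← D.x_zero, hf i hi', hf 0 (by omega)] at this
  by_contra hM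
  simp only [Mer, c, hM, ↓ reduceIte, h0, isConj_iff_eq, hi, or_self] at this
  exact absurd this (by decide)

end Diag

theorem two_inv {X : Type} (σ τ : Equiv.Perm X) (hσ : σ * σ = 1) (hτ : τ * τ = 1)
    (h1 : ∀ x, σ x ≠ x) (h2 : ∀ x, τ x ≠ x) :
    ∃ ε : X → Bool, ∀ x, ε (σ x) = !ε x ∧ ε (τ x) = !ε x := by
  classical
  set ρ := σ * τ with hρ
  have c1 : σ * ρ * σ⁻¹ = ρ⁻¹ := by
    rw [hρ, ← mul_assoc, hσ, one_mul, mul_inv_rev, inv_eq_of_mul_eq_one_right hτ]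
  have c2 : ∀ i : ℤ, σ * ρ ^ i = ρ ^ (-i) * σ := fun i => by
    rw [zpow_neg, ← inv_zpow, ← c1, conj_zpow]; group
  have c3 : τ = σ * ρ := by rw [hρ, ← mul_assoc, hσ, one_mul]
  let q : X → Set X := fun x => {y | ρ.SameCycle x y}
  have hq : ∀ x, q x ≠ q (σ x) := by
    intro x h
    have : σ x ∈ q x := h ▸ Equiv.Perm.SameCycle.refl _ _
    obtain ⟨i, hi⟩ := this
    obtain ⟨j, rfl | rfl⟩ := Int.even_or_odd' i
    · apply h1 ((ρ ^ j) x)
      rw [← Equiv.Perm.mul_apply, c2, Equiv.Perm.mul_apply, ← hi, ← Equiv.Perm.mul_apply,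
        ← zpow_add]
      congr 2; ring
    · apply h2 ((ρ ^ j) x)
      rw [← Equiv.Perm.mul_apply, c3, mul_assoc, ← zpow_one_add, c2, Equiv.Perm.mul_apply, ← hi,
        ← Equiv.Perm.mul_apply, ← zpow_add]
      congr 2; ring
  have ss : ∀ x, σ (σ x) = x := fun x => by rw [← Equiv.Perm.mul_apply, hσ]; rfl
  refine ⟨fun x => decide (WellOrderingRel (q x) (q (σ x))), fun x => ?_⟩
  have e0 : decide (WellOrderingRel (q (σ x)) (q x)) =
      !decide (WellOrderingRel (q x) (q (σ x))) := by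
    rcases trichotomous_of WellOrderingRel (q x) (q (σ x)) with h | h | h
    · simp [h, asymm_of WellOrderingRel h]
    · exact absurd h (hq x)
    · simp [h, asymm_of WellOrderingRel h]
  have e1 : q (σ (τ x)) = q x := Set.ext fun y => Equiv.Perm.sameCycle_apply_left (f := ρ)
  have e2 : q (τ x) = q (σ x) := by
    have : τ x = ρ⁻¹ (σ x) := by
      rw [← Equiv.Perm.mul_apply, ← c1, c3]; simp only [Equiv.Perm.coe_mul, Function.comp_apply, inv_mul_cancel_right]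
    rw [this]
    exact Set.ext fun y => Equiv.Perm.sameCycle_symm_apply_left
  simp only [ss, e1, e2, e0, and_self]

theorem Diag.hasPhi {n : ℕ} (D : Diag n) : HasPhi D.mer := by
  rcases Nat.eq_zero_or_pos n with rfl | hn
  · obtain ⟨f, hf⟩ := D.lift (c := fun _ => Multiplicative.ofAdd (1 : ℤ)) fun p hp => by omega
    exact ⟨f, by rw [val, ← D.x_zero, hf 0 le_rfl]; rfl⟩
  let σ : Equiv.Perm (Fin (2 * n)) := Function.Involutive.toPerm D.mate D.mate_mate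
  have hσ : σ * σ = 1 := Equiv.ext D.mate_mate
  let r : Equiv.Perm (Fin (2 * n)) := finRotate _
  obtain ⟨ε, hε⟩ := two_inv σ (r * σ * r⁻¹) hσ (by rw [conj_mul, hσ]; simp) D.mate_ne
    (fun x h => D.mate_ne (r⁻¹ x) (r.injective (h.trans (r.apply_symm_apply x).symm)))
  let c : ℕ → Multiplicative ℤ := fun i =>
    Multiplicative.ofAdd (if ε ⟨i % (2 * n), Nat.mod_lt _ (by omega)⟩ then 1 else -1)
  have hr : ∀ p : Fin (2 * n), r p = ⟨(p + 1) % (2 * n), Nat.mod_lt _ (by omega)⟩ := by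
    intro p
    obtain ⟨k, hk⟩ : ∃ k, 2 * n = k + 1 := ⟨2 * n - 1, by omega⟩
    have : ∀ (N : ℕ) (h : N = k + 1) (p : Fin N),
        finRotate N p = ⟨(p + 1) % N, Nat.mod_lt _ (by omega)⟩ := by
      rintro _ rfl p
      simp [Fin.ext_iff, Fin.val_add]
    exact this _ hk p
  obtain ⟨f, hf⟩ := D.lift (c := c) fun p hp => by
    have h1 := (hε ⟨p, hp⟩).1
    have h2 := (hε (r ⟨p, hp⟩)).2
    simp only [Equiv.Perm.mul_apply, Equiv.Perm.inv_def, Equiv.symm_apply_apply] at h2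
    rw [hr, hr] at h2
    have e1 : c (D.t p) = (c p)⁻¹ := by
      have : σ ⟨p, hp⟩ = D.mate ⟨p, hp⟩ := rfl
      simp only [c, Diag.t, hp, dif_pos, Nat.mod_eq_of_lt, Fin.is_lt, Fin.eta, ← this, h1]
      cases ε ⟨p, hp⟩ <;> simp only [Bool.not_false, ↓ reduceIte, Bool.false_eq_true, Int.reduceNeg, ofAdd_neg, inv_inv, Bool.not_true]
    have e2 : c (D.t p + 1) = (c (p + 1))⁻¹ := by
      have : σ ⟨p, hp⟩ = D.mate ⟨p, hp⟩ := rfl
      simp only [c, Diag.t, hp, dif_pos, ← this, h2]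
      cases ε _ <;> simp
    rw [e1, e2]
    exact Cr.of_comm (Commute.all _ _)
  have : val f D.mer = 1 ∨ val f D.mer⁻¹ = 1 := by
    rw [val_inv, val, ← D.x_zero, hf 0 (by omega)]
    simp only [c]
    cases ε _ <;> simp only [Bool.false_eq_true, ↓ reduceIte, Int.reduceNeg, ofAdd_neg, toAdd_inv, toAdd_ofAdd, reduceCtorEq, neg_neg, or_true, or_false]
  rcases this with h | h
  · exact ⟨f, h⟩
  · exact HasPhi.comap ⟨f, h⟩ (MonoidHom.id _) (Mer.rfl' _).inv.symm'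

end PartD1

section PartD2


open Subgroup

theorem exists_D (n : ℕ) {α : Type} (S : α → Prop) (pos : α → ℕ) (τ : α → α) (s o : α → Bool)
    (hinj : ∀ y z, S y → S z → pos y = pos z → y = z) (hlt : ∀ z, S z → pos z < 2 * n)
    (hsur : ∀ P < 2 * n, ∃ z, S z ∧ pos z = P) (hS : ∀ z, S z → S (τ z))
    (hτ : ∀ z, S z → τ (τ z) = z ∧ τ z ≠ z ∧ s (τ z) = s z ∧ o (τ z) = o z)
    (hpl : ∀ y z, S y → S z → s y = s z →
      ¬ (pos y < pos z ∧ pos z < pos (τ y) ∧ pos (τ y) < pos (τ z))) :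
    ∃ D : Diag n, (∀ z, S z → D.s (pos z) = s z) ∧ ∀ (H : Type) [Group H] (c : ℕ → H),
      D.LCol c ↔ ∀ z, S z →
        Cr (s z) (o z) (c (pos z)) (c (pos z + 1)) (c (pos (τ z))) (c (pos (τ z) + 1)) := by
  choose dec hd1 hd2 using fun p : Fin (2 * n) => hsur p p.2
  have hdec : ∀ z (hz : S z), dec ⟨pos z, hlt z hz⟩ = z := fun z hz =>
    hinj _ _ (hd1 _) hz (hd2 _)
  let D : Diag n :=
    { mate := fun p => ⟨pos (τ (dec p)), hlt _ (hS _ (hd1 p))⟩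
      side := fun p => s (dec p)
      top := fun p => o (dec p)
      mate_mate := fun p => Fin.ext (by
        simp only [hdec _ (hS _ (hd1 p)), (hτ _ (hd1 p)).1, hd2])
      mate_ne := fun p h => (hτ _ (hd1 p)).2.1 (hinj _ _ (hS _ (hd1 p)) (hd1 p)
        ((congrArg Fin.val h).trans (hd2 p).symm))
      side_mate := fun p => by simp only [hdec _ (hS _ (hd1 p)), (hτ _ (hd1 p)).2.2.1]
      top_mate := fun p => by simp only [hdec _ (hS _ (hd1 p)), (hτ _ (hd1 p)).2.2.2]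
      planar := fun p q h => by
        have := hpl _ _ (hd1 p) (hd1 q) h
        rw [hd2, hd2] at this
        exact this }
  have e : ∀ z, S z → D.s (pos z) = s z ∧ D.o (pos z) = o z ∧ D.t (pos z) = pos (τ z) := by
    intro z hz
    simp only [Diag.s, Diag.o, Diag.t, hlt z hz, dif_pos, D, hdec z hz, and_self]
  refine ⟨D, fun z hz => (e z hz).1, fun H _ c => ⟨fun h z hz => ?_, fun h p hp => ?_⟩⟩
  · have := h _ (hlt z hz)
    rwa [(e z hz).1, (e z hz).2.1, (e z hz).2.2] at this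
  · obtain ⟨z, hz, rfl⟩ := hsur p hp
    rw [(e z hz).1, (e z hz).2.1, (e z hz).2.2]
    exact h z hz

namespace Diag

variable {n n' : ℕ}

theorem sim_of (D : Diag n) (D' : Diag n') (c : ℕ → D.grp) (c' : ℕ → D'.grp) (hc : D'.LCol c)
    (hc' : D.LCol c') (hm : ∀ i ≤ 2 * n', Mer D.mer (c i))
    (h1 : ∀ f : D.grp →* D'.grp, (∀ i ≤ 2 * n, f (D.x i) = c' i) → ∀ i ≤ 2 * n', f (c i) = D'.x i)
    (h2 : ∀ f : D'.grp →* D.grp, (∀ i ≤ 2 * n', f (D'.x i) = c i) → ∀ i ≤ 2 * n, f (c' i) = D.x i) :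
    D'.IsKnot ∧ MIso D.mer D'.mer ∧ ∃ e : D'.grp ≃* D.grp, ∀ i ≤ 2 * n', e (D'.x i) = c i := by
  obtain ⟨f, hf⟩ := D'.lift hc
  obtain ⟨g, hg⟩ := D.lift hc'
  let e : D'.grp ≃* D.grp := MonoidHom.toMulEquiv f g
    (D'.hom_ext fun i hi => by simp [hf i hi, h1 g hg i hi])
    (D.hom_ext fun i hi => by simp [hg i hi, h2 f hf i hi])
  have k : ∀ i ≤ 2 * n', Mer (g D.mer) (D'.x i) := fun i hi => h1 g hg i hi ▸ (hm i hi).map g
  have k0 := D'.x_zero ▸ k 0 (Nat.zero_le _)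
  exact ⟨D'.isKnot_iff.2 fun i hi => k0.symm'.trans' (k i hi), ⟨e.symm, k0.symm'⟩, e, hf⟩

theorem rot (D : Diag n) (hD : D.IsKnot) (k : ℕ) (hk : k ≤ 2 * n) : ∃ D' : Diag n, D'.IsKnot ∧
    MIso D.mer D'.mer ∧ ∃ e : D'.grp ≃* D.grp,
      ∀ i ≤ 2 * n, e (D'.x i) = D.x (if i + k ≤ 2 * n then i + k else i + k - 2 * n) := by
  obtain ⟨D', -, h⟩ := exists_D n (fun p => p < 2 * n)
    (fun p => if p < k then p + 2 * n - k else p - k) D.t D.s D.o
    (fun y z hy hz => by split_ifs <;> omega) (fun z hz => by split_ifs <;> omega)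
    (fun P hP => by
      by_cases h : P + k < 2 * n
      · exact ⟨P + k, h, by split_ifs <;> omega⟩
      · exact ⟨P + k - 2 * n, by omega, by split_ifs <;> omega⟩)
    (fun z => D.t_lt) (fun z hz => ⟨D.t_t hz, D.t_ne hz, D.s_t hz, D.o_t hz⟩)
    (fun y z hy hz h => by
      have a1 := D.t_lt hy
      have a2 := D.t_lt hz
      have := D.pl hy hz h
      have := D.pl hz a1 (h.symm.trans (D.s_t hy).symm)
      have := D.pl a1 a2 ((D.s_t hy).trans (h.trans (D.s_t hz).symm))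
      have := D.pl a2 hy ((D.s_t hz).trans h.symm)
      rw [D.t_t hy] at *
      rw [D.t_t hz] at *
      split_ifs <;> omega)
  have x0 : D.x (2 * n) = D.x 0 := D.paren D.x_lcol
  have x0' : D'.x (2 * n) = D'.x 0 := D'.paren D'.x_lcol
  refine ⟨D', D.sim_of D' _ (fun i => D'.x (if i < k then i + 2 * n - k else i - k)) ?_ ?_
    (fun i hi => D.isKnot_iff.1 hD _ (by split_ifs <;> omega)) (fun f hf i hi => ?_)
    (fun f hf i hi => ?_)⟩
  · have e : ∀ p < 2 * n, ∀ P, P = (if p < k then p + 2 * n - k else p - k) →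
        D.x (if P + k ≤ 2 * n then P + k else P + k - 2 * n) = D.x p ∧
        D.x (if P + 1 + k ≤ 2 * n then P + 1 + k else P + 1 + k - 2 * n) = D.x (p + 1) := by
      intro p hp P hP
      constructor
      · by_cases h0 : p = 0 ∧ 0 < k
        · rw [h0.1, ← x0]; congr 1; split_ifs at * <;> omega
        · congr 1; split_ifs at * <;> omega
      · congr 1; split_ifs at * <;> omega
    refine (h _ _).2 fun p hp => ?_
    simp only [(e p hp _ rfl).1, (e p hp _ rfl).2, (e _ (D.t_lt hp) _ rfl).1,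
      (e _ (D.t_lt hp) _ rfl).2]
    exact D.x_lcol p hp
  · have e : ∀ p < 2 * n, D'.x (if p + 1 < k then p + 1 + 2 * n - k else p + 1 - k) =
        D'.x ((if p < k then p + 2 * n - k else p - k) + 1) := by
      intro p hp
      by_cases h0 : p + 1 = k
      · rw [if_neg (by omega), if_pos (by omega), show p + 1 - k = 0 by omega, ← x0']
        congr 1; omega
      · congr 1; split_ifs <;> omega
    intro p hp
    simp only [e p hp, e _ (D.t_lt hp)]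
    exact (h _ _).1 D'.x_lcol p hp
  · rw [hf _ (by split_ifs <;> omega)]
    by_cases h0 : i = 2 * n ∧ 0 < k
    · rw [h0.1, x0']; congr 1; split_ifs <;> omega
    · congr 1; split_ifs <;> omega
  · rw [hf _ (by split_ifs <;> omega)]
    by_cases h0 : i = 0 ∧ 0 < k
    · rw [h0.1, ← x0]; congr 1; split_ifs <;> omega
    · congr 1; split_ifs <;> omega

theorem flip (D : Diag n) (hD : D.IsKnot) {p : ℕ} (hp : p < 2 * n) : ∃ D' : Diag n, D'.IsKnot ∧
    MIso D.mer D'.mer ∧ D'.s p = true ∧ ∃ e : D'.grp ≃* D.grp,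
      (∀ i ≤ 2 * n, e (D'.x i) = D.x i) ∨ ∀ i ≤ 2 * n, e (D'.x i) = (D.x i)⁻¹ := by
  cases hs : D.s p
  · obtain ⟨D', h0, h⟩ := exists_D n (fun p => p < 2 * n) id D.t (fun p => !D.s p) D.o
      (fun y z _ _ h => h) (fun z hz => hz) (fun P hP => ⟨P, hP, rfl⟩) (fun z => D.t_lt)
      (fun z hz => ⟨D.t_t hz, D.t_ne hz, by rw [D.s_t hz], D.o_t hz⟩)
      (fun y z hy hz h => D.pl hy hz (by simpa using h))
    obtain ⟨h1, h2, e, he⟩ := D.sim_of D' (fun i => (D.x i)⁻¹) (fun i => (D'.x i)⁻¹)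
      ((h _ _).2 fun p hp => (D.x_lcol p hp).flip)
      (fun p hp => by simpa using ((h _ _).1 D'.x_lcol p hp).flip)
      (fun i hi => (D.isKnot_iff.1 hD i hi).inv) (fun f hf i hi => by simp [hf i hi])
      (fun f hf i hi => by simp only [map_inv, hf i hi, inv_inv])
    exact ⟨D', h1, h2, by simpa [hs] using h0 p hp, e, Or.inr he⟩
  · exact ⟨D, hD, MIso.rfl' _, hs, MulEquiv.refl _, Or.inl fun _ _ => rfl⟩

theorem kink (D : Diag n) (hD : D.IsKnot) (hn : 0 < n) (hs : D.s 0 = true) :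
    ∃ D' : Diag (n + 1), D'.IsKnot ∧ MIso D.mer D'.mer ∧ D'.s 0 = true ∧ D'.s 1 = true ∧
      ∃ e : D'.grp ≃* D.grp, e D'.mer = D.mer ∧ e (D'.x 2) = (D.x 1)⁻¹ := by
  obtain ⟨D', h0, h⟩ := exists_D (n + 1) (α := ℕ ⊕ Bool)
    (Sum.elim (fun p => p < 2 * n) fun _ => True)
    (Sum.elim (fun p => if p = 0 then 0 else p + 2) fun b => if b then 1 else 2)
    (Sum.map D.t not) (Sum.elim D.s fun _ => true) (Sum.elim D.o fun _ => true)
    (by rintro (y | _ | _) (z | _ | _) - - <;> simp <;> (try split_ifs) <;> (try simp) <;> omega)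
    (by rintro (y | _ | _) <;> simp only [Sum.elim_inl, Sum.elim_inr, Bool.false_eq_true, ↓ reduceIte, Order.lt_two_iff, zero_le, lt_mul_iff_one_lt_right, lt_add_iff_pos_left, forall_const] <;> (try split_ifs) <;> omega)
    (fun P hP => by
      rcases P with _ | _ | _ | P
      · exact ⟨.inl 0, by simpa, rfl⟩
      · exact ⟨.inr true, trivial, rfl⟩
      · exact ⟨.inr false, trivial, rfl⟩
      · exact ⟨.inl (P + 1), show _ < _ by omega, by simp⟩)
    (by rintro (y | y) hy; exacts [D.t_lt hy, trivial])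
    (by
      rintro (y | y) hy
      · simp [D.t_t hy, D.t_ne hy, D.s_t hy, D.o_t hy]
      · simp)
    (by
      rintro (y | _ | _) (z | _ | _) hy hz h
      · have := D.pl hy hz h
        simp only [Sum.elim_inl, Sum.map_inl]
        split_ifs <;> omega
      all_goals simp only [Sum.elim_inl, Sum.elim_inr, Bool.false_eq_true, ↓ reduceIte, Order.lt_two_iff, Sum.map_inl, Sum.map_inr, Bool.not_false, Order.lt_one_iff, ite_eq_left_iff, Nat.add_eq_zero_iff, OfNat.ofNat_ne_zero, and_false, imp_false, Decidable.not_not, not_and, Bool.not_true, not_le, imp_self, implies_true, not_lt, lt_self_iff_false, Nat.not_ofNat_lt_one, and_self, not_false_eq_true, Std.le_refl, and_true] <;> (try split_ifs) <;> omega)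
  let c : ℕ → D.grp := fun i => if i < 2 then D.x i else if i = 2 then (D.x 1)⁻¹ else D.x (i - 2)
  have k1 := (h _ _).1 D'.x_lcol (.inr true) trivial
  simp only [Sum.elim_inr, Sum.map_inr, if_true, Bool.not_true, Bool.false_eq_true, if_false,
    Cr, Nat.reduceAdd] at k1
  have k2 : D'.x 3 = D'.x 1 := by rw [k1.2, k1.1]; group
  obtain ⟨h1, h2, e, he⟩ := D.sim_of D' c (fun i => if i < 2 then D'.x i else D'.x (i + 2))
    ((h _ _).2 (by
      have e : ∀ p, c (if p = 0 then 0 else p + 2) = D.x p ∧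
          c ((if p = 0 then 0 else p + 2) + 1) = D.x (p + 1) := by
        rintro (_ | p) <;> simp only [c, Order.lt_two_iff, ↓ reduceIte, zero_le, zero_add, Std.le_refl, and_self, Nat.add_eq_zero_iff, one_ne_zero, and_false, Nat.reduceLeDiff, Nat.add_eq_right, add_tsub_cancel_right, add_le_iff_nonpos_left, nonpos_iff_eq_zero, OfNat.ofNat_ne_zero, Nat.reduceEqDiff, Nat.reduceSubDiff]
      rintro (p | _ | _) hp
      · simp only [Sum.elim_inl, Sum.map_inl, (e _).1, (e _).2]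
        exact D.x_lcol p hp
      all_goals simp only [Cr, Sum.elim_inr, c, Order.lt_two_iff, Bool.false_eq_true, ↓ reduceIte, Nat.not_ofNat_le_one, Nat.reduceAdd, Nat.succ_ne_self, Nat.reduceSub, Sum.map_inr, Bool.not_false, Std.le_refl, inv_inv, mul_inv_cancel, one_mul, and_self, Bool.not_true, inv_mul_cancel]))
    (fun p hp => by
      have e : ∀ p, (if p < 2 then D'.x p else D'.x (p + 2)) = D'.x (if p = 0 then 0 else p + 2) ∧
          (if p + 1 < 2 then D'.x (p + 1) else D'.x (p + 1 + 2)) =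
          D'.x ((if p = 0 then 0 else p + 2) + 1) := by
        rintro (_ | _ | p) <;> simp [k2]
      beta_reduce
      rw [(e p).1, (e p).2, (e (D.t p)).1, (e (D.t p)).2]
      exact (h _ _).1 D'.x_lcol (.inl p) hp)
    (fun i hi => by
      simp only [c]
      split_ifs
      exacts [D.isKnot_iff.1 hD _ (by omega), (D.isKnot_iff.1 hD _ (by omega)).inv,
        D.isKnot_iff.1 hD _ (by omega)])
    (fun f hf i hi => by
      rcases i with _ | _ | _ | _ | i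
      · simp only [c, Order.lt_two_iff, zero_le, ↓ reduceIte, hf 0 (by omega)]
      · simp only [c, Order.lt_two_iff, zero_add, Std.le_refl, ↓ reduceIte, hf 1 (by omega)]
      · simp only [c, Order.lt_two_iff, zero_add, Nat.reduceAdd, Nat.not_ofNat_le_one, ↓ reduceIte, map_inv, hf 1 (by omega), Std.le_refl, k1.1]
      · simp only [c, Order.lt_two_iff, zero_add, Nat.reduceAdd, Nat.not_ofNat_le_one, ↓ reduceIte, Nat.succ_ne_self, Nat.reduceSub, hf 1 (by omega), Std.le_refl, k2]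
      · simp only [c, Order.lt_two_iff, add_le_iff_nonpos_left, nonpos_iff_eq_zero, Nat.add_eq_zero_iff, one_ne_zero, and_false, and_self, ↓ reduceIte, Nat.reduceEqDiff, Nat.reduceSubDiff, hf (i + 2) (by omega), Nat.reduceLeDiff])
    (fun f hf i hi => by
      rcases i with _ | _ | i
      · simp only [Order.lt_two_iff, zero_le, ↓ reduceIte, hf 0 (by omega), c]
      · simp only [zero_add, Order.lt_two_iff, Std.le_refl, ↓ reduceIte, hf 1 (by omega), c]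
      · simp only [Order.lt_two_iff, add_le_iff_nonpos_left, nonpos_iff_eq_zero, Nat.add_eq_zero_iff, one_ne_zero, and_false, ↓ reduceIte, hf (i + 1 + 1 + 2) (by omega), c, Nat.reduceLeDiff, Nat.add_eq_right, and_self, add_tsub_cancel_right])
  refine ⟨D', h1, h2, hs ▸ h0 (.inl 0) (show 0 < _ by omega), h0 (.inr true) trivial, e, ?_, ?_⟩
  · rw [← x_zero, ← x_zero, he 0 (by omega)]; rfl
  · rw [he 2 (by omega)]; rfl

theorem IsPrime.good {D : Diag n} (h : D.IsPrime) : Good D.mer :=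
  ⟨pt_of_not_splits (Set.finite_range _) (PresentedGroup.closure_range_of _)
    (by rintro _ ⟨i, rfl⟩; exact h.1 i) h.2.2, h.2.1, D.hasPhi⟩

theorem prime_of_good {D : Diag n} (h : D.IsKnot) (h' : Good D.mer) : D.IsPrime :=
  ⟨h, h'.nc, h'.pt.not_splits⟩

theorem IsPrime.iso {D : Diag n} {D' : Diag n'} (h : D.IsPrime) (h1 : D'.IsKnot)
    (h2 : MIso D.mer D'.mer) : D'.IsPrime := prime_of_good h1 (h.good.iso h2)

theorem cyc (D : Diag n) (h : ∀ i ≤ 2 * n, D.x i ∈ zpowers D.mer) : IsCyclic D.grp :=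
  ⟨D.mer, fun g => (D.gen _ h ▸ mem_top g : g ∈ zpowers D.mer)⟩

theorem not_mem_of {G G' : Type} [Group G] [Group G'] (e : G ≃* G') {x y : G} {x' y' : G'}
    (h : (e x = x' ∧ e y = y') ∨ (e x = x'⁻¹ ∧ e y = y'⁻¹)) (hn : x' ∉ zpowers y') :
    x ∉ zpowers y := by
  rintro ⟨k, rfl⟩
  rcases h with ⟨h1, h2⟩ | ⟨h1, h2⟩ <;> rw [map_zpow, h2] at h1
  · exact hn ⟨k, h1⟩
  · exact hn ⟨k, by simpa using h1⟩

theorem readyK {D : Diag n} (h : D.IsPrime) : ∃ D' : Diag n, 0 < n ∧ D'.IsKnot ∧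
    MIso D.mer D'.mer ∧ D'.s (2 * n - 1) = true ∧ D'.x (2 * n - 1) ∉ zpowers D'.mer := by
  have : ∃ p < 2 * n, D.x p ∉ zpowers (D.x (p + 1)) := by
    by_contra hc
    push Not at hc
    refine h.2.1 (D.cyc fun i hi => ?_)
    induction hi using Nat.decreasingInduction with
    | self => exact D.x_close ▸ mem_zpowers _
    | of_succ k hk ih => exact zpowers_le.2 ih (hc k hk)
  obtain ⟨p, hp, hx⟩ := this
  obtain ⟨D1, k1, i1, e1, h1⟩ := D.rot h.1 (p + 1) hp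
  obtain ⟨D2, k2, i2, s2, e2, h2⟩ := D1.flip k1 (p := 2 * n - 1) (by omega)
  refine ⟨D2, by omega, k2, i1.trans i2, s2, ?_⟩
  rw [← x_zero]
  refine not_mem_of e2 (h2.imp (fun h => ⟨h _ (by omega), h _ (by omega)⟩)
    fun h => ⟨h _ (by omega), h _ (by omega)⟩) (not_mem_of e1 (Or.inl ⟨?_, ?_⟩) hx)
  · rw [h1 _ (by omega)]
    by_cases h0 : p = 0
    · rw [h0, ← D.paren D.x_lcol]; congr 1; split_ifs <;> omega
    · congr 1; split_ifs <;> omega
  · rw [h1 _ (by omega)]; congr 1; split_ifs <;> omega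

theorem readyL {D : Diag n} (h : D.IsPrime) (ε : ℤ) (hε : ε = 1 ∨ ε = -1) :
    ∃ k ≤ n + 1, ∃ D' : Diag k, ∃ j < 2 * k, D'.IsKnot ∧ MIso D.mer D'.mer ∧
      (∀ p < j, D'.s p = true) ∧ D'.x j ∉ zpowers D'.mer ∧ IsConj (D'.x j) (D'.mer ^ ε) := by
  have : ∃ p < 2 * n, D.x (p + 1) ∉ zpowers (D.x p) := by
    by_contra hc
    push Not at hc
    refine h.2.1 (D.cyc fun i hi => ?_)
    induction i with
    | zero => exact D.x_zero ▸ mem_zpowers _
    | succ k ih => exact zpowers_le.2 (ih (by omega)) (hc k hi)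
  obtain ⟨p, hp, hx⟩ := this
  obtain ⟨D1, k1, i1, e1, h1⟩ := D.rot h.1 p hp.le
  obtain ⟨D2, k2, i2, s2, e2, h2⟩ := D1.flip k1 (p := 0) (by omega)
  have hx2 : D2.x 1 ∉ zpowers D2.mer := by
    rw [← x_zero]
    refine not_mem_of e2 (h2.imp (fun h => ⟨h _ (by omega), h _ (by omega)⟩)
      fun h => ⟨h _ (by omega), h _ (by omega)⟩) (not_mem_of e1 (Or.inl ⟨?_, ?_⟩) hx) <;>
    · rw [h1 _ (by omega)]; congr 1; split_ifs <;> omega
  by_cases hc : IsConj (D2.x 1) (D2.mer ^ ε)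
  · exact ⟨n, by omega, D2, 1, by omega, k2, i1.trans i2,
      fun p hp => by rwa [show p = 0 by omega], hx2, hc⟩
  obtain ⟨D3, k3, i3, s3, s3', e3, h3, h3'⟩ := D2.kink k2 (by omega) s2
  refine ⟨n + 1, le_rfl, D3, 2, by omega, k3, (i1.trans i2).trans i3, fun p hp => ?_, ?_, ?_⟩
  · interval_cases p
    exacts [s3, s3']
  · exact not_mem_of e3 (Or.inl ⟨h3', h3⟩) (by simpa using hx2)
  · have : IsConj (D2.x 1)⁻¹ (D2.mer ^ ε) := by
      have := D2.isKnot_iff.1 k2 1 (by omega)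
      rcases hε with rfl | rfl
      · simpa only [zpow_ofNat, pow_one, isConj_iff, inv_inv] using isConj_inv (this.resolve_left (by simpa only [isConj_iff, not_exists, zpow_ofNat, pow_one] using hc))
      · simpa only [Int.reduceNeg, zpow_neg, zpow_ofNat, pow_one, isConj_iff] using isConj_inv (this.resolve_right (by simpa only [isConj_iff, not_exists, Int.reduceNeg, zpow_neg, zpow_ofNat, pow_one] using hc))
    rw [← h3, ← h3', ← map_zpow] at this
    simpa only [isConj_iff, MulEquiv.toMonoidHom_eq_coe, MonoidHom.coe_coe, MulEquiv.symm_apply_apply, map_zpow] using e3.symm.toMonoidHom.map_isConj this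

end Diag

end PartD2

section PartTG


open Subgroup

variable {H : Type} [Group H]

def tT (r : ℕ) : ℕ := [30, 15, 28, 13, 11, 27, 9, 25, 22, 6, 20, 4, 18, 3, 16, 1, 14, 23, 12, 21, 10, 19, 8, 17, 31, 7, 29, 5, 2, 26, 0, 24].getD r 0
def sT (r : ℕ) : Bool := [false, true, false, true, true, false, true, false, false, true, false, true, false, true, false, true, false, true, false, true, false, true, false, true, true, false, true, false, false, true, false, true].getD r true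
def oT (r : ℕ) : Bool := [true, true, false, true, true, false, true, true, true, true, false, true, true, true, false, true, false, false, true, false, false, false, true, false, false, true, false, false, false, false, true, false].getD r true
def bT (r : ℕ) : ℕ := if r < 16 then r else r + 1

theorem tT_facts : ∀ r < 32, tT r < 32 ∧ tT (tT r) = r ∧ tT r ≠ r ∧ sT (tT r) = sT r ∧
    oT (tT r) = oT r ∧ (sT r = true → (r < 16 ↔ tT r < 16)) := by decide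

theorem tT_pl : ∀ r < 32, ∀ q < 32, sT r = sT q → ¬ (r < q ∧ q < tT r ∧ tT r < tT q) := by
  decide

/-- colourings of the doubled long figure eight knot -/
def TCol (C : ℕ → H) : Prop :=
  ∀ r < 32, Cr (sT r) (oT r) (C (bT r)) (C (bT r + 1)) (C (bT (tT r))) (C (bT (tT r) + 1))

def aW (C : ℕ → H) : H := ((C 0)⁻¹ * C 33)⁻¹ * ((C 9)⁻¹ * C 22)
def bW (C : ℕ → H) : H := (C 12)⁻¹ * C 21 * ((C 0)⁻¹ * C 33)⁻¹

theorem long8 {X0 X1 X2 X3 X4 Y0 Y1 Y2 Y3 Y4 a b : H}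
    (rX1 : X1 = (X3 * Y3)⁻¹ * X0 * (X3 * Y3))
    (rX2 : X2 = (X0 * Y0) * X1 * (X0 * Y0)⁻¹)
    (rX3 : X3 = (X1 * Y1)⁻¹ * X2 * (X1 * Y1))
    (rX4 : X4 = (X2 * Y2) * X3 * (X2 * Y2)⁻¹)
    (rY1 : Y1 = (X3 * Y3)⁻¹ * Y0 * (X3 * Y3))
    (rY2 : Y2 = (X0 * Y0) * Y1 * (X0 * Y0)⁻¹)
    (rY3 : Y3 = (X1 * Y1)⁻¹ * Y2 * (X1 * Y1))
    (rY4 : Y4 = (X2 * Y2) * Y3 * (X2 * Y2)⁻¹)
    (ha : a = (X0 * Y0)⁻¹ * (X3 * Y3)) (hb : b = X1 * Y1 * (X0 * Y0)⁻¹) :
    Fig a b (X0 * Y0) ∧ X4 = (b * a * b⁻¹ * a⁻¹) * X0 * (b * a * b⁻¹ * a⁻¹)⁻¹ ∧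
      Y4 = (b * a * b⁻¹ * a⁻¹) * Y0 * (b * a * b⁻¹ * a⁻¹)⁻¹ := by
  obtain ⟨t, ht⟩ : ∃ t, X0 * Y0 = t := ⟨_, rfl⟩
  have m3 : X3 * Y3 = t * a := by rw [ha, ht]; group
  have m1 : X1 * Y1 = b * t := by rw [hb, ht]; group
  rw [m3] at rX1 rY1
  rw [ht] at rX2 rY2
  rw [m1] at rX3 rY3
  have m2 : X2 * Y2 = t * b := by
    calc X2 * Y2 = t * (X1 * Y1) * t⁻¹ := by rw [rX2, rY2]; group
      _ = _ := by rw [m1]; group
  rw [m2] at rX4 rY4
  have f1 : t * a * t⁻¹ = a * b := by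
    have : b * t = (t * a)⁻¹ * t * (t * a) := by rw [← m1, rX1, rY1, ← ht]; group
    calc t * a * t⁻¹ = a * ((t * a)⁻¹ * t * (t * a)) * t⁻¹ := by group
      _ = _ := by rw [← this]; group
  have f2 : t * b * t⁻¹ = b * (a * b) := by
    have : t * a = (b * t)⁻¹ * (t * b) * (b * t) := by rw [← m3, ← m2, rX3, rY3]; group
    have e : t * (t * a * t⁻¹) * t⁻¹ = b⁻¹ * (t * b * t⁻¹) * (t * b * t⁻¹) := by
      rw [this]; group
    have e' : t * (t * a * t⁻¹) * t⁻¹ = (a * b) * (t * b * t⁻¹) := by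
      calc t * (t * a * t⁻¹) * t⁻¹ = t * (a * b) * t⁻¹ := by rw [f1]
        _ = (t * a * t⁻¹) * (t * b * t⁻¹) := by group
        _ = _ := by rw [f1]
    rw [e', mul_left_inj] at e
    rw [e]; group
  have l : b * a * b⁻¹ * a⁻¹ = t * b * (b * t)⁻¹ * t * (t * a)⁻¹ := by
    calc b * a * b⁻¹ * a⁻¹ = b * (a * b) * b⁻¹ * (a * b)⁻¹ := by group
      _ = _ := by rw [← f2, ← f1]; group
  rw [ht]
  refine ⟨⟨f1, f2⟩, ?_, ?_⟩
  · rw [l, rX4, rX3, rX2, rX1]; group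
  · rw [l, rY4, rY3, rY2, rY1]; group

theorem tcol_ana {C : ℕ → H} (h : TCol C) : Fig (aW C) (bW C) ((C 0)⁻¹ * C 33) ∧
    C 16 = (bW C * aW C * (bW C)⁻¹ * (aW C)⁻¹) * C 0 * (bW C * aW C * (bW C)⁻¹ * (aW C)⁻¹)⁻¹ ∧
    C 17 = (bW C * aW C * (bW C)⁻¹ * (aW C)⁻¹) * C 33 * (bW C * aW C * (bW C)⁻¹ * (aW C)⁻¹)⁻¹ ∧
    (∀ S : Subgroup H, C 0 ∈ S → C 33 ∈ S → aW C ∈ S → bW C ∈ S → ∀ i < 34, C i ∈ S) ∧
    ∀ m, Mer m (C 0) → Mer m (C 33) → ∀ i < 34, Mer m (C i) := by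
  have h0 : C 31 = (C 0)⁻¹ ∧ C 32 = (C 0) * (C 1)⁻¹ * (C 0)⁻¹ := h 0 (by decide)
  have h1 : C 15 = (C 1)⁻¹ ∧ C 16 = (C 1)⁻¹ * (C 2)⁻¹ * (C 1) := h 1 (by decide)
  have h2 : C 30 = (C 3)⁻¹ ∧ C 29 = (C 3) * (C 2)⁻¹ * (C 3)⁻¹ := h 2 (by decide)
  have h3 : C 13 = (C 3)⁻¹ ∧ C 14 = (C 3)⁻¹ * (C 4)⁻¹ * (C 3) := h 3 (by decide)
  have h4 : C 11 = (C 4)⁻¹ ∧ C 12 = (C 4)⁻¹ * (C 5)⁻¹ * (C 4) := h 4 (by decide)
  have h5 : C 29 = (C 6)⁻¹ ∧ C 28 = (C 6) * (C 5)⁻¹ * (C 6)⁻¹ := h 5 (by decide)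
  have h6 : C 9 = (C 6)⁻¹ ∧ C 10 = (C 6)⁻¹ * (C 7)⁻¹ * (C 6) := h 6 (by decide)
  have h7 : C 26 = (C 7)⁻¹ ∧ C 27 = (C 7) * (C 8)⁻¹ * (C 7)⁻¹ := h 7 (by decide)
  have h8 : C 23 = (C 8)⁻¹ ∧ C 24 = (C 8) * (C 9)⁻¹ * (C 8)⁻¹ := h 8 (by decide)
  have h9 : C 6 = (C 9)⁻¹ ∧ C 7 = (C 9)⁻¹ * (C 10)⁻¹ * (C 9) := h 9 (by decide)
  have h10 : C 22 = (C 11)⁻¹ ∧ C 21 = (C 11) * (C 10)⁻¹ * (C 11)⁻¹ := h 10 (by decide)
  have h11 : C 4 = (C 11)⁻¹ ∧ C 5 = (C 11)⁻¹ * (C 12)⁻¹ * (C 11) := h 11 (by decide)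
  have h12 : C 19 = (C 12)⁻¹ ∧ C 20 = (C 12) * (C 13)⁻¹ * (C 12)⁻¹ := h 12 (by decide)
  have h13 : C 3 = (C 13)⁻¹ ∧ C 4 = (C 13)⁻¹ * (C 14)⁻¹ * (C 13) := h 13 (by decide)
  have h14 : C 18 = (C 15)⁻¹ ∧ C 17 = (C 15) * (C 14)⁻¹ * (C 15)⁻¹ := h 14 (by decide)
  have h15 : C 1 = (C 15)⁻¹ ∧ C 2 = (C 15)⁻¹ * (C 16)⁻¹ * (C 15) := h 15 (by decide)
  have h16 : C 15 = (C 18)⁻¹ ∧ C 14 = (C 18) * (C 17)⁻¹ * (C 18)⁻¹ := h 16 (by decide)
  have h17 : C 25 = (C 19)⁻¹ ∧ C 24 = (C 19)⁻¹ * (C 18)⁻¹ * (C 19) := h 17 (by decide)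
  have h18 : C 12 = (C 19)⁻¹ ∧ C 13 = (C 19) * (C 20)⁻¹ * (C 19)⁻¹ := h 18 (by decide)
  have h19 : C 23 = (C 21)⁻¹ ∧ C 22 = (C 21)⁻¹ * (C 20)⁻¹ * (C 21) := h 19 (by decide)
  have h20 : C 11 = (C 22)⁻¹ ∧ C 10 = (C 22) * (C 21)⁻¹ * (C 22)⁻¹ := h 20 (by decide)
  have h21 : C 21 = (C 23)⁻¹ ∧ C 20 = (C 23)⁻¹ * (C 22)⁻¹ * (C 23) := h 21 (by decide)
  have h22 : C 8 = (C 23)⁻¹ ∧ C 9 = (C 23) * (C 24)⁻¹ * (C 23)⁻¹ := h 22 (by decide)
  have h23 : C 19 = (C 25)⁻¹ ∧ C 18 = (C 25)⁻¹ * (C 24)⁻¹ * (C 25) := h 23 (by decide)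
  have h24 : C 33 = (C 26)⁻¹ ∧ C 32 = (C 26)⁻¹ * (C 25)⁻¹ * (C 26) := h 24 (by decide)
  have h25 : C 7 = (C 26)⁻¹ ∧ C 8 = (C 26) * (C 27)⁻¹ * (C 26)⁻¹ := h 25 (by decide)
  have h26 : C 31 = (C 28)⁻¹ ∧ C 30 = (C 28)⁻¹ * (C 27)⁻¹ * (C 28) := h 26 (by decide)
  have h27 : C 6 = (C 29)⁻¹ ∧ C 5 = (C 29) * (C 28)⁻¹ * (C 29)⁻¹ := h 27 (by decide)
  have h28 : C 3 = (C 30)⁻¹ ∧ C 2 = (C 30) * (C 29)⁻¹ * (C 30)⁻¹ := h 28 (by decide)
  have h29 : C 28 = (C 31)⁻¹ ∧ C 27 = (C 31)⁻¹ * (C 30)⁻¹ * (C 31) := h 29 (by decide)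
  have h30 : C 0 = (C 31)⁻¹ ∧ C 1 = (C 31) * (C 32)⁻¹ * (C 31)⁻¹ := h 30 (by decide)
  have h31 : C 26 = (C 33)⁻¹ ∧ C 25 = (C 33)⁻¹ * (C 32)⁻¹ * (C 33) := h 31 (by decide)
  obtain ⟨X0, e0⟩ : ∃ X, C 0 = X⁻¹ := ⟨_, (inv_inv _).symm⟩
  obtain ⟨X1, e12⟩ : ∃ X, C 12 = X⁻¹ := ⟨_, (inv_inv _).symm⟩
  obtain ⟨X2, e1⟩ : ∃ X, C 1 = X⁻¹ := ⟨_, (inv_inv _).symm⟩
  obtain ⟨X3, e9⟩ : ∃ X, C 9 = X⁻¹ := ⟨_, (inv_inv _).symm⟩
  obtain ⟨X4, e16⟩ : ∃ X, C 16 = X⁻¹ := ⟨_, (inv_inv _).symm⟩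
  obtain ⟨Y0, e33⟩ : ∃ X, C 33 = X := ⟨_, rfl⟩
  obtain ⟨Y1, e21⟩ : ∃ X, C 21 = X := ⟨_, rfl⟩
  obtain ⟨Y2, e30⟩ : ∃ X, C 30 = X := ⟨_, rfl⟩
  obtain ⟨Y3, e22⟩ : ∃ X, C 22 = X := ⟨_, rfl⟩
  obtain ⟨Y4, e17⟩ : ∃ X, C 17 = X := ⟨_, rfl⟩
  have e3 : C 3 = Y2⁻¹ := by rw [h28.1, e30]
  have e6 : C 6 = X3 := by rw [h9.1, e9]; group
  have e11 : C 11 = Y3⁻¹ := by rw [h20.1, e22]
  have e13 : C 13 = Y2 := by rw [h3.1, e3]; group
  have e15 : C 15 = X2 := by rw [h1.1, e1]; group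
  have e18 : C 18 = X2⁻¹ := by rw [h14.1, e15]
  have e19 : C 19 = X1 := by rw [h12.1, e12]; group
  have e23 : C 23 = Y1⁻¹ := by rw [h19.1, e21]
  have e25 : C 25 = X1⁻¹ := by rw [h17.1, e19]
  have e26 : C 26 = Y0⁻¹ := by rw [h31.1, e33]
  have e29 : C 29 = X3⁻¹ := by rw [h5.1, e6]
  have e31 : C 31 = X0 := by rw [h0.1, e0]; group
  have e4 : C 4 = Y3 := by rw [h11.1, e11]; group
  have e7 : C 7 = Y0 := by rw [h25.1, e26]; group
  have e8 : C 8 = Y1 := by rw [h22.1, e23]; group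
  have e28 : C 28 = X0⁻¹ := by rw [h29.1, e31]
  have e2 : C 2 = Y2 * X3 * Y2⁻¹ := by rw [h28.2, e29, e30]; group
  have e5 : C 5 = X3⁻¹ * X0 * X3 := by rw [h27.2, e28, e29]; group
  have e10 : C 10 = X3⁻¹ * Y0⁻¹ * X3 := by rw [h6.2, e6, e7]
  have e14 : C 14 = Y2 * Y3⁻¹ * Y2⁻¹ := by rw [h3.2, e3, e4]; group
  have e20 : C 20 = X1⁻¹ * Y2⁻¹ * X1 := by rw [h12.2, e12, e13]; group
  have e24 : C 24 = X1⁻¹ * X2 * X1 := by rw [h17.2, e18, e19]; group
  have e27 : C 27 = Y0 * Y1⁻¹ * Y0⁻¹ := by rw [h7.2, e7, e8]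
  have e32 : C 32 = Y0 * X1 * Y0⁻¹ := by rw [h24.2, e25, e26]; group
  have rX1 : X1 = (X3 * Y3)⁻¹ * X0 * (X3 * Y3) := by
    rw [← inv_inj, ← e12, h4.2, e4, e5]; group
  have rX2 : X2 = (X0 * Y0) * X1 * (X0 * Y0)⁻¹ := by
    rw [← inv_inj, ← e1, h30.2, e31, e32]; group
  have rX3 : X3 = (X1 * Y1)⁻¹ * X2 * (X1 * Y1) := by
    rw [← inv_inj, ← e9, h22.2, e23, e24]; group
  have rX4 : X4 = (X2 * Y2) * X3 * (X2 * Y2)⁻¹ := by
    rw [← inv_inj, ← e16, h1.2, e1, e2]; group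
  have rY1 : Y1 = (X3 * Y3)⁻¹ * Y0 * (X3 * Y3) := by
    refine e21.symm.trans ?_
    rw [h10.2, e10, e11]; group
  have rY2 : Y2 = (X0 * Y0) * Y1 * (X0 * Y0)⁻¹ := by
    refine e30.symm.trans ?_
    rw [h26.2, e27, e28]; group
  have rY3 : Y3 = (X1 * Y1)⁻¹ * Y2 * (X1 * Y1) := by
    refine e22.symm.trans ?_
    rw [h19.2, e20, e21]; group
  have rY4 : Y4 = (X2 * Y2) * Y3 * (X2 * Y2)⁻¹ := by
    refine e17.symm.trans ?_
    rw [h14.2, e14, e15]; group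
  have ha : aW C = (X0 * Y0)⁻¹ * (X3 * Y3) := by simp only [aW, e0, e33, e9, e22, inv_inv]
  have hb : bW C = X1 * Y1 * (X0 * Y0)⁻¹ := by simp only [bW, e0, e33, e12, e21, inv_inv]
  obtain ⟨f1, f2, f3⟩ := long8 rX1 rX2 rX3 rX4 rY1 rY2 rY3 rY4 ha hb
  refine ⟨by rwa [e0, e33, inv_inv], by rw [e16, e0, f2]; group, by rw [e17, e33, f3],
    fun S s0 s1 sa sb i hi => ?_, fun m s0 s1 i hi => ?_⟩
  · have X0 : X0 ∈ S := by simpa [e0] using s0
    have Y0 : Y0 ∈ S := e33 ▸ s1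
    have m0 := S.mul_mem X0 Y0
    have m3 : X3 * Y3 ∈ S := by simpa only [ha, mul_inv_cancel_left] using S.mul_mem m0 sa
    have m1 : X1 * Y1 ∈ S := by simpa only [hb, inv_mul_cancel_right] using S.mul_mem sb m0
    have X1 : X1 ∈ S := rX1 ▸ S.mul_mem (S.mul_mem (S.inv_mem m3) X0) m3
    have Y1 : Y1 ∈ S := rY1 ▸ S.mul_mem (S.mul_mem (S.inv_mem m3) Y0) m3
    have X2 : X2 ∈ S := rX2 ▸ S.mul_mem (S.mul_mem m0 X1) (S.inv_mem m0)
    have Y2 : Y2 ∈ S := rY2 ▸ S.mul_mem (S.mul_mem m0 Y1) (S.inv_mem m0)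
    have m2 := S.mul_mem X2 Y2
    have X3 : X3 ∈ S := rX3.symm ▸ S.mul_mem (S.mul_mem (S.inv_mem m1) X2) m1
    have Y3 : Y3 ∈ S := rY3.symm ▸ S.mul_mem (S.mul_mem (S.inv_mem m1) Y2) m1
    have X4 : X4 ∈ S := rX4 ▸ S.mul_mem (S.mul_mem m2 X3) (S.inv_mem m2)
    have Y4 : Y4 ∈ S := rY4 ▸ S.mul_mem (S.mul_mem m2 Y3) (S.inv_mem m2)
    interval_cases i
    · rw [e0]; exact (S.inv_mem X0)
    · rw [e1]; exact (S.inv_mem X2)
    · rw [e2]; exact (S.mul_mem (S.mul_mem Y2 X3) (S.inv_mem Y2))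
    · rw [e3]; exact (S.inv_mem Y2)
    · rw [e4]; exact Y3
    · rw [e5]; exact (S.mul_mem (S.mul_mem (S.inv_mem X3) X0) X3)
    · rw [e6]; exact X3
    · rw [e7]; exact Y0
    · rw [e8]; exact Y1
    · rw [e9]; exact (S.inv_mem X3)
    · rw [e10]; exact (S.mul_mem (S.mul_mem (S.inv_mem X3) (S.inv_mem Y0)) X3)
    · rw [e11]; exact (S.inv_mem Y3)
    · rw [e12]; exact (S.inv_mem X1)
    · rw [e13]; exact Y2
    · rw [e14]; exact (S.mul_mem (S.mul_mem Y2 (S.inv_mem Y3)) (S.inv_mem Y2))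
    · rw [e15]; exact X2
    · rw [e16]; exact (S.inv_mem X4)
    · rw [e17]; exact Y4
    · rw [e18]; exact (S.inv_mem X2)
    · rw [e19]; exact X1
    · rw [e20]; exact (S.mul_mem (S.mul_mem (S.inv_mem X1) (S.inv_mem Y2)) X1)
    · rw [e21]; exact Y1
    · rw [e22]; exact Y3
    · rw [e23]; exact (S.inv_mem Y1)
    · rw [e24]; exact (S.mul_mem (S.mul_mem (S.inv_mem X1) X2) X1)
    · rw [e25]; exact (S.inv_mem X1)
    · rw [e26]; exact (S.inv_mem Y0)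
    · rw [e27]; exact (S.mul_mem (S.mul_mem Y0 (S.inv_mem Y1)) (S.inv_mem Y0))
    · rw [e28]; exact (S.inv_mem X0)
    · rw [e29]; exact (S.inv_mem X3)
    · rw [e30]; exact Y2
    · rw [e31]; exact X0
    · rw [e32]; exact (S.mul_mem (S.mul_mem Y0 X1) (S.inv_mem Y0))
    · rw [e33]; exact Y0
  · have X0 : Mer m X0 := (e0 ▸ s0 : Mer m X0⁻¹).of_inv
    have Y0 : Mer m Y0 := e33 ▸ s1
    have X1 : Mer m X1 := by rw [rX1]; exact X0.cj' _
    have Y1 : Mer m Y1 := by rw [rY1]; exact Y0.cj' _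
    have X2 : Mer m X2 := by rw [rX2]; exact X1.cj _
    have Y2 : Mer m Y2 := by rw [rY2]; exact Y1.cj _
    have X3 : Mer m X3 := by rw [rX3]; exact X2.cj' _
    have Y3 : Mer m Y3 := by rw [rY3]; exact Y2.cj' _
    have X4 : Mer m X4 := by rw [rX4]; exact X3.cj _
    have Y4 : Mer m Y4 := by rw [rY4]; exact Y3.cj _
    interval_cases i
    · rw [e0]; exact X0.inv
    · rw [e1]; exact X2.inv
    · rw [e2]; exact X3.cj _
    · rw [e3]; exact Y2.inv
    · rw [e4]; exact Y3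
    · rw [e5]; exact X0.cj' _
    · rw [e6]; exact X3
    · rw [e7]; exact Y0
    · rw [e8]; exact Y1
    · rw [e9]; exact X3.inv
    · rw [e10]; exact Y0.inv.cj' _
    · rw [e11]; exact Y3.inv
    · rw [e12]; exact X1.inv
    · rw [e13]; exact Y2
    · rw [e14]; exact Y3.inv.cj _
    · rw [e15]; exact X2
    · rw [e16]; exact X4.inv
    · rw [e17]; exact Y4
    · rw [e18]; exact X2.inv
    · rw [e19]; exact X1
    · rw [e20]; exact Y2.inv.cj' _
    · rw [e21]; exact Y1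
    · rw [e22]; exact Y3
    · rw [e23]; exact Y1.inv
    · rw [e24]; exact X2.cj' _
    · rw [e25]; exact X1.inv
    · rw [e26]; exact Y0.inv
    · rw [e27]; exact Y1.inv.cj _
    · rw [e28]; exact X0.inv
    · rw [e29]; exact X3.inv
    · rw [e30]; exact Y2
    · rw [e31]; exact X0
    · rw [e32]; exact X1.cj _
    · rw [e33]; exact Y0

theorem tcol_aux {X0 X1 X2 X3 X4 Y0 Y1 Y2 Y3 Y4 : H}
    (rX1 : X1 = (X3 * Y3)⁻¹ * X0 * (X3 * Y3))
    (rX2 : X2 = (X0 * Y0) * X1 * (X0 * Y0)⁻¹)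
    (rX3 : X3 = (X1 * Y1)⁻¹ * X2 * (X1 * Y1))
    (rX4 : X4 = (X2 * Y2) * X3 * (X2 * Y2)⁻¹)
    (rY1 : Y1 = (X3 * Y3)⁻¹ * Y0 * (X3 * Y3))
    (rY2 : Y2 = (X0 * Y0) * Y1 * (X0 * Y0)⁻¹)
    (rY3 : Y3 = (X1 * Y1)⁻¹ * Y2 * (X1 * Y1))
    (rY4 : Y4 = (X2 * Y2) * Y3 * (X2 * Y2)⁻¹) :
    TCol fun i => [X0⁻¹,
      X2⁻¹,
      Y2 * X3 * Y2⁻¹,
      Y2⁻¹,
      Y3,
      X3⁻¹ * X0 * X3,
      X3,
      Y0,
      Y1,
      X3⁻¹,
      X3⁻¹ * Y0⁻¹ * X3,
      Y3⁻¹,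
      X1⁻¹,
      Y2,
      Y2 * Y3⁻¹ * Y2⁻¹,
      X2,
      X4⁻¹,
      Y4,
      X2⁻¹,
      X1,
      X1⁻¹ * Y2⁻¹ * X1,
      Y1,
      Y3,
      Y1⁻¹,
      X1⁻¹ * X2 * X1,
      X1⁻¹,
      Y0⁻¹,
      Y0 * Y1⁻¹ * Y0⁻¹,
      X0⁻¹,
      X3⁻¹,
      Y2,
      X0,
      Y0 * X1 * Y0⁻¹,
      Y0].getD i 1 := by
  intro r hr
  interval_cases r
  · exact show X0 = (X0⁻¹)⁻¹ ∧ Y0 * X1 * Y0⁻¹ = (X0⁻¹) * (X2⁻¹)⁻¹ * (X0⁻¹)⁻¹ from ⟨by group, by rw [rX2]; group⟩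
  · exact show X2 = (X2⁻¹)⁻¹ ∧ X4⁻¹ = (X2⁻¹)⁻¹ * (Y2 * X3 * Y2⁻¹)⁻¹ * (X2⁻¹) from ⟨by group, by rw [rX4]; group⟩
  · exact show Y2 = (Y2⁻¹)⁻¹ ∧ X3⁻¹ = (Y2⁻¹) * (Y2 * X3 * Y2⁻¹)⁻¹ * (Y2⁻¹)⁻¹ from ⟨by group, by group⟩
  · exact show Y2 = (Y2⁻¹)⁻¹ ∧ Y2 * Y3⁻¹ * Y2⁻¹ = (Y2⁻¹)⁻¹ * (Y3)⁻¹ * (Y2⁻¹) from ⟨by group, by group⟩
  · exact show Y3⁻¹ = (Y3)⁻¹ ∧ X1⁻¹ = (Y3)⁻¹ * (X3⁻¹ * X0 * X3)⁻¹ * (Y3) from ⟨rfl, by rw [rX1]; group⟩
  · exact show X3⁻¹ = (X3)⁻¹ ∧ X0⁻¹ = (X3) * (X3⁻¹ * X0 * X3)⁻¹ * (X3)⁻¹ from ⟨rfl, by group⟩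
  · exact show X3⁻¹ = (X3)⁻¹ ∧ X3⁻¹ * Y0⁻¹ * X3 = (X3)⁻¹ * (Y0)⁻¹ * (X3) from ⟨rfl, by group⟩
  · exact show Y0⁻¹ = (Y0)⁻¹ ∧ Y0 * Y1⁻¹ * Y0⁻¹ = (Y0) * (Y1)⁻¹ * (Y0)⁻¹ from ⟨rfl, by group⟩
  · exact show Y1⁻¹ = (Y1)⁻¹ ∧ X1⁻¹ * X2 * X1 = (Y1) * (X3⁻¹)⁻¹ * (Y1)⁻¹ from ⟨rfl, by rw [rX3]; group⟩
  · exact show X3 = (X3⁻¹)⁻¹ ∧ Y0 = (X3⁻¹)⁻¹ * (X3⁻¹ * Y0⁻¹ * X3)⁻¹ * (X3⁻¹) from ⟨by group, by group⟩
  · exact show Y3 = (Y3⁻¹)⁻¹ ∧ Y1 = (Y3⁻¹) * (X3⁻¹ * Y0⁻¹ * X3)⁻¹ * (Y3⁻¹)⁻¹ from ⟨by group, by rw [rY1]; group⟩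
  · exact show Y3 = (Y3⁻¹)⁻¹ ∧ X3⁻¹ * X0 * X3 = (Y3⁻¹)⁻¹ * (X1⁻¹)⁻¹ * (Y3⁻¹) from ⟨by group, by rw [rX1]; group⟩
  · exact show X1 = (X1⁻¹)⁻¹ ∧ X1⁻¹ * Y2⁻¹ * X1 = (X1⁻¹) * (Y2)⁻¹ * (X1⁻¹)⁻¹ from ⟨by group, by group⟩
  · exact show Y2⁻¹ = (Y2)⁻¹ ∧ Y3 = (Y2)⁻¹ * (Y2 * Y3⁻¹ * Y2⁻¹)⁻¹ * (Y2) from ⟨rfl, by group⟩
  · exact show X2⁻¹ = (X2)⁻¹ ∧ Y4 = (X2) * (Y2 * Y3⁻¹ * Y2⁻¹)⁻¹ * (X2)⁻¹ from ⟨rfl, by rw [rY4]; group⟩
  · exact show X2⁻¹ = (X2)⁻¹ ∧ Y2 * X3 * Y2⁻¹ = (X2)⁻¹ * (X4⁻¹)⁻¹ * (X2) from ⟨rfl, by rw [rX4]; group⟩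
  · exact show X2 = (X2⁻¹)⁻¹ ∧ Y2 * Y3⁻¹ * Y2⁻¹ = (X2⁻¹) * (Y4)⁻¹ * (X2⁻¹)⁻¹ from ⟨by group, by rw [rY4]; group⟩
  · exact show X1⁻¹ = (X1)⁻¹ ∧ X1⁻¹ * X2 * X1 = (X1)⁻¹ * (X2⁻¹)⁻¹ * (X1) from ⟨rfl, by group⟩
  · exact show X1⁻¹ = (X1)⁻¹ ∧ Y2 = (X1) * (X1⁻¹ * Y2⁻¹ * X1)⁻¹ * (X1)⁻¹ from ⟨rfl, by group⟩
  · exact show Y1⁻¹ = (Y1)⁻¹ ∧ Y3 = (Y1)⁻¹ * (X1⁻¹ * Y2⁻¹ * X1)⁻¹ * (Y1) from ⟨rfl, by rw [rY3]; group⟩
  · exact show Y3⁻¹ = (Y3)⁻¹ ∧ X3⁻¹ * Y0⁻¹ * X3 = (Y3) * (Y1)⁻¹ * (Y3)⁻¹ from ⟨rfl, by rw [rY1]; group⟩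
  · exact show Y1 = (Y1⁻¹)⁻¹ ∧ X1⁻¹ * Y2⁻¹ * X1 = (Y1⁻¹)⁻¹ * (Y3)⁻¹ * (Y1⁻¹) from ⟨by group, by rw [rY3]; group⟩
  · exact show Y1 = (Y1⁻¹)⁻¹ ∧ X3⁻¹ = (Y1⁻¹) * (X1⁻¹ * X2 * X1)⁻¹ * (Y1⁻¹)⁻¹ from ⟨by group, by rw [rX3]; group⟩
  · exact show X1 = (X1⁻¹)⁻¹ ∧ X2⁻¹ = (X1⁻¹)⁻¹ * (X1⁻¹ * X2 * X1)⁻¹ * (X1⁻¹) from ⟨by group, by group⟩
  · exact show Y0 = (Y0⁻¹)⁻¹ ∧ Y0 * X1 * Y0⁻¹ = (Y0⁻¹)⁻¹ * (X1⁻¹)⁻¹ * (Y0⁻¹) from ⟨by group, by group⟩
  · exact show Y0 = (Y0⁻¹)⁻¹ ∧ Y1 = (Y0⁻¹) * (Y0 * Y1⁻¹ * Y0⁻¹)⁻¹ * (Y0⁻¹)⁻¹ from ⟨by group, by group⟩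
  · exact show X0 = (X0⁻¹)⁻¹ ∧ Y2 = (X0⁻¹)⁻¹ * (Y0 * Y1⁻¹ * Y0⁻¹)⁻¹ * (X0⁻¹) from ⟨by group, by rw [rY2]; group⟩
  · exact show X3 = (X3⁻¹)⁻¹ ∧ X3⁻¹ * X0 * X3 = (X3⁻¹) * (X0⁻¹)⁻¹ * (X3⁻¹)⁻¹ from ⟨by group, by group⟩
  · exact show Y2⁻¹ = (Y2)⁻¹ ∧ Y2 * X3 * Y2⁻¹ = (Y2) * (X3⁻¹)⁻¹ * (Y2)⁻¹ from ⟨rfl, by group⟩
  · exact show X0⁻¹ = (X0)⁻¹ ∧ Y0 * Y1⁻¹ * Y0⁻¹ = (X0)⁻¹ * (Y2)⁻¹ * (X0) from ⟨rfl, by rw [rY2]; group⟩
  · exact show X0⁻¹ = (X0)⁻¹ ∧ X2⁻¹ = (X0) * (Y0 * X1 * Y0⁻¹)⁻¹ * (X0)⁻¹ from ⟨rfl, by rw [rX2]; group⟩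
  · exact show Y0⁻¹ = (Y0)⁻¹ ∧ X1⁻¹ = (Y0)⁻¹ * (Y0 * X1 * Y0⁻¹)⁻¹ * (Y0) from ⟨rfl, by group⟩

theorem tcol_syn {x y a b : H} (h : Fig a b (x * y)) :
    ∃ C : ℕ → H, TCol C ∧ C 0 = x⁻¹ ∧ C 33 = y ∧ aW C = a ∧ bW C = b := by
  obtain ⟨t, ht⟩ : ∃ t, x * y = t := ⟨_, rfl⟩
  rw [ht] at h
  obtain ⟨X1, rX1⟩ : ∃ z, z = (t * a)⁻¹ * x * (t * a) := ⟨_, rfl⟩
  obtain ⟨Y1, rY1⟩ : ∃ z, z = (t * a)⁻¹ * y * (t * a) := ⟨_, rfl⟩
  obtain ⟨X2, rX2⟩ : ∃ z, z = (x * y) * X1 * (x * y)⁻¹ := ⟨_, rfl⟩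
  obtain ⟨Y2, rY2⟩ : ∃ z, z = (x * y) * Y1 * (x * y)⁻¹ := ⟨_, rfl⟩
  obtain ⟨X3, rX3⟩ : ∃ z, z = (X1 * Y1)⁻¹ * X2 * (X1 * Y1) := ⟨_, rfl⟩
  obtain ⟨Y3, rY3⟩ : ∃ z, z = (X1 * Y1)⁻¹ * Y2 * (X1 * Y1) := ⟨_, rfl⟩
  have m1 : X1 * Y1 = b * t := by
    calc X1 * Y1 = a⁻¹ * (t * a * t⁻¹) * t := by rw [rX1, rY1, ← ht]; group
      _ = _ := by rw [h.1]; group
  have m3 : X3 * Y3 = t * a := by
    calc X3 * Y3 = (X1 * Y1)⁻¹ * (t * (X1 * Y1) * t⁻¹) * (X1 * Y1) := by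
          rw [rX3, rY3, rX2, rY2, ht]; group
      _ = t⁻¹ * (b⁻¹ * (t * b * t⁻¹) * (t * b * t⁻¹)) * t * t := by rw [m1]; group
      _ = t⁻¹ * (a * b * (b * (a * b))) * t * t := by rw [h.2]; group
      _ = t⁻¹ * (t * (t * a * t⁻¹) * t⁻¹) * t * t := by rw [← h.shift.2, h.1]
      _ = _ := by group
  rw [← m3] at rX1 rY1
  refine ⟨_, tcol_aux rX1 rX2 rX3 rfl rY1 rY2 rY3 rfl, rfl, rfl, ?_, ?_⟩
  · show (x⁻¹⁻¹ * y)⁻¹ * (X3⁻¹⁻¹ * Y3) = a
    simp only [inv_inv, m3, ht]; group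
  · show X1⁻¹⁻¹ * Y1 * (x⁻¹⁻¹ * y)⁻¹ = b
    simp only [inv_inv, m1, ht]; group

end PartTG

section PartJN


open Subgroup

theorem ext_closure {G H : Type} [Group G] [Group H] {S : Set G} (F : G →* H)
    (f : closure S →* H) (h : ∀ x (hx : x ∈ S), F x = f ⟨x, subset_closure hx⟩) :
    ∀ x : closure S, F x = f x := by
  rintro ⟨x, hx⟩
  induction hx using closure_induction with
  | mem x hx => exact h x hx
  | one => exact F.map_one.trans f.map_one.symm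
  | mul x y hx hy h1 h2 =>
    exact (F.map_mul x y).trans ((congrArg₂ (· * ·) h1 h2).trans (f.map_mul _ _).symm)
  | inv x hx h1 => exact (F.map_inv x).trans ((congrArg (·⁻¹) h1).trans (f.map_inv _).symm)

def iK (a p : ℕ) : ℕ := if p < 2 * a - 1 then p else p + 16
def iT (a j r : ℕ) : ℕ := if r < 16 then 2 * a - 1 + r else 2 * a + j + r
def iL (a j p : ℕ) : ℕ := if p < j then 2 * a + 16 + p else 2 * a + 32 + p
def sK (a i : ℕ) : ℕ := if i < 2 * a then i else i + 16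
def sG (a j i : ℕ) : ℕ := if i ≤ 16 then 2 * a - 1 + i else 2 * a + j - 1 + i
def sL (a j i : ℕ) : ℕ := if i ≤ j then 2 * a + 16 + i else 2 * a + 32 + i
def Out (a j i : ℕ) : Prop :=
  i ≤ 2 * a - 1 ∨ (2 * a + 15 ≤ i ∧ i ≤ 2 * a + 16 + j) ∨ 2 * a + 32 + j ≤ i

variable {n a b j : ℕ} {H : Type} [Group H]

/-- the crossing relations of `K`, read at positions `ι` -/
def Part (K : Diag n) (ι : ℕ → ℕ) (c : ℕ → H) : Prop :=
  ∀ p < 2 * n, Cr (K.s p) (K.o p) (c (ι p)) (c (ι p + 1)) (c (ι (K.t p))) (c (ι (K.t p) + 1))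

theorem Part.of {K : Diag n} {ι : ℕ → ℕ} {c c' : ℕ → H}
    (h : ∀ p < 2 * n, c (ι p) = c' p ∧ c (ι p + 1) = c' (p + 1)) : Part K ι c ↔ K.LCol c' :=
  forall₂_congr fun p hp => by
    rw [(h p hp).1, (h p hp).2, (h _ (K.t_lt hp)).1, (h _ (K.t_lt hp)).2]

theorem Part.congr {K : Diag n} {ι : ℕ → ℕ} {c c' : ℕ → H} (hc : Part K ι c)
    (h : ∀ p < 2 * n, c' (ι p) = c (ι p) ∧ c' (ι p + 1) = c (ι p + 1)) : Part K ι c' :=
  fun p hp => by
    rw [(h p hp).1, (h p hp).2, (h _ (K.t_lt hp)).1, (h _ (K.t_lt hp)).2]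
    exact hc p hp

theorem Part.sub {G : Type} [Group G] {K : Diag n} {ι : ℕ → ℕ} {c : ℕ → G} (hc : Part K ι c)
    {A : Subgroup G} (f : A →* H) (h : ∀ p < 2 * n, c (ι p) ∈ A ∧ c (ι p + 1) ∈ A) {c' : ℕ → H}
    (h' : ∀ i (hi : c i ∈ A), c' i = f ⟨_, hi⟩) : Part K ι c' := fun p hp => by
  rw [h' _ (h p hp).1, h' _ (h p hp).2, h' _ (h _ (K.t_lt hp)).1, h' _ (h _ (K.t_lt hp)).2]
  exact (Cr.of_map A.subtype A.subtype_injective (hc p hp)).map f

theorem Part.knot {K : Diag n} (hK : K.IsKnot) {ι σ : ℕ → ℕ} {c : ℕ → H} (hc : Part K ι c) {m : H}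
    (h : ∀ p < 2 * n, Mer (c (ι p)) (c (σ p)) ∧ ι p + 1 = σ (p + 1)) (h0 : Mer m (c (σ 0))) :
    ∀ i ≤ 2 * n, Mer m (c (σ i)) :=
  K.knot_pred hK _ (fun p hp => ⟨fun e => ((e.trans' (h p hp).1.symm').trans'
    (hc p hp).mer.1).trans' (h _ (K.t_lt hp)).1, fun e => by
      rw [← (h p hp).2] at e
      rw [← (h _ (K.t_lt hp)).2]
      exact e.trans' (hc p hp).mer.2⟩) h0

theorem join_D (K : Diag a) (L : Diag b) (ha : 0 < a) (hj : j < 2 * b)
    (hK : K.s (2 * a - 1) = true) (hL : ∀ p < j, L.s p = true) :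
    ∃ D : Diag (a + b + 16), ∀ (H : Type) [Group H] (c : ℕ → H), D.LCol c ↔
      Part K (iK a) c ∧ TCol (fun i => c (sG a j i)) ∧ Part L (iL a j) c := by
  obtain ⟨D, -, h⟩ := exists_D (a + b + 16) (α := ℕ ⊕ ℕ ⊕ ℕ)
    (Sum.elim (· < 2 * a) (Sum.elim (· < 32) (· < 2 * b)))
    (Sum.elim (iK a) (Sum.elim (iT a j) (iL a j))) (Sum.map K.t (Sum.map tT L.t))
    (Sum.elim K.s (Sum.elim sT L.s)) (Sum.elim K.o (Sum.elim oT L.o))
    (by
      rintro (y | y | y) (z | z | z) <;>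
        simp only [Sum.elim_inl, Sum.elim_inr, iK, iT, iL, Sum.inl.injEq, Sum.inr.injEq,
          reduceCtorEq] <;> split_ifs <;> omega)
    (by
      rintro (y | y | y) <;> simp only [Sum.elim_inl, Sum.elim_inr, iK, iT, iL] <;>
        split_ifs <;> omega)
    (fun P hP => by
      by_cases h1 : P < 2 * a - 1
      · exact ⟨.inl P, show _ < _ by omega, if_pos h1⟩
      by_cases h2 : P < 2 * a + 15
      · exact ⟨.inr (.inl (P - (2 * a - 1))), show _ < _ by omega,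
          (if_pos (by omega)).trans (by omega)⟩
      by_cases h3 : P < 2 * a + 16
      · exact ⟨.inl (2 * a - 1), show _ < _ by omega, (if_neg (by omega)).trans (by omega)⟩
      by_cases h4 : P < 2 * a + 16 + j
      · exact ⟨.inr (.inr (P - (2 * a + 16))), show _ < _ by omega,
          (if_pos (by omega)).trans (by omega)⟩
      by_cases h5 : P < 2 * a + 32 + j
      · exact ⟨.inr (.inl (P - (2 * a + j))), show _ < _ by omega,
          (if_neg (by omega)).trans (by omega)⟩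
      · exact ⟨.inr (.inr (P - (2 * a + 32))), show _ < _ by omega,
          (if_neg (by omega)).trans (by omega)⟩)
    (by rintro (y | y | y) hy; exacts [K.t_lt hy, (tT_facts y hy).1, L.t_lt hy])
    (by
      rintro (y | y | y) hy
      · simp [K.t_t hy, K.t_ne hy, K.s_t hy, K.o_t hy]
      · simp [tT_facts y hy]
      · simp [L.t_t hy, L.t_ne hy, L.s_t hy, L.o_t hy])
    (by
      have k1 : ∀ y < 2 * a, ∀ z < 32, K.s y = sT z →
          (y < 2 * a - 1 ∧ K.t y < 2 * a - 1) ∨ (z < 16 ↔ tT z < 16) := by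
        intro y hy z hz h
        by_contra hc
        have hs : K.s y = true := by
          by_cases e : y = 2 * a - 1
          · rwa [e]
          · have := K.t_lt hy
            rw [← K.s_t hy, show K.t y = 2 * a - 1 by omega, hK]
        exact hc (Or.inr ((tT_facts z hz).2.2.2.2.2 (h ▸ hs)))
      have k2 : ∀ y < 2 * b, ∀ z < 32, L.s y = sT z →
          (j ≤ y ∧ j ≤ L.t y) ∨ (z < 16 ↔ tT z < 16) := by
        intro y hy z hz h
        by_contra hc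
        have hs : L.s y = true := by
          by_cases e : y < j
          · exact hL y e
          · rw [← L.s_t hy, hL _ (by omega)]
        exact hc (Or.inr ((tT_facts z hz).2.2.2.2.2 (h ▸ hs)))
      rintro (y | y | y) (z | z | z) hy hz h <;>
        simp only [Sum.elim_inl, Sum.elim_inr, Sum.map_inl, Sum.map_inr, iK, iT, iL] at *
      · have := K.pl hy hz h
        split_ifs <;> omega
      · have := k1 y hy z hz h
        have := K.t_lt hy
        split_ifs <;> omega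
      · have := K.t_lt hy
        split_ifs <;> omega
      · have := k1 z hz y hy h.symm
        have := K.t_lt hz
        split_ifs <;> omega
      · have := tT_pl y hy z hz h
        split_ifs <;> omega
      · have := k2 z hz y hy h.symm
        have := (tT_facts y hy).1
        split_ifs <;> omega
      · split_ifs <;> omega
      · have := k2 y hy z hz h
        have := (tT_facts z hz).1
        split_ifs <;> omega
      · have := L.pl hy hz h
        split_ifs <;> omega)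
  refine ⟨D, fun H _ c => (h H c).trans ?_⟩
  have e : ∀ r, iT a j r = sG a j (bT r) ∧ iT a j r + 1 = sG a j (bT r + 1) := fun r => by
    simp only [iT, sG, bT]
    split_ifs <;> omega
  simp only [Sum.forall, Sum.elim_inl, Sum.elim_inr, Sum.map_inl, Sum.map_inr, Part, TCol,
    ← (e _).1, ← (e _).2]

theorem join_lift {K : Diag a} {L : Diag b} {D : Diag (a + b + 16)} (ha : 0 < a) (hj : j < 2 * b)
    (h : ∀ c : ℕ → H, D.LCol c ↔
      Part K (iK a) c ∧ TCol (fun i => c (sG a j i)) ∧ Part L (iL a j) c) {c0 : ℕ → H}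
    (h1 : Part K (iK a) c0) (h2 : Part L (iL a j) c0) {u v : H}
    (hf : Fig u v ((c0 (2 * a - 1))⁻¹ * c0 (2 * a + 32 + j)))
    (h3 : c0 (2 * a + 15) = (v * u * v⁻¹ * u⁻¹) * c0 (2 * a - 1) * (v * u * v⁻¹ * u⁻¹)⁻¹)
    (h4 : c0 (2 * a + 16 + j) = (v * u * v⁻¹ * u⁻¹) * c0 (2 * a + 32 + j) * (v * u * v⁻¹ * u⁻¹)⁻¹) :
    ∃ F : D.grp →* H, (∀ i ≤ 2 * (a + b + 16), Out a j i → F (D.x i) = c0 i) ∧
      F (aW fun i => D.x (sG a j i)) = u ∧ F (bW fun i => D.x (sG a j i)) = v := by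
  obtain ⟨C, c1, c2, c3, rfl, rfl⟩ := tcol_syn hf
  obtain ⟨-, c4, c5, -⟩ := tcol_ana c1
  rw [inv_inv] at c2
  rw [c2, ← h3] at c4
  rw [c3, ← h4] at c5
  let c : ℕ → H := fun i => if 2 * a - 1 ≤ i ∧ i ≤ 2 * a + 15 then C (i - (2 * a - 1)) else
    if 2 * a + 16 + j ≤ i ∧ i ≤ 2 * a + 32 + j then C (i - (2 * a + j - 1)) else c0 i
  have e1 : ∀ i, Out a j i → c i = c0 i := by
    intro i hi
    simp only [c, Out] at *
    split_ifs with p1 p2
    · rcases (show i = 2 * a - 1 ∨ i = 2 * a + 15 by omega) with rfl | rfl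
      · rw [← c2]; congr 1; omega
      · rw [← c4]; congr 1; omega
    · rcases (show i = 2 * a + 16 + j ∨ i = 2 * a + 32 + j by omega) with rfl | rfl
      · rw [← c5]; congr 1; omega
      · rw [← c3]; congr 1; omega
    · rfl
  have e2 : ∀ i < 34, c (sG a j i) = C i := by
    intro i hi
    simp only [c, sG]
    split_ifs <;> first | omega | (congr 1; omega)
  have hc : D.LCol c := by
    refine (h c).2 ⟨h1.congr fun p hp => ⟨e1 _ ?_, e1 _ ?_⟩, fun r hr => ?_,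
      h2.congr fun p hp => ⟨e1 _ ?_, e1 _ ?_⟩⟩
    any_goals (simp only [Out, iK, iL]; split_ifs <;> omega)
    have := (tT_facts r hr).1
    have k : ∀ r < 32, bT r < 34 ∧ bT r + 1 < 34 := by decide
    simp only [e2 _ (k r hr).1, e2 _ (k r hr).2, e2 _ (k _ this).1, e2 _ (k _ this).2]
    exact c1 r hr
  obtain ⟨F, hF⟩ := D.lift hc
  have e3 : ∀ i < 34, F (D.x (sG a j i)) = C i := fun i hi => by
    rw [hF _ (by simp only [sG]; split_ifs <;> omega), e2 i hi]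
  refine ⟨F, fun i hi ho => (hF i hi).trans (e1 i ho), ?_, ?_⟩ <;> simp only [aW, mul_inv_rev, inv_inv, map_mul, map_inv, Nat.lt_add_one, e3, Nat.ofNat_pos, Nat.reduceLT, bW]

theorem join_main (K : Diag a) (L : Diag b) (ha : 0 < a) (hj : j < 2 * b) (kK : K.IsKnot)
    (kL : L.IsKnot) (hK : K.s (2 * a - 1) = true) (hL : ∀ p < j, L.s p = true)
    (hx : K.x (2 * a - 1) ∉ zpowers K.mer) (hy : L.x j ∉ zpowers L.mer) {ε : ℤ}
    (cx : IsConj (K.x (2 * a - 1))⁻¹ (K.mer ^ ε)) (cy : IsConj (L.x j) (L.mer ^ ε)) :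
    ∃ D : Diag (a + b + 16), D.IsKnot ∧ ∃ N, JD D.mer K.mer L.mer N := by
  obtain ⟨D, h⟩ := join_D K L ha hj hK hL
  obtain ⟨pK, pT, pL⟩ := (h _ _).1 D.x_lcol
  obtain ⟨t1, t2, t3, t4, t5⟩ := tcol_ana pT
  set u := aW fun i => D.x (sG a j i)
  set v := bW fun i => D.x (sG a j i)
  have g0 : sG a j 0 = 2 * a - 1 := by simp [sG]
  have g1 : sG a j 16 = 2 * a + 15 := by simp only [sG]; split_ifs <;> omega
  have g2 : sG a j 17 = 2 * a + 16 + j := by simp only [sG]; split_ifs <;> omega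
  have g3 : sG a j 33 = 2 * a + 32 + j := by simp only [sG]; split_ifs <;> omega
  simp only [g0, g1, g2, g3] at t1 t2 t3 t4 t5
  have cov : ∀ i, Out a j i ∨ ∃ k < 34, i = sG a j k := fun i => by
    by_cases p1 : 2 * a - 1 ≤ i ∧ i ≤ 2 * a + 15
    · exact Or.inr ⟨i - (2 * a - 1), by omega, by simp only [sG]; split_ifs <;> omega⟩
    by_cases p2 : 2 * a + 16 + j ≤ i ∧ i ≤ 2 * a + 32 + j
    · exact Or.inr ⟨i - (2 * a + j - 1), by omega, by simp only [sG]; split_ifs <;> omega⟩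
    exact Or.inl (by simp only [Out]; omega)
  have cov' : ∀ i ≤ 2 * (a + b + 16), Out a j i → (∃ k ≤ 2 * a, i = sK a k) ∨ i = 2 * a + 15 ∨
      (∃ k ≤ 2 * b, i = sL a j k) ∨ i = 2 * a + 32 + j := fun i hi ho => by
    by_cases p1 : i ≤ 2 * a - 1
    · exact Or.inl ⟨i, by omega, by simp only [sK]; split_ifs <;> omega⟩
    by_cases p2 : 2 * a + 16 ≤ i ∧ i ≤ 2 * a + 16 + j
    · exact Or.inr (Or.inr (Or.inl ⟨i - (2 * a + 16), by omega,
        by simp only [sL]; split_ifs <;> omega⟩))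
    by_cases p3 : 2 * a + 32 + j < i
    · exact Or.inr (Or.inr (Or.inl ⟨i - (2 * a + 32), by omega,
        by simp only [sL]; split_ifs <;> omega⟩))
    simp only [Out] at ho
    omega
  have q0 : sK a 0 = 0 := by simp [sK, ha]
  have q1 : sK a (2 * a - 1) = 2 * a - 1 := if_pos (by omega)
  have q2 : sK a (2 * a) = sL a j 0 := by simp [sK, sL]
  have q3 : sL a j j = 2 * a + 16 + j := by simp [sL]
  have eK : ∀ p < 2 * a, (iK a p = sK a p ∨ (iK a p = 2 * a + 15 ∧ sK a p = 2 * a - 1)) ∧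
      iK a p + 1 = sK a (p + 1) := fun p hp => by
    simp only [iK, sK]; split_ifs <;> omega
  have eL : ∀ p < 2 * b, (iL a j p = sL a j p ∨ (iL a j p = 2 * a + 32 + j ∧
      sL a j p = 2 * a + 16 + j)) ∧ iL a j p + 1 = sL a j (p + 1) := fun p hp => by
    simp only [iL, sL]; split_ifs <;> omega
  have mK := pK.knot kK (σ := sK a) (m := D.mer) (fun p hp => ⟨by
    rcases (eK p hp).1 with e | ⟨e, e'⟩
    · rw [e]; exact Mer.rfl' _
    · rw [e, e', t2]; exact ((Mer.rfl' _).cj _).symm', (eK p hp).2⟩)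
    (by rw [q0, D.x_zero]; exact Mer.rfl' _)
  have mL := pL.knot kL (σ := sL a j) (m := D.mer) (fun p hp => ⟨by
    rcases (eL p hp).1 with e | ⟨e, e'⟩
    · rw [e]; exact Mer.rfl' _
    · rw [e, e', t3]; exact (Mer.rfl' _).cj _, (eL p hp).2⟩) (q2 ▸ mK _ le_rfl)
  have mx : Mer D.mer (D.x (2 * a - 1)) := q1 ▸ mK _ (by omega)
  have my : Mer D.mer (D.x (2 * a + 32 + j)) := by
    have := mL j hj.le
    rw [q3, t3] at this
    exact this.trans' ((Mer.rfl' _).cj _).symm'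
  refine ⟨D, D.isKnot_iff.2 fun i hi => ?_, normalClosure {u, v}, ?_⟩
  · rcases cov i with ho | ⟨k, hk, rfl⟩
    · rcases cov' i hi ho with ⟨k, hk, rfl⟩ | rfl | ⟨k, hk, rfl⟩ | rfl
      exacts [mK k hk, t2 ▸ mx.cj _, mL k hk, my]
    · exact t5 _ mx my k hk
  -- the piece
  let S : Set D.grp := {g | (∃ i ≤ 2 * (a + b + 16), Out a j i ∧ g = D.x i) ∨ g = v * u * v⁻¹ * u⁻¹}
  have mA : ∀ i ≤ 2 * (a + b + 16), Out a j i → D.x i ∈ closure S := fun i hi ho =>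
    subset_closure (Or.inl ⟨i, hi, ho, rfl⟩)
  have xA := mA (2 * a - 1) (by omega) (Or.inl le_rfl)
  have yA := mA (2 * a + 32 + j) (by omega) (Or.inr (Or.inr le_rfl))
  have lA : v * u * v⁻¹ * u⁻¹ ∈ closure S := subset_closure (Or.inr rfl)
  have oK : ∀ p < 2 * a, D.x (iK a p) ∈ closure S ∧ D.x (iK a p + 1) ∈ closure S := fun p hp =>
    ⟨mA _ (by simp only [iK]; split_ifs <;> omega) (by simp only [Out, iK]; split_ifs <;> omega),
      mA _ (by simp only [iK]; split_ifs <;> omega) (by simp only [Out, iK]; split_ifs <;> omega)⟩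
  have oL : ∀ p < 2 * b, D.x (iL a j p) ∈ closure S ∧ D.x (iL a j p + 1) ∈ closure S := fun p hp =>
    ⟨mA _ (by simp only [iL]; split_ifs <;> omega) (by simp only [Out, iL]; split_ifs <;> omega),
      mA _ (by simp only [iL]; split_ifs <;> omega) (by simp only [Out, iL]; split_ifs <;> omega)⟩
  have hP : Piece (closure S) u v ((D.x (2 * a - 1))⁻¹ * D.x (2 * a + 32 + j)) := by
    refine ⟨t1, mul_mem (inv_mem xA) yA, lA, D.gen _ fun i hi => ?_, fun H _ f u' v' f1 f2 => ?_⟩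
    · rcases cov i with ho | ⟨k, hk, rfl⟩
      · exact mem_sup_left (mA i hi ho)
      · exact t4 _ (mem_sup_left xA) (mem_sup_left yA) (mem_sup_right (subset_closure (by simp only [Set.mem_insert_iff, Set.mem_singleton_iff, true_or])))
          (mem_sup_right (subset_closure (by simp only [Set.mem_insert_iff, Set.mem_singleton_iff, true_or, or_true]))) k hk
    · classical
      let c0 : ℕ → H := fun i => if h : D.x i ∈ closure S then f ⟨_, h⟩ else 1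
      have hc : ∀ i (hi : D.x i ∈ closure S), c0 i = f ⟨_, hi⟩ := fun i hi => dif_pos hi
      obtain ⟨F, f3, f4, f5⟩ := join_lift ha hj (h H) (pK.sub f oK hc) (pL.sub f oL hc)
        (u := u') (v := v') (by rw [hc _ xA, hc _ yA, ← map_inv, ← map_mul]; exact f1)
        (by
          rw [hc _ xA, hc _ (mA _ (by omega) (by simp only [Out]; omega)), ← f2, ← map_inv,
            ← map_mul, ← map_mul]
          exact congrArg f (Subtype.ext t2))
        (by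
          rw [hc _ yA, hc _ (mA _ (by omega) (by simp only [Out]; omega)), ← f2, ← map_inv,
            ← map_mul, ← map_mul]
          exact congrArg f (Subtype.ext t3))
      refine ⟨F, ext_closure F f ?_, f4, f5⟩
      rintro _ (⟨i, hi, ho, rfl⟩ | rfl)
      · exact (f3 i hi ho).trans (hc _ _)
      · rw [f2, ← f4, ← f5]; simp only [v, u, map_mul, map_inv]
  let π := QuotientGroup.mk' (normalClosure ({u, v} : Set D.grp))
  have hπ : π.ker = normalClosure {u, v} := QuotientGroup.ker_mk' _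
  have pu : π u = 1 := (QuotientGroup.eq_one_iff _).2 (subset_normalClosure (by simp))
  have pv : π v = 1 := (QuotientGroup.eq_one_iff _).2 (subset_normalClosure (by simp))
  have p2 : π (D.x (2 * a + 15)) = π (D.x (2 * a - 1)) := by simp only [t2, mul_inv_rev, inv_inv, map_mul, pv, pu, mul_one, map_inv, inv_one, one_mul]
  have p3 : π (D.x (2 * a + 16 + j)) = π (D.x (2 * a + 32 + j)) := by simp only [t3, mul_inv_rev, inv_inv, map_mul, pv, pu, mul_one, map_inv, inv_one, one_mul]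
  have lK : K.LCol fun i => π (D.x (sK a i)) :=
    (Part.of (c := fun i => π (D.x i)) fun p hp => ⟨by
      rcases (eK p hp).1 with e | ⟨e, e'⟩
      · rw [e]
      · rw [e, e', p2], by rw [(eK p hp).2]⟩).1 fun p hp => (pK p hp).map π
  have lL : L.LCol fun i => π (D.x (sL a j i)) :=
    (Part.of (c := fun i => π (D.x i)) fun p hp => ⟨by
      rcases (eL p hp).1 with e | ⟨e, e'⟩
      · rw [e]
      · rw [e, e', p3], by rw [(eL p hp).2]⟩).1 fun p hp => (pL p hp).map π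
  obtain ⟨jK, hjK⟩ := K.lift lK
  obtain ⟨jL, hjL⟩ := L.lift lL
  have m0 : jK K.mer = π D.mer := by rw [← K.x_zero, hjK 0 (by omega), q0, D.x_zero]
  have jx : π (D.x (2 * a - 1)) = jK (K.x (2 * a - 1)) := by rw [hjK _ (by omega), q1]
  have jy : π (D.x (2 * a + 32 + j)) = jL (L.x j) := by rw [hjL _ hj.le, q3, p3]
  have hS : IsSum jK jL K.mer L.mer := by
    refine ⟨by rw [← K.x_close, ← L.x_zero, hjK _ le_rfl, hjL _ (by omega), q2], ?_,
      fun H _ f g e => ?_⟩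
    · have : (jK.range ⊔ jL.range).comap π = ⊤ := by
        have r1 : D.x (2 * a - 1) ∈ (jK.range ⊔ jL.range).comap π :=
          mem_sup_left (S := jK.range) ⟨_, jx.symm⟩
        have r2 : D.x (2 * a + 32 + j) ∈ (jK.range ⊔ jL.range).comap π :=
          mem_sup_right (T := jL.range) ⟨_, jy.symm⟩
        refine D.gen _ fun i hi => ?_
        rcases cov i with ho | ⟨k, hk, rfl⟩
        · rcases cov' i hi ho with ⟨k, hk, rfl⟩ | rfl | ⟨k, hk, rfl⟩ | rfl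
          exacts [mem_sup_left (S := jK.range) ⟨_, hjK k hk⟩, by rwa [mem_comap, p2],
            mem_sup_right (T := jL.range) ⟨_, hjL k hk⟩, r2]
        · exact t4 _ r1 r2 (by simp only [mem_comap, pu, one_mem]) (by simp only [mem_comap, pv, one_mem]) k hk
      refine (eq_top_iff' _).2 fun g => ?_
      obtain ⟨g, rfl⟩ := QuotientGroup.mk'_surjective _ g
      exact (this ▸ mem_top g : g ∈ (jK.range ⊔ jL.range).comap π)
    · let c0 : ℕ → H := fun i => if i ≤ 2 * a - 1 then f (K.x i) else if i ≤ 2 * a + 15 then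
        f (K.x (2 * a - 1)) else if i ≤ 2 * a + 16 + j then g (L.x (i - (2 * a + 16))) else
        g (L.x (i - (2 * a + 32)))
      have cL : ∀ i, c0 (sL a j i) = g (L.x i) := fun i => by
        simp only [c0, sL]
        split_ifs <;> first | omega | (congr 2; omega)
      have cK : ∀ i ≤ 2 * a, c0 (sK a i) = f (K.x i) := fun i hi => by
        rcases hi.eq_or_lt with rfl | hi
        · rw [q2, cL, K.x_close, L.x_zero, e]
        · simp only [c0, sK]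
          split_ifs <;> first | omega | rfl
      have c2 : c0 (2 * a + 15) = c0 (2 * a - 1) := by
        simp only [c0]
        split_ifs <;> first | omega | rfl
      have c3 : c0 (2 * a + 16 + j) = c0 (2 * a + 32 + j) := by
        simp only [c0]
        split_ifs <;> first | omega | (congr 2; omega)
      obtain ⟨F, f3, f4, f5⟩ := join_lift ha hj (h H) (c0 := c0)
        ((Part.of (c' := fun i => f (K.x i)) fun p hp => ⟨by
          rw [← cK p hp.le]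
          rcases (eK p hp).1 with e | ⟨e, e'⟩
          · rw [e]
          · rw [e, e', c2], by rw [(eK p hp).2, cK _ hp]⟩).2 fun p hp => (K.x_lcol p hp).map f)
        ((Part.of (c' := fun i => g (L.x i)) fun p hp => ⟨by
          rw [← cL p]
          rcases (eL p hp).1 with e | ⟨e, e'⟩
          · rw [e]
          · rw [e, e', c3], by rw [(eL p hp).2, cL]⟩).2 fun p hp => (L.x_lcol p hp).map g)
        (u := 1) (v := 1) ⟨by simp only [mul_one, mul_inv_rev, inv_inv, mul_mul_inv_mul_cancel, inv_mul_cancel], by simp only [mul_one, mul_inv_rev, inv_inv, mul_mul_inv_mul_cancel, inv_mul_cancel]⟩ (by simp [c2]) (by simp [c3])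
      obtain ⟨F0, h0⟩ := descend (QuotientGroup.mk'_surjective _) hπ F f4 f5
      refine ⟨F0, DFunLike.congr_fun (K.hom_ext (f := F0.comp jK) fun i hi => ?_),
        DFunLike.congr_fun (L.hom_ext (f := F0.comp jL) fun i hi => ?_)⟩
      · rw [MonoidHom.comp_apply, hjK i hi, h0, f3 _ (by simp only [sK]; split_ifs <;> omega)
          (by simp only [Out, sK]; split_ifs <;> omega), cK i hi]
      · rw [MonoidHom.comp_apply, hjL i hi, h0, f3 _ (by simp only [sL]; split_ifs <;> omega)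
          (by simp only [Out, sL]; split_ifs <;> omega), cL i]
  refine ⟨closure S, u, v, _, _, _, inferInstance, π, jK, jL, (K.x (2 * a - 1))⁻¹, L.x j, hP, rfl,
    QuotientGroup.mk'_surjective _, hπ, hS, m0 ▸ Mer.rfl' _, ?_, mx.inv, by simp only [map_inv, jx], jy,
    by simpa only [inv_mem_iff] using hx, hy⟩
  obtain ⟨φ, hφ⟩ := hS.phi K.hasPhi L.hasPhi
  refine conj_of_mer (φ.comp π) (show val φ (π D.mer) ≠ 0 by rw [← m0, hφ]; simp) mx.inv my ?_
  have v1 := val_conj φ (jK.map_isConj cx)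
  have v2 := val_conj φ (jL.map_isConj cy)
  rw [map_zpow, ← hS.eq, ← map_zpow, ← v1, map_inv, ← jx, ← jy, ← map_inv] at v2
  exact v2.symm

theorem join {K : Diag a} {L : Diag b} (hK : K.IsPrime) (hL : L.IsPrime) :
    ∃ k ≤ a + b + 17, ∃ D : Diag k, D.IsPrime ∧ ∃ (K' L' : Type) (_ : Group K') (_ : Group L')
      (mK : K') (mL : L') (N : Subgroup D.grp), MIso K.mer mK ∧ MIso L.mer mL ∧
      JD D.mer mK mL N := by
  obtain ⟨K', ha, k1, k2, k3, k4⟩ := Diag.readyK hK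
  obtain ⟨ε, hε, cx⟩ : ∃ ε : ℤ, (ε = 1 ∨ ε = -1) ∧ IsConj (K'.x (2 * a - 1))⁻¹ (K'.mer ^ ε) := by
    rcases (K'.isKnot_iff.1 k1 (2 * a - 1) (by omega)).inv with h | h
    exacts [⟨1, Or.inl rfl, by simpa only [zpow_ofNat, pow_one, isConj_iff] using h⟩, ⟨-1, Or.inr rfl, by simpa only [Int.reduceNeg, zpow_neg, zpow_ofNat, pow_one, isConj_iff] using h⟩]
  obtain ⟨k, hk, L', j, hj, l1, l2, l3, l4, cy⟩ := Diag.readyL hL ε hε
  obtain ⟨D, d1, N, d2⟩ := join_main K' L' ha hj k1 l1 k3 l3 k4 l4 cx cy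
  have g1 := hK.good.iso k2
  have g2 := hL.good.iso l2
  exact ⟨_, by omega, D, ⟨d1, d2.nc g1 g2, d2.not_splits g1 g2⟩, _, _, _, _, _, _, N, k2, l2, d2⟩

end PartJN

section PartBK


open Subgroup DihedralGroup

variable {n : ℕ}

theorem Jn_fin (D : Diag n) (p : ℕ) [NeZero p] :
    Finite {f : D.grp →* DihedralGroup p // f D.mer = sr 0} :=
  Finite.of_injective (fun f => fun i : Fin (2 * n + 1) => f.1 (PresentedGroup.of i))
    fun _ _ h => Subtype.ext (PresentedGroup.ext fun i => congrFun h i)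

theorem Jn_ne (D : Diag n) (p : ℕ) : Nonempty {f : D.grp →* DihedralGroup p // f D.mer = sr 0} := by
  obtain ⟨φ, hφ⟩ := D.hasPhi
  exact ⟨(zpowersHom _ (sr 0)).comp φ, by simp only [val] at hφ; simp [hφ]⟩

theorem Jn_pos (D : Diag n) (p : ℕ) [NeZero p] : 0 < Jn p D.mer :=
  haveI := Jn_fin D p
  haveI := Jn_ne D p
  Nat.card_pos

theorem tor_aux (D : Diag n) (hn : 0 < n) (k : ℕ)
    (hrel : (D.x 1 * (D.x 0)⁻¹) ^ (k + 1) = D.x 1 * (D.x 1 * (D.x 0)⁻¹) ^ k * D.x 1)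
    (hm : ∀ i ≤ 2 * n, Mer (D.x 0) (D.x i))
    (hg : ∀ S : Subgroup D.grp, D.x 0 ∈ S → D.x 1 ∈ S → ∀ i ≤ 2 * n, D.x i ∈ S) (p : ℕ) [NeZero p]
    (c : ℕ → DihedralGroup p) (hc : D.LCol c) (h0 : c 0 = sr 0) (h1 : c 0 * c 1 ≠ c 1 * c 0) :
    D.IsPrime ∧ 1 < Jn p D.mer := by
  obtain ⟨f, hf⟩ := D.lift hc
  rw [← hf 0 (by omega), ← hf 1 (by omega), ← map_mul, ← map_mul] at h1
  refine ⟨Diag.prime_of_good (D.isKnot_iff.2 (D.x_zero ▸ hm)) ⟨?_, fun h => ?_, D.hasPhi⟩, ?_⟩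
  · rintro V T ⟨v, hv⟩ -
    rw [← D.x_zero] at hv
    obtain ⟨u, hu⟩ := (hm 1 (by omega)).ell T hv
    obtain ⟨w, w1, w2⟩ := T.torus hu (T.fix_inv hv) k hrel
    have := D.gen ((MulAction.stabilizer (Equiv.Perm V) w).comap T.a)
      (hg _ (by simpa using T.fix_inv w2) w1)
    exact ⟨w, fun g => (this ▸ mem_top g : g ∈ (MulAction.stabilizer (Equiv.Perm V) w).comap T.a)⟩
  · let _ := IsCyclic.commGroup (α := D.grp)
    exact h1 (congrArg f (mul_comm _ _))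
  · have := Jn_fin D p
    obtain ⟨φ, hφ⟩ := D.hasPhi
    refine Finite.one_lt_card_iff_nontrivial.2 ⟨⟨f, by rw [← D.x_zero, hf 0 (by omega), h0]⟩,
      ⟨(zpowersHom _ (sr 0)).comp φ, by simp only [val] at hφ; simp [hφ]⟩, fun e => h1 ?_⟩
    rw [show f = (zpowersHom _ (sr 0)).comp φ from congrArg Subtype.val e]
    simp [mul_comm]

theorem exists_tor (n : ℕ) (hn : 0 < n) : ∃ D : Diag n, ∀ (H : Type) [Group H] (c : ℕ → H),
    D.LCol c ↔ ∀ p < 2 * n, Cr (decide (p = 0 ∨ p = n)) true (c p) (c (p + 1))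
      (c (if p = 0 then n else if p = n then 0 else 2 * n - p))
      (c ((if p = 0 then n else if p = n then 0 else 2 * n - p) + 1)) := by
  obtain ⟨D, -, h⟩ := exists_D n (fun p => p < 2 * n) id
    (fun p => if p = 0 then n else if p = n then 0 else 2 * n - p)
    (fun p => decide (p = 0 ∨ p = n)) (fun _ => true) (fun y z _ _ h => h) (fun z hz => hz)
    (fun P hP => ⟨P, hP, rfl⟩) (fun z hz => by split_ifs <;> omega)
    (fun z hz => by
      refine ⟨?_, ?_, ?_, rfl⟩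
      · split_ifs <;> omega
      · split_ifs <;> omega
      · rw [decide_eq_decide]; split_ifs <;> omega)
    (fun y z hy hz h => by
      rw [decide_eq_decide] at h
      simp only [id]
      split_ifs <;> omega)
  exact ⟨D, h⟩

theorem exists_tor3 : ∃ D : Diag 3, D.IsPrime ∧ 1 < Jn 3 D.mer := by
  obtain ⟨D, h⟩ := exists_tor 3 (by omega)
  have k := (h _ _).1 D.x_lcol
  obtain ⟨a3, a4⟩ : D.x 3 = _ ∧ D.x 4 = _ := k 0 (by omega)
  obtain ⟨a5, a6⟩ : D.x 5 = _ ∧ D.x 6 = _ := k 1 (by omega)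
  obtain ⟨b4, b5⟩ : D.x 4 = _ ∧ D.x 5 = _ := k 2 (by omega)
  have a0 : D.x 6 = D.x 0 := D.paren D.x_lcol
  simp only [Nat.reduceAdd] at *
  have a2 : D.x 2 = (D.x 0)⁻¹ * D.x 1 * D.x 0 := by rw [← inv_inj, ← b4, a4]; group
  refine ⟨D, tor_aux D (by omega) 1 ?_ (fun i hi => ?_) (fun S s0 s1 i hi => ?_) 3
    (fun i => sr ([0, 1, 2, 0, 2, 1, 0].getD i 0)) ((h _ _).2 fun p hp => ?_) rfl (by decide)⟩
  · rw [a0, a2] at a6
    calc _ = D.x 1 * (D.x 1 * ((D.x 0)⁻¹ * D.x 1 * D.x 0)⁻¹ * (D.x 1)⁻¹)⁻¹ * D.x 1 * (D.x 0)⁻¹ := by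
          rw [← a6]; simp only [pow_succ]; group
      _ = _ := by group
  · have m0 := Mer.rfl' (D.x 0)
    have m2 : Mer (D.x 0) (D.x 2) := by
      have := m0
      rw [← a0, a6] at this
      exact a0 ▸ (a6 ▸ ((Mer.rfl' _).inv.cj _).symm' : Mer (D.x 6) (D.x 2))
    have m1 : Mer (D.x 0) (D.x 1) := m2.trans' (a2 ▸ ((Mer.rfl' _).cj' _).symm')
    interval_cases i
    exacts [m0, m1, m2, a3 ▸ m0.inv, b4 ▸ m2.inv, a5 ▸ m1.inv, a0 ▸ m0]
  · have s2 : D.x 2 ∈ S := a2 ▸ mul_mem (mul_mem (inv_mem s0) s1) s0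
    interval_cases i
    exacts [s0, s1, s2, a3 ▸ inv_mem s0, b4 ▸ inv_mem s2, a5 ▸ inv_mem s1, a0 ▸ s0]
  · interval_cases p <;> exact ⟨by decide, by decide⟩

theorem exists_tor5 : ∃ D : Diag 5, D.IsPrime ∧ 1 < Jn 5 D.mer ∧ Jn 3 D.mer = 1 := by
  obtain ⟨D, h⟩ := exists_tor 5 (by omega)
  have k := (h _ _).1 D.x_lcol
  obtain ⟨a5, a6⟩ : D.x 5 = _ ∧ D.x 6 = _ := k 0 (by omega)
  obtain ⟨a9, a10⟩ : D.x 9 = _ ∧ D.x 10 = _ := k 1 (by omega)
  obtain ⟨a8, b9⟩ : D.x 8 = _ ∧ D.x 9 = _ := k 2 (by omega)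
  obtain ⟨a7, b8⟩ : D.x 7 = _ ∧ D.x 8 = _ := k 3 (by omega)
  obtain ⟨b6, b7⟩ : D.x 6 = _ ∧ D.x 7 = _ := k 4 (by omega)
  have a0 : D.x 10 = D.x 0 := D.paren D.x_lcol
  simp only [Nat.reduceAdd] at *
  have a2 : D.x 2 = (D.x 1)⁻¹ * (D.x 0)⁻¹ * D.x 1 := by rw [← a0, a10]; group
  have a3 : D.x 3 = (D.x 2)⁻¹ * D.x 1 * D.x 2 := by rw [← inv_inv (D.x 1), ← a9, b9]; group
  have a4 : D.x 4 = (D.x 3)⁻¹ * D.x 2 * D.x 3 := by rw [← inv_inv (D.x 2), ← a8, b8]; group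
  have rel : (D.x 1 * (D.x 0)⁻¹) ^ (2 + 1) = D.x 1 * (D.x 1 * (D.x 0)⁻¹) ^ 2 * D.x 1 := by
    rw [b6, a4, a3, a2, ← inv_inj, inv_inv] at a6
    calc _ = D.x 1 * D.x 1 * (D.x 0)⁻¹ * D.x 1 * (D.x 0)⁻¹ *
          (D.x 0 * (D.x 1)⁻¹ * D.x 0 * (D.x 1)⁻¹ * (D.x 0)⁻¹ * D.x 1 * (D.x 0)⁻¹ * D.x 1 *
          (D.x 0)⁻¹) := by simp only [pow_succ]; group
      _ = D.x 1 * D.x 1 * (D.x 0)⁻¹ * D.x 1 * (D.x 0)⁻¹ *
          (D.x 0 * ((D.x 0)⁻¹ * (D.x 1)⁻¹ * D.x 0)⁻¹ * (D.x 0)⁻¹) := by rw [← a6]; group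
      _ = _ := by simp only [pow_succ]; group
  have m0 := Mer.rfl' (D.x 0)
  have m2 : Mer (D.x 0) (D.x 2) := a2 ▸ m0.inv.cj' _
  have m4 : Mer (D.x 0) (D.x 4) := a4 ▸ m2.cj' _
  have m1 : Mer (D.x 0) (D.x 1) :=
    (b6 ▸ m4.inv : Mer (D.x 0) (D.x 6)).trans' (a6 ▸ ((Mer.rfl' _).inv.cj' _).symm')
  have hg : ∀ S : Subgroup D.grp, D.x 0 ∈ S → D.x 1 ∈ S → ∀ i ≤ 2 * 5, D.x i ∈ S := by
    intro S s0 s1 i hi
    have s2 : D.x 2 ∈ S := a2 ▸ mul_mem (mul_mem (inv_mem s1) (inv_mem s0)) s1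
    have s3 : D.x 3 ∈ S := a3 ▸ mul_mem (mul_mem (inv_mem s2) s1) s2
    have s4 : D.x 4 ∈ S := a4 ▸ mul_mem (mul_mem (inv_mem s3) s2) s3
    interval_cases i
    exacts [s0, s1, s2, s3, s4, a5 ▸ inv_mem s0, b6 ▸ inv_mem s4, a7 ▸ inv_mem s3,
      a8 ▸ inv_mem s2, a9 ▸ inv_mem s1, a0 ▸ s0]
  obtain ⟨h1, h2⟩ := tor_aux D (by omega) 2 rel (fun i hi => by
      have m3 : Mer (D.x 0) (D.x 3) := a3 ▸ m1.cj' _
      interval_cases i
      exacts [m0, m1, m2, m3, m4, a5 ▸ m0.inv, b6 ▸ m4.inv, a7 ▸ m3.inv, a8 ▸ m2.inv,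
        a9 ▸ m1.inv, a0 ▸ m0]) hg 5
    (fun i => sr ([0, 1, 2, 3, 4, 0, 4, 3, 2, 1, 0].getD i 0))
    ((h _ _).2 fun p hp => by interval_cases p <;> exact ⟨by decide, by decide⟩) rfl (by decide)
  refine ⟨D, h1, h2, Nat.card_eq_one_iff_unique.2 ⟨⟨?_⟩, Jn_ne D 3⟩⟩
  have key : ∀ f : D.grp →* DihedralGroup 3, f (D.x 0) = sr 0 → f (D.x 1) = sr 0 := by
    intro f hf
    obtain ⟨i, hi⟩ := mer_sr (hf ▸ m1.map f)
    have := congrArg f rel
    simp only [map_mul, map_pow, map_inv, hf, hi] at this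
    rw [hi]
    clear hi
    revert i
    decide
  rintro ⟨f, hf⟩ ⟨g, hg'⟩
  rw [← D.x_zero] at hf hg'
  exact Subtype.ext (D.hom_ext (hg (f.eqLocus g) (hf.trans hg'.symm)
    ((key f hf).trans (key g hg').symm)))

theorem family (i j : ℕ) {α β γ : ℕ} {D3 : Diag 3} {D5 : Diag 5} (h3 : D3.IsPrime)
    (h5 : D5.IsPrime) (e1 : Jn 3 D3.mer = α) (e2 : Jn 5 D3.mer = γ) (e3 : Jn 3 D5.mer = 1)
    (e4 : Jn 5 D5.mer = β) : ∃ k ≤ 5 + 22 * (i + j), ∃ D : Diag k, D.IsPrime ∧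
      Jn 3 D.mer = α ^ i ∧ Jn 5 D.mer = β ^ (j + 1) * γ ^ i := by
  induction i with
  | zero =>
    induction j with
    | zero => exact ⟨5, le_rfl, D5, h5, by simpa, by simpa⟩
    | succ j ih =>
      obtain ⟨k, hk, D, d1, d2, d3⟩ := ih
      obtain ⟨k', hk', D', d4, K', L', _, _, mK, mL, N, i1, i2, hJ⟩ := join d1 h5
      refine ⟨k', by omega, D', d4, ?_, ?_⟩ <;> rw [hJ.Jn, ← Jn_iso _ i1, ← Jn_iso _ i2]
      · rw [d2, e3, mul_one]
      · rw [d3, e4]; ring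
  | succ i ih =>
    obtain ⟨k, hk, D, d1, d2, d3⟩ := ih
    obtain ⟨k', hk', D', d4, K', L', _, _, mK, mL, N, i1, i2, hJ⟩ := join d1 h3
    refine ⟨k', by omega, D', d4, ?_, ?_⟩ <;> rw [hJ.Jn, ← Jn_iso _ i1, ← Jn_iso _ i2]
    · rw [d2, e1]; ring
    · rw [d3, e2]; ring

end PartBK

section PartCT


open Subgroup

variable {n k : ℕ}

theorem diag_inj : Function.Injective fun (D : Diag n) (p : Fin (2 * n)) =>
    (decide (p < D.mate p), D.side p, D.top p) := by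
  intro D E h
  have h1 : ∀ p, (p < D.mate p ↔ p < E.mate p) ∧ D.side p = E.side p ∧ D.top p = E.top p :=
    fun p => by simpa using congrFun h p
  have key : ∀ (D E : Diag n), (∀ p, (p < D.mate p ↔ p < E.mate p) ∧ D.side p = E.side p) →
      ∀ q, (∀ r < q, D.mate r < r → D.mate r = E.mate r) → D.mate q < E.mate q → E.mate q < q →
      False := by
    intro D E h q ih h2 h3
    have a1 : E.mate q < D.mate (E.mate q) := (h _).1.2 (by rwa [E.mate_mate])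
    have a2 := D.planar (D.mate q) (E.mate q)
      (by rw [D.side_mate, (h q).2, (h (E.mate q)).2, E.side_mate])
    rw [D.mate_mate] at a2
    have a3 : D.mate (E.mate q) ≠ q := fun e => h2.ne (by rw [← e, D.mate_mate, e])
    have a4 : D.mate (E.mate q) < q := lt_of_le_of_ne (not_lt.1 fun e => a2 ⟨h2, h3, e⟩) a3
    have a5 := ih _ a4 (by rwa [D.mate_mate])
    rw [D.mate_mate] at a5
    have := congrArg E.mate a5
    rw [E.mate_mate, E.mate_mate] at this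
    exact a4.ne' this
  have cl : ∀ q, D.mate q < q → D.mate q = E.mate q := by
    intro q
    induction q using WellFoundedLT.induction with
    | ind q ih =>
      intro hq
      have hq' : E.mate q < q := lt_of_le_of_ne (not_lt.1 fun e => hq.asymm ((h1 q).1.2 e))
        (E.mate_ne q)
      rcases lt_trichotomy (D.mate q) (E.mate q) with e | e | e
      · exact (key D E (fun p => ⟨(h1 p).1, (h1 p).2.1⟩) q ih e hq').elim
      · exact e
      · refine (key E D (fun p => ⟨(h1 p).1.symm, (h1 p).2.1.symm⟩) q (fun r hr e => ?_) e hq).elim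
        exact (ih r hr (lt_of_le_of_ne (not_lt.1 fun e' => e.asymm ((h1 r).1.1 e'))
          (D.mate_ne r))).symm
  have hm : D.mate = E.mate := funext fun p => by
    rcases lt_or_gt_of_ne (D.mate_ne p) with e | e
    · exact cl p e
    · have := cl (D.mate p) (by rwa [D.mate_mate])
      rw [D.mate_mate] at this
      rw [this, E.mate_mate, ← this]
  cases D
  cases E
  simp only [Diag.mk.injEq]
  exact ⟨hm, funext fun p => (h1 p).2.1, funext fun p => (h1 p).2.2⟩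

instance : Finite (Diag n) := Finite.of_injective _ diag_inj

theorem card_diag : Nat.card (Diag n) ≤ 64 ^ n := by
  have := Nat.card_le_card_of_injective _ (diag_inj (n := n))
  simpa only [ge_iff_le, Nat.card_eq_fintype_card, Fintype.card_pi, Fintype.card_prod, Fintype.card_bool, Nat.reduceMul, Finset.prod_const, Finset.card_univ, Fintype.card_fin, pow_mul, Nat.reducePow] using this

theorem pk_sub : primeKnots n ⊆ Set.range (Diag.type : Diag n → _) := by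
  rintro _ ⟨D, -, rfl, -⟩
  exact ⟨D, rfl⟩

theorem pk_fin (n : ℕ) : (primeKnots n).Finite := (Set.finite_range _).subset pk_sub

theorem pk_le (n : ℕ) : (primeKnots n).ncard ≤ 64 ^ n := by
  refine (Set.ncard_le_ncard pk_sub (Set.finite_range _)).trans (le_trans ?_ card_diag)
  rw [← Set.image_univ, ← Set.ncard_univ]
  exact Set.ncard_image_le Set.finite_univ

theorem type_eq {D : Diag n} {E : Diag k} (h : MIso D.mer E.mer) : D.type = E.type :=
  Set.ext fun _ => and_congr_right fun _ => ⟨fun e => h.symm.trans e, fun e => h.trans e⟩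

theorem iso_of_type {D : Diag n} {E : Diag k} (hE : E.IsKnot) (h : D.type = E.type) :
    MIso D.mer E.mer := (h ▸ (⟨hE, MIso.rfl' _⟩ : ⟨k, E⟩ ∈ E.type) : ⟨k, E⟩ ∈ D.type).2

/-- number of prime knot types with at most `n` crossings -/
noncomputable def NN (n : ℕ) : ℕ := ∑ j ∈ Finset.range (n + 1), (primeKnots j).ncard

open Classical in
noncomputable def UU (n : ℕ) : Finset (Set (Σ k, Diag k)) :=
  (Finset.range (n + 1)).biUnion fun j => (pk_fin j).toFinset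

theorem card_UU (n : ℕ) : (UU n).card = NN n := by
  classical
  rw [UU, Finset.card_biUnion, NN]
  · exact Finset.sum_congr rfl fun j _ => (Set.ncard_eq_toFinset_card _ _).symm
  · intro i _ j _ hij
    refine Finset.disjoint_left.2 fun S h1 h2 => hij ?_
    obtain ⟨D, d1, d2, d3⟩ := (pk_fin i).mem_toFinset.1 h1
    obtain ⟨E, e1, e2, e3⟩ := (pk_fin j).mem_toFinset.1 h2
    exact le_antisymm (d3 ⟨j, E⟩ (e2 ▸ ⟨e1.1, MIso.rfl' _⟩)) (e3 ⟨i, D⟩ (d2 ▸ ⟨d1.1, MIso.rfl' _⟩))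

theorem mem_UU {S : Set (Σ k, Diag k)} :
    S ∈ UU n ↔ ∃ k ≤ n, ∃ D : Diag k, D.IsPrime ∧ S = D.type := by
  classical
  simp only [UU, Finset.mem_biUnion, Finset.mem_range, Set.Finite.mem_toFinset]
  constructor
  · rintro ⟨j, hj, D, d1, d2, -⟩
    exact ⟨j, by omega, D, d1, d2⟩
  · rintro ⟨k, hk, D, d1, rfl⟩
    have hex : ∃ j, ∃ E : Diag j, ⟨j, E⟩ ∈ D.type := ⟨k, D, d1.1, MIso.rfl' _⟩
    obtain ⟨E, hE⟩ := Nat.find_spec hex
    have := Nat.find_min' hex ⟨D, d1.1, MIso.rfl' _⟩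
    exact ⟨_, by omega, E, d1.iso hE.1 hE.2, type_eq hE.2, fun F hF => Nat.find_min' hex ⟨F.2, hF⟩⟩

def JR {G : Type} [Group G] (m : G) (z : Set (Σ k, Diag k) × Set (Σ k, Diag k)) (N : Subgroup G) :
    Prop :=
  ∃ (a b : ℕ) (D1 : Diag a) (D2 : Diag b) (K L : Type) (_ : Group K) (_ : Group L) (mK : K)
    (mL : L), D1.IsPrime ∧ D2.IsPrime ∧ z.1 = D1.type ∧ z.2 = D2.type ∧ MIso D1.mer mK ∧
    MIso D2.mer mL ∧ JD m mK mL N

theorem fibre (D : Diag k) (F : Finset (Set (Σ k, Diag k) × Set (Σ k, Diag k)))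
    (h : ∀ z ∈ F, ∃ N, JR D.mer z N) : F.card ≤ 4 * (2 * (2 * k + 1)) := by
  classical
  choose! ν hν using h
  refine (Finset.card_le_mul_card_image (f := ν) F 4 fun N hN => ?_).trans
    (Nat.mul_le_mul_left _ (jd_count D.hasPhi _ (PresentedGroup.closure_range_of _) _ ?_))
  · obtain ⟨z0, h0, rfl⟩ := Finset.mem_image.1 hN
    obtain ⟨a, b, D1, D2, K, L, _, _, mK, mL, p1, p2, t1, t2, i1, i2, hJ⟩ := hν z0 h0
    refine (Finset.card_le_card (t := {z0.1, z0.2} ×ˢ {z0.1, z0.2}) fun z hz => ?_).trans ?_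
    · obtain ⟨hz, e⟩ := Finset.mem_filter.1 hz
      obtain ⟨a', b', D1', D2', K', L', _, _, mK', mL', p1', p2', t1', t2', i1', i2', hJ'⟩ :=
        hν z hz
      rw [e] at hJ'
      obtain ⟨u1, u2⟩ := hJ.uniq hJ' (p1.good.iso i1) (p2.good.iso i2) (p1'.good.iso i1')
        (p2'.good.iso i2')
      simp only [Finset.mem_product, Finset.mem_insert, Finset.mem_singleton, t1, t2, t1', t2']
      exact ⟨u1.imp (fun u => type_eq ((i1'.trans u).trans i1.symm))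
          fun u => type_eq ((i1'.trans u).trans i2.symm),
        u2.imp (fun u => type_eq ((i2'.trans u).trans i1.symm))
          fun u => type_eq ((i2'.trans u).trans i2.symm)⟩
    · rw [Finset.card_product]
      exact Nat.mul_le_mul Finset.card_le_two Finset.card_le_two
  · intro N hN
    obtain ⟨z, hz, rfl⟩ := Finset.mem_image.1 hN
    obtain ⟨a, b, D1, D2, K, L, _, _, mK, mL, -, -, -, -, -, -, hJ⟩ := hν z hz
    exact ⟨K, L, _, _, mK, mL, hJ⟩

theorem NN_mul (a b : ℕ) : NN a * NN b ≤ 24 * (a + b + 17) * NN (a + b + 17) := by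
  classical
  have : ∀ z ∈ UU a ×ˢ UU b, ∃ S ∈ UU (a + b + 17), ∃ k, ∃ D : Diag k, D.IsKnot ∧ S = D.type ∧
      ∃ N, JR D.mer z N := by
    intro z hz
    obtain ⟨h1, h2⟩ := Finset.mem_product.1 hz
    obtain ⟨a', ha, D1, p1, t1⟩ := mem_UU.1 h1
    obtain ⟨b', hb, D2, p2, t2⟩ := mem_UU.1 h2
    obtain ⟨k, hk, D, d, K, L, _, _, mK, mL, N, i1, i2, hJ⟩ := join p1 p2
    exact ⟨_, mem_UU.2 ⟨k, by omega, D, d, rfl⟩, k, D, d.1, rfl, N, a', b', D1, D2, K, L, _, _, mK,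
      mL, p1, p2, t1, t2, i1, i2, hJ⟩
  choose! Ψ h1 h2 using this
  rw [← card_UU, ← card_UU, ← card_UU, ← Finset.card_product]
  refine Finset.card_le_mul_card_image_of_maps_to h1 _ fun S hS => ?_
  obtain ⟨k, hk, D, d, rfl⟩ := mem_UU.1 hS
  refine (fibre D _ fun z hz => ?_).trans (by omega)
  obtain ⟨hz, e⟩ := Finset.mem_filter.1 hz
  obtain ⟨k', D', d', t, N, a', b', D1, D2, K, L, _, _, mK, mL, p1, p2, t1, t2, i1, i2, hJ⟩ := h2 z hz
  obtain ⟨N', hN⟩ := hJ.iso (iso_of_type d.1 (t.symm.trans e))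
  exact ⟨N', a', b', D1, D2, K, L, _, _, mK, mL, p1, p2, t1, t2, i1, i2, hN⟩

theorem NN_quad (k : ℕ) : (k + 1) * (k + 1) ≤ NN (5 + 44 * k) := by
  classical
  obtain ⟨D3, h3, a3⟩ := exists_tor3
  obtain ⟨D5, h5, a5, b5⟩ := exists_tor5
  choose c hc D d1 d2 d3 using fun z : ℕ × ℕ => family z.1 z.2 h3 h5 rfl rfl b5 rfl
  have := Finset.card_le_card_of_injOn (s := Finset.range (k + 1) ×ˢ Finset.range (k + 1))
    (t := UU (5 + 44 * k)) (fun z => (D z).type) (fun z hz => by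
      have := hc z
      simp only [Finset.coe_product, Finset.coe_range, Set.mem_prod, Set.mem_Iio] at hz
      exact mem_UU.2 ⟨_, by omega, D z, d1 z, rfl⟩) (fun y _ z _ e => by
      have i := iso_of_type (d1 z).1 e
      have e1 := Nat.pow_right_injective a3 ((d2 y).symm.trans ((Jn_iso 3 i).trans (d2 z)))
      have e2 := (d3 y).symm.trans ((Jn_iso 5 i).trans (d3 z))
      rw [e1] at e2
      have e3 := Nat.pow_right_injective a5
        (Nat.eq_of_mul_eq_mul_right (Nat.pow_pos (Jn_pos D3 5)) e2)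
      exact Prod.ext e1 (by omega))
  simpa [card_UU] using this

theorem NN_mono : Monotone NN := fun _ _ h =>
  Finset.sum_le_sum_of_subset (Finset.range_mono (by omega))

theorem NN_le (n : ℕ) : NN n ≤ 2 * 64 ^ n := by
  induction n with
  | zero => simpa [NN] using (pk_le 0).trans (by norm_num)
  | succ n ih =>
    have := pk_le (n + 1)
    have e : NN (n + 1) = NN n + (primeKnots (n + 1)).ncard := Finset.sum_range_succ _ _
    rw [pow_succ] at *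
    omega

end PartCT

section PartAN


open Filter Topology

theorem NN_pow (b : ℕ) (θ : ℝ) (h0 : 0 ≤ θ) (h : 108 * ((b + 17 : ℕ) : ℝ) * θ ≤ NN b) (q : ℕ)
    (hq : 1 ≤ q) : 108 * ((b + 17 : ℕ) : ℝ) * q * θ ^ q ≤ NN (q * (b + 17) - 17) := by
  induction q using Nat.strong_induction_on with
  | _ q ih =>
    rcases hq.eq_or_lt with rfl | hq
    · simpa only [Nat.cast_add, Nat.cast_ofNat, Nat.cast_one, mul_one, pow_one, one_mul, add_tsub_cancel_right] using h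
    obtain ⟨i, j, rfl, hi, hj, hij⟩ : ∃ i j, q = i + j ∧ 1 ≤ i ∧ 1 ≤ j ∧
        2 * (i + j) * (i + j) ≤ 9 * i * j := by
      obtain ⟨k, rfl | rfl⟩ := Nat.even_or_odd' q
      · exact ⟨k, k, by ring, by omega, by omega, by nlinarith only []⟩
      · exact ⟨k, k + 1, by ring, by omega, by omega, by nlinarith only [show 1 ≤ k by omega]⟩
    have h1 := ih i (by omega) hi
    have h2 := ih j (by omega) hj
    have h3 := NN_mul (i * (b + 17) - 17) (j * (b + 17) - 17)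
    have e1 : 17 ≤ i * (b + 17) := by nlinarith only [hi]
    have e2 : 17 ≤ j * (b + 17) := by nlinarith only [hj]
    have e : i * (b + 17) - 17 + (j * (b + 17) - 17) + 17 = (i + j) * (b + 17) - 17 := by
      rw [add_mul]; omega
    rw [e] at h3
    replace h3 := h3.trans (Nat.mul_le_mul_right _ (Nat.mul_le_mul_left 24 (Nat.sub_le _ 17)))
    set B := b + 17
    have hB : (0 : ℝ) < B := by positivity
    have h4 : (NN (i * B - 17) : ℝ) * NN (j * B - 17) ≤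
        24 * ((i + j) * B) * NN ((i + j) * B - 17) := by exact_mod_cast h3
    have h5 : (2 : ℝ) * (i + j) * (i + j) ≤ 9 * i * j := by exact_mod_cast hij
    have hp : (0 : ℝ) < 24 * ((i + j) * B) := by positivity
    refine le_of_mul_le_mul_left (le_trans ?_ ((mul_le_mul h1 h2 (by positivity)
      (by positivity)).trans h4)) hp
    have := mul_le_mul_of_nonneg_left h5 (show 0 ≤ 1296 * (B : ℝ) ^ 2 * (θ ^ i * θ ^ j) by positivity)
    rw [pow_add]
    push_cast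
    linarith only [this]

theorem NN_base : 108 * ((422405 + 17 : ℕ) : ℝ) * 2 ≤ NN 422405 := by
  have : 108 * (422405 + 17) * 2 ≤ NN 422405 := le_trans (by norm_num) (NN_quad 9600)
  exact_mod_cast this

theorem log_gap : ∃ C : ℝ, ∀ n : ℕ, 2 ≤ n → ∃ m : ℕ, n < m ∧ (m : ℝ) ≤ n + C * Real.log n ∧
    (∀ j < m, (primeKnots j).ncard < (primeKnots m).ncard) ∧ NN n < (primeKnots m).ncard := by
  refine ⟨31 * 422422 / Real.log 2, fun n hn => ?_⟩
  obtain ⟨r, hr⟩ : ∃ r, r = Nat.log 2 n := ⟨_, rfl⟩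
  obtain ⟨B, hB⟩ : ∃ B, B = (r + 30) * 422422 := ⟨_, rfl⟩
  have h1 : 108 * B * 2 ^ (r + 30) ≤ NN (B - 17) := by
    have := NN_pow _ 2 (by norm_num) NN_base (r + 30) (by omega)
    rw [hB, mul_comm (r + 30), ← mul_assoc, mul_comm 422422]
    exact_mod_cast this
  have h2 : n < 2 ^ (r + 1) := hr ▸ Nat.lt_pow_succ_log_self (by norm_num) n
  have h3 : r < 2 ^ r := Nat.lt_two_pow_self
  have h4 := NN_mul n (B - 17)
  rw [show n + (B - 17) + 17 = n + B by omega] at h4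
  have h5 : 24 * (n + B) * (B + 2) ≤ NN (B - 17) := by
    refine le_trans ?_ h1
    rw [pow_add] at h2 ⊢
    calc 24 * (n + B) * (B + 2) ≤ 24 * (2 * (2 ^ r * 2 ^ 30)) * (2 * B) :=
          Nat.mul_le_mul (Nat.mul_le_mul_left _ (by omega)) (by omega)
      _ ≤ _ := by linarith only [Nat.zero_le (B * 2 ^ r)]
  have h6 : (B + 1) * NN n < NN (n + B) := by
    rcases Nat.eq_zero_or_pos (NN n) with h | h
    · have := NN_mono (show B - 17 ≤ n + B by omega)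
      have : 0 < 24 * (n + B) * (B + 2) := by positivity
      rw [h]
      omega
    · have : 24 * (n + B) * ((B + 2) * NN n) ≤ 24 * (n + B) * NN (n + B) := by
        refine le_trans ?_ h4
        rw [← mul_assoc, mul_comm]
        exact Nat.mul_le_mul_left _ h5
      have := Nat.le_of_mul_le_mul_left this (by positivity)
      linarith only [h, this]
  obtain ⟨m0, m1, m2⟩ := (Finset.Ico (n + 1) (n + B + 1)).exists_max_image
    (fun j => (primeKnots j).ncard) ⟨n + 1, by simp only [Finset.mem_Ico, Std.le_refl, Order.lt_add_one_iff, add_le_add_iff_left, true_and]; omega⟩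
  have h7 : NN n < (primeKnots m0).ncard := by
    have e : NN n + ∑ j ∈ Finset.Ico (n + 1) (n + B + 1), (primeKnots j).ncard = NN (n + B) :=
      Finset.sum_range_add_sum_Ico _ (by omega)
    have := Finset.sum_le_card_nsmul _ _ _ m2
    simp only [Nat.card_Ico, smul_eq_mul, show n + B + 1 - (n + 1) = B by omega] at this
    exact lt_of_mul_lt_mul_left (a := B) (by linarith only [h6, e, this]) (Nat.zero_le _)
  have hex : ∃ m, n < m ∧ (primeKnots m0).ncard ≤ (primeKnots m).ncard :=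
    ⟨m0, (Finset.mem_Ico.1 m1).1, le_rfl⟩
  obtain ⟨k1, k2⟩ := Nat.find_spec hex
  have k3 := Nat.find_min' hex ⟨(Finset.mem_Ico.1 m1).1, le_rfl⟩
  refine ⟨Nat.find hex, k1, ?_, fun j hj => lt_of_lt_of_le ?_ k2, h7.trans_le k2⟩
  · have l2 : 0 < Real.log 2 := Real.log_pos (by norm_num)
    have a1 : (r : ℝ) * Real.log 2 ≤ Real.log n := by
      rw [← Real.log_pow]
      refine Real.log_le_log (by positivity) ?_
      exact_mod_cast hr ▸ Nat.pow_log_le_self 2 (by omega)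
    have a2 : Real.log 2 ≤ Real.log n := Real.log_le_log (by norm_num) (by exact_mod_cast hn)
    have a3 : ((Nat.find hex : ℕ) : ℝ) ≤ n + (r + 30) * 422422 := by
      have := (Finset.mem_Ico.1 m1).2
      exact_mod_cast (show Nat.find hex ≤ n + (r + 30) * 422422 by omega)
    refine a3.trans (add_le_add le_rfl ?_)
    rw [div_mul_eq_mul_div, le_div_iff₀ l2]
    linarith only [a1, a2]
  · by_cases hjn : j ≤ n
    · exact (Finset.single_le_sum (f := fun j => (primeKnots j).ncard) (fun _ _ => Nat.zero_le _)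
        (Finset.mem_range.2 (by omega))).trans_lt h7
    · exact not_le.1 fun h => Nat.find_min hex hj ⟨by omega, h⟩

theorem growth : ∃ l : ℝ, 1 < l ∧
    Tendsto (fun n : ℕ => (NN n : ℝ) ^ (1 / (n : ℝ))) atTop (𝓝 l) := by
  let f : ℕ → ℝ := fun b => Real.log (NN b / (108 * ((b + 17 : ℕ) : ℝ))) / ((b + 17 : ℕ) : ℝ)
  have hbd : BddAbove (Set.range f) := by
    refine ⟨Real.log 64, ?_⟩
    rintro _ ⟨b, rfl⟩
    have l : 0 ≤ Real.log 64 := Real.log_nonneg (by norm_num)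
    rw [div_le_iff₀ (by positivity), mul_comm (Real.log 64), ← Real.log_pow]
    rcases Nat.eq_zero_or_pos (NN b) with h | h
    · rw [h]; simp only [CharP.cast_eq_zero, Nat.cast_add, Nat.cast_ofNat, zero_div, Real.log_zero, Real.log_pow]; positivity
    refine Real.log_le_log (by positivity) ?_
    rw [div_le_iff₀ (by positivity)]
    have : NN b ≤ 64 ^ (b + 17) * (108 * (b + 17)) :=
      (NN_le b).trans (by
        rw [mul_comm]
        exact Nat.mul_le_mul (Nat.pow_le_pow_right (by norm_num) (by omega)) (by omega))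
    exact_mod_cast this
  have hL : 0 < ⨆ b, f b := by
    refine lt_of_lt_of_le ?_ (le_ciSup hbd 422405)
    refine div_pos (Real.log_pos ?_) (by positivity)
    rw [lt_div_iff₀ (by positivity)]
    exact lt_of_lt_of_le (by norm_num) NN_base
  have hpos : ∀ᶠ n in atTop, 0 < NN n := eventually_atTop.2 ⟨5, fun n hn =>
    lt_of_lt_of_le (by norm_num) ((NN_quad 0).trans (NN_mono hn))⟩
  have hinv : Tendsto (fun n : ℕ => ((n : ℝ))⁻¹) atTop (𝓝 0) := tendsto_inv_atTop_nhds_zero_nat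
  have key : Tendsto (fun n : ℕ => Real.log (NN n) / n) atTop (𝓝 (⨆ b, f b)) := by
    refine tendsto_order.2 ⟨fun a ha => ?_, fun a ha => ?_⟩
    · obtain ⟨b, hb⟩ := exists_lt_of_lt_ciSup (max_lt ha hL)
      set θ : ℝ := NN b / (108 * ((b + 17 : ℕ) : ℝ))
      have hθ : 0 ≤ θ := by positivity
      have hl : 0 < Real.log θ := (div_pos_iff_of_pos_right (by positivity)).1
        ((le_max_right _ _).trans_lt hb)
      have hθ1 : 1 < θ := (Real.log_pos_iff hθ).1 hl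
      have t : Tendsto (fun n : ℕ => f b - Real.log θ * ((n : ℝ))⁻¹) atTop (𝓝 (f b)) := by
        simpa using tendsto_const_nhds.sub (hinv.const_mul (Real.log θ))
      filter_upwards [t.eventually_const_lt ((le_max_left _ _).trans_lt hb),
        eventually_ge_atTop (b + 17)] with n h1 h2
      refine h1.trans_le ?_
      obtain ⟨q, hq⟩ : ∃ q, q = n / (b + 17) := ⟨_, rfl⟩
      have q1 : 1 ≤ q := hq ▸ Nat.div_pos h2 (by omega)
      have q2 : q * (b + 17) ≤ n := hq ▸ Nat.div_mul_le_self _ _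
      have q3 : n ≤ (q + 1) * (b + 17) := by
        rw [hq, mul_comm]; exact (Nat.lt_mul_div_succ n (by omega)).le
      have a1 := NN_pow b θ hθ (le_of_eq (mul_div_cancel₀ _ (by positivity))) q q1
      have a2 : (NN (q * (b + 17) - 17) : ℝ) ≤ NN n := by exact_mod_cast NN_mono (by omega)
      have a3 : (1 : ℝ) ≤ 108 * ((b + 17 : ℕ) : ℝ) * q := by
        exact_mod_cast (show 1 ≤ 108 * (b + 17) * q from Nat.mul_pos (by omega) q1)
      have a4 : q * Real.log θ ≤ Real.log (NN n) := by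
        rw [← Real.log_pow]
        exact Real.log_le_log (by positivity)
          ((le_mul_of_one_le_left (by positivity) a3).trans (a1.trans a2))
      have n0 : (0 : ℝ) < n := by exact_mod_cast (show 0 < n by omega)
      have a5 : (n : ℝ) ≤ (q + 1) * ((b + 17 : ℕ) : ℝ) := by exact_mod_cast q3
      have a6 : f b * n ≤ (q + 1) * Real.log θ := by
        show Real.log θ / _ * _ ≤ _
        rw [div_mul_eq_mul_div, div_le_iff₀ (by positivity)]
        nlinarith only [hl, a5]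
      rw [le_div_iff₀ n0, sub_mul, mul_assoc, inv_mul_cancel₀ n0.ne']
      linarith only [a4, a6]
    · have t0 : Tendsto (fun n : ℕ => Real.log n / n) atTop (𝓝 0) :=
        (Real.isLittleO_log_id_atTop.tendsto_div_nhds_zero).comp tendsto_natCast_atTop_atTop
      have t : Tendsto (fun n : ℕ => (⨆ b, f b) + ((17 * (⨆ b, f b) + Real.log 1944) * ((n : ℝ))⁻¹ +
          Real.log n / n)) atTop (𝓝 (⨆ b, f b)) := by
        simpa only [mul_zero, add_zero] using tendsto_const_nhds.add ((hinv.const_mul _).add t0)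
      filter_upwards [t.eventually_lt_const ha, hpos, eventually_ge_atTop 1] with n h1 h2 h3
      refine lt_of_le_of_lt ?_ h1
      have n0 : (1 : ℝ) ≤ n := by exact_mod_cast h3
      have a1 : _ / _ ≤ ⨆ b, f b := le_ciSup hbd n
      generalize (⨆ b, f b) = L at *
      rw [div_le_iff₀ (by positivity), Real.log_div (by positivity) (by positivity)] at a1
      have a2 : Real.log (108 * ((n + 17 : ℕ) : ℝ)) ≤ Real.log 1944 + Real.log n := by
        rw [← Real.log_mul (by norm_num) (by positivity)]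
        refine Real.log_le_log (by positivity) ?_
        push_cast
        linarith only [n0]
      rw [div_le_iff₀ (by positivity)]
      push_cast at a1 a2
      field_simp
      linarith only [a1, a2]
  refine ⟨Real.exp (⨆ b, f b), Real.one_lt_exp_iff.2 hL,
    ((Real.continuous_exp.tendsto _).comp key).congr' ?_⟩
  filter_upwards [hpos] with n hn
  rw [Real.rpow_def_of_pos (by positivity), mul_one_div]
  rfl

end PartAN

end Pool.Agent.MP_b13154_gt.H25
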