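import Pool.Agent.MP_b13154_gt.Mg.Planar

-- part MP_b13154_gt.NF
section

/-!
Normal form of the diagrams with Conway code `2 1 1 ... 1 2`.
-/

namespace Pool.Agent.MP_b13154_gt

open Gr

theorem tangle_r {w A X B Y : List ℕ} (h : DO w) (e : w = A ++ (X ++ (B ++ Y))) (hd : Dis A X B Y)
    {a y : ℕ} (ha : a ∈ A ∨ a ∈ B) (hy : ¬ (y ∈ A ∨ y ∈ B)) :
    (gr w).r a y ↔ cnt a B = 1 ∧ cnt y Y = 1 := by
  have h0 := h.cnt0 y
  have h1 := not_or.1 (hd a ha)
  have hxy : a ≠ y := fun k => hy (k ▸ ha)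
  rw [not_or] at hy
  rw [h.r_iff]
  simp only [e, inv_append, cnt_append, cnt_of_not_mem hy.1, cnt_of_not_mem hy.2,
    inv_of_not_mem_right a hy.1, inv_of_not_mem_right a hy.2, inv_of_not_mem_left y h1.1,
    inv_of_not_mem_left y h1.2, cnt_of_not_mem h1.1, ne_eq, hxy, not_false_eq_true,
    true_and] at h0 ⊢
  revert h0
  generalize cnt a A = p, cnt a B = q, cnt y X = r, cnt y Y = s
  revert p q r s
  decide

theorem tangle_split {w A X B Y : List ℕ} (h : DO w) (e : w = A ++ (X ++ (B ++ Y)))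
    (hd : Dis A X B Y) : (gr w).Split {a | a ∈ A ∨ a ∈ B} := by
  intro x₁ h₁ x₂ h₂ y₁ k₁ y₂ k₂ r₁ r₂
  exact (tangle_r h e hd h₁ k₂).2 ⟨((tangle_r h e hd h₁ k₁).1 r₁).1,
    ((tangle_r h e hd h₂ k₂).1 r₂).2⟩

theorem dis_of_cnt {z : ℕ} {b₁ b₂ b₃ b₄ : Bool} {A X B Y : List ℕ}
    (hb : b₁.toNat + b₂.toNat + b₃.toNat + b₄.toNat = 2) (h : DO (fl z b₁ b₂ b₃ b₄ A X B Y))
    (k : ∀ y, y ∈ A ∨ y ∈ B → cnt y A + cnt y B = 0) : Dis A X B Y := by
  intro y hy hy'
  have h1 := h.perm (fl_perm z _ _ _ _ A X B Y hb) y (by simp; tauto)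
  obtain ⟨m, hm⟩ := cnt_eq_zero_iff.1 ((cnt_append y A B).trans (k y hy))
  have h2 := List.count_pos_iff.2 (List.mem_append.2 hy)
  have h3 := List.count_pos_iff.2 (List.mem_append.2 hy')
  simp only [List.count_cons, List.count_append] at *
  omega

theorem step_xx {w A B Y X₁ X₂ X₃ : List ℕ} {z : ℕ} (h : DO w)
    (e : w = A ++ ((X₁ ++ z :: (X₂ ++ z :: X₃)) ++ (B ++ Y)))
    (hd : Dis A (X₁ ++ z :: (X₂ ++ z :: X₃)) B Y) (hne : ∃ a, a ∈ A ∨ a ∈ B) (hc : (gr w).Conn)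
    (hs : (gr w).Split {a | (a ∈ A ∨ a ∈ B) ∨ a = z}) :
    Same w (A ++ z :: ((X₁ ++ (X₂ ++ X₃)) ++ z :: (B ++ Y))) := by
  have e1 : w = (A ++ X₁) ++ z :: (X₂ ++ z :: (X₃ ++ (B ++ Y))) := by simp [e]
  have n1 := (e1 ▸ h).not_mem
  simp only [List.mem_append, not_or] at n1
  obtain ⟨a₀, ha₀⟩ := hne
  have hzV : z ∈ (gr w).V := mem_gr.2 (by simp [e])
  have ha₀V : a₀ ∈ (gr w).V := mem_gr.2 (by simp [e]; tauto)
  obtain ⟨a, ha, y₀, hy₀, r₀⟩ := hc {a | a ∈ A ∨ a ∈ B} ⟨a₀, ha₀V, ha₀⟩ ⟨z, hzV, by simp; tauto⟩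
  obtain ⟨y₁, r₁⟩ := hc.exists_r hzV ha₀V (by rintro rfl; tauto)
  have c₀ := (tangle_r h e hd ha hy₀).1 r₀
  have m₀ : y₀ ∉ {a | (a ∈ A ∨ a ∈ B) ∨ a = z} := by
    rintro (k | rfl)
    · exact hy₀ k
    · rw [cnt_of_not_mem n1.2.2.2.2] at c₀
      exact zero_ne_one c₀.2
  have m₁ : y₁ ∉ {a | (a ∈ A ∨ a ∈ B) ∨ a = z} := by
    rintro (k | rfl)
    · rw [h.r_of_eq e1, cnt_of_not_mem fun k' => hd y₁ k (by simp [k'])] at r₁
      exact zero_ne_one r₁
    · exact (gr w).irr _ r₁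
  have s1 := same_rot A ((X₁ ++ z :: (X₂ ++ z :: X₃)) ++ (B ++ Y))
  have s2 := same_fl z false true true false (A := X₁) (X := X₂) (B := X₃) (Y := B ++ (Y ++ A))
    (dis_of_cnt (z := z) (b₁ := false) (b₂ := true) (b₃ := true) (b₄ := false) rfl
      (h.perm (s1.cast e (by simp [fl])).2.1) fun y hy => by
      have k1 : ¬ (y ∈ A ∨ y ∈ B) := fun k => hd y k (by simp; tauto)
      have k2 : y ≠ z := by
        rintro rfl
        tauto
      have k3 : y ∉ {a | (a ∈ A ∨ a ∈ B) ∨ a = z} := fun k => k.elim k1 k2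
      have k4 : (gr w).r a y ↔ (gr w).r z y :=
        ⟨fun k => hs z (Or.inr rfl) a (Or.inl ha) y₁ m₁ y k3 r₁ k,
          fun k => hs a (Or.inl ha) z (Or.inr rfl) y₀ m₀ y k3 r₀ k⟩
      have h0 := h.cnt0 y
      rw [tangle_r h e hd ha k1, h.r_of_eq e1] at k4
      rw [not_or] at k1
      simp only [e, cnt_append, cnt_cons_ne k2.symm, cnt_of_not_mem k1.1, cnt_of_not_mem k1.2,
        c₀.1, true_and] at h0 k4
      revert h0 k4
      generalize cnt y X₁ = p, cnt y X₂ = q, cnt y X₃ = r, cnt y Y = s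
      revert p q r s
      decide) rfl
  have s3 := same_rot (z :: ((X₁ ++ (X₂ ++ X₃)) ++ z :: (B ++ Y))) A
  exact (s1.cast e rfl).tr ((s2.cast (by simp [fl]) (by simp [fl])).tr s3)

theorem step {w A X B Y : List ℕ} {z : ℕ} (h : DO w) (e : w = A ++ (X ++ (B ++ Y)))
    (hd : Dis A X B Y) (hne : ∃ a, a ∈ A ∨ a ∈ B) (hz : z ∈ X ∨ z ∈ Y) (hc : (gr w).Conn)
    (h2 : (gr w).C2) (hs : (gr w).Split {a | (a ∈ A ∨ a ∈ B) ∨ a = z}) :
    ∃ X' Y', (Same w (z :: (A ++ (X' ++ z :: (B ++ Y')))) ∧ X'.length + 1 = X.length) ∨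
      (Same w (z :: (A ++ z :: (X' ++ (B ++ Y')))) ∧ X'.length + 1 = X.length) ∨
      (Same w (z :: (A ++ (X' ++ (B ++ z :: Y')))) ∧
        (X'.length = X.length ∨ X'.length + 2 = X.length)) := by
  have hz' : ¬ (z ∈ A ∨ z ∈ B) := fun k => hd z k hz
  have h1 := h z (by simp [e]; tauto)
  simp only [e, List.count_append, List.count_eq_zero_of_not_mem (not_or.1 hz').1,
    List.count_eq_zero_of_not_mem (not_or.1 hz').2] at h1
  rcases (by omega : X.count z = 2 ∨ Y.count z = 2 ∨ (X.count z = 1 ∧ Y.count z = 1))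
    with k | k | k
  · obtain ⟨X₁, X₂, X₃, rfl, -⟩ := split_two k
    refine ⟨X₁ ++ (X₂ ++ X₃), Y, Or.inr (Or.inr ⟨(step_xx h e hd hne hc hs).tr ?_, Or.inr ?_⟩)⟩
    · exact (same_fl z false true true false (A := A) (X := X₁ ++ (X₂ ++ X₃)) (B := B) (Y := Y)
        (fun a ha k => hd a ha (by simp at k ⊢; tauto)) rfl).cast (by simp [fl]) (by simp [fl])
    · simp only [List.length_append, List.length_cons]
      omega
  · obtain ⟨Y₁, Y₂, Y₃, rfl, -⟩ := split_two k
    have s1 := (same_rot (A ++ X) (B ++ (Y₁ ++ z :: (Y₂ ++ z :: Y₃)))).cast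
      (w' := w) (v' := B ++ ((Y₁ ++ z :: (Y₂ ++ z :: Y₃)) ++ (A ++ X))) (by simp [e]) (by simp)
    have g := s1.2.2 h
    have s2 := step_xx (h.perm s1.2.1) rfl (fun a ha k => hd a ha.symm k.symm)
      (hne.imp fun a ha => ha.symm) (g ▸ hc) (g ▸ hs.congr fun a _ => by simp [or_comm])
    exact ⟨X, Y₁ ++ (Y₂ ++ Y₃), Or.inr (Or.inr ⟨s1.tr (s2.tr ((same_rot
      (B ++ z :: (Y₁ ++ (Y₂ ++ Y₃))) (z :: (A ++ X))).cast (by simp) (by simp))), Or.inl rfl⟩)⟩
  obtain ⟨X₁, X₂, rfl, n1, n2⟩ := split_one' k.1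
  obtain ⟨Y₁, Y₂, rfl, n3, n4⟩ := split_one' k.2
  have e1 : w = (A ++ X₁) ++ z :: ((X₂ ++ (B ++ Y₁)) ++ z :: Y₂) := by simp [e]
  obtain ⟨a₀, ha₀⟩ := hne
  obtain ⟨a, ha, y₀, hy₀, r₀⟩ := hc {a | a ∈ A ∨ a ∈ B} ⟨a₀, mem_gr.2 (by simp [e]; tauto), ha₀⟩
    ⟨z, mem_gr.2 (by simp [e]), hz'⟩
  have c₀ := ((tangle_r h e hd ha hy₀).1 r₀).1
  have hd' : Dis A (X₁ ++ X₂) B (Y₁ ++ Y₂) := fun a ha k => hd a ha (by simp at k ⊢; tauto)
  have hm : ∀ y, y ∈ X₁ ∨ y ∈ X₂ ∨ y ∈ Y₁ → ¬ (y ∈ A ∨ y ∈ B) ∧ y ≠ z := fun y hy =>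
    ⟨fun k => hd y k (by simp; tauto), by
      rintro rfl
      tauto⟩
  refine ⟨X₁ ++ X₂, Y₁ ++ Y₂, ?_⟩
  by_cases c1 : ∃ y₁ ∉ {a | (a ∈ A ∨ a ∈ B) ∨ a = z}, (gr w).r z y₁
  · obtain ⟨y₁, m₁, r₁⟩ := c1
    by_cases c2 : ∃ y₂ ∉ {a | (a ∈ A ∨ a ∈ B) ∨ a = z}, (gr w).r a y₂
    · obtain ⟨y₂, m₂, r₂⟩ := c2
      have s1 := (same_rot A (X₁ ++ z :: (X₂ ++ (B ++ (Y₁ ++ z :: Y₂))))).cast
        (w' := w) (v' := fl z false true false true X₁ (X₂ ++ B) Y₁ (Y₂ ++ A))
        (by simp [e]) (by simp [fl])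
      have s2 := same_fl z false true false true
        (dis_of_cnt rfl (h.perm s1.2.1) fun y hy => by
          obtain ⟨k1, k2⟩ := hm y (by tauto)
          have k3 : y ∉ {a | (a ∈ A ∨ a ∈ B) ∨ a = z} := fun k => k.elim k1 k2
          have k4 : (gr w).r a y ↔ (gr w).r z y :=
            ⟨fun k => hs z (Or.inr rfl) a (Or.inl ha) y₁ m₁ y k3 r₁ k,
              fun k => hs a (Or.inl ha) z (Or.inr rfl) y₂ m₂ y k3 r₂ k⟩
          have h0 := h.cnt0 y
          rw [tangle_r h e hd ha k1, h.r_of_eq e1] at k4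
          rw [not_or] at k1
          simp only [e, cnt_append, cnt_cons_ne k2.symm, cnt_of_not_mem k1.1,
            cnt_of_not_mem k1.2, c₀, true_and] at h0 k4
          revert h0 k4
          generalize cnt y X₁ = p, cnt y X₂ = q, cnt y Y₁ = r, cnt y Y₂ = s
          revert p q r s
          decide) rfl
      have s3 := same_rot (z :: (X₁ ++ (X₂ ++ (B ++ z :: (Y₁ ++ Y₂))))) A
      have s4 := same_fl z false true false true hd' rfl
      exact Or.inl ⟨s1.tr (s2.tr ((s3.cast (by simp [fl]) rfl).tr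
        (s4.cast (by simp [fl]) (by simp [fl])))), by simp; omega⟩
    · exfalso
      have n5 : ¬ (gr w).r a y₁ := fun k => c2 ⟨y₁, m₁, k⟩
      obtain ⟨z', k1, k2, k3⟩ := h2 a y₁ z (fun k => m₁ (Or.inl (k ▸ ha))) n5
        ((tangle_r h e hd ha hz').2 ⟨c₀, by simp [cnt_of_not_mem n3, cnt_of_not_mem n4]⟩)
        ((gr w).symm r₁)
      have k4 : z' ∈ A ∨ z' ∈ B := by
        by_contra k4
        exact c2 ⟨z', fun k => k.elim k4 k1, k2⟩
      have k5 : ¬ (y₁ ∈ A ∨ y₁ ∈ B) := fun k => m₁ (Or.inl k)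
      exact n5 ((tangle_r h e hd ha k5).2 ⟨c₀, ((tangle_r h e hd k4 k5).1 ((gr w).symm k3)).2⟩)
  · have s1 := (same_rot (A ++ X₁) (z :: (X₂ ++ (B ++ (Y₁ ++ z :: Y₂))))).cast
      (w' := w) (v' := fl z true false false true X₂ B Y₁ (Y₂ ++ (A ++ X₁)))
      (by simp [e]) (by simp [fl])
    have s2 := same_fl z true false false true
      (dis_of_cnt rfl (h.perm s1.2.1) fun y hy => by
        obtain ⟨k1, k2⟩ := hm y (by tauto)
        have k4 : ¬ (gr w).r z y := fun k => c1 ⟨y, fun k => k.elim k1 k2, k⟩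
        rw [h.r_of_eq e1] at k4
        simpa [cnt_of_not_mem (not_or.1 k1).2] using (z2 _).resolve_right k4) rfl
    have s3 := same_rot (X₂ ++ z :: (B ++ z :: (Y₁ ++ Y₂))) (A ++ X₁)
    have s4 := same_fl z false false true true hd' rfl
    exact Or.inr (Or.inl ⟨s1.tr (s2.tr ((s3.cast (by simp [fl]) rfl).tr
      (s4.cast (by simp [fl]) (by simp [fl])))), by simp; omega⟩)

/-- The two arcs of the standard tangle on a list of crossings (last crossing first). -/
def AB : List ℕ → List ℕ × List ℕ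
  | [] => ([], [])
  | z :: p =>
    if p.length % 3 = 1 then (z :: (AB p).1, z :: (AB p).2)
    else if p.length % 3 = 2 then (z :: ((AB p).1 ++ [z]), (AB p).2)
    else (z :: (AB p).1, (AB p).2 ++ [z])

theorem AB_count (a : ℕ) (p : List ℕ) :
    (AB p).1.count a + (AB p).2.count a = 2 * p.count a := by
  induction p with
  | nil => simp [AB]
  | cons z p ih =>
    rw [AB]
    split_ifs <;> simp [List.count_cons] <;> omega

theorem AB_mem {a : ℕ} {p : List ℕ} : a ∈ (AB p).1 ∨ a ∈ (AB p).2 ↔ a ∈ p := by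
  have := AB_count a p
  simp only [← List.count_pos_iff]
  omega

theorem AB_length (p : List ℕ) : (AB p).1.length % 2 = (if p.length % 3 = 1 then 1 else 0) ∧
    (AB p).1.length + (AB p).2.length = 2 * p.length := by
  induction p with
  | nil => simp [AB]
  | cons z p ih =>
    rw [AB]
    simp only [List.length_cons]
    split_ifs at ih ⊢ <;> simp <;> omega

theorem AB_map (σ : Equiv.Perm ℕ) (p : List ℕ) :
    AB (p.map σ) = ((AB p).1.map σ, (AB p).2.map σ) := by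
  induction p with
  | nil => rfl
  | cons z p ih =>
    rw [List.map_cons, AB, AB, ih, List.length_map]
    split_ifs <;> simp

def Cl (A B : List ℕ) : Prop := ∀ a, a ∈ A ∨ a ∈ B → 2 ≤ A.count a + B.count a

theorem AB_cl (p : List ℕ) : Cl (AB p).1 (AB p).2 := fun a ha => by
  have := AB_count a p
  have := List.count_pos_iff.2 (AB_mem.1 ha)
  omega

theorem Cl.dis {A X B Y v : List ℕ} (c : Cl A B) (h : DO v)
    (e : ∀ a, A.count a + B.count a + X.count a + Y.count a ≤ v.count a) : Dis A X B Y := by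
  intro a ha k
  have h1 := e a
  have h2 := c a ha
  have h4 := List.count_pos_iff.2 (List.mem_append.2 k)
  rw [List.count_append] at h4
  have h5 := h a (List.count_pos_iff.1 (by omega))
  omega

theorem Cl.add {A B A' B' : List ℕ} {z : ℕ} (c : Cl A B)
    (e : ∀ a, A'.count a + B'.count a = A.count a + B.count a + 2 * [z].count a) :
    Cl A' B' ∧ ∀ a, a ∈ A' ∨ a ∈ B' ↔ (a ∈ A ∨ a ∈ B) ∨ a = z := by
  refine ⟨fun a ha => ?_, fun a => ?_⟩
  · have h1 := e a
    have h2 := c a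
    simp only [← List.count_pos_iff] at ha h2
    omega
  · have h1 := e a
    rw [← List.mem_singleton]
    simp only [← List.count_pos_iff]
    omega

theorem twice {w A B A' X' B' Y' : List ℕ} {z : ℕ} (h : DO w) (c : Cl A B)
    (s : Same w (A' ++ (X' ++ (B' ++ Y'))))
    (e : ∀ a, A'.count a + B'.count a = A.count a + B.count a + 2 * [z].count a) :
    (gr w).Split {a | (a ∈ A ∨ a ∈ B) ∨ a = z} := by
  rw [← s.2.2 h]
  have d := h.perm s.2.1
  exact (tangle_split d rfl ((c.add e).1.dis d fun a => by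
    simp only [List.count_append]; omega)).congr fun a _ => (c.add e).2 a

theorem twice_par {w A X B Y : List ℕ} {z u : ℕ} (h : DO w) (c : Cl A B)
    (s : Same w (z :: (u :: A ++ (X ++ z :: (u :: B ++ Y))))) :
    (gr w).Split {a | (a ∈ A ∨ a ∈ B) ∨ a = z} := by
  have s3 := same_fl u true false true false (A := A) (X := X ++ [z]) (B := B) (Y := Y ++ [z])
    (c.dis (h.perm s.2.1) fun a => by
      simp only [List.count_append, List.count_cons, List.count_nil]
      omega) rfl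
  refine twice (A' := z :: A) (X' := u :: X) (B' := z :: B) (Y' := u :: Y) h c
    (s.tr ((same_rot [z] _).tr ((s3.cast (by simp [fl]) rfl).tr
      ((same_rot (A ++ (u :: X ++ (z :: B ++ u :: Y))) [z]).cast (by simp [fl]) (by simp))))) ?_
  intro a
  simp only [List.count_cons, List.count_nil]
  omega

theorem twice_turn {w A X B Y : List ℕ} {z u : ℕ} (h : DO w) (c : Cl A B)
    (s : Same w (z :: (u :: (A ++ [u]) ++ z :: (X ++ (B ++ Y))))) :
    (gr w).Split {a | (a ∈ A ∨ a ∈ B) ∨ a = z} := by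
  have s3 := same_fl u true true false false (A := A) (X := z :: X) (B := B) (Y := Y ++ [z])
    (c.dis (h.perm s.2.1) fun a => by
      simp only [List.count_append, List.count_cons, List.count_nil]
      omega) rfl
  refine twice (A' := z :: (A ++ [z])) (X' := X ++ [u]) (B' := B) (Y' := u :: Y) h c
    (s.tr ((same_rot [z] _).tr ((s3.cast (by simp [fl]) rfl).tr
      ((same_rot (A ++ (z :: X ++ (u :: B ++ u :: Y))) [z]).cast (by simp [fl]) (by simp))))) ?_
  intro a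
  simp only [List.count_append, List.count_cons, List.count_nil]
  omega

theorem twice_anti {w A X B Y : List ℕ} {z u : ℕ} (h : DO w) (c : Cl A B)
    (s : Same w (z :: (u :: A ++ (X ++ (B ++ [u] ++ z :: Y))))) :
    (gr w).Split {a | (a ∈ A ∨ a ∈ B) ∨ a = z} := by
  have s3 := same_fl u true false false true (A := A) (X := X) (B := B) (Y := z :: (Y ++ [z]))
    (c.dis (h.perm s.2.1) fun a => by
      simp only [List.count_append, List.count_cons, List.count_nil]
      omega) rfl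
  refine twice (A' := z :: A) (X' := u :: (X ++ [u])) (B' := B ++ [z]) (Y' := Y) h c
    (s.tr ((same_rot [z] _).tr ((s3.cast (by simp [fl]) rfl).tr
      ((same_rot (A ++ (u :: X ++ (u :: B ++ z :: Y))) [z]).cast (by simp [fl]) (by simp))))) ?_
  intro a
  simp only [List.count_append, List.count_cons, List.count_nil]
  omega

theorem Par.even {w v P U S : List ℕ} {z : ℕ} (h : Par w) (hd : DO w) (s : Same w v)
    (e : v = P ++ z :: (U ++ z :: S)) : U.length % 2 = 0 :=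
  Nat.even_iff.1 (ZMod.natCast_eq_zero_iff_even.1 (h.same hd s P z U S e))

theorem step' {w X Y r q : List ℕ} {z : ℕ} (h : DO w) (hc : (gr w).Conn) (h2 : (gr w).C2)
    (hf : (gr w).Full (r.reverse ++ z :: q)) (hr : r ≠ [])
    (s : Same w ((AB r).1 ++ (X ++ ((AB r).2 ++ Y)))) :
    ∃ X' Y', (Same w (z :: ((AB r).1 ++ (X' ++ z :: ((AB r).2 ++ Y')))) ∧
        X'.length + 1 = X.length) ∨
      (Same w (z :: ((AB r).1 ++ z :: (X' ++ ((AB r).2 ++ Y')))) ∧ X'.length + 1 = X.length) ∨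
      (Same w (z :: ((AB r).1 ++ (X' ++ ((AB r).2 ++ z :: Y')))) ∧
        (X'.length = X.length ∨ X'.length + 2 = X.length)) := by
  have hd := h.perm s.2.1
  have g := s.2.2 h
  have hzr : z ∉ r := fun k =>
    (List.nodup_append.1 hf.1.1).2.2 z (by simpa using k) z (by simp) rfl
  obtain ⟨X', Y', hs⟩ := step (z := z) hd rfl
    ((AB_cl r).dis hd fun a => by simp only [List.count_append]; omega)
    ((List.exists_mem_of_ne_nil r hr).imp fun a ha => AB_mem.2 ha)
    (by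
      have := s.2.1.mem_iff.1 (mem_gr.1 (hf.1.2.1 z (by simp)))
      have := mt AB_mem.1 hzr
      simp only [List.mem_append] at *
      tauto) (g ▸ hc) (g ▸ h2)
    (g ▸ (hf.1.2.2 (z :: r).reverse q (by simp)).congr fun a _ => by simp [AB_mem, or_comm])
  exact ⟨X', Y', hs.imp (fun k => ⟨s.tr k.1, k.2⟩)
    (Or.imp (fun k => ⟨s.tr k.1, k.2⟩) fun k => ⟨s.tr k.1, k.2⟩)⟩

theorem nf_aux {w : List ℕ} (h : DO w) (hp : Par w) (hc : (gr w).Conn) (h2 : (gr w).C2)
    {x y : ℕ} {l : List ℕ} (hf : (gr w).Full (x :: y :: l)) (hr : (gr w).r x y)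
    (hg : ∀ p u v q, x :: y :: l = p ++ u :: v :: q → p ≠ [] → q ≠ [] →
      ¬ (gr w).Split {a | a ∈ p ∨ a = v}) :
    ∀ r q, x :: y :: l = r.reverse ++ q → r ≠ [] → q ≠ [] →
      ∃ X Y, Same w ((AB r).1 ++ (X ++ ((AB r).2 ++ Y))) ∧
        X.length % 2 = if r.length % 3 = 2 then 1 else 0 := by
  intro r
  induction r with
  | nil => simp
  | cons z r ih =>
    intro q e _ hq
    by_cases hr0 : r = []
    · subst hr0
      obtain ⟨P, U, S, e', -⟩ := split_two (h z (mem_gr.1 (hf.1.2.1 z (by simp [e]))))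
      exact ⟨U, S ++ P, (same_rot P (z :: (U ++ z :: S))).cast e' (by simp [AB]),
        by simpa using hp.even h Same.rfl e'⟩
    have e0 : x :: y :: l = r.reverse ++ z :: q := by simp [e]
    obtain ⟨X, Y, s, hX⟩ := ih (z :: q) e0 hr0 (by simp)
    have hl := AB_length r
    obtain ⟨X', Y', hs⟩ := step' h hc h2 (e0 ▸ hf) hr0 s
    obtain ⟨u, r', rfl⟩ := List.exists_cons_of_ne_nil hr0
    have rig : r' ≠ [] → ¬ (gr w).Split {a | (a ∈ (AB r').1 ∨ a ∈ (AB r').2) ∨ a = z} :=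
      fun k1 k2 => hg r'.reverse u z q (by simp [e]) (by simpa using k1) hq
        (k2.congr fun a _ => by simp [AB_mem])
    refine ⟨X', Y', ?_⟩
    rw [AB]
    simp only [List.length_cons] at hX hl ⊢
    rcases hs with ⟨s', k⟩ | ⟨s', k⟩ | ⟨s', k⟩
    · have k1 := hp.even h s' (P := []) (z := z) (U := (AB (u :: r')).1 ++ X')
        (S := (AB (u :: r')).2 ++ Y') (by simp)
      rw [List.length_append] at k1
      by_cases c : (r'.length + 1) % 3 = 1
      · rw [if_pos c]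
        exact ⟨s'.cast rfl (by simp), by split_ifs at * <;> omega⟩
      have c' : r'.length % 3 = 1 := by split_ifs at * <;> omega
      rw [AB, if_pos c'] at s'
      exact absurd (twice_par h (AB_cl r') s') (rig (by rintro rfl; simp at c'))
    · have k1 := hp.even h s' (P := []) (z := z) (U := (AB (u :: r')).1) rfl
      by_cases c : (r'.length + 1) % 3 = 2
      · rw [if_neg (by omega), if_pos c]
        exact ⟨s'.cast rfl (by simp), by split_ifs at * <;> omega⟩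
      have c' : r'.length % 3 = 2 := by split_ifs at * <;> omega
      rw [AB, if_neg (by omega), if_pos c'] at s'
      exact absurd (twice_turn h (AB_cl r') s') (rig (by rintro rfl; simp at c'))
    · have e1 : z :: ((AB (u :: r')).1 ++ (X' ++ ((AB (u :: r')).2 ++ z :: Y'))) =
          [] ++ z :: (((AB (u :: r')).1 ++ (X' ++ (AB (u :: r')).2)) ++ z :: Y') := by simp
      have k1 := hp.even h s' e1
      simp only [List.length_append] at k1
      by_cases c : (r'.length + 1) % 3 = 0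
      · rw [if_neg (by omega), if_neg (by omega)]
        exact ⟨s'.cast rfl (by simp), by split_ifs at * <;> omega⟩
      have c' : r'.length % 3 = 0 := by split_ifs at * <;> omega
      exfalso
      by_cases k2 : r' = []
      · subst k2
        simp only [List.reverse_cons, List.reverse_nil, List.nil_append, List.cons_append,
          List.cons.injEq] at e0
        obtain ⟨rfl, rfl, -⟩ := e0
        have d := h.perm s'.2.1
        have k3 := (gr w).symm hr
        rw [← s'.2.2 h, d.r_of_eq e1] at k3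
        have k4 : x ∉ X' := by
          have := d x (by simp [AB])
          simp only [AB, List.count_append, List.count_cons] at this
          simp at this
          exact List.count_eq_zero.1 (by omega)
        simp [AB, cnt_of_not_mem k4] at k3
      rw [AB, if_neg (by omega), if_neg (by omega)] at s'
      exact rig k2 (twice_anti h (AB_cl r') s')

theorem nf {w : List ℕ} (h : DO w) (hp : Par w) (hc : (gr w).Conn) (h2 : (gr w).C2)
    (ha : (gr w).AllRig) : ∃ z r, (z :: r).Nodup ∧ r.length + 1 = (gr w).V.card ∧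
      E w (z :: ((AB r).1 ++ z :: (AB r).2)) := by
  obtain ⟨x, y, l, hf, hr, hg⟩ := ha
  obtain ⟨z, r, e⟩ : ∃ z r, (x :: y :: l).reverse = z :: r := List.exists_cons_of_ne_nil (by simp)
  have e0 : x :: y :: l = r.reverse ++ [z] := by rw [← List.reverse_cons, ← e, List.reverse_reverse]
  have hr0 : r ≠ [] := by
    rintro rfl
    simp at e0
  obtain ⟨X, Y, s, -⟩ := nf_aux h hp hc h2 hf hr hg r [z] e0 hr0 (by simp)
  refine ⟨z, r, e ▸ List.nodup_reverse.2 hf.1.1, by rw [← hf.length_eq, e0]; simp, ?_⟩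
  have key : ∀ X' Y' v, Same w v → (∀ a, v.count a = (AB r).1.count a + (AB r).2.count a +
      2 * [z].count a + X'.count a + Y'.count a) → X' = [] ∧ Y' = [] := by
    intro X' Y' v s' k
    rw [← List.append_eq_nil_iff]
    refine List.eq_nil_iff_forall_not_mem.2 fun a ha => ?_
    have h1 := List.count_pos_iff.2 ha
    have h3 := k a
    have h4 := AB_count a r
    rw [List.count_append] at h1
    have h5 : a ∈ v := List.count_pos_iff.1 (by omega)
    have h6 := h.perm s'.2.1 a h5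
    have h7 := List.count_pos_iff.2 (e0 ▸ hf.2 a (mem_gr.2 (s'.2.1.mem_iff.2 h5)))
    rw [List.count_append, List.count_reverse] at h7
    omega
  obtain ⟨X', Y', ⟨s', -⟩ | ⟨s', -⟩ | ⟨s', -⟩⟩ := step' h hc h2 (e0 ▸ hf) hr0 s <;>
    obtain ⟨rfl, rfl⟩ := key X' Y' _ s' fun a => by
      simp only [List.count_append, List.count_cons, List.count_nil]
      omega
  · simpa using s'.1
  · simpa using s'.1
  · exfalso
    obtain ⟨b, hb⟩ := List.exists_mem_of_ne_nil r hr0
    obtain ⟨a, ha⟩ := hc.exists_r (hf.1.2.1 z (by simp [e0])) (hf.1.2.1 b (by simp [e0, hb]))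
      (fun k => (List.nodup_append.1 (e0 ▸ hf.1.1)).2.2 b (by simpa using hb) z (by simp) k.symm)
    rw [← s'.2.2 h, (h.perm s'.2.1).r_of_eq (P := []) (U := (AB r).1 ++ (AB r).2) (S := [])
      (by simp), cnt_eq_one_iff, List.count_append, AB_count, Nat.odd_iff] at ha
    omega

theorem exists_perm : ∀ l m : List ℕ, l.Nodup → m.Nodup → l.length = m.length →
    ∃ σ : Equiv.Perm ℕ, l.map σ = m
  | [], [], _, _, _ => ⟨1, rfl⟩
  | [], _ :: _, _, _, h => by simp at h
  | _ :: _, [], _, _, h => by simp at h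
  | a :: l, b :: m, h1, h2, h => by
    rw [List.nodup_cons] at h1 h2
    obtain ⟨σ, rfl⟩ := exists_perm l m h1.2 h2.2 (by simpa using h)
    refine ⟨Equiv.swap (σ a) b * σ, ?_⟩
    rw [List.map_cons, Equiv.Perm.coe_mul, ← List.map_map, map_swap (by simpa using h1.1) h2.1]
    simp

theorem E_of_allRig {n : ℕ} {w v : List ℕ} (h : IsDiagram n w) (k : IsDiagram n v)
    (ha : (gr w).AllRig) (hb : (gr v).AllRig) : E w v := by
  obtain ⟨z, r, h1, h2, h3⟩ := nf h.2.1 h.par (conn_of_prime h.2.1 h.2.2.1) h.c2 ha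
  obtain ⟨z', r', k1, k2, k3⟩ := nf k.2.1 k.par (conn_of_prime k.2.1 k.2.2.1) k.c2 hb
  have c1 : (gr w).V.card = n := card_of_DO h.2.1 h.1
  have c2 : (gr v).V.card = n := card_of_DO k.2.1 k.1
  obtain ⟨σ, e⟩ := exists_perm _ _ h1 k1 (by simp; omega)
  simp only [List.map_cons, List.cons.injEq] at e
  obtain ⟨rfl, rfl⟩ := e
  exact h3.tr ((E.of (Move.ren σ _)).tr (k3.sy.cast (by simp [AB_map]) rfl))

end Pool.Agent.MP_b13154_gt

end

-- part MP_b13154_gt.Main
section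

/-!
Doubling a crossing, the injection, and diagrams outside its image.
-/

namespace Pool.Agent.MP_b13154_gt

open Gr

theorem f4 (i : Fin 4) : i + 1 + 3 = i ∧ i + 1 + 2 = i + 3 ∧ i + 1 + 1 = i + 2 ∧
    i + 3 + 3 = i + 2 ∧ i + 3 + 2 = i + 1 ∧ i + 3 + 1 = i ∧ i ≠ i + 1 ∧ i ≠ i + 2 ∧
    i + 2 ≠ i + 1 ∧ i + 3 ≠ i + 1 ∧ i + 1 ≠ i + 2 ∧ i + 3 ≠ i + 2 ∧ i + 1 ≠ i ∧ i + 2 ≠ i ∧
    i + 3 ≠ i := by
  revert i
  decide

theorem par_opp (x : ℕ × Fin 4) : par (opp x) = par x := by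
  have : ∀ i : Fin 4, (i + 2).val % 2 = i.val % 2 := by decide
  simp [par, opp, this]

theorem pl_dbl_aux {n : ℕ} {tP tU tS : List (ℕ × Fin 4)} {c c' : ℕ} {i j e m g₀ g₁ : Fin 4}
    {k : ℕ × Fin 4 → ℕ} {s : ℕ × ℕ} {β : ℕ} (g : Fin 4 → ℕ)
    (h : DO ((tP ++ (c, i) :: (tU ++ (c, j) :: tS)).map Prod.fst))
    (hc' : c' ∉ (tP ++ (c, i) :: (tU ++ (c, j) :: tS)).map Prod.fst)
    (hn : ((tP ++ (c, i) :: (tU ++ (c, j) :: tS)).map par).Nodup)
    (hw : Walk k s (tP ++ (c, i) :: (tU ++ (c, j) :: tS)) s)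
    (hc : n + 2 ≤ ((((tP ++ (c, i) :: (tU ++ (c, j) :: tS)).map Prod.fst).toFinset ×ˢ
      Finset.univ).image k).card)
    (hβ : β ∉ (((tP ++ (c, i) :: (tU ++ (c, j) :: tS)).map Prod.fst).toFinset ×ˢ
      Finset.univ).image k)
    (he : e.val % 2 = 1) (h0 : g g₀ = β) (h1 : g g₁ = k (c, m))
    (hk : ∀ k' : ℕ × Fin 4 → ℕ, (∀ l, k' (c', l) = g l) →
      (∀ l, k' (c, l) = if l = m then β else k (c, l)) →
      inn k (c, i) = inn k' (c, i) ∧ out k' (c, i) = inn k' (c', 0) ∧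
      out k' (c', 0) = (inn k (c, j)).swap ∧ (out k (c, i)).swap = inn k' (c', e) ∧
      out k' (c', e) = inn k' (c, j) ∧ out k' (c, j) = out k (c, j)) :
    Pl (n + 1) (tP.map Prod.fst ++ c :: c' :: ((tU.map Prod.fst).reverse ++
      c' :: c :: tS.map Prod.fst)) := by
  let k' : ℕ × Fin 4 → ℕ := fun x => if x.1 = c' then g x.2 else if x = (c, m) then β else k x
  have hne : c ≠ c' := fun e => hc' (by simp [e])
  have hd : DO (tP.map Prod.fst ++ c :: (tU.map Prod.fst ++ c :: tS.map Prod.fst)) := by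
    simpa using h
  obtain ⟨n1, n2, n3⟩ := hd.not_mem
  simp only [List.map_append, List.map_cons, List.mem_append, List.mem_cons, not_or] at hc'
  have k1 : ∀ a, a ≠ c → a ≠ c' → ∀ l, k' (a, l) = k (a, l) := fun a h1 h2 l => by
    simp [k', h1, h2]
  obtain ⟨a1, a2, a3, a4, a5, a6⟩ := hk k' (fun l => by simp [k']) fun l => by simp [k', hne]
  refine ⟨tP ++ (c, i) :: (c', 0) :: (tU.reverse.map opp ++ (c', e) :: (c, j) :: tS), k', s,
    by simp [opp, Function.comp_def], ?_, ?_, ?_⟩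
  · have p : ((tP ++ (c, i) :: (c', 0) :: (tU.reverse.map opp ++ (c', e) :: (c, j) :: tS)).map
        par).Perm ((c', 0) :: (c', 1) :: (tP ++ (c, i) :: (tU ++ (c, j) :: tS)).map par) := by
      have e1 : par (c', 0) = (c', 0) := rfl
      have e2 : par (c', e) = (c', 1) := by simp [par, he]
      have e3 : par ∘ opp = par := funext par_opp
      rw [List.perm_iff_count]
      intro a
      simp only [List.map_append, List.map_cons, List.map_map, e3,
        List.count_append, List.count_cons, List.map_reverse, List.count_reverse, e1, e2]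
      omega
    have : ∀ u, (c', u) ∉ (tP ++ (c, i) :: (tU ++ (c, j) :: tS)).map par := by
      intro u hu
      obtain ⟨x, hx, e⟩ := List.mem_map.1 hu
      have h1 := List.mem_map_of_mem (f := Prod.fst) hx
      rw [show x.1 = c' from congrArg Prod.fst e] at h1
      simp only [List.map_append, List.map_cons, List.mem_append, List.mem_cons] at h1
      tauto
    rw [p.nodup_iff, List.nodup_cons, List.nodup_cons]
    exact ⟨fun k => (List.mem_cons.1 k).elim (by simp) (this 0), this 1, hn⟩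
  · obtain ⟨m₁, w1, rfl, w2⟩ := walk_append.1 hw
    obtain ⟨m₂, w3, rfl, w4⟩ := walk_append.1 w2
    refine walk_append.2 ⟨_, w1.congr fun a ha => k1 a (fun e => n1 (e ▸ ha))
      fun e => hc'.1 (e ▸ ha), a1, a2, walk_append.2 ⟨_, ?_, a4, a5, ?_⟩⟩
    · rw [a3]
      refine w3.rev.congr fun a ha => ?_
      have : a ∈ tU.map Prod.fst := by simpa [opp] using ha
      exact k1 a (fun e => n2 (e ▸ this)) fun e => hc'.2.2.1 (e ▸ this)
    · rw [a6]
      exact w4.congr fun a ha => k1 a (fun e => n3 (e ▸ ha)) fun e => hc'.2.2.2.2 (e ▸ ha)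
  · refine le_trans (by rw [Finset.card_insert_of_notMem hβ]; omega)
      (Finset.card_le_card (s := insert β _) fun l hl => ?_)
    rcases Finset.mem_insert.1 hl with rfl | hl
    · exact Finset.mem_image.2 ⟨(c', g₀), by simp, by simp [k', h0]⟩
    · obtain ⟨x, hx, rfl⟩ := Finset.mem_image.1 hl
      by_cases e : x = (c, m)
      · exact Finset.mem_image.2 ⟨(c', g₁), by simp, by simp [k', h1, e]⟩
      · have hx' := List.mem_toFinset.1 (Finset.mem_product.1 hx).1
        simp only [List.map_append, List.map_cons, List.mem_append, List.mem_cons] at hx'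
        have : x.1 ≠ c' := by
          rintro rfl
          tauto
        refine Finset.mem_image.2 ⟨x, Finset.mem_product.2 ⟨List.mem_toFinset.2 ?_, by simp⟩,
          by simp [k', this, e]⟩
        simp only [List.mem_append, List.mem_cons, List.mem_reverse]
        tauto

theorem pl_dbl {n : ℕ} {P U S : List ℕ} {c c' : ℕ} (h : DO (P ++ c :: (U ++ c :: S)))
    (hc' : c' ∉ P ++ c :: (U ++ c :: S)) (hp : Pl n (P ++ c :: (U ++ c :: S))) :
    Pl (n + 1) (P ++ c :: c' :: (U.reverse ++ c' :: c :: S)) := by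
  obtain ⟨t, k, s, e, hn, hw, hc⟩ := hp
  obtain ⟨tP, i, tU, j, tS, rfl, rfl, rfl, rfl, hj⟩ := dec e hn
  rw [← e] at h hc' hc
  obtain ⟨β, hβ⟩ := Infinite.exists_notMem_finset
    ((((tP ++ (c, i) :: (tU ++ (c, j) :: tS)).map Prod.fst).toFinset ×ˢ Finset.univ).image k)
  rcases hj with rfl | rfl
  · refine pl_dbl_aux (e := 3) (m := i + 1) (g₀ := 0) (g₁ := 2)
      ![β, k (c, i), k (c, i + 1), k (c, i + 2)] h hc' hn hw hc hβ rfl rfl rfl fun k' h1 h2 => ?_
    simp [inn, out, h1, h2, f4 i]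
  · refine pl_dbl_aux (e := 1) (m := i + 2) (g₀ := 3) (g₁ := 1)
      ![k (c, i + 1), k (c, i + 2), k (c, i + 3), β] h hc' hn hw hc hβ rfl rfl rfl fun k' h1 h2 => ?_
    simp [inn, out, h1, h2, f4 i]

theorem exists_dbl {n : ℕ} {w : List ℕ} (h : IsDiagram n w) (hn : 3 ≤ n) :
    ∃ w' d d', IsDiagram (n + 1) w' ∧ (gr w').Dbl d d' ∧ sm w' d' = w := by
  obtain ⟨hl, hd, hp, hpl⟩ := isDiagram_iff.1 h
  have hc := conn_of_prime hd hp
  have hcard : (gr w).V.card = n := card_of_DO hd hl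
  obtain ⟨d, hphi⟩ := exists_phi hc (hcard ▸ hn)
  obtain ⟨d', hd'⟩ := Infinite.exists_notMem_finset w.toFinset
  rw [List.mem_toFinset] at hd'
  obtain ⟨P, U, S, rfl, n1, n2, n3⟩ := split_two (hd d (mem_gr.1 hphi.1))
  have m := hd'
  simp only [List.mem_append, List.mem_cons, not_or] at m
  have hne : d ≠ d' := Ne.symm m.2.1
  have hD : DO (P ++ d :: d' :: (U.reverse ++ d' :: d :: S)) := by
    intro a ha
    by_cases e : a = d'
    · subst e
      simp [List.count_cons_of_ne hne, List.count_eq_zero_of_not_mem, m]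
    · have := hd a (by simp at ha ⊢; tauto)
      simpa [List.count_cons_of_ne (Ne.symm e), List.count_cons] using this
  have hs : sm (P ++ d :: d' :: (U.reverse ++ d' :: d :: S)) d' = P ++ d :: (U ++ d :: S) :=
    (sm_eq (P := P ++ [d]) (U := U.reverse) (S := d :: S) (by simp) (by simp [m])
      (by simp [m])).trans (by simp)
  have hg := (hD.sm_spec (d := d') (by simp)).2
  rw [hs] at hg
  have hf : (gr (P ++ d :: d' :: (U.reverse ++ d' :: d :: S))).FT d d' := by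
    intro y
    rw [hD.r_of_eq (P := P) (U := d' :: (U.reverse ++ [d'])) (S := S) (by simp),
      hD.r_of_eq (P := P ++ [d]) (U := U.reverse) (S := d :: S) (by simp)]
    simp only [cnt_cons, cnt_append, cnt_reverse, cnt_nil]
    apply Eq.congr_left
    linear_combination two (if d' = y then 1 else 0)
  obtain ⟨b, hb, hbd⟩ := Finset.exists_mem_ne (s := (gr (P ++ d :: (U ++ d :: S))).V) (by omega) d
  refine ⟨_, d, d', isDiagram_iff.2 ⟨?_, hD, prime_of_conn hD
    (Conn.lift hf hne (hg ▸ hc) (mem_gr.2 (by simp)) (hg ▸ hb) hbd.symm), pl_dbl hd hd' hpl⟩,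
    ⟨hf, hne, mem_gr.2 (by simp), hg ▸ hc, hg ▸ hphi⟩, hs⟩
  simp only [List.length_append, List.length_cons, List.length_reverse] at hl ⊢
  omega

theorem Gr.Iso.allRig {G H : Gr} {σ : Equiv.Perm ℕ} (h : Iso σ G H) (k : G.AllRig) : H.AllRig := by
  obtain ⟨x, y, l, h1, h2, h3⟩ := k
  refine ⟨σ x, σ y, l.map σ, h.full h1, (h.2 _ _).2 h2, fun p u v q e hp hq hs => ?_⟩
  obtain ⟨p', q', e', rfl, e2⟩ := List.map_eq_append_iff.1 (show (x :: y :: l).map σ = _ from e)
  obtain ⟨u', q'', rfl, rfl, e3⟩ := List.map_eq_cons_iff.1 e2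
  obtain ⟨v', q''', rfl, rfl, rfl⟩ := List.map_eq_cons_iff.1 e3
  exact h3 p' u' v' q''' e' (by simpa using hp) (by simpa using hq) (h.split (fun a => by simp) hs)

theorem Gr.Dbl.nice {G : Gr} {d d' : ℕ} (h : G.Dbl d d') : Nice G d' :=
  ⟨h.mem, h.good, d, (mem_red.1 h.phi.1).2, h.ne.symm, h.ft.symm⟩

theorem dbl_inj {n : ℕ} (hn : 3 ≤ n) {w v : List ℕ} {d d' e e' : ℕ} (hw : IsDiagram (n + 1) w)
    (hv : IsDiagram (n + 1) v) (h : (gr w).Dbl d d') (k : (gr v).Dbl e e')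
    (hw' : IsDiagram n (sm w d')) (hv' : IsDiagram n (sm v e')) (q : E w v) :
    E (sm w d') (sm v e') := by
  obtain ⟨σ, h1, h2⟩ := (rel_of_E q).2 hw.2.1
  have cw := conn_of_prime hw.2.1 hw.2.2.1
  have cv := conn_of_prime hv.2.1 hv.2.2.1
  have h3 := h1.dbl h
  rcases h3.unique cv (hv.par.c1 hv.2.1) hv.c2
    (by rw [show (gr v).V.card = n + 1 from card_of_DO hv.2.1 hv.1]; omega) k with f | ⟨a, b⟩
  · refine (h2 cw d' h.nice).tr ?_
    by_cases e1 : σ d' = e'
    · exact e1 ▸ E.rfl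
    · exact sm_twin hv.2.1 cv h3.good f e1 (mem_gr.1 h3.mem) (mem_gr.1 k.mem)
  · refine E_of_allRig hw' hv' ?_ ?_
    · rw [(DO.sm_spec hw.2.1 (mem_gr.1 h.mem)).2]
      exact (h1.red d').symm.allRig a
    · rwa [(DO.sm_spec hv.2.1 (mem_gr.1 k.mem)).2]

/-- Diagrams without false twins, with a chosen first crossing. -/
def Ex (n : ℕ) (w : List ℕ) : Prop :=
  w.length = 2 * n ∧ DO w ∧ (gr w).Conn ∧ (∀ x ∈ w, ∀ y ∈ w, (gr w).FT x y → x = y) ∧
  ∃ (c : ℕ) (i : Fin 4) (tU tS : List (ℕ × Fin 4)) (k : ℕ × Fin 4 → ℕ) (s : ℕ × ℕ),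
    ((c, i) :: (tU ++ (c, i + 1) :: tS)).map Prod.fst = w ∧
    (((c, i) :: (tU ++ (c, i + 1) :: tS)).map par).Nodup ∧
    Walk k s ((c, i) :: (tU ++ (c, i + 1) :: tS)) s ∧
    n + 2 ≤ ((w.toFinset ×ˢ Finset.univ).image k).card

theorem Ex.diagram {n : ℕ} {w : List ℕ} (h : Ex n w) : IsDiagram n w := by
  obtain ⟨h1, h2, h3, -, c, i, tU, tS, k, s, h4⟩ := h
  exact isDiagram_iff.2 ⟨h1, h2, prime_of_conn h2 h3, _, k, s, h4⟩

theorem Ex.step {n : ℕ} {w : List ℕ} (h : Ex n w) : ∃ v, Ex (n + 2) v := by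
  obtain ⟨hl, hd, hc, hf, c, i, tU, tS, k, s, e, hn, hw, hk⟩ := h
  obtain ⟨a, ha⟩ := Infinite.exists_notMem_finset w.toFinset
  obtain ⟨b, hb⟩ := Infinite.exists_notMem_finset (insert a w.toFinset)
  obtain ⟨β, hβ⟩ := Infinite.exists_notMem_finset ((w.toFinset ×ˢ Finset.univ).image k)
  obtain ⟨γ, hγ⟩ := Infinite.exists_notMem_finset (insert β ((w.toFinset ×ˢ Finset.univ).image k))
  simp only [Finset.mem_insert, List.mem_toFinset, not_or] at ha hb
  obtain ⟨hab, hb⟩ := hb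
  simp only [List.map_cons, List.map_append] at e
  generalize hU : tU.map Prod.fst = U at e
  generalize hS : tS.map Prod.fst = S at e
  have ha' := e ▸ ha
  have hb' := e ▸ hb
  simp only [List.mem_append, List.mem_cons, not_or] at ha' hb'
  obtain ⟨-, n2, n3⟩ := DO.not_mem (P := []) (e ▸ hd : DO (c :: (U ++ c :: S)))
  obtain ⟨v, hv⟩ : ∃ v, v = a :: b :: c :: (U ++ a :: b :: c :: S) := ⟨_, rfl⟩
  have mem : ∀ x, x ∈ v ↔ x = a ∨ x = b ∨ x ∈ w := fun x => by
    simp only [hv, ← e, List.mem_append, List.mem_cons]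
    tauto
  have hD : DO v := by
    intro x hx
    by_cases e1 : x = a
    · subst e1
      simp [hv, List.count_cons_of_ne hab, List.count_cons_of_ne (Ne.symm ha'.1),
        List.count_eq_zero_of_not_mem, ha']
    by_cases e2 : x = b
    · subst e2
      simp [hv, List.count_cons_of_ne (Ne.symm hab), List.count_cons_of_ne (Ne.symm hb'.1),
        List.count_eq_zero_of_not_mem, hb']
    · have := hd x (by rw [mem] at hx; tauto)
      simpa [hv, ← e, List.count_cons_of_ne (Ne.symm e1), List.count_cons_of_ne (Ne.symm e2),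
        List.count_cons] using this
  have ra : ∀ y, (gr v).r a y ↔ cnt y (b :: c :: U) = 1 := fun y =>
    hD.r_of_eq (P := []) (S := b :: c :: S) (by simp [hv])
  have rb : ∀ y, (gr v).r b y ↔ cnt y (c :: (U ++ [a])) = 1 := fun y =>
    hD.r_of_eq (P := [a]) (S := c :: S) (by simp [hv])
  have ro : ∀ x y, x ≠ a → x ≠ b → y ≠ a → y ≠ b → ((gr v).r x y ↔ (gr w).r x y) := by
    intro x y h1 h2 h3 h4
    rw [hD.r_iff, hd.r_iff]
    simp [hv, ← e, inv, cnt_cons, h1.symm, h2.symm, h3.symm, h4.symm]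
  have rab : (gr v).r a b := by
    simp [ra, cnt_cons_ne (Ne.symm hb'.1), cnt_of_not_mem hb'.2.1]
  have rac : (gr v).r a c := by simp [ra, cnt_cons_ne hb'.1, cnt_of_not_mem n2]
  have old : ∀ x ∈ w, x ≠ a ∧ x ≠ b := fun x hx => ⟨fun e => ha (e ▸ hx), fun e => hb (e ▸ hx)⟩
  have tt : ∀ y, y ≠ a → y ≠ b → ((gr v).r a y ↔ (gr v).r b y) := fun y h1 h2 => by
    simp [ra, rb, cnt_cons, h1.symm, h2.symm]
  let k' : ℕ × Fin 4 → ℕ := fun x =>
    if x.1 = a then ![k (c, i), k (c, i + 1), β, k (c, i + 3)] x.2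
    else if x.1 = b then ![k (c, i + 1), γ, k (c, i + 3), β] x.2
    else if x = (c, i) then γ else k x
  have k1 : ∀ x ∈ w, x ≠ c → ∀ l, k' (x, l) = k (x, l) := fun x hx h1 l => by
    simp [k', old x hx, h1]
  refine ⟨v, ?_, hD, ?_, ?_, a, 0, (b, 0) :: (c, i) :: tU, (b, 3) :: (c, i + 1) :: tS, k', s,
    by simp [hv, hU, hS], ?_, ?_, ?_⟩
  · simp only [hv, ← e, List.length_append, List.length_cons] at hl ⊢
    omega
  · intro X hX hX'
    by_contra hno
    push Not at hno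
    have e1 : ∀ {x y}, (gr v).r x y → (x ∈ X ↔ y ∈ X) := fun r =>
      ⟨fun k => not_not.1 fun k' => hno _ k _ k' r,
        fun k => not_not.1 fun k' => hno _ k _ k' ((gr v).symm r)⟩
    have rep : ∀ x ∈ (gr v).V, ∃ y ∈ (gr w).V, (x ∈ X ↔ y ∈ X) := by
      intro x hx
      have hcw : c ∈ (gr w).V := mem_gr.2 (by simp [← e])
      rcases (mem x).1 (mem_gr.1 hx) with rfl | rfl | k
      · exact ⟨c, hcw, e1 rac⟩
      · exact ⟨c, hcw, (e1 rab).symm.trans (e1 rac)⟩
      · exact ⟨x, mem_gr.2 k, Iff.rfl⟩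
    obtain ⟨x, hx, hx'⟩ := hX
    obtain ⟨y, hy, hy'⟩ := hX'
    obtain ⟨x', h1, h2⟩ := rep x hx
    obtain ⟨y', h3, h4⟩ := rep y hy
    obtain ⟨p, hp, q, hq, r⟩ := hc X ⟨x', h1, h2.1 hx'⟩ ⟨y', h3, fun k => hy' (h4.2 k)⟩
    have o1 := old p (mem_gr.1 ((gr w).mem r))
    have o2 := old q (mem_gr.1 ((gr w).mem ((gr w).symm r)))
    exact hno p hp q hq ((ro p q o1.1 o1.2 o2.1 o2.2).2 r)
  · have na : (gr v).NoFT a := noft_of_tt rab fun y hy r => (tt y hy (ne_of_r r).symm).2 r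
    have nb : (gr v).NoFT b := noft_of_tt ((gr v).symm rab) fun y hy r =>
      (tt y (ne_of_r r).symm hy).1 r
    intro x hx y hy f
    rcases (mem x).1 hx with rfl | rfl | hx
    · exact (na y f).symm
    · exact (nb y f).symm
    rcases (mem y).1 hy with rfl | rfl | hy
    · exact na x f.symm
    · exact nb x f.symm
    refine hf x hx y hy fun z => ?_
    by_cases hz : z ∈ w
    · rw [← ro x z (old x hx).1 (old x hx).2 (old z hz).1 (old z hz).2,
        ← ro y z (old y hy).1 (old y hy).2 (old z hz).1 (old z hz).2, f z]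
    · exact ⟨fun r => absurd (mem_gr.1 ((gr w).mem ((gr w).symm r))) hz,
        fun r => absurd (mem_gr.1 ((gr w).mem ((gr w).symm r))) hz⟩
  · have p : ((((a, 0) : ℕ × Fin 4) :: ((b, 0) :: (c, i) :: tU ++ (a, 0 + 1) :: (b, 3) ::
        (c, i + 1) :: tS)).map par).Perm ((a, 0) :: (a, 1) :: (b, 0) :: (b, 1) ::
          ((c, i) :: (tU ++ (c, i + 1) :: tS)).map par) := by
      have e1 : ∀ x, par (x, 0) = (x, 0) := fun _ => rfl
      have e2 : par (a, 0 + 1) = (a, 1) := rfl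
      have e3 : par (b, 3) = (b, 1) := by simp [par]
      rw [List.perm_iff_count]
      intro x
      simp only [List.map_append, List.map_cons, List.count_append, List.count_cons, e1, e2, e3]
      omega
    have : ∀ x u, x ∉ w → (x, u) ∉ ((c, i) :: (tU ++ (c, i + 1) :: tS)).map par := by
      intro x u hx hu
      obtain ⟨y, hy, e'⟩ := List.mem_map.1 hu
      have h1 := List.mem_map_of_mem (f := Prod.fst) hy
      rw [show y.1 = x from congrArg Prod.fst e'] at h1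
      exact hx (by simpa only [← e, ← hU, ← hS, List.map_cons, List.map_append] using h1)
    rw [p.nodup_iff]
    have t1 := this a 0 ha
    have t2 := this a 1 ha
    have t3 := this b 0 hb
    have t4 := this b 1 hb
    generalize ((c, i) :: (tU ++ (c, i + 1) :: tS)).map par = T at *
    simp [t1, t2, t3, t4, hn, Ne.symm hab]
  · obtain ⟨rfl, w2⟩ := hw
    obtain ⟨m₂, w3, rfl, w4⟩ := walk_append.1 w2
    have hca : c ≠ a := Ne.symm ha'.1
    have hcb : c ≠ b := Ne.symm hb'.1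
    refine ⟨?_, ?_, ?_, walk_append.2 ⟨inn k (c, i + 1), ?_, ?_, ?_, ?_, ?_⟩⟩
    · simp [inn, k']
    · simp [inn, out, k', hab]
    · simp [inn, out, k', hab, hca, hcb, f4 i]
    · rw [show out k' (c, i) = out k (c, i) by simp [out, k', hca, hcb, f4 i]]
      exact w3.congr fun x hx => k1 x (by simp [← e, ← hU, hx]) fun e => n2 (e ▸ hU ▸ hx)
    · simp [inn, k', f4 i]
    · simp [inn, out, k', hab]
    · simp [inn, out, k', hab, hca, hcb, f4 i]
    · rw [show out k' (c, i + 1) = out k (c, i + 1) by simp [out, k', hca, hcb, f4 i]]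
      exact w4.congr fun x hx => k1 x (by simp [← e, ← hS, hx]) fun e => n3 (e ▸ hS ▸ hx)
  · refine le_trans (by
      rw [Finset.card_insert_of_notMem hγ, Finset.card_insert_of_notMem hβ]; omega)
      (Finset.card_le_card (s := insert γ (insert β _)) fun l hl => ?_)
    rcases Finset.mem_insert.1 hl with rfl | hl
    · exact Finset.mem_image.2 ⟨(b, 1), by simp [hv], by simp [k', hab]⟩
    rcases Finset.mem_insert.1 hl with rfl | hl
    · exact Finset.mem_image.2 ⟨(a, 2), by simp [hv], by simp [k']⟩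
    obtain ⟨x, hx, rfl⟩ := Finset.mem_image.1 hl
    by_cases e : x = (c, i)
    · exact Finset.mem_image.2 ⟨(a, 0), by simp [hv], by simp [k', e]⟩
    · have hx' := List.mem_toFinset.1 (Finset.mem_product.1 hx).1
      exact Finset.mem_image.2 ⟨x, Finset.mem_product.2 ⟨List.mem_toFinset.2
        ((mem _).2 (Or.inr (Or.inr hx'))), by simp⟩, by simp [k', old _ hx', e]⟩

instance (w : List ℕ) (a b : ℕ) : Decidable ((gr w).r a b) :=
  inferInstanceAs (Decidable (a ≠ b ∧ inv a b w = 1 ∧ inv b a w = 1))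

theorem conn_of_check {w : List ℕ} (c : ℕ)
    (h : ∀ a ∈ w, a = c ∨ (gr w).r a c ∨ ∃ b ∈ w, (gr w).r a b ∧ (gr w).r b c) : (gr w).Conn := by
  rintro X ⟨x, hx, hx'⟩ ⟨y, hy, hy'⟩
  by_contra hno
  push Not at hno
  have e1 : ∀ {x y}, (gr w).r x y → (x ∈ X ↔ y ∈ X) := fun r =>
    ⟨fun k => not_not.1 fun k' => hno _ k _ k' r,
      fun k => not_not.1 fun k' => hno _ k _ k' ((gr w).symm r)⟩
  have e2 : ∀ a ∈ w, a ∈ X ↔ c ∈ X := fun a ha => by
    rcases h a ha with rfl | r | ⟨b, -, r, r'⟩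
    · rfl
    · exact e1 r
    · exact (e1 r).trans (e1 r')
  exact hy' ((e2 y (mem_gr.1 hy)).2 ((e2 x (mem_gr.1 hx)).1 hx'))

theorem noft_of_check {w : List ℕ}
    (h : ∀ x ∈ w, ∀ y ∈ w, (∀ z ∈ w, (gr w).r x z ↔ (gr w).r y z) → x = y) :
    ∀ x ∈ w, ∀ y ∈ w, (gr w).FT x y → x = y := fun x hx y hy f => h x hx y hy fun z _ => f z

theorem ex3 : Ex 3 [0, 1, 2, 0, 1, 2] :=
  ⟨rfl, by unfold DO; decide, conn_of_check 0 (by decide), noft_of_check (by decide), 0, 0,
    [(1, 0), (2, 0)], [(1, 3), (2, 1)],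
    fun x => [0, 1, 2, 3, 1, 4, 3, 2, 4, 1, 0, 3].getD (4 * x.1 + x.2) 0, (3, 0), rfl, by decide,
    ⟨rfl, rfl, rfl, rfl, rfl, rfl, rfl⟩, by decide⟩

theorem ex6 : Ex 6 [0, 1, 2, 0, 3, 4, 1, 2, 5, 3, 4, 5] :=
  ⟨rfl, by unfold DO; decide, conn_of_check 1 (by decide), noft_of_check (by decide), 0, 0,
    [(1, 0), (2, 0)], [(3, 0), (4, 0), (1, 3), (2, 1), (5, 0), (3, 3), (4, 1), (5, 3)],
    fun x => [0, 1, 2, 3, 1, 4, 5, 2, 4, 1, 0, 5, 2, 6, 7, 3, 6, 2, 5, 7, 0, 3, 7, 5].getD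
      (4 * x.1 + x.2) 0, (3, 0), rfl, by decide,
    ⟨rfl, rfl, rfl, rfl, rfl, rfl, rfl, rfl, rfl, rfl, rfl, rfl, rfl⟩, by decide⟩

theorem exists_ex {n : ℕ} (h : 5 ≤ n) : ∃ w, Ex n w := by
  have key : ∀ m, (∃ w, Ex (3 + 2 * m) w) ∧ ∃ w, Ex (6 + 2 * m) w := by
    intro m
    induction m with
    | zero => exact ⟨⟨_, ex3⟩, _, ex6⟩
    | succ m ih => exact ⟨ih.1.elim fun _ h => h.step, ih.2.elim fun _ h => h.step⟩
  rcases Nat.even_or_odd' n with ⟨m, rfl | rfl⟩
  · exact (by omega : 6 + 2 * (m - 3) = 2 * m) ▸ (key (m - 3)).2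
  · exact (by omega : 3 + 2 * (m - 1) = 2 * m + 1) ▸ (key (m - 1)).1

theorem mk_eq {w v : List ℕ} : Quot.mk Move w = Quot.mk Move v ↔ E w v := Quot.eq

theorem classes_finite (n : ℕ) : (classes n).Finite := by
  refine ((List.finite_length_eq (Fin n) (2 * n)).image
    fun l => Quot.mk Move (l.map Fin.val)).subset ?_
  rintro _ ⟨w, hw, rfl⟩
  obtain ⟨σ, e⟩ := exists_perm w.dedup (List.range n) (List.nodup_dedup w) List.nodup_range
    (by rw [List.length_range, ← card_of_DO hw.2.1 hw.1]; rfl)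
  have h : ∀ a ∈ w.map σ, a < n := by
    intro a ha
    obtain ⟨b, hb, rfl⟩ := List.mem_map.1 ha
    exact List.mem_range.1 (e ▸ List.mem_map_of_mem (List.mem_dedup.2 hb))
  refine ⟨(w.map σ).pmap Fin.mk h, by simpa using hw.1, mk_eq.2 ?_⟩
  simpa [List.map_pmap, Function.comp_def] using (E.of (Move.ren σ w)).sy

theorem ncard_lt {n : ℕ} (hn : 4 ≤ n) : (classes n).ncard < (classes (n + 1)).ncard := by
  have h : ∀ x : classes n, ∃ w' d d', IsDiagram (n + 1) w' ∧ (gr w').Dbl d d' ∧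
      IsDiagram n (sm w' d') ∧ Quot.mk Move (sm w' d') = x := by
    rintro ⟨_, w, hw, rfl⟩
    obtain ⟨w', d, d', h1, h2, h3⟩ := exists_dbl hw (by omega)
    exact ⟨w', d, d', h1, h2, h3.symm ▸ hw, by rw [h3]⟩
  choose f d d' h1 h2 h3 h4 using h
  have hinj : Function.Injective fun x => Quot.mk Move (f x) := fun x y e =>
    Subtype.ext (by
      rw [← h4, ← h4]
      exact mk_eq.2 (dbl_inj (by omega) (h1 x) (h1 y) (h2 x) (h2 y) (h3 x) (h3 y) (mk_eq.1 e)))
  rw [← Nat.card_coe_set_eq, ← Set.ncard_univ, ← Set.ncard_image_of_injective _ hinj]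
  refine Set.ncard_lt_ncard ⟨?_, fun k => ?_⟩ (classes_finite _)
  · rintro _ ⟨x, -, rfl⟩
    exact ⟨_, h1 x, rfl⟩
  · obtain ⟨u, hu⟩ := exists_ex (n := n + 1) (by omega)
    obtain ⟨x, -, e⟩ := k ⟨u, hu.diagram, rfl⟩
    obtain ⟨σ, k1, -⟩ := (rel_of_E (mk_eq.1 e)).2 (h1 x).2.1
    have := k1.dbl (h2 x)
    exact this.ne (hu.2.2.2.1 _ (mem_gr.1 (mem_red.1 this.phi.1).2) _ (mem_gr.1 this.mem) this.ft)

end Pool.Agent.MP_b13154_gt

end
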