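import Mathlib
import Pool.Agent.MP_b13154_gt.Defs

-- part MP_b13154_gt.Graph
section

/-!
Splits, good vertices and split sequences in graphs on natural numbers.
-/

namespace Pool.Agent.MP_b13154_gt

/-- A graph with a finite set of vertices. -/
@[ext] structure Gr where
  V : Finset ℕ
  r : ℕ → ℕ → Prop
  symm : ∀ {a b}, r a b → r b a
  irr : ∀ a, ¬ r a a
  mem : ∀ {a b}, r a b → a ∈ V

namespace Gr

variable (G : Gr)

def Split (X : Set ℕ) : Prop :=
  ∀ x₁ ∈ X, ∀ x₂ ∈ X, ∀ y₁ ∉ X, ∀ y₂ ∉ X, G.r x₁ y₁ → G.r x₂ y₂ → G.r x₁ y₂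

def Conn : Prop :=
  ∀ X : Set ℕ, (∃ a ∈ G.V, a ∈ X) → (∃ b ∈ G.V, b ∉ X) → ∃ a ∈ X, ∃ b ∉ X, G.r a b

def FT (a b : ℕ) : Prop := ∀ y, G.r a y ↔ G.r b y

def Thru (d : ℕ) (Q : Set ℕ) : Prop :=
  ∀ x ∈ Q, x ≠ d ∧ ¬ G.r d x ∧ ((∀ y ∉ Q, G.r x y ↔ G.r d y) ∨ ∀ y ∉ Q, ¬ G.r x y)

def Good (d : ℕ) : Prop := ∀ Q, G.Thru d Q → ∀ x ∈ Q, ∀ y ∈ Q, ¬ G.r x y

/-- Local complementation at `v` followed by the deletion of `v`. -/
def red (v : ℕ) : Gr where
  V := G.V.erase v
  r a b := a ≠ v ∧ b ≠ v ∧ a ≠ b ∧ (G.r a b ↔ ¬ (G.r a v ∧ G.r b v))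
  symm := by
    rintro a b ⟨h1, h2, h3, h4⟩
    refine ⟨h2, h1, h3.symm, ?_⟩
    have : G.r b a ↔ G.r a b := ⟨G.symm, G.symm⟩
    rw [this, h4, and_comm]
  irr := fun a h => h.2.2.1 rfl
  mem := by
    rintro a b ⟨h1, -, -, h4⟩
    refine Finset.mem_erase.2 ⟨h1, ?_⟩
    by_cases h : G.r a b
    · exact G.mem h
    · have : G.r a v ∧ G.r b v := by tauto
      exact G.mem this.1

def C2 : Prop := ∀ a p z, a ≠ p → ¬ G.r a p → G.r a z → G.r p z → ∃ z', z' ≠ z ∧ G.r a z' ∧ G.r p z'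

def C1 : Prop := ∀ a z, G.r a z → ∃ z', z' ≠ z ∧ G.r a z'

variable {G}

theorem r_comm {a b : ℕ} : G.r a b ↔ G.r b a := ⟨G.symm, G.symm⟩

theorem ne_of_r {a b : ℕ} (h : G.r a b) : a ≠ b := fun e => G.irr a (e ▸ h)

theorem FT.refl (a : ℕ) : G.FT a a := fun _ => Iff.rfl
theorem FT.symm {a b : ℕ} (h : G.FT a b) : G.FT b a := fun y => (h y).symm
theorem FT.trans {a b c : ℕ} (h : G.FT a b) (h' : G.FT b c) : G.FT a c :=
  fun y => (h y).trans (h' y)
theorem FT.not_r {a b : ℕ} (h : G.FT a b) : ¬ G.r a b := fun h' => G.irr b ((h b).1 h')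
theorem FT.r_iff {a b : ℕ} (h : G.FT a b) (y : ℕ) : G.r y a ↔ G.r y b := by
  rw [r_comm, h y, r_comm]

theorem Conn.exists_r (h : G.Conn) {a b : ℕ} (ha : a ∈ G.V) (hb : b ∈ G.V) (hab : a ≠ b) :
    ∃ y, G.r a y := by
  obtain ⟨x, hx, y, -, hxy⟩ := h {a} ⟨a, ha, rfl⟩ ⟨b, hb, fun e => hab (Set.mem_singleton_iff.1 e).symm⟩
  rw [Set.mem_singleton_iff.1 hx] at hxy
  exact ⟨y, hxy⟩

theorem Split.congr {X Y : Set ℕ} (h : G.Split X) (e : ∀ a ∈ G.V, a ∈ X ↔ a ∈ Y) : G.Split Y := by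
  intro x₁ h₁ x₂ h₂ y₁ k₁ y₂ k₂ r₁ r₂
  exact h x₁ ((e _ (G.mem r₁)).2 h₁) x₂ ((e _ (G.mem r₂)).2 h₂)
    y₁ (fun k => k₁ ((e _ (G.mem (G.symm r₁))).1 k)) y₂ (fun k => k₂ ((e _ (G.mem (G.symm r₂))).1 k))
    r₁ r₂

theorem Good.ft {d e : ℕ} (h : G.Good d) (f : G.FT d e) : G.Good e := by
  intro Q hQ x hx y hy hxy
  have key : G.Thru d (Q \ {d}) := by
    intro u hu
    obtain ⟨-, h2, h3⟩ := hQ u hu.1
    have h2' : ¬ G.r d u := fun k => h2 ((f u).1 k)
    refine ⟨hu.2, h2', ?_⟩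
    rcases h3 with h3 | h3
    · refine Or.inl fun z hz => ?_
      by_cases e : z = d
      · subst e
        exact ⟨fun k => absurd (G.symm k) h2', fun k => absurd k (G.irr _)⟩
      · rw [h3 z (fun k => hz ⟨k, e⟩), f z]
    · refine Or.inr fun z hz => ?_
      by_cases e : z = d
      · subst e
        exact fun k => h2' (G.symm k)
      · exact h3 z (fun k => hz ⟨k, e⟩)
  refine h _ key x ⟨hx, ?_⟩ y ⟨hy, ?_⟩ hxy
  · rintro rfl
    exact (hQ y hy).2.1 ((f y).1 hxy)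
  · rintro rfl
    exact (hQ x hx).2.1 ((f x).1 (G.symm hxy))

theorem Good.ft_of_thru (hc : G.Conn) {d x : ℕ} (h : G.Good d) (hd : d ∈ G.V) {Q : Set ℕ}
    (hQ : G.Thru d Q) (hx : x ∈ Q) (hxV : x ∈ G.V) : G.FT x d := by
  obtain ⟨h1, h2, h3 | h3⟩ := hQ x hx
  · intro y
    by_cases hy : y ∈ Q
    · exact ⟨fun k => absurd k (h Q hQ x hx y hy), fun k => absurd k (hQ y hy).2.1⟩
    · exact h3 y hy
  · obtain ⟨y, hy⟩ := hc.exists_r hxV hd h1
    by_cases hyQ : y ∈ Q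
    · exact absurd hy (h Q hQ x hx y hyQ)
    · exact absurd hy (h3 y hyQ)

theorem exists_good_aux (hc : G.Conn) : ∀ (m : ℕ) (d : ℕ) (Q : Set ℕ), d ∈ G.V → G.Thru d Q →
    (∃ u ∈ Q, ∃ v ∈ Q, G.r u v) → (Q ∩ G.V).ncard ≤ m → ∃ g ∈ G.V, G.Good g := by
  intro m
  induction m with
  | zero =>
    rintro d Q - - ⟨u, hu, v, -, huv⟩ hm
    have hf : (Q ∩ G.V).Finite := G.V.finite_toSet.inter_of_right _
    have := (Set.ncard_pos hf).2 ⟨u, hu, G.mem huv⟩
    omega
  | succ m ih =>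
    rintro d Q hd hQ ⟨u, hu, v, hv, huv⟩ hm
    obtain ⟨x, ⟨hx, q, hq, hxq⟩, y, hy, hxy⟩ := hc {x | x ∈ Q ∧ ∃ q ∈ Q, G.r x q}
      ⟨u, G.mem huv, hu, v, hv, huv⟩ ⟨d, hd, fun k => (hQ d k.1).1 rfl⟩
    have hyQ : y ∉ Q := fun k => hy ⟨k, x, hx, G.symm hxy⟩
    have hN : ∀ z ∉ Q, G.r x z ↔ G.r d z := by
      rcases (hQ x hx).2.2 with h | h
      · exact h
      · exact absurd hxy (h y hyQ)
    have hout : ∀ a ∈ Q, ∀ z ∉ Q, G.r a z → G.r x z := by
      intro a ha z hz haz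
      rcases (hQ a ha).2.2 with h | h
      · exact (hN z hz).2 ((h z hz).1 haz)
      · exact absurd haz (h z hz)
    by_cases hg : G.Good x
    · exact ⟨x, G.mem hxy, hg⟩
    simp only [Good, not_forall, not_not] at hg
    obtain ⟨Q', hQ', a, ha, b, hb, hab⟩ := hg
    have hno : ∀ s ∈ Q, ∀ z ∈ Q', z ∉ Q → ¬ G.r s z := fun s hs z hz hzQ k =>
      (hQ' z hz).2.1 (hout s hs z hzQ k)
    have hT : G.Thru x (Q' ∩ Q) := by
      intro s hs
      obtain ⟨h1, h2, h3⟩ := hQ' s hs.1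
      refine ⟨h1, h2, ?_⟩
      rcases h3 with h3 | h3
      · refine Or.inl fun z hz => ?_
        by_cases hz' : z ∈ Q'
        · exact ⟨fun k => absurd k (hno s hs.2 z hz' fun k => hz ⟨hz', k⟩),
            fun k => absurd k (hQ' z hz').2.1⟩
        · exact h3 z hz'
      · refine Or.inr fun z hz => ?_
        by_cases hz' : z ∈ Q'
        · exact hno s hs.2 z hz' fun k => hz ⟨hz', k⟩
        · exact h3 z hz'
    have hab' : a ∈ Q ∧ b ∈ Q := by
      by_contra hne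
      have ha' : a ∉ Q := fun k => hne ⟨k, by
        by_contra k'
        exact hno a k b hb k' hab⟩
      have hb' : b ∉ Q := fun k => hno b k a ha ha' (G.symm hab)
      obtain ⟨z, ⟨hz, hzQ, s, hs, hsQ, hzs⟩, e, he, hze⟩ :=
        hc {z | z ∈ Q' ∧ z ∉ Q ∧ ∃ s ∈ Q', s ∉ Q ∧ G.r z s}
          ⟨a, G.mem hab, ha, ha', b, hb, hb', hab⟩ ⟨x, G.mem hxy, fun k => k.2.1 hx⟩
      have he' : e ∉ Q' := by
        intro k
        by_cases k' : e ∈ Q
        · exact hno e k' z hz hzQ (G.symm hze)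
        · exact he ⟨k, k', z, hz, hzQ, G.symm hze⟩
      have hq' : q ∉ Q' := fun k => (hQ' q k).2.1 hxq
      rcases (hQ' z hz).2.2 with h | h
      · exact hno q hq z hz hzQ (G.symm ((h q hq').2 hxq))
      · exact h e he' hze
    refine ih x (Q' ∩ Q) (G.mem hxy) hT ⟨a, ⟨ha, hab'.1⟩, b, ⟨hb, hab'.2⟩, hab⟩ ?_
    have hf : (Q ∩ G.V).Finite := G.V.finite_toSet.inter_of_right _
    have : (Q' ∩ Q ∩ G.V).ncard < (Q ∩ G.V).ncard := by
      refine Set.ncard_lt_ncard ⟨fun z hz => ⟨hz.1.2, hz.2⟩, fun k => ?_⟩ hf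
      exact (hQ' x (k ⟨hx, G.mem hxy⟩).1.1).1 rfl
    omega

theorem exists_good (hc : G.Conn) {d : ℕ} (hd : d ∈ G.V) : ∃ g ∈ G.V, G.Good g := by
  by_cases hg : G.Good d
  · exact ⟨d, hd, hg⟩
  simp only [Good, not_forall, not_not] at hg
  obtain ⟨Q, hQ, a, ha, b, hb, hab⟩ := hg
  exact exists_good_aux hc _ d Q hd hQ ⟨a, ha, b, hb, hab⟩ le_rfl

theorem red_r {v a b : ℕ} : (G.red v).r a b ↔
    a ≠ v ∧ b ≠ v ∧ a ≠ b ∧ (G.r a b ↔ ¬ (G.r a v ∧ G.r b v)) := Iff.rfl

theorem red_r_of_not {v a : ℕ} (h : ¬ G.r a v) (hav : a ≠ v) (b : ℕ) :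
    (G.red v).r a b ↔ G.r a b := by
  rw [red_r]
  constructor
  · rintro ⟨-, -, -, k⟩
    exact k.2 fun k' => h k'.1
  · intro k
    exact ⟨hav, fun e => h (e ▸ k), ne_of_r k, by tauto⟩

theorem mem_red {v a : ℕ} : a ∈ (G.red v).V ↔ a ≠ v ∧ a ∈ G.V := Finset.mem_erase

theorem Split.compl {X : Set ℕ} (h : G.Split X) : G.Split Xᶜ := by
  intro x₁ h₁ x₂ h₂ y₁ k₁ y₂ k₂ r₁ r₂
  exact G.symm (h y₂ (not_not.1 k₂) y₁ (not_not.1 k₁) x₂ h₂ x₁ h₁ (G.symm r₂) (G.symm r₁))

theorem Split.red_aux {X : Set ℕ} (h : G.Split X) {v : ℕ} (hv : v ∈ X) : (G.red v).Split X := by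
  intro x₁ h₁ x₂ h₂ y₁ k₁ y₂ k₂ r₁ r₂
  rw [red_r] at r₁ r₂ ⊢
  refine ⟨r₁.1, r₂.2.1, fun e => k₂ (e ▸ h₁), ?_⟩
  have a1 := r₁.2.2.2
  have a2 := r₂.2.2.2
  by_cases h0 : ∃ y₀ ∉ X, G.r v y₀
  · obtain ⟨y₀, k₀, r₀⟩ := h0
    have key : ∀ x ∈ X, ∀ y ∉ X, G.r x y ↔ G.r x y₀ ∧ G.r y v := fun x hx y hy =>
      ⟨fun k => ⟨h x hx v hv y hy y₀ k₀ k r₀, G.symm (h v hv x hx y₀ k₀ y hy r₀ k)⟩,
        fun k => h x hx v hv y₀ k₀ y hy k.1 (G.symm k.2)⟩
    rw [key _ h₁ _ k₁] at a1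
    rw [key _ h₂ _ k₂] at a2
    rw [key _ h₁ _ k₂]
    clear key r₁ r₂ h
    tauto
  · have n1 : ¬ G.r y₁ v := fun k => h0 ⟨y₁, k₁, G.symm k⟩
    have n2 : ¬ G.r y₂ v := fun k => h0 ⟨y₂, k₂, G.symm k⟩
    have := h x₁ h₁ x₂ h₂ y₁ k₁ y₂ k₂ (a1.2 fun k => n1 k.2) (a2.2 fun k => n2 k.2)
    exact ⟨fun _ k => n2 k.2, fun _ => this⟩

theorem Split.red {X : Set ℕ} (h : G.Split X) (v : ℕ) : (G.red v).Split X := by
  by_cases hv : v ∈ X
  · exact h.red_aux hv
  · have := (h.compl.red_aux (v := v) hv).compl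
    rwa [compl_compl] at this

theorem FT.red_r {d d' : ℕ} (f : G.FT d d') (hne : d ≠ d') (y : ℕ) :
    (G.red d').r d y ↔ G.r d' y := by
  rw [red_r_of_not f.not_r hne, f y]

theorem FT.r_eq {d d' : ℕ} (f : G.FT d d') (hne : d ≠ d') {a b : ℕ} (ha : a ≠ d') (hb : b ≠ d')
    (hab : a ≠ b) : G.r a b ↔ ((G.red d').r a b ↔ ¬ ((G.red d').r d a ∧ (G.red d').r d b)) := by
  rw [f.red_r hne, f.red_r hne, Gr.red_r, r_comm (a := d') (b := a), r_comm (a := d') (b := b)]
  tauto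

theorem Split.lift_aux {X : Set ℕ} {d d' : ℕ} (f : G.FT d d') (hne : d ≠ d')
    (h : (G.red d').Split X) (hd : d ∈ X) (hd' : d' ∈ X) : G.Split X := by
  have base : ∀ x₁ ∈ X, ∀ x₂ ∈ X, x₁ ≠ d' → x₂ ≠ d' → ∀ y₁ ∉ X, ∀ y₂ ∉ X,
      G.r x₁ y₁ → G.r x₂ y₂ → G.r x₁ y₂ := by
    intro x₁ h₁ x₂ h₂ n₁ n₂ y₁ k₁ y₂ k₂ a1 a2
    have m₁ : y₁ ≠ d' := fun e => k₁ (e ▸ hd')
    have m₂ : y₂ ≠ d' := fun e => k₂ (e ▸ hd')
    rw [f.r_eq hne n₁ m₁ (fun e => k₁ (e ▸ h₁))] at a1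
    rw [f.r_eq hne n₂ m₂ (fun e => k₂ (e ▸ h₂))] at a2
    rw [f.r_eq hne n₁ m₂ (fun e => k₂ (e ▸ h₁))]
    generalize G.red d' = H at *
    by_cases h0 : ∃ y₀ ∉ X, H.r d y₀
    · obtain ⟨y₀, k₀, r₀⟩ := h0
      have key : ∀ x ∈ X, ∀ y ∉ X, H.r x y ↔ H.r x y₀ ∧ H.r d y := fun x hx y hy =>
        ⟨fun k => ⟨h x hx d hd y hy y₀ k₀ k r₀, h d hd x hx y₀ k₀ y hy r₀ k⟩,
          fun k => h x hx d hd y₀ k₀ y hy k.1 k.2⟩
      rw [key _ h₁ _ k₁] at a1
      rw [key _ h₂ _ k₂] at a2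
      rw [key _ h₁ _ k₂]
      clear key h f
      tauto
    · have n1 : ¬ H.r d y₁ := fun k => h0 ⟨y₁, k₁, k⟩
      have n2 : ¬ H.r d y₂ := fun k => h0 ⟨y₂, k₂, k⟩
      have := h x₁ h₁ x₂ h₂ y₁ k₁ y₂ k₂ (a1.2 fun k => n1 k.2) (a2.2 fun k => n2 k.2)
      exact ⟨fun _ k => n2 k.2, fun _ => this⟩
  have rep : ∀ x ∈ X, ∃ x' ∈ X, x' ≠ d' ∧ G.FT x x' := by
    intro x hx
    by_cases e : x = d'
    · exact ⟨d, hd, hne, e ▸ f.symm⟩
    · exact ⟨x, hx, e, FT.refl x⟩
  intro x₁ h₁ x₂ h₂ y₁ k₁ y₂ k₂ r₁ r₂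
  obtain ⟨u₁, p₁, q₁, s₁⟩ := rep x₁ h₁
  obtain ⟨u₂, p₂, q₂, s₂⟩ := rep x₂ h₂
  exact (s₁ _).2 (base u₁ p₁ u₂ p₂ q₁ q₂ y₁ k₁ y₂ k₂ ((s₁ _).1 r₁) ((s₂ _).1 r₂))

theorem Split.lift {X : Set ℕ} {d d' : ℕ} (f : G.FT d d') (hne : d ≠ d')
    (h : (G.red d').Split X) (hd : d ∈ X ↔ d' ∈ X) : G.Split X := by
  by_cases k : d ∈ X
  · exact h.lift_aux f hne k (hd.1 k)
  · have := (h.compl.lift_aux f hne k (fun k' => k (hd.2 k'))).compl
    rwa [compl_compl] at this

theorem Conn.lift {d d' : ℕ} (f : G.FT d d') (hne : d ≠ d') (h : (G.red d').Conn)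
    (hd : d ∈ G.V) {b : ℕ} (hb : b ∈ (G.red d').V) (hbd : d ≠ b) : G.Conn := by
  rintro X ⟨u, hu, huX⟩ ⟨v, hv, hvX⟩
  have hd1 : d ∈ (G.red d').V := mem_red.2 ⟨hne, hd⟩
  obtain ⟨z, hz⟩ := h.exists_r hd1 hb hbd
  have hz' : G.r d' z := (f.red_r hne z).1 hz
  have hz'' : G.r d z := (f z).2 hz'
  by_cases e : d ∈ X ↔ d' ∈ X
  · obtain ⟨a, ha, c, hc, hac⟩ := h X
      (by
        by_cases k : u = d'
        · exact ⟨d, hd1, e.2 (k ▸ huX)⟩
        · exact ⟨u, mem_red.2 ⟨k, hu⟩, huX⟩)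
      (by
        by_cases k : v = d'
        · exact ⟨d, hd1, fun k' => hvX (k ▸ e.1 k')⟩
        · exact ⟨v, mem_red.2 ⟨k, hv⟩, hvX⟩)
    by_cases k : G.r a c
    · exact ⟨a, ha, c, hc, k⟩
    · have : G.r a d' ∧ G.r c d' := by
        by_contra k'
        exact k (hac.2.2.2.2 k')
      by_cases k' : d' ∈ X
      · exact ⟨d', k', c, hc, G.symm this.2⟩
      · exact ⟨a, ha, d', k', this.1⟩
  · by_cases k : z ∈ X
    · by_cases k' : d ∈ X
      · exact ⟨z, k, d', fun k'' => e ⟨fun _ => k'', fun _ => k'⟩, G.symm hz'⟩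
      · exact ⟨z, k, d, k', G.symm hz''⟩
    · by_cases k' : d ∈ X
      · exact ⟨d, k', z, k, hz''⟩
      · refine ⟨d', ?_, z, k, hz'⟩
        by_contra k''
        exact e ⟨fun h => absurd h k', fun h => absurd h k''⟩

theorem Good.lift {d d' : ℕ} (f : G.FT d d') (hne : d ≠ d') (h : (G.red d').Good d) :
    G.Good d' := by
  intro Q hQ x hx y hy hxy
  have hr : ∀ u ∈ Q, ∀ z, (G.red d').r u z ↔ G.r u z := fun u hu z =>
    red_r_of_not (fun k => (hQ u hu).2.1 (G.symm k)) (hQ u hu).1 z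
  have key : (G.red d').Thru d (Q \ {d}) := by
    intro u hu
    obtain ⟨-, h2, h3⟩ := hQ u hu.1
    have h2' : ¬ G.r u d := fun k => h2 ((f u).1 (G.symm k))
    refine ⟨hu.2, fun k => h2 ((f.red_r hne u).1 k), ?_⟩
    rcases h3 with h3 | h3
    · refine Or.inl fun z hz => ?_
      rw [hr u hu.1, f.red_r hne]
      by_cases e : z = d
      · subst e
        exact ⟨fun k => absurd k h2', fun k => absurd k f.symm.not_r⟩
      · exact h3 z (fun k => hz ⟨k, e⟩)
    · refine Or.inr fun z hz => ?_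
      rw [hr u hu.1]
      by_cases e : z = d
      · subst e
        exact h2'
      · exact h3 z (fun k => hz ⟨k, e⟩)
  refine h _ key x ⟨hx, ?_⟩ y ⟨hy, ?_⟩ ((hr x hx y).2 hxy)
  · rintro rfl
    exact (hQ y hy).2.1 ((f y).1 hxy)
  · rintro rfl
    exact (hQ x hx).2.1 ((f x).1 (G.symm hxy))

theorem good_of_tt (hc : G.Conn) {e e' : ℕ} (h : G.r e' e)
    (ht : ∀ y, y ≠ e' → G.r e y → G.r e' y) : G.Good e' := by
  intro Q hQ u hu v _ huv
  obtain ⟨x, hx, y, hy, hxy⟩ := hc Q ⟨u, G.mem huv, hu⟩ ⟨e', G.mem h, fun k => (hQ e' k).1 rfl⟩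
  obtain ⟨h1, h2, h3 | h3⟩ := hQ x hx
  · exact h2 (ht x h1 (G.symm ((h3 e fun k => (hQ e k).2.1 h).2 h)))
  · exact h3 y hy hxy

theorem FT.tt {d' e e' : ℕ} (g : G.FT e e') (hne : e ≠ e') (h : G.r e' d') :
    (G.red d').r e' e ∧ ∀ y, y ≠ e' → (G.red d').r e y → (G.red d').r e' y := by
  have h' : G.r e d' := (g d').2 h
  refine ⟨⟨ne_of_r h, ne_of_r h', hne.symm, ?_⟩, fun y hy k => ⟨ne_of_r h, k.2.1, hy.symm, ?_⟩⟩
  · exact ⟨fun k => absurd k g.symm.not_r, fun k => absurd ⟨h, h'⟩ k⟩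
  · rw [← g y, ← g d']
    exact k.2.2.2

theorem Good.red {d d' e e' : ℕ} (f : G.FT d d') (hne : d ≠ d') (hc : (G.red d').Conn)
    (h : G.Good e') (g : G.FT e e') (hne' : e ≠ e') (hn : ¬ G.FT d' e') : (G.red d').Good e' := by
  by_cases ha : G.r e' d'
  · exact good_of_tt hc (g.tt hne' ha).1 (g.tt hne' ha).2
  have he : e' ≠ d' := fun k => hn (k ▸ FT.refl _)
  have hN : ∀ y, (G.red d').r e' y ↔ G.r e' y := red_r_of_not ha he
  intro Q hQ u hu v hv huv
  by_cases hd : d ∈ Q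
  · have key : G.Thru e' (Q ∪ {d'}) := by
      have hdQ := (hQ d hd).2.2
      simp only [f.red_r hne, hN] at hdQ
      rintro x (hx | hx)
      · by_cases hxd : x = d'
        · subst hxd
          refine ⟨he.symm, ha, ?_⟩
          rcases hdQ with k | k
          · exact Or.inl fun y hy => k y fun k' => hy (Or.inl k')
          · exact Or.inr fun y hy => k y fun k' => hy (Or.inl k')
        obtain ⟨h1, h2, h3⟩ := hQ x hx
        refine ⟨h1, fun k => h2 ((hN x).2 k), ?_⟩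
        have hr : ∀ y ∉ Q ∪ {d'}, G.r x y ↔
            ((G.red d').r x y ↔ ¬ (G.r d' x ∧ G.r d' y)) := by
          intro y hy
          rw [f.r_eq hne hxd (fun k => hy (Or.inr k)) (fun k => hy (Or.inl (k ▸ hx))),
            f.red_r hne, f.red_r hne]
        simp only [hN] at h3
        by_cases hx' : G.r d' x
        · rcases h3 with h3 | h3 <;> rcases hdQ with k | k
          · refine Or.inr fun y hy => ?_
            rw [hr y hy, h3 y fun k' => hy (Or.inl k'), k y fun k' => hy (Or.inl k')]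
            simp [hx']
          · refine Or.inl fun y hy => ?_
            rw [hr y hy, h3 y fun k' => hy (Or.inl k')]
            simp [k y fun k' => hy (Or.inl k')]
          · refine Or.inl fun y hy => ?_
            rw [hr y hy, k y fun k' => hy (Or.inl k')]
            simp [hx', h3 y fun k' => hy (Or.inl k')]
          · refine Or.inr fun y hy => ?_
            rw [hr y hy]
            simp [k y fun k' => hy (Or.inl k'), h3 y fun k' => hy (Or.inl k')]
        · rcases h3 with h3 | h3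
          · refine Or.inl fun y hy => ?_
            rw [hr y hy, h3 y fun k' => hy (Or.inl k')]
            simp [hx']
          · refine Or.inr fun y hy => ?_
            rw [hr y hy]
            simp [hx', h3 y fun k' => hy (Or.inl k')]
      · obtain rfl : x = d' := hx
        refine ⟨he.symm, ha, ?_⟩
        rcases hdQ with k | k
        · exact Or.inl fun y hy => k y fun k' => hy (Or.inl k')
        · exact Or.inr fun y hy => k y fun k' => hy (Or.inl k')
    by_cases k : G.r u v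
    · exact h _ key u (Or.inl hu) v (Or.inl hv) k
    · have : G.r u d' ∧ G.r v d' := by
        by_contra k'
        exact k (huv.2.2.2.2 k')
      exact h _ key u (Or.inl hu) d' (Or.inr rfl) this.1
  · have hr : ∀ x ∈ Q, x ≠ d' → ¬ G.r x d' := by
      intro x hx hxd k
      have k1 : (G.red d').r x d := (G.red d').symm ((f.red_r hne x).2 (G.symm k))
      rcases (hQ x hx).2.2 with h3 | h3
      · exact ha ((f.r_iff e').1 ((hN d).1 ((h3 d hd).1 k1)))
      · exact h3 d hd k1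
    have key : G.Thru e' (Q \ {d'}) := by
      intro x hx
      obtain ⟨h1, h2, h3⟩ := hQ x hx.1
      simp only [hN, red_r_of_not (hr x hx.1 hx.2) hx.2] at h2 h3
      refine ⟨h1, h2, ?_⟩
      rcases h3 with h3 | h3
      · refine Or.inl fun y hy => ?_
        by_cases e : y = d'
        · subst e
          exact ⟨fun k => absurd k (hr x hx.1 hx.2), fun k => absurd k ha⟩
        · exact h3 y fun k => hy ⟨k, e⟩
      · refine Or.inr fun y hy => ?_
        by_cases e : y = d'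
        · subst e
          exact hr x hx.1 hx.2
        · exact h3 y fun k => hy ⟨k, e⟩
    exact h _ key u ⟨hu, huv.1⟩ v ⟨hv, huv.2.1⟩
      ((red_r_of_not (hr u hu huv.1) huv.1 v).1 huv)

theorem Good.first_hit (hc : G.Conn) {d₀ d₁ : ℕ} (h : G.Good d₀) (f : G.FT d₀ d₁)
    (hd : d₀ ∈ G.V) {X : Set ℕ} (hX : G.Split X) (h₀ : d₀ ∈ X) (h₁ : d₁ ∉ X) {x : ℕ} (hx : x ∈ X)
    (hxV : x ∈ G.V) (hxn : ¬ G.FT x d₀) : ∀ y ∈ G.V, y ∉ X → G.FT y d₀ := by
  have hxd : x ≠ d₀ := fun e => hxn (e ▸ FT.refl _)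
  by_cases hN : ∃ n ∉ X, G.r d₀ n
  · exfalso
    obtain ⟨n, hn, hdn⟩ := hN
    have key : G.Thru d₀ (X \ {d₀}) := by
      intro u hu
      have h2 : ¬ G.r d₀ u := fun k =>
        f.not_r (hX d₀ h₀ u hu.1 n hn d₁ h₁ hdn (G.symm ((f u).1 k)))
      refine ⟨hu.2, h2, ?_⟩
      by_cases k : ∃ y₀ ∉ X, G.r u y₀
      · obtain ⟨y₀, k₀, r₀⟩ := k
        refine Or.inl fun y hy => ?_
        by_cases e : y = d₀
        · subst e
          exact ⟨fun k => absurd (G.symm k) h2, fun k => absurd k (G.irr _)⟩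
        · have hy' : y ∉ X := fun k => hy ⟨k, e⟩
          exact ⟨fun k => hX d₀ h₀ u hu.1 n hn y hy' hdn k,
            fun k => hX u hu.1 d₀ h₀ y₀ k₀ y hy' r₀ k⟩
      · refine Or.inr fun y hy => ?_
        by_cases e : y = d₀
        · subst e
          exact fun k => h2 (G.symm k)
        · exact fun k' => k ⟨y, fun k => hy ⟨k, e⟩, k'⟩
    exact hxn (h.ft_of_thru hc hd key ⟨hx, hxd⟩ hxV)
  · obtain ⟨n, hdn⟩ := hc.exists_r hd hxV hxd.symm
    have hn : n ∈ X := by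
      by_contra k
      exact hN ⟨n, k, hdn⟩
    have key : G.Thru d₀ Xᶜ := by
      intro u hu
      refine ⟨fun e => hu (e ▸ h₀), fun k => hN ⟨u, hu, k⟩, ?_⟩
      by_cases k : ∃ x₀ ∈ X, G.r u x₀
      · obtain ⟨x₀, k₀, r₀⟩ := k
        refine Or.inl fun y hy => ?_
        have hy' : y ∈ X := not_not.1 hy
        rw [f y]
        exact ⟨fun k => G.symm (hX y hy' n hn u hu d₁ h₁ (G.symm k) (G.symm ((f n).1 hdn))),
          fun k => G.symm (hX y hy' x₀ k₀ d₁ h₁ u hu (G.symm k) (G.symm r₀))⟩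
      · exact Or.inr fun y hy k' => k ⟨y, not_not.1 hy, k'⟩
    exact fun y hy hy' => h.ft_of_thru hc hd key hy' hy

end Gr

end Pool.Agent.MP_b13154_gt

end

-- part MP_b13154_gt.Seq
section

/-!
Sequences of splits, the preferred vertex, and the uniqueness lemma.
-/

namespace Pool.Agent.MP_b13154_gt

namespace Gr

variable (G : Gr)

def Seq (l : List ℕ) : Prop :=
  l.Nodup ∧ (∀ a ∈ l, a ∈ G.V) ∧ ∀ p q, l = p ++ q → G.Split {a | a ∈ p}

def Full (l : List ℕ) : Prop := G.Seq l ∧ ∀ a ∈ G.V, a ∈ l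

def Rig (l : List ℕ) (j : ℕ) : Prop :=
  ∀ p u v q, l = p ++ u :: v :: q → p ≠ [] → p.length ≤ j → ¬ G.Split {a | a ∈ p ∨ a = v}

def NoFT (d : ℕ) : Prop := ∀ e, G.FT d e → e = d

def Phi (d : ℕ) : Prop :=
  d ∈ G.V ∧ G.Good d ∧
  (∀ y l, G.Good y → G.Seq (y :: l) → ∃ l', G.Seq (d :: l') ∧ l.length ≤ l'.length) ∧
  ∀ y l, G.Good y → G.Full (y :: l) → G.NoFT y →
    G.NoFT d ∧ ∀ j, G.Rig (y :: l) j → ∃ l', G.Full (d :: l') ∧ G.Rig (d :: l') j

def AllRig : Prop :=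
  ∃ x y l, G.Full (x :: y :: l) ∧ G.r x y ∧ ∀ p u v q, x :: y :: l = p ++ u :: v :: q → p ≠ [] →
    q ≠ [] → ¬ G.Split {a | a ∈ p ∨ a = v}

variable {G}

theorem split_of_ft {X : Set ℕ} {c : ℕ} (h : ∀ y ∈ G.V, y ∉ X → G.FT y c) : G.Split X := by
  intro x₁ _ x₂ _ y₁ k₁ y₂ k₂ r₁ r₂
  exact ((h y₂ (G.mem (G.symm r₂)) k₂).r_iff _).2 (((h y₁ (G.mem (G.symm r₁)) k₁).r_iff _).1 r₁)

theorem Seq.length_le {l : List ℕ} (h : G.Seq l) : l.length ≤ G.V.card := by
  rw [← List.toFinset_card_of_nodup h.1]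
  exact Finset.card_le_card fun a ha => h.2.1 a (List.mem_toFinset.1 ha)

theorem Full.length_eq {l : List ℕ} (h : G.Full l) : l.length = G.V.card := by
  refine le_antisymm h.1.length_le ?_
  rw [← List.toFinset_card_of_nodup h.1.1]
  exact Finset.card_le_card fun a ha => List.mem_toFinset.2 (h.2 a ha)

theorem Seq.full {l : List ℕ} (h : G.Seq l) (k : G.V.card ≤ l.length) : G.Full l := by
  refine ⟨h, fun a ha => ?_⟩
  have : l.toFinset = G.V := Finset.eq_of_subset_of_card_le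
    (fun a ha => h.2.1 a (List.mem_toFinset.1 ha)) (by rwa [List.toFinset_card_of_nodup h.1])
  rw [← this] at ha
  exact List.mem_toFinset.1 ha

theorem Rig.mono {l : List ℕ} {i j : ℕ} (h : G.Rig l j) (k : i ≤ j) : G.Rig l i :=
  fun p u v q e hp hl => h p u v q e hp (hl.trans k)

theorem Rig.lt {l : List ℕ} {j : ℕ} (h : G.Rig l j) (hf : G.Full l) (h3 : 3 ≤ G.V.card) :
    j < G.V.card := by
  by_contra hj
  have hl := hf.length_eq
  obtain ⟨l₁, v, rfl⟩ : ∃ l₁ v, l = l₁ ++ [v] := by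
    rcases List.eq_nil_or_concat l with e | ⟨l₁, v, e⟩
    · subst e
      simp at hl
      omega
    · exact ⟨l₁, v, by simpa using e⟩
  obtain ⟨p, u, rfl⟩ : ∃ p u, l₁ = p ++ [u] := by
    rcases List.eq_nil_or_concat l₁ with e | ⟨p, u, e⟩
    · subst e
      simp at hl
      omega
    · exact ⟨p, u, by simpa using e⟩
  simp at hl
  refine h p u v [] (by simp) (by rintro rfl; simp at hl; omega) (by omega)
    (split_of_ft (c := u) fun y hy hn => ?_)
  have := hf.2 y hy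
  simp only [Set.mem_ofPred_eq, not_or] at hn
  simp [hn.1, hn.2] at this
  exact this ▸ FT.refl _

theorem seq_single {g : ℕ} (hg : g ∈ G.V) : G.Seq [g] := by
  refine ⟨by simp, by simpa using hg, fun p q e => ?_⟩
  intro x₁ h₁ x₂ h₂ y₁ _ y₂ _ _ r₂
  have m : ∀ x ∈ p, x = g := fun x hx => by
    have : x ∈ [g] := e ▸ List.mem_append_left q hx
    simpa using this
  rw [m x₁ h₁, ← m x₂ h₂]
  exact r₂

theorem exists_max {P : ℕ → Prop} {N : ℕ} (h0 : ∃ m, P m) (hb : ∀ m, P m → m ≤ N) :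
    ∃ m, P m ∧ ∀ k, P k → k ≤ m :=
  ⟨sSup {m | P m}, Nat.sSup_mem h0 ⟨N, hb⟩, fun _ hk => le_csSup ⟨N, hb⟩ hk⟩

theorem exists_phi (hc : G.Conn) (h3 : 3 ≤ G.V.card) : ∃ d, G.Phi d := by
  by_cases hA : ∃ y l, G.Good y ∧ G.Full (y :: l) ∧ G.NoFT y
  · obtain ⟨j, ⟨d, l, h1, h2, h4, h5⟩, hmax⟩ := exists_max
      (P := fun j => ∃ y l, G.Good y ∧ G.Full (y :: l) ∧ G.NoFT y ∧ G.Rig (y :: l) j)
      (N := G.V.card)
      (by
        obtain ⟨y, l, h1, h2, h4⟩ := hA
        refine ⟨0, y, l, h1, h2, h4, fun p u v q _ hp hl => absurd ?_ hp⟩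
        exact List.length_eq_zero_iff.1 (by omega))
      (by
        rintro m ⟨y, l, -, h2, -, h5⟩
        exact (h5.lt h2 h3).le)
    refine ⟨d, h2.1.2.1 d (by simp), h1, fun y l' _ hs => ⟨l, h2.1, ?_⟩,
      fun y l' k1 k2 k4 => ⟨h4, fun i k5 => ⟨l, h2, h5.mono (hmax i ⟨y, l', k1, k2, k4, k5⟩)⟩⟩⟩
    have := hs.length_le
    have := h2.length_eq
    simp only [List.length_cons] at *
    omega
  · obtain ⟨a, ha⟩ : G.V.Nonempty := Finset.card_pos.1 (by omega)
    obtain ⟨g, hg, hgood⟩ := exists_good hc ha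
    obtain ⟨m, ⟨d, l, h1, h2, rfl⟩, hmax⟩ := exists_max
      (P := fun m => ∃ y l, G.Good y ∧ G.Seq (y :: l) ∧ l.length = m) (N := G.V.card)
      ⟨0, g, [], hgood, seq_single hg, rfl⟩
      (by
        rintro m ⟨y, l, -, h2, rfl⟩
        have := h2.length_le
        simp only [List.length_cons] at this
        omega)
    exact ⟨d, h2.2.1 d (by simp), h1, fun y l' k1 k2 => ⟨l, h2, hmax _ ⟨y, l', k1, k2, rfl⟩⟩,
      fun y l' k1 k2 k4 => absurd ⟨y, l', k1, k2, k4⟩ hA⟩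

theorem Seq.del {l : List ℕ} (h : G.Seq l) (v : ℕ) : (G.red v).Seq (l.filter (· ≠ v)) := by
  refine ⟨h.1.filter _, fun a ha => ?_, fun p q e => ?_⟩
  · simp only [List.mem_filter, decide_eq_true_eq] at ha
    exact mem_red.2 ⟨ha.2, h.2.1 a ha.1⟩
  · obtain ⟨p', q', e', rfl, -⟩ := List.filter_eq_append_iff.1 e
    refine ((h.2.2 p' q' e').red v).congr fun a ha => ?_
    simp [(mem_red.1 ha).1]

theorem Full.del {l : List ℕ} (h : G.Full l) (v : ℕ) : (G.red v).Full (l.filter (· ≠ v)) :=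
  ⟨h.1.del v, fun a ha => by simp [(mem_red.1 ha).1, h.2 a (mem_red.1 ha).2]⟩

theorem Seq.twin {d d' : ℕ} {l : List ℕ} (f : G.FT d d') (hne : d ≠ d') (hd : d' ∈ G.V)
    (h : (G.red d').Seq (d :: l)) : G.Seq (d' :: d :: l) := by
  refine ⟨List.nodup_cons.2 ⟨fun k => (mem_red.1 (h.2.1 _ k)).1 rfl, h.1⟩, ?_, fun p q e => ?_⟩
  · intro a ha
    rcases List.mem_cons.1 ha with rfl | ha
    · exact hd
    · exact (mem_red.1 (h.2.1 _ ha)).2
  · match p, e with
    | [], _ => exact (seq_single hd).2.2 [] _ rfl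
    | [a], e =>
      obtain rfl : d' = a := by simpa using (List.cons.inj e).1
      exact (seq_single hd).2.2 [d'] [] rfl
    | a :: b :: p, e =>
      simp only [List.cons_append, List.cons.injEq] at e
      obtain ⟨rfl, rfl, e⟩ := e
      refine Split.lift f hne ((h.2.2 (d :: p) q (by simp [e])).congr fun a ha => ?_) (by simp)
      simp [(mem_red.1 ha).1]

theorem Full.twin {d d' : ℕ} {l : List ℕ} (f : G.FT d d') (hne : d ≠ d') (hd : d' ∈ G.V)
    (h : (G.red d').Full (d :: l)) : G.Full (d' :: d :: l) := by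
  refine ⟨h.1.twin f hne hd, fun a ha => ?_⟩
  by_cases e : a = d'
  · simp [e]
  · exact List.mem_cons_of_mem _ (h.2 a (mem_red.2 ⟨e, ha⟩))

theorem ft_of_pair (hc : G.Conn) {a b : ℕ} {X : Set ℕ} (hX : G.Split X)
    (e : ∀ x, x ∈ X ↔ x = a ∨ x = b) (ha : a ∈ G.V) (hb : b ∈ G.V) (hne : a ≠ b)
    (hr : ¬ G.r a b) : G.FT a b := by
  obtain ⟨y, hy⟩ := hc.exists_r ha hb hne
  obtain ⟨z, hz⟩ := hc.exists_r hb ha hne.symm
  have n1 : ∀ u, G.r a u → u ∉ X := fun u hu k => by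
    rcases (e u).1 k with rfl | rfl
    · exact G.irr _ hu
    · exact hr hu
  have n2 : ∀ u, G.r b u → u ∉ X := fun u hu k => by
    rcases (e u).1 k with rfl | rfl
    · exact hr (G.symm hu)
    · exact G.irr _ hu
  have ma := (e a).2 (Or.inl rfl)
  have mb := (e b).2 (Or.inr rfl)
  exact fun u => ⟨fun k => hX b mb a ma z (n2 z hz) u (n1 u k) hz k,
    fun k => hX a ma b mb y (n1 y hy) u (n2 u k) hy k⟩

theorem not_split_pair (hc : G.Conn) (h1 : G.C1) {d d' v : ℕ} (f : G.FT d d') (hne : d ≠ d')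
    (cd : ∀ x, G.FT d' x → x = d ∨ x = d') (hd : d' ∈ G.V) (hv : v ∈ G.V) (hvd : v ≠ d)
    (hvd' : v ≠ d') {X : Set ℕ} (e : ∀ x, x ∈ X ↔ x = d' ∨ x = v) : ¬ G.Split X := by
  intro hX
  by_cases hr : G.r d' v
  · obtain ⟨z, hz, hz'⟩ := h1 d' v hr
    refine f.symm.not_r (hX d' ((e _).2 (Or.inl rfl)) v ((e _).2 (Or.inr rfl)) z ?_ d ?_ hz'
      (G.symm ((f v).2 hr)))
    · rw [e]
      rintro (rfl | rfl)
      · exact G.irr _ hz'
      · exact hz rfl
    · rw [e]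
      rintro (k | k)
      · exact hne k
      · exact hvd k.symm
  · rcases cd v (ft_of_pair hc hX e hd hv hvd'.symm hr) with k | k
    · exact hvd k
    · exact hvd' k

theorem Rig.twin (hc : G.Conn) (h1 : G.C1) {d d' : ℕ} {l : List ℕ} {j : ℕ} (f : G.FT d d')
    (hne : d ≠ d') (cd : ∀ x, G.FT d' x → x = d ∨ x = d') (hd : d' ∈ G.V)
    (hs : (G.red d').Seq (d :: l)) (h : (G.red d').Rig (d :: l) j) :
    G.Rig (d' :: d :: l) (j + 1) := by
  intro p u v q e hp hl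
  match p, hp, e, hl with
  | [a], _, e, _ =>
    simp only [List.cons_append, List.nil_append, List.cons.injEq] at e
    obtain ⟨rfl, rfl, rfl⟩ := e
    have hv := mem_red.1 (hs.2.1 v (by simp))
    refine not_split_pair hc h1 f hne cd hd hv.2 ?_ hv.1 (by simp)
    rintro rfl
    simpa using hs.1
  | a :: b :: p, _, e, hl =>
    simp only [List.cons_append, List.cons.injEq] at e
    obtain ⟨rfl, rfl, e⟩ := e
    intro k
    refine h (d :: p) u v q (by simp [e]) (by simp) (by simpa using hl)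
      ((k.red d').congr fun a ha => ?_)
    simp [(mem_red.1 ha).1]

theorem first_of_exists {P : ℕ → Prop} : ∀ l : List ℕ, (∃ a ∈ l, P a) →
    ∃ p a q, l = p ++ a :: q ∧ P a ∧ ∀ b ∈ p, ¬ P b := by
  intro l
  induction l with
  | nil => simp
  | cons x l ih =>
    intro h
    by_cases hx : P x
    · exact ⟨[], x, l, rfl, hx, by simp⟩
    · obtain ⟨a, ha, hP⟩ := h
      obtain ⟨p, a, q, rfl, h1, h2⟩ := ih ⟨a, by
        rcases List.mem_cons.1 ha with rfl | ha
        · exact absurd hP hx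
        · exact ha, hP⟩
      refine ⟨x :: p, a, q, rfl, h1, fun b hb => ?_⟩
      rcases List.mem_cons.1 hb with rfl | hb
      · exact hx
      · exact h2 b hb

theorem Seq.hit (hc : G.Conn) {d d' e : ℕ} {l : List ℕ} (hg : G.Good d') (f : G.FT d d')
    (hne : d ≠ d') (hn : ¬ G.FT e d') (hs : G.Seq (e :: l)) (hh : ∃ a ∈ e :: l, G.FT a d') :
    ∃ p a q, l = p ++ a :: q ∧ (∀ b ∈ e :: p, ¬ G.FT b d') ∧
      ∀ y ∈ G.V, y ∉ e :: p → G.FT y d' := by
  obtain ⟨p, a, q, e', ha, hp⟩ := first_of_exists _ hh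
  match p, e', hp with
  | [], e', _ =>
    obtain rfl : e = a := (List.cons.inj e').1
    exact absurd ha hn
  | b :: p, e', hp =>
    simp only [List.cons_append, List.cons.injEq] at e'
    obtain ⟨rfl, rfl⟩ := e'
    refine ⟨p, a, q, rfl, hp, fun y hy hy' => ?_⟩
    obtain ⟨a', ha', hne'⟩ : ∃ a', G.FT a a' ∧ a' ≠ a := by
      by_cases k : a = d'
      · exact ⟨d, ha.trans f.symm, k ▸ hne⟩
      · exact ⟨d', ha, fun k' => k k'.symm⟩
    by_cases k : y = a
    · exact k ▸ ha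
    refine ((hg.ft ha.symm).first_hit hc ha' (hs.2.1 a (by simp))
      (hs.2.2 (e :: p ++ [a]) q (by simp)) (by simp) ?_ (x := e) (by simp) (hs.2.1 e (by simp))
      (fun k => hn (k.trans ha)) y hy ?_).trans ha
    · intro k
      rcases List.mem_append.1 k with k | k
      · exact hp a' k (ha'.symm.trans ha)
      · exact hne' (by simpa using k)
    · intro k'
      rcases List.mem_append.1 k' with k' | k'
      · exact hy' k'
      · exact k (by simpa using k')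

theorem Seq.extend {p q : List ℕ} {c : ℕ} (hs : G.Seq (p ++ q))
    (h : ∀ y ∈ G.V, y ∉ p → G.FT y c) : ∃ q', G.Full (p ++ q') := by
  refine ⟨(G.V \ p.toFinset).toList, ⟨?_, ?_, fun p' q' e => ?_⟩, fun a ha => ?_⟩
  · rw [List.nodup_append]
    refine ⟨(List.nodup_append.1 hs.1).1, Finset.nodup_toList _, fun a ha b hb e => ?_⟩
    subst e
    simp [ha] at hb
  · intro a ha
    rcases List.mem_append.1 ha with ha | ha
    · exact hs.2.1 a (List.mem_append_left _ ha)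
    · exact (Finset.mem_sdiff.1 (Finset.mem_toList.1 ha)).1
  · rcases List.append_eq_append_iff.1 e with ⟨a', rfl, -⟩ | ⟨c', rfl, -⟩
    · exact split_of_ft (c := c) fun y hy hn => h y hy fun k => hn (List.mem_append_left _ k)
    · exact hs.2.2 p' (c' ++ q) (by simp)
  · by_cases k : a ∈ p <;> simp [k, ha]

theorem Full.first_last (hc : G.Conn) (h2 : G.C2) {x y : ℕ} {l : List ℕ}
    (h : G.Full (x :: (l ++ [y]))) : G.r x y := by
  have key : ∀ p q : List ℕ, l ++ [y] = p ++ q → q ≠ [] → ∃ b ∈ q, G.r x b := by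
    intro p
    induction p using List.reverseRecOn with
    | nil =>
      intro q e hq
      have hy : y ∈ G.V := h.1.2.1 y (by simp)
      obtain ⟨b, hb⟩ := hc.exists_r (h.1.2.1 x (by simp)) hy (by
        rintro rfl
        simpa using h.1.1)
      refine ⟨b, ?_, hb⟩
      rcases List.mem_cons.1 (h.2 b (G.mem (G.symm hb))) with k | k
      · exact absurd (k ▸ hb) (G.irr _)
      · simpa [e] using k
    | append_singleton p z ih =>
      intro q e hq
      obtain ⟨b, hb, hxb⟩ := ih (z :: q) (by simp [e]) (by simp)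
      by_contra hno
      push Not at hno
      have hz : G.r x z := by
        rcases List.mem_cons.1 hb with k | k
        · exact k ▸ hxb
        · exact absurd hxb (hno b k)
      have hnd : (x :: p ++ z :: q).Nodup := by simpa [e] using h.1.1
      have hsp := h.1.2.2 (x :: p) (z :: q) (by simp [e])
      have hdis : ∀ a ∈ z :: q, a ∉ x :: p := fun a ha k =>
        (List.nodup_append.1 hnd).2.2 a k a ha rfl
      have hall : ∀ a ∈ G.V, a ∈ x :: p ∨ a = z ∨ a ∈ q := fun a ha => by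
        have := h.2 a ha
        rw [e] at this
        simp only [List.mem_cons, List.mem_append, List.not_mem_nil, or_false] at this ⊢
        tauto
      have hA : ∀ u ∈ x :: p, ∀ v ∈ q, ¬ G.r u v := fun u hu v hv k =>
        hno v hv (hsp x (by simp) u hu z (hdis z (by simp)) v (hdis v (by simp [hv])) hz k)
      obtain ⟨v₀, hv₀⟩ := List.exists_mem_of_ne_nil q hq
      obtain ⟨v, hv, u, hu, huv⟩ := hc {a | a ∈ q}
        ⟨v₀, h.1.2.1 v₀ (by simp [e, hv₀]), hv₀⟩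
        ⟨x, G.mem hz, fun k => hdis x (List.mem_cons_of_mem _ k) (by simp)⟩
      have hvz : G.r v z := by
        rcases hall u (G.mem (G.symm huv)) with k | k | k
        · exact absurd (G.symm huv) (hA u k v hv)
        · exact k ▸ huv
        · exact absurd k hu
      obtain ⟨z', hz', k1, k2⟩ := h2 x v z
        (fun k => hdis x (List.mem_cons_of_mem _ (k ▸ hv)) (by simp)) (hno v hv) hz hvz
      rcases hall z' (G.mem (G.symm k1)) with k | k | k
      · exact hA z' k v hv (G.symm k2)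
      · exact hz' k
      · exact hno z' k k1
  simpa using key l [y] rfl (by simp)

end Gr

end Pool.Agent.MP_b13154_gt

end

-- part MP_b13154_gt.Unique
section

/-!
The uniqueness lemma and transport along renamings.
-/

namespace Pool.Agent.MP_b13154_gt

namespace Gr

variable {G : Gr}

/-- `d'` is the doubled copy of the preferred vertex `d` of the reduced graph. -/
structure Dbl (G : Gr) (d d' : ℕ) : Prop where
  ft : G.FT d d'
  ne : d ≠ d'
  mem : d' ∈ G.V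
  conn : (G.red d').Conn
  phi : (G.red d').Phi d

theorem Dbl.good {d d' : ℕ} (h : G.Dbl d d') : G.Good d' := h.phi.2.1.lift h.ft h.ne

theorem Dbl.good_red {d d' e e' : ℕ} (h : G.Dbl d d') (k : G.Dbl e e') (hn : ¬ G.FT d' e') :
    (G.red d').Good e' := k.good.red h.ft h.ne h.conn k.ft k.ne hn

theorem filter_cons_ne {v a : ℕ} (h : a ≠ v) (l : List ℕ) :
    (a :: l).filter (· ≠ v) = a :: l.filter (· ≠ v) := by simp [h]

theorem Dbl.longer (hc : G.Conn) {d d' e e' : ℕ} (h : G.Dbl d d') (k : G.Dbl e e')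
    (hn : ¬ G.FT d' e') {l : List ℕ} (hs : G.Seq (e' :: l)) :
    (∃ l', G.Full (e' :: l')) ∨ ∃ l', G.Seq (d' :: l') ∧ l.length + 1 ≤ l'.length := by
  by_cases hh : ∃ a ∈ e' :: l, G.FT a d'
  · obtain ⟨p, a, q, rfl, -, hp⟩ := hs.hit hc h.good h.ft h.ne (fun f => hn f.symm) hh
    obtain ⟨q', hq'⟩ := Seq.extend (p := e' :: p) hs hp
    exact Or.inl ⟨p ++ q', hq'⟩
  · have h1 := hs.del d'
    rw [List.filter_eq_self.2 (by
      intro a ha
      simp only [ne_eq, decide_not, Bool.not_eq_eq_eq_not, Bool.not_true, decide_eq_false_iff_not]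
      rintro rfl
      exact hh ⟨_, ha, FT.refl _⟩)] at h1
    obtain ⟨l', h2, h3⟩ := h.phi.2.2.1 e' l (h.good_red k hn) h1
    exact Or.inr ⟨d :: l', h2.twin h.ft h.ne h.mem, by simpa using h3⟩

theorem Dbl.full_swap {d d' e e' : ℕ} (h : G.Dbl d d') (k : G.Dbl e e')
    (hn : ¬ G.FT d' e') {l : List ℕ} (hs : G.Full (e' :: l)) : ∃ l', G.Full (d' :: l') := by
  have h1 := hs.del d'
  rw [filter_cons_ne (a := e') (v := d') (fun k => hn (k ▸ FT.refl _))] at h1
  obtain ⟨l', h2, h3⟩ := h.phi.2.2.1 e' _ (h.good_red k hn) h1.1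
  have := h1.length_eq
  exact ⟨d :: l', (h2.full (by simp only [List.length_cons] at *; omega)).twin h.ft h.ne h.mem⟩

theorem Dbl.exists_full (hc : G.Conn) {d d' e e' : ℕ} (h : G.Dbl d d') (k : G.Dbl e e')
    (hn : ¬ G.FT d' e') : ∃ l, G.Full (e' :: l) := by
  have hn' : ¬ G.FT e' d' := fun f => hn f.symm
  by_contra hno
  have hno' : ¬ ∃ l, G.Full (d' :: l) := by
    rintro ⟨l, hl⟩
    exact hno (k.full_swap h hn' hl)
  have key : ∀ m, (∃ l, G.Seq (e' :: l) ∧ m ≤ l.length) ∧ ∃ l, G.Seq (d' :: l) ∧ m ≤ l.length := by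
    intro m
    induction m with
    | zero => exact ⟨⟨[], seq_single k.mem, le_rfl⟩, [], seq_single h.mem, le_rfl⟩
    | succ m ih =>
      obtain ⟨⟨l₁, a₁, b₁⟩, l₂, a₂, b₂⟩ := ih
      obtain ⟨l₃, a₃, b₃⟩ := (h.longer hc k hn a₁).resolve_left hno
      obtain ⟨l₄, a₄, b₄⟩ := (k.longer hc h hn' a₂).resolve_left hno'
      exact ⟨⟨l₄, a₄, by omega⟩, l₃, a₃, by omega⟩
  obtain ⟨l, a, b⟩ := (key G.V.card).1
  have := a.length_le
  simp only [List.length_cons] at this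
  omega

theorem Dbl.adj (hc : G.Conn) (h2 : G.C2) {d d' e e' : ℕ} (h : G.Dbl d d') (k : G.Dbl e e')
    (hn : ¬ G.FT d' e') : G.r e' d' := by
  obtain ⟨l, hl⟩ := h.exists_full hc k hn
  obtain ⟨p, a, q, rfl, -, hp⟩ := hl.1.hit hc h.good h.ft h.ne (fun f => hn f.symm)
    ⟨d', hl.2 _ h.mem, FT.refl _⟩
  obtain ⟨q', y, e⟩ : ∃ q' y, a :: q = q' ++ [y] := by
    rcases List.eq_nil_or_concat (a :: q) with e | ⟨q', y, e⟩
    · simp at e
    · exact ⟨q', y, by simpa using e⟩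
  rw [e] at hl
  have h3 : G.r e' y := Full.first_last hc h2 (l := p ++ q') (by simpa using hl)
  refine ((hp y (G.mem (G.symm h3)) fun k' => ?_).r_iff _).1 h3
  have := hl.1.1
  rw [← List.cons_append, List.nodup_append] at this
  exact this.2.2 y k' y (by simp) rfl

theorem noft_of_tt {e e' : ℕ} (h : G.r e' e) (ht : ∀ y, y ≠ e' → G.r e y → G.r e' y) :
    G.NoFT e' := by
  intro x f
  by_contra hx
  exact f.not_r (ht x hx (G.symm ((f e).1 h)))

theorem Dbl.noft (hc : G.Conn) (h2 : G.C2) {d d' e e' : ℕ} (h : G.Dbl d d') (k : G.Dbl e e')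
    (hn : ¬ G.FT d' e') : (G.red d').NoFT e' :=
  noft_of_tt (k.ft.tt k.ne (h.adj hc h2 k hn)).1 (k.ft.tt k.ne (h.adj hc h2 k hn)).2

theorem Dbl.noft' (hc : G.Conn) (h2 : G.C2) {d d' e e' : ℕ} (h : G.Dbl d d') (k : G.Dbl e e')
    (hn : ¬ G.FT d' e') : (G.red d').NoFT d := by
  obtain ⟨l, hl⟩ := h.exists_full hc k hn
  have h1 := hl.del d'
  rw [filter_cons_ne (a := e') (v := d') (fun k => hn (k ▸ FT.refl _))] at h1
  exact (h.phi.2.2.2 e' _ (h.good_red k hn) h1 (h.noft hc h2 k hn)).1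

theorem Dbl.cls (hc : G.Conn) (h2 : G.C2) {d d' e e' : ℕ} (h : G.Dbl d d') (k : G.Dbl e e')
    (hn : ¬ G.FT d' e') (x : ℕ) (f : G.FT d' x) : x = d ∨ x = d' := by
  by_cases e : x = d'
  · exact Or.inr e
  · refine Or.inl (h.noft' hc h2 k hn x fun y => ?_)
    rw [h.ft.red_r h.ne, f.symm.red_r e]

theorem two_last {d d' a : ℕ} {q : List ℕ} (hne : d ≠ d') (hn : (a :: q).Nodup)
    (h1 : ∀ x ∈ a :: q, x = d ∨ x = d') (h2 : d ∈ a :: q) (h3 : d' ∈ a :: q) :
    a :: q = [d, d'] ∨ a :: q = [d', d] := by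
  match q, hn, h1, h2, h3 with
  | [], _, _, h2, h3 => exact absurd (by simp_all) hne
  | [b], hn, h1, _, _ =>
    rcases h1 a (by simp) with rfl | rfl <;> rcases h1 b (by simp) with rfl | rfl <;> simp_all
  | b :: c :: q, hn, h1, _, _ =>
    rcases h1 a (by simp) with rfl | rfl <;> rcases h1 b (by simp) with rfl | rfl <;>
      rcases h1 c (by simp) with rfl | rfl <;> simp_all

theorem Dbl.step (hc : G.Conn) (h1 : G.C1) (h2 : G.C2) {d d' e e' : ℕ} (h : G.Dbl d d')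
    (k : G.Dbl e e') (hn : ¬ G.FT d' e') {l : List ℕ} {j : ℕ} (hl : G.Full (e' :: l))
    (hr : G.Rig (e' :: l) j) : ((G.red d').AllRig ∧ (G.red e').AllRig) ∨
      ∃ l', G.Full (d' :: l') ∧ G.Rig (d' :: l') (j + 1) := by
  have hn' : ¬ G.FT e' d' := fun f => hn f.symm
  have cd := h.cls hc h2 k hn
  have ce := k.cls hc h2 h hn'
  obtain ⟨p, a, q, rfl, hp', hp⟩ := hl.1.hit hc h.good h.ft h.ne hn' ⟨d', hl.2 _ h.mem, FT.refl _⟩
  have hnd : (e' :: p ++ a :: q).Nodup := hl.1.1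
  have hd : d ∉ e' :: p := fun k => hp' d k h.ft
  have hd' : d' ∉ e' :: p := fun k => hp' d' k (FT.refl _)
  have hdV : d ∈ G.V := (mem_red.1 h.phi.1).2
  have hq : a :: q = [d, d'] ∨ a :: q = [d', d] := by
    refine two_last h.ne (List.nodup_append.1 hnd).2.1 (fun x hx => cd x (hp x ?_ ?_).symm) ?_ ?_
    · exact hl.1.2.1 x (List.mem_append_right (e' :: p) hx)
    · exact fun k => (List.nodup_append.1 hnd).2.2 x k x hx rfl
    · exact (List.mem_append.1 (hl.2 d hdV : d ∈ e' :: p ++ a :: q)).resolve_left hd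
    · exact (List.mem_append.1 (hl.2 d' h.mem : d' ∈ e' :: p ++ a :: q)).resolve_left hd'
  have hf : (G.red d').Full (e' :: (p ++ [d])) := by
    have := hl.del d'
    have e1 : (e' :: p).filter (· ≠ d') = e' :: p := List.filter_eq_self.2 (by
      intro x hx
      simp only [ne_eq, decide_not, Bool.not_eq_eq_eq_not, Bool.not_true, decide_eq_false_iff_not]
      rintro rfl
      exact hd' hx)
    have e2 : (a :: q).filter (· ≠ d') = [d] := by
      rcases hq with e | e <;> rw [e] <;> simp [h.ne]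
    rwa [← List.cons_append, List.filter_append, e1, e2] at this
  have hrig : ∀ p' u v q', e' :: (p ++ [d]) = p' ++ u :: v :: q' → p' ≠ [] → q' ≠ [] →
      p'.length ≤ j → ¬ (G.red d').Split {x | x ∈ p' ∨ x = v} := by
    intro p' u v q' e hp1 hq1 hj hs
    obtain ⟨q₀, y, rfl⟩ : ∃ q₀ y, q' = q₀ ++ [y] := by
      rcases List.eq_nil_or_concat q' with e | ⟨q₀, y, e⟩
      · exact absurd e hq1
      · exact ⟨q₀, y, by simpa using e⟩
    have e3 : e' :: p = p' ++ u :: v :: q₀ :=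
      (List.append_inj' (s₁ := e' :: p) (t₁ := [d]) (s₂ := p' ++ u :: v :: q₀) (t₂ := [y])
        (by simpa using e) rfl).1
    refine hr p' u v (q₀ ++ a :: q) (by rw [← List.cons_append, e3]; simp) hp1 hj
      (hs.lift h.ft h.ne ?_)
    rw [e3] at hd hd'
    simp only [List.mem_append, List.mem_cons, not_or] at hd hd'
    simp [hd, hd']
  by_cases hj : j + 2 ≤ (e' :: p).length
  · obtain ⟨l', a1, a2⟩ := (h.phi.2.2.2 e' _ (h.good_red k hn) hf (h.noft hc h2 k hn)).2 j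
      (fun p' u v q' e hp1 hj' => hrig p' u v q' e hp1 (by
        rintro rfl
        have := congrArg List.length e
        simp at this hj
        omega) hj')
    exact Or.inr ⟨d :: l', a1.twin h.ft h.ne h.mem, a2.twin hc h1 h.ft h.ne cd h.mem a1.1⟩
  left
  have heV : e ∈ G.V := (mem_red.1 k.phi.1).2
  have second : ∀ x r, p ++ a :: q = x :: r → x = e := by
    intro x r e1
    by_contra hx
    have hl' := hl
    rw [e1] at hl'
    refine not_split_pair hc h1 k.ft k.ne ce k.mem (hl'.1.2.1 x (by simp)) hx ?_ (by simp)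
      (hl'.1.2.2 [e', x] r rfl)
    rintro rfl
    simpa using hl'.1.1
  obtain ⟨p, rfl⟩ : ∃ p₁, p = e :: p₁ := by
    match p, second, hp with
    | [], second, hp =>
      exact absurd (k.ft.symm.trans (hp e heV (by simpa using k.ne))) hn'
    | x :: p₁, second, _ => exact ⟨p₁, by rw [second x _ rfl]⟩
  have hlen : (a :: q).length = 2 := by rcases hq with e | e <;> rw [e] <;> rfl
  refine ⟨⟨e', e, p ++ [d], hf, (k.ft.tt k.ne (h.adj hc h2 k hn)).1,
    fun p' u v q' e hp1 hq1 => hrig p' u v q' e hp1 hq1 ?_⟩, ?_⟩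
  · have := congrArg List.length e
    have := List.length_pos_iff.2 hq1
    simp at *
    omega
  have hf2 : (G.red e').Full (e :: (p ++ a :: q)) := by
    have := hl.del e'
    rwa [List.filter_cons_of_neg (by simp), List.filter_eq_self.2 (by
      intro x hx
      simp only [ne_eq, decide_not, Bool.not_eq_eq_eq_not, Bool.not_true, decide_eq_false_iff_not]
      rintro rfl
      exact (List.nodup_cons.1 hl.1.1).1 hx)] at this
  obtain ⟨x, r, e1⟩ : ∃ x r, p ++ a :: q = x :: r := List.exists_cons_of_ne_nil (by simp)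
  have e2 := congrArg List.length e1
  rw [e1] at hf2
  have hxe : e ≠ x := by
    rintro rfl
    simpa using hf2.1.1
  refine ⟨e, x, r, hf2, ?_, fun p' u v q' e3 hp1 hq1 hs => ?_⟩
  · by_contra hr'
    exact hxe (k.noft' hc h2 h hn' x (ft_of_pair k.conn (hf2.1.2.2 [e, x] r rfl) (by simp)
      (hf2.1.2.1 e (by simp)) (hf2.1.2.1 x (by simp)) hxe hr')).symm
  · refine hr (e' :: p') u v q' (by rw [List.cons_append, List.cons_append, e1, e3]) (by simp) ?_
      (Split.lift k.ft k.ne (hs.congr fun y hy => ?_) ?_)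
    · have := congrArg List.length e3
      have := List.length_pos_iff.2 hq1
      simp only [List.length_cons, List.length_append] at *
      omega
    · simp [(mem_red.1 hy).1]
    · obtain ⟨b, p'', rfl⟩ := List.exists_cons_of_ne_nil hp1
      obtain rfl : e = b := (List.cons.inj e3).1
      simp

theorem Dbl.unique (hc : G.Conn) (h1 : G.C1) (h2 : G.C2) (h3 : 3 ≤ G.V.card) {d d' e e' : ℕ}
    (h : G.Dbl d d') (k : G.Dbl e e') :
    G.FT d' e' ∨ ((G.red d').AllRig ∧ (G.red e').AllRig) := by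
  by_cases hn : G.FT d' e'
  · exact Or.inl hn
  right
  have hn' : ¬ G.FT e' d' := fun f => hn f.symm
  by_contra hno
  have r0 : ∀ l, G.Rig l 0 := fun l p u v q _ hp hl =>
    absurd (List.length_eq_zero_iff.1 (by omega)) hp
  have key : ∀ j, (∃ l, G.Full (e' :: l) ∧ G.Rig (e' :: l) j) ∧
      ∃ l, G.Full (d' :: l) ∧ G.Rig (d' :: l) j := by
    intro j
    induction j with
    | zero =>
      obtain ⟨l₁, a₁⟩ := h.exists_full hc k hn
      obtain ⟨l₂, a₂⟩ := k.exists_full hc h hn'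
      exact ⟨⟨l₁, a₁, r0 _⟩, l₂, a₂, r0 _⟩
    | succ j ih =>
      obtain ⟨⟨l₁, a₁, b₁⟩, l₂, a₂, b₂⟩ := ih
      exact ⟨(k.step hc h1 h2 h hn' a₂ b₂).resolve_left fun k => hno k.symm,
        (h.step hc h1 h2 k hn a₁ b₁).resolve_left hno⟩
  obtain ⟨l, a, b⟩ := (key G.V.card).1
  exact lt_irrefl _ (b.lt a h3)

/-- Renaming of the vertices. -/
def Iso (σ : Equiv.Perm ℕ) (G H : Gr) : Prop :=
  (∀ a, σ a ∈ H.V ↔ a ∈ G.V) ∧ ∀ a b, H.r (σ a) (σ b) ↔ G.r a b

variable {H K : Gr} {σ τ : Equiv.Perm ℕ}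

theorem Iso.refl (G : Gr) : Iso 1 G G := ⟨fun _ => Iff.rfl, fun _ _ => Iff.rfl⟩

theorem Iso.symm (h : Iso σ G H) : Iso σ⁻¹ H G :=
  ⟨fun a => by rw [← h.1]; simp, fun a b => by rw [← h.2]; simp⟩

theorem Iso.trans (h : Iso σ G H) (k : Iso τ H K) : Iso (τ * σ) G K :=
  ⟨fun a => (k.1 _).trans (h.1 a), fun a b => (k.2 _ _).trans (h.2 a b)⟩

theorem Iso.r_iff (h : Iso σ G H) (a b : ℕ) : H.r a b ↔ G.r (σ⁻¹ a) (σ⁻¹ b) := (h.symm.2 a b).symm

theorem Iso.split (h : Iso σ G H) {X Y : Set ℕ} (e : ∀ a, σ a ∈ Y ↔ a ∈ X) (k : H.Split Y) :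
    G.Split X := fun x₁ h₁ x₂ h₂ y₁ k₁ y₂ k₂ r₁ r₂ =>
  (h.2 _ _).1 (k _ ((e x₁).2 h₁) _ ((e x₂).2 h₂) _ (fun k => k₁ ((e y₁).1 k)) _
    (fun k => k₂ ((e y₂).1 k)) ((h.2 _ _).2 r₁) ((h.2 _ _).2 r₂))

theorem Iso.conn (h : Iso σ G H) (k : G.Conn) : H.Conn := by
  rintro X ⟨a, ha, ha'⟩ ⟨b, hb, hb'⟩
  obtain ⟨u, hu, v, hv, huv⟩ := k (σ ⁻¹' X) ⟨σ⁻¹ a, (h.symm.1 a).2 ha, by simpa using ha'⟩
    ⟨σ⁻¹ b, (h.symm.1 b).2 hb, by simpa using hb'⟩
  exact ⟨σ u, hu, σ v, hv, (h.2 _ _).2 huv⟩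

theorem Iso.ft (h : Iso σ G H) {a b : ℕ} (k : G.FT a b) : H.FT (σ a) (σ b) := fun y => by
  obtain ⟨y, rfl⟩ := σ.surjective y
  rw [h.2, h.2, k y]

theorem Iso.good (h : Iso σ G H) {a : ℕ} (k : G.Good a) : H.Good (σ a) := by
  intro Q hQ x hx y hy hxy
  obtain ⟨x, rfl⟩ := σ.surjective x
  obtain ⟨y, rfl⟩ := σ.surjective y
  refine k (σ ⁻¹' Q) (fun u hu => ?_) x hx y hy ((h.2 _ _).1 hxy)
  obtain ⟨h1, h2, h3⟩ := hQ _ hu
  refine ⟨fun e => h1 (e ▸ rfl), fun k => h2 ((h.2 _ _).2 k), ?_⟩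
  rcases h3 with h3 | h3
  · exact Or.inl fun z hz => by rw [← h.2, ← h.2, h3 _ hz]
  · exact Or.inr fun z hz => by rw [← h.2]; exact h3 _ hz

theorem Iso.seq (h : Iso σ G H) {l : List ℕ} (k : G.Seq l) : H.Seq (l.map σ) := by
  refine ⟨k.1.map σ.injective, fun a ha => ?_, fun p q e => ?_⟩
  · obtain ⟨b, hb, rfl⟩ := List.mem_map.1 ha
    exact (h.1 b).2 (k.2.1 b hb)
  · obtain ⟨p', q', e', rfl, -⟩ := List.map_eq_append_iff.1 e
    refine h.symm.split (fun a => ?_) (k.2.2 p' q' e')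
    obtain ⟨a, rfl⟩ := σ.surjective a
    simp

theorem Iso.full (h : Iso σ G H) {l : List ℕ} (k : G.Full l) : H.Full (l.map σ) := by
  refine ⟨h.seq k.1, fun a ha => ?_⟩
  obtain ⟨a, rfl⟩ := σ.surjective a
  exact List.mem_map_of_mem (k.2 a ((h.1 a).1 ha))

theorem Iso.rig (h : Iso σ G H) {l : List ℕ} {j : ℕ} (k : G.Rig l j) : H.Rig (l.map σ) j := by
  intro p u v q e hp hj hs
  obtain ⟨p', q', e', rfl, e2⟩ := List.map_eq_append_iff.1 e
  obtain ⟨u', q'', rfl, rfl, e3⟩ := List.map_eq_cons_iff.1 e2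
  obtain ⟨v', q''', rfl, rfl, -⟩ := List.map_eq_cons_iff.1 e3
  exact k p' u' v' q''' e' (by simpa using hp) (by simpa using hj)
    (h.split (fun a => by simp) hs)

theorem Iso.noft (h : Iso σ G H) {a : ℕ} (k : G.NoFT a) : H.NoFT (σ a) := by
  intro e f
  obtain ⟨e, rfl⟩ := σ.surjective e
  rw [k e (by simpa using h.symm.ft f)]

theorem Iso.phi (h : Iso σ G H) {a : ℕ} (k : G.Phi a) : H.Phi (σ a) := by
  refine ⟨(h.1 a).2 k.1, h.good k.2.1, fun y l h1 h2 => ?_, fun y l h1 h2 h3 => ?_⟩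
  · obtain ⟨l', a1, a2⟩ := k.2.2.1 _ _ (h.symm.good h1) (h.symm.seq h2)
    exact ⟨l'.map σ, h.seq a1, by simpa using a2⟩
  · obtain ⟨a1, a2⟩ := k.2.2.2 _ _ (h.symm.good h1) (h.symm.full h2) (h.symm.noft h3)
    refine ⟨h.noft a1, fun j hj => ?_⟩
    obtain ⟨l', b1, b2⟩ := a2 j (h.symm.rig hj)
    exact ⟨l'.map σ, h.full b1, h.rig b2⟩

theorem Iso.red (h : Iso σ G H) (v : ℕ) : Iso σ (G.red v) (H.red (σ v)) :=
  ⟨fun a => by simp [mem_red, h.1], fun a b => by simp [red_r, h.2]⟩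

theorem Iso.dbl (h : Iso σ G H) {d d' : ℕ} (k : G.Dbl d d') : H.Dbl (σ d) (σ d') :=
  ⟨h.ft k.ft, fun e => k.ne (σ.injective e), (h.1 _).2 k.mem, (h.red d').conn k.conn,
    (h.red d').phi k.phi⟩

end Gr

end Pool.Agent.MP_b13154_gt

end

-- part MP_b13154_gt.Words
section

/-!
The interlacement graph of a Gauss word, smoothing, and the moves.
-/

namespace Pool.Agent.MP_b13154_gt

open Gr

def cnt (a : ℕ) (l : List ℕ) : ZMod 2 := (l.count a : ZMod 2)

/-- Parity of the number of occurrences of `a` before `b`. -/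
def inv (a b : ℕ) : List ℕ → ZMod 2
  | [] => 0
  | x :: l => (if x = a then cnt b l else 0) + inv a b l

@[simp] theorem cnt_nil (a : ℕ) : cnt a [] = 0 := by simp [cnt]

theorem cnt_cons (a x : ℕ) (l : List ℕ) :
    cnt a (x :: l) = (if x = a then 1 else 0) + cnt a l := by
  unfold cnt
  rw [List.count_cons]
  split_ifs <;> simp_all [add_comm]

@[simp] theorem cnt_cons_self (a : ℕ) (l : List ℕ) : cnt a (a :: l) = 1 + cnt a l := by
  simp [cnt_cons]

theorem cnt_cons_ne {a x : ℕ} (h : x ≠ a) (l : List ℕ) : cnt a (x :: l) = cnt a l := by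
  simp [cnt_cons, h]

@[simp] theorem cnt_append (a : ℕ) (l m : List ℕ) : cnt a (l ++ m) = cnt a l + cnt a m := by
  simp [cnt]

@[simp] theorem cnt_reverse (a : ℕ) (l : List ℕ) : cnt a l.reverse = cnt a l := by simp [cnt]

theorem cnt_of_not_mem {a : ℕ} {l : List ℕ} (h : a ∉ l) : cnt a l = 0 := by
  simp [cnt, List.count_eq_zero_of_not_mem h]

@[simp] theorem inv_nil (a b : ℕ) : inv a b [] = 0 := rfl

@[simp] theorem inv_cons_self (a b : ℕ) (l : List ℕ) : inv a b (a :: l) = cnt b l + inv a b l := by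
  simp [inv]

theorem inv_cons_ne {a x : ℕ} (h : x ≠ a) (b : ℕ) (l : List ℕ) : inv a b (x :: l) = inv a b l := by
  simp [inv, h]

@[simp] theorem inv_append (a b : ℕ) (l m : List ℕ) :
    inv a b (l ++ m) = inv a b l + inv a b m + cnt a l * cnt b m := by
  induction l with
  | nil => simp
  | cons x l ih =>
    rw [List.cons_append, inv, inv, ih, cnt_cons, cnt_append]
    split_ifs <;> ring

theorem inv_of_not_mem_left {a : ℕ} (b : ℕ) {l : List ℕ} (h : a ∉ l) : inv a b l = 0 := by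
  induction l with
  | nil => rfl
  | cons x l ih =>
    rw [List.mem_cons, not_or] at h
    rw [inv_cons_ne (Ne.symm h.1), ih h.2]

theorem inv_of_not_mem_right (a : ℕ) {b : ℕ} {l : List ℕ} (h : b ∉ l) : inv a b l = 0 := by
  induction l with
  | nil => rfl
  | cons x l ih =>
    rw [List.mem_cons, not_or] at h
    rw [inv, ih h.2, cnt_of_not_mem h.2]
    simp

@[simp] theorem inv_reverse (a b : ℕ) (l : List ℕ) : inv a b l.reverse = inv b a l := by
  induction l with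
  | nil => rfl
  | cons x l ih =>
    rw [List.reverse_cons, inv_append, ih, cnt_reverse, cnt_cons]
    simp only [inv]
    split_ifs <;> simp [add_comm]

theorem inv_add_swap {a b : ℕ} (h : a ≠ b) (l : List ℕ) :
    inv a b l + inv b a l = cnt a l * cnt b l := by
  induction l with
  | nil => simp
  | cons x l ih =>
    rw [inv, inv, cnt_cons, cnt_cons]
    by_cases h1 : x = a
    · rw [if_pos h1, if_pos h1, if_neg (h1 ▸ h), if_neg (h1 ▸ h)]
      linear_combination ih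
    · by_cases h2 : x = b
      · rw [if_neg h1, if_neg h1, if_pos h2, if_pos h2]
        linear_combination ih
      · rw [if_neg h1, if_neg h1, if_neg h2, if_neg h2]
        linear_combination ih

theorem cnt_map (σ : Equiv.Perm ℕ) (a : ℕ) (l : List ℕ) : cnt (σ a) (l.map σ) = cnt a l := by
  simp [cnt, List.count_map_of_injective _ _ σ.injective]

theorem inv_map (σ : Equiv.Perm ℕ) (a b : ℕ) (l : List ℕ) :
    inv (σ a) (σ b) (l.map σ) = inv a b l := by
  induction l with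
  | nil => rfl
  | cons x l ih => simp [inv, ih, cnt_map]

theorem two (x : ZMod 2) : x + x = 0 := CharTwo.add_self_eq_zero x

theorem z2 (x : ZMod 2) : x = 0 ∨ x = 1 := by revert x; decide

def DO (w : List ℕ) : Prop := ∀ a ∈ w, w.count a = 2

theorem DO.cnt0 {w : List ℕ} (h : DO w) (a : ℕ) : cnt a w = 0 := by
  by_cases ha : a ∈ w
  · rw [cnt, h a ha]
    rfl
  · exact cnt_of_not_mem ha

theorem DO.inv_comm {w : List ℕ} (h : DO w) (a b : ℕ) : inv a b w = inv b a w := by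
  by_cases e : a = b
  · rw [e]
  have := inv_add_swap e w
  rw [h.cnt0, zero_mul] at this
  linear_combination this - two (inv b a w)

theorem DO.perm {w v : List ℕ} (h : DO w) (p : w.Perm v) : DO v := fun a ha => by
  rw [← p.count_eq, h a (p.mem_iff.2 ha)]

theorem DO.map {w : List ℕ} (h : DO w) (σ : Equiv.Perm ℕ) : DO (w.map σ) := fun a ha => by
  obtain ⟨b, hb, rfl⟩ := List.mem_map.1 ha
  rw [List.count_map_of_injective _ _ σ.injective, h b hb]

/-- The interlacement graph. -/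
def gr (w : List ℕ) : Gr where
  V := w.toFinset
  r a b := a ≠ b ∧ inv a b w = 1 ∧ inv b a w = 1
  symm := fun h => ⟨h.1.symm, h.2.2, h.2.1⟩
  irr := fun _ h => h.1 rfl
  mem := by
    intro a b h
    by_contra k
    have := h.2.1
    rw [inv_of_not_mem_left b (by simpa using k)] at this
    exact zero_ne_one this

theorem mem_gr {w : List ℕ} {a : ℕ} : a ∈ (gr w).V ↔ a ∈ w := List.mem_toFinset

theorem DO.r_iff {w : List ℕ} (h : DO w) {a b : ℕ} : (gr w).r a b ↔ a ≠ b ∧ inv a b w = 1 :=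
  ⟨fun k => ⟨k.1, k.2.1⟩, fun k => ⟨k.1, k.2, h.inv_comm a b ▸ k.2⟩⟩

theorem gr_eq {w v : List ℕ} (h : DO w) (p : w.Perm v)
    (e : ∀ a b, a ≠ b → inv a b v = inv a b w) : gr v = gr w := by
  refine Gr.ext (List.toFinset_eq_of_perm _ _ p.symm) ?_
  funext a b
  rw [(h.perm p).r_iff, h.r_iff]
  exact propext (and_congr_right fun k => by rw [e a b k])

theorem iso_map (w : List ℕ) (σ : Equiv.Perm ℕ) : Iso σ (gr w) (gr (w.map σ)) :=
  ⟨fun a => by simp [mem_gr], fun a b => by simp [gr, inv_map]⟩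

theorem split_one {d : ℕ} {l : List ℕ} (h : d ∈ l) : ∃ P S, l = P ++ d :: S ∧ d ∉ P := by
  obtain ⟨p, a, q, e, rfl, k⟩ := first_of_exists (P := fun a => a = d) l ⟨d, h, rfl⟩
  exact ⟨p, q, e, fun k' => k _ k' rfl⟩

theorem split_one' {d : ℕ} {l : List ℕ} (h : l.count d = 1) :
    ∃ P S, l = P ++ d :: S ∧ d ∉ P ∧ d ∉ S := by
  obtain ⟨P, S, rfl, k⟩ := split_one (d := d) (l := l) (List.count_pos_iff.1 (by omega))
  refine ⟨P, S, rfl, k, List.count_eq_zero.1 ?_⟩
  simp only [List.count_append, List.count_cons_self] at h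
  omega

theorem split_two {d : ℕ} {l : List ℕ} (h : l.count d = 2) :
    ∃ P U S, l = P ++ d :: (U ++ d :: S) ∧ d ∉ P ∧ d ∉ U ∧ d ∉ S := by
  obtain ⟨P, R, rfl, k⟩ := split_one (d := d) (l := l) (List.count_pos_iff.1 (by omega))
  obtain ⟨U, S, rfl, k1, k2⟩ := split_one' (d := d) (l := R) (by
    simp only [List.count_append, List.count_cons_self, List.count_eq_zero_of_not_mem k] at h
    omega)
  exact ⟨P, U, S, rfl, k, k1, k2⟩

theorem DO.not_mem {P U S : List ℕ} {d : ℕ} (h : DO (P ++ d :: (U ++ d :: S))) :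
    d ∉ P ∧ d ∉ U ∧ d ∉ S := by
  have := h d (by simp)
  simp only [List.count_append, List.count_cons_self] at this
  exact ⟨List.count_eq_zero.1 (by omega), List.count_eq_zero.1 (by omega),
    List.count_eq_zero.1 (by omega)⟩

theorem DO.inv_eq {P U S : List ℕ} {d : ℕ} (h : DO (P ++ d :: (U ++ d :: S))) {b : ℕ}
    (hb : d ≠ b) : inv d b (P ++ d :: (U ++ d :: S)) = cnt b U := by
  obtain ⟨h1, h2, h3⟩ := h.not_mem
  simp only [inv_append, inv_cons_self, cnt_append, cnt_cons_ne hb, inv_of_not_mem_left b h1,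
    inv_of_not_mem_left b h2, inv_of_not_mem_left b h3, cnt_of_not_mem h1, cnt_of_not_mem h2]
  linear_combination two (cnt b S)

theorem DO.r_split {P U S : List ℕ} {d : ℕ} (h : DO (P ++ d :: (U ++ d :: S))) {b : ℕ} :
    (gr (P ++ d :: (U ++ d :: S))).r d b ↔ cnt b U = 1 := by
  rw [h.r_iff]
  constructor
  · exact fun k => h.inv_eq k.1 ▸ k.2
  · intro k
    have : d ≠ b := by
      rintro rfl
      rw [cnt_of_not_mem h.not_mem.2.1] at k
      exact zero_ne_one k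
    exact ⟨this, (h.inv_eq this).trans k⟩

theorem DO.r_of_eq {w P U S : List ℕ} {d : ℕ} (h : DO w) (e : w = P ++ d :: (U ++ d :: S))
    {b : ℕ} : (gr w).r d b ↔ cnt b U = 1 := by
  subst e
  exact h.r_split

/-- The smoothing of the crossing `d` that gives a knot. -/
def sm (w : List ℕ) (d : ℕ) : List ℕ :=
  w.takeWhile (· ≠ d) ++ (((w.dropWhile (· ≠ d)).tail.takeWhile (· ≠ d)).reverse ++
    ((w.dropWhile (· ≠ d)).tail.dropWhile (· ≠ d)).tail)

theorem tw {d : ℕ} {P : List ℕ} (h : d ∉ P) (R : List ℕ) :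
    (P ++ d :: R).takeWhile (· ≠ d) = P ∧ (P ++ d :: R).dropWhile (· ≠ d) = d :: R := by
  induction P with
  | nil => simp
  | cons x P ih =>
    rw [List.mem_cons, not_or] at h
    have := ih h.2
    simp only [List.cons_append, List.takeWhile_cons, List.dropWhile_cons, this]
    simp [Ne.symm h.1]

theorem sm_eq {d : ℕ} {w P U S : List ℕ} (e : w = P ++ d :: (U ++ d :: S)) (h1 : d ∉ P)
    (h2 : d ∉ U) : sm w d = P ++ (U.reverse ++ S) := by
  subst e
  simp only [sm, (tw h1 _).1, (tw h1 _).2, List.tail_cons, (tw h2 _).1, (tw h2 _).2]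

theorem DO.sm_spec {w : List ℕ} (h : DO w) {d : ℕ} (hd : d ∈ w) :
    DO (sm w d) ∧ gr (sm w d) = (gr w).red d := by
  obtain ⟨P, U, S, rfl, h1, h2, h3⟩ := split_two (h d hd)
  rw [sm_eq rfl h1 h2]
  have hD : DO (P ++ (U.reverse ++ S)) := by
    intro a ha
    have had : a ≠ d := by
      rintro rfl
      simp [h1, h2, h3] at ha
    have := h a (by simp at ha ⊢; tauto)
    simpa [List.count_cons_of_ne had.symm] using this
  refine ⟨hD, Gr.ext ?_ ?_⟩
  · ext a
    simp only [mem_gr, mem_red, List.mem_append, List.mem_reverse, List.mem_cons]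
    constructor
    · intro ha
      refine ⟨?_, by tauto⟩
      rintro rfl
      tauto
    · tauto
  · funext a b
    apply propext
    rw [red_r, hD.r_iff]
    by_cases ha : a = d
    · subst ha
      rw [inv_of_not_mem_left b (by simp [h1, h2, h3])]
      simp
    by_cases hb : b = d
    · subst hb
      rw [inv_of_not_mem_right a (by simp [h1, h2, h3])]
      simp
    by_cases hab : a = b
    · simp [hab]
    rw [r_comm (a := a) (b := d), r_comm (a := b) (b := d), h.r_split, h.r_split, h.r_iff]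
    have e := inv_add_swap hab U
    simp only [inv_append, inv_reverse, cnt_append, cnt_reverse, inv_cons_ne (Ne.symm ha),
      cnt_cons_ne (Ne.symm hb), ne_eq, ha, hb, hab, not_false_eq_true, true_and]
    have e' : inv b a U = inv a b U + cnt a U * cnt b U := by
      linear_combination e - two (inv a b U)
    have : ∀ x y z : ZMod 2, x + y * z = 1 ↔ (x = 1 ↔ ¬ (y = 1 ∧ z = 1)) := by decide
    rw [← this, e']
    apply Eq.congr_left
    ring

theorem sm_map {w : List ℕ} {d : ℕ} (h : w.count d = 2) (σ : Equiv.Perm ℕ) :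
    sm (w.map σ) (σ d) = (sm w d).map σ := by
  obtain ⟨P, U, S, rfl, h1, h2, -⟩ := split_two h
  rw [sm_eq rfl h1 h2, sm_eq (P := P.map σ) (U := U.map σ) (S := S.map σ) (by simp)
    (by simpa using h1) (by simpa using h2)]
  simp

end Pool.Agent.MP_b13154_gt

end

-- part MP_b13154_gt.Moves
section

/-!
The moves preserve the interlacement graph and commute with smoothing.
-/

namespace Pool.Agent.MP_b13154_gt

open Gr

abbrev E : List ℕ → List ℕ → Prop := Relation.EqvGen Move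

theorem E.of {w v : List ℕ} (h : Move w v) : E w v := Relation.EqvGen.rel _ _ h
theorem E.rfl {w : List ℕ} : E w w := Relation.EqvGen.refl _
theorem E.sy {w v : List ℕ} (h : E w v) : E v w := Relation.EqvGen.symm _ _ h
theorem E.tr {w v u : List ℕ} (h : E w v) (k : E v u) : E w u := Relation.EqvGen.trans _ _ _ h k
theorem E.cast {w v w' v' : List ℕ} (h : E w v) (e : w' = w) (e' : v' = v) : E w' v' :=
  e ▸ e' ▸ h

/-- Equivalence that keeps the names. -/
def Same (w v : List ℕ) : Prop := E w v ∧ w.Perm v ∧ (DO w → gr v = gr w)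

theorem Same.rfl {w : List ℕ} : Same w w := ⟨E.rfl, .refl _, fun _ => _root_.rfl⟩

theorem Same.sy {w v : List ℕ} (h : Same w v) : Same v w :=
  ⟨h.1.sy, h.2.1.symm, fun k => (h.2.2 (k.perm h.2.1.symm)).symm⟩

theorem Same.tr {w v u : List ℕ} (h : Same w v) (k : Same v u) : Same w u :=
  ⟨h.1.tr k.1, h.2.1.trans k.2.1, fun d => (k.2.2 (d.perm h.2.1)).trans (h.2.2 d)⟩

theorem Same.cast {w v w' v' : List ℕ} (h : Same w v) (e : w' = w) (e' : v' = v) : Same w' v' :=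
  e ▸ e' ▸ h

theorem same_rot (P S : List ℕ) : Same (P ++ S) (S ++ P) := by
  refine ⟨?_, List.perm_append_comm, fun h => gr_eq h List.perm_append_comm fun a b _ => ?_⟩
  · induction P generalizing S with
    | nil => simpa using E.rfl
    | cons x P ih =>
      exact (E.of (Move.rot x (P ++ S))).tr ((ih (S ++ [x])).cast (by simp) (by simp))
  · have h1 := h.cnt0 a
    have h2 := h.cnt0 b
    simp only [cnt_append, inv_append] at *
    linear_combination cnt b P * h1 - cnt a P * h2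

theorem same_rev (w : List ℕ) : Same w w.reverse :=
  ⟨E.of (Move.rev w), (List.reverse_perm w).symm, fun h =>
    gr_eq h (List.reverse_perm w).symm fun a b _ => by rw [inv_reverse, h.inv_comm]⟩

def o (b : Bool) (c : ℕ) : List ℕ := if b then [c] else []

@[simp] theorem o_true (c : ℕ) : o true c = [c] := rfl
@[simp] theorem o_false (c : ℕ) : o false c = [] := rfl
@[simp] theorem o_reverse (b : Bool) (c : ℕ) : (o b c).reverse = o b c := by cases b <;> rfl
theorem not_mem_o {b : Bool} {c d : ℕ} (h : d ≠ c) : d ∉ o b c := by cases b <;> simp [h]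

def fl (c : ℕ) (b₁ b₂ b₃ b₄ : Bool) (A X B Y : List ℕ) : List ℕ :=
  o b₁ c ++ (A ++ (o b₂ c ++ (X ++ (o b₃ c ++ (B ++ (o b₄ c ++ Y))))))

def Dis (A X B Y : List ℕ) : Prop := ∀ a, a ∈ A ∨ a ∈ B → ¬ (a ∈ X ∨ a ∈ Y)

theorem Dis.out {A X B Y : List ℕ} (h : Dis A X B Y) : ∀ a ∈ A ++ B, a ∉ X ++ Y := by
  intro a ha k
  exact h a (List.mem_append.1 ha) (List.mem_append.1 k)

theorem fl_perm (c : ℕ) (b₁ b₂ b₃ b₄ : Bool) (A X B Y : List ℕ)
    (hb : b₁.toNat + b₂.toNat + b₃.toNat + b₄.toNat = 2) :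
    (fl c b₁ b₂ b₃ b₄ A X B Y).Perm (c :: c :: (A ++ (X ++ (B ++ Y)))) := by
  rw [List.perm_iff_count]
  intro a
  cases b₁ <;> cases b₂ <;> cases b₃ <;> cases b₄ <;> simp at hb <;>
    simp [fl, List.count_cons] <;> omega

theorem fl_not_mem {c : ℕ} {b₁ b₂ b₃ b₄ : Bool} {A X B Y : List ℕ}
    (hb : b₁.toNat + b₂.toNat + b₃.toNat + b₄.toNat = 2) (h : DO (fl c b₁ b₂ b₃ b₄ A X B Y)) :
    c ∉ A ∧ c ∉ X ∧ c ∉ B ∧ c ∉ Y := by
  have := h.perm (fl_perm c b₁ b₂ b₃ b₄ A X B Y hb) c (by simp)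
  simp only [List.count_cons_self, List.count_append] at this
  exact ⟨List.count_eq_zero.1 (by omega), List.count_eq_zero.1 (by omega),
    List.count_eq_zero.1 (by omega), List.count_eq_zero.1 (by omega)⟩

theorem same_fl (c : ℕ) (b₁ b₂ b₃ b₄ : Bool) {A X B Y : List ℕ} (hd : Dis A X B Y)
    (hb : b₁.toNat + b₂.toNat + b₃.toNat + b₄.toNat = 2) :
    Same (fl c b₁ b₂ b₃ b₄ A X B Y) (fl c (!b₁) (!b₂) (!b₃) (!b₄) A X B Y) := by
  have hb' : (!b₁).toNat + (!b₂).toNat + (!b₃).toNat + (!b₄).toNat = 2 := by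
    revert b₁ b₂ b₃ b₄
    decide
  have hp := (fl_perm c _ _ _ _ A X B Y hb).trans (fl_perm c _ _ _ _ A X B Y hb').symm
  refine ⟨?_, hp, fun h => gr_eq h hp ?_⟩
  · have h1 := E.of (Move.par c A X B Y hd.out)
    have h2 := E.of (Move.anti c A X B Y hd.out)
    have h3 := E.of (Move.turn c A X B Y hd.out)
    cases b₁ <;> cases b₂ <;> cases b₃ <;> cases b₄ <;> simp at hb
    · exact h3.sy.cast (by simp [fl]) (by simp [fl])
    · exact h1.sy.cast (by simp [fl]) (by simp [fl])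
    · exact h2.sy.cast (by simp [fl]) (by simp [fl])
    · exact h2.cast (by simp [fl]) (by simp [fl])
    · exact h1.cast (by simp [fl]) (by simp [fl])
    · exact h3.cast (by simp [fl]) (by simp [fl])
  obtain ⟨n1, n2, n3, n4⟩ := fl_not_mem hb h
  have key : ∀ b, c ≠ b → inv c b (fl c (!b₁) (!b₂) (!b₃) (!b₄) A X B Y) =
      inv c b (fl c b₁ b₂ b₃ b₄ A X B Y) := by
    intro b hcb
    have h0 := (h.perm (fl_perm c b₁ b₂ b₃ b₄ A X B Y hb)).cnt0 b
    have h1 : (cnt b A = 0 ∧ cnt b B = 0) ∨ (cnt b X = 0 ∧ cnt b Y = 0) := by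
      by_cases k : b ∈ A ∨ b ∈ B
      · have := not_or.1 (hd b k)
        exact Or.inr ⟨cnt_of_not_mem this.1, cnt_of_not_mem this.2⟩
      · have := not_or.1 k
        exact Or.inl ⟨cnt_of_not_mem this.1, cnt_of_not_mem this.2⟩
    simp only [cnt_cons_ne hcb, cnt_append] at h0
    cases b₁ <;> cases b₂ <;> cases b₃ <;> cases b₄ <;> simp at hb <;>
      simp only [fl, Bool.not_true, Bool.not_false, o_true, o_false, List.nil_append,
        List.cons_append, inv_append, inv_cons_self, cnt_append, cnt_cons_ne hcb,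
        inv_of_not_mem_left b n1, inv_of_not_mem_left b n2, inv_of_not_mem_left b n3,
        inv_of_not_mem_left b n4, cnt_of_not_mem n1, cnt_of_not_mem n2, cnt_of_not_mem n3] <;>
      revert h0 h1 <;> generalize cnt b A = x, cnt b X = y, cnt b B = z, cnt b Y = u <;>
      revert x y z u <;> decide
  intro a b hab
  by_cases ha : c = a
  · subst ha
    exact key b hab
  by_cases hb : c = b
  · subst hb
    rw [(h.perm hp).inv_comm, h.inv_comm]
    exact key a ha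
  have e1 : ∀ β, inv a b (o β c) = 0 := fun β => inv_of_not_mem_left b (not_mem_o (Ne.symm ha))
  have e2 : ∀ β, cnt a (o β c) = 0 := fun β => cnt_of_not_mem (not_mem_o (Ne.symm ha))
  have e3 : ∀ β, cnt b (o β c) = 0 := fun β => cnt_of_not_mem (not_mem_o (Ne.symm hb))
  simp only [fl, inv_append, cnt_append, e1, e2, e3]

theorem sm_rot {P S : List ℕ} {d : ℕ} (h : (P ++ S).count d = 2) :
    E (sm (P ++ S) d) (sm (S ++ P) d) := by
  have aux : ∀ P S : List ℕ, P.count d = 2 → d ∉ S → E (sm (P ++ S) d) (sm (S ++ P) d) := by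
    intro P S h1 h2
    obtain ⟨P₁, U, P₂, rfl, k1, k2, -⟩ := split_two h1
    rw [sm_eq (P := P₁) (U := U) (S := P₂ ++ S) (by simp) k1 k2,
      sm_eq (P := S ++ P₁) (U := U) (S := P₂) (by simp) (by simp [k1, h2]) k2]
    exact (same_rot (P₁ ++ (U.reverse ++ P₂)) S).1.cast (by simp) (by simp)
  rw [List.count_append] at h
  rcases (by omega : (P.count d = 2 ∧ S.count d = 0) ∨ (P.count d = 1 ∧ S.count d = 1) ∨
    (P.count d = 0 ∧ S.count d = 2)) with k | k | k
  · exact aux P S k.1 (List.count_eq_zero.1 k.2)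
  · obtain ⟨P₁, P₂, rfl, k1, k2⟩ := split_one' k.1
    obtain ⟨S₁, S₂, rfl, k3, k4⟩ := split_one' k.2
    rw [sm_eq (P := P₁) (U := P₂ ++ S₁) (S := S₂) (by simp) k1 (by simp [k2, k3]),
      sm_eq (P := S₁) (U := S₂ ++ P₁) (S := P₂) (by simp) k3 (by simp [k1, k4])]
    exact ((same_rot (P₁ ++ S₁.reverse) (P₂.reverse ++ S₂)).1.tr (same_rev _).1).cast
      (by simp) (by simp)
  · exact (aux S P k.2 (List.count_eq_zero.1 k.1)).sy

theorem sm_rev {w : List ℕ} {d : ℕ} (h : w.count d = 2) : E (sm w d) (sm w.reverse d) := by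
  obtain ⟨P, U, S, rfl, k1, k2, k3⟩ := split_two h
  rw [sm_eq rfl k1 k2, sm_eq (P := S.reverse) (U := U.reverse) (S := P.reverse) (by simp)
    (by simpa using k3) (by simpa using k2)]
  exact (same_rev _).1.cast rfl (by simp)

theorem sm_fl {c d : ℕ} (b₁ b₂ b₃ b₄ : Bool) {A X B Y : List ℕ} (hd : Dis A X B Y)
    (hb : b₁.toNat + b₂.toNat + b₃.toNat + b₄.toNat = 2) (hne : d ≠ c)
    (h : (A ++ (X ++ (B ++ Y))).count d = 2) :
    E (sm (fl c b₁ b₂ b₃ b₄ A X B Y) d) (sm (fl c (!b₁) (!b₂) (!b₃) (!b₄) A X B Y) d) := by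
  have no : ∀ β, d ∉ o β c := fun β => not_mem_o hne
  simp only [List.count_append] at h
  have h1 : (A.count d = 0 ∧ B.count d = 0) ∨ (X.count d = 0 ∧ Y.count d = 0) := by
    simp only [List.count_eq_zero]
    have := hd d
    tauto
  have z := fun {l : List ℕ} (k : l.count d = 0) => List.count_eq_zero.1 k
  unfold Dis at hd
  rcases (by omega : (A.count d = 2 ∧ X.count d = 0 ∧ B.count d = 0 ∧ Y.count d = 0) ∨
    (A.count d = 0 ∧ X.count d = 2 ∧ B.count d = 0 ∧ Y.count d = 0) ∨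
    (A.count d = 0 ∧ X.count d = 0 ∧ B.count d = 2 ∧ Y.count d = 0) ∨
    (A.count d = 0 ∧ X.count d = 0 ∧ B.count d = 0 ∧ Y.count d = 2) ∨
    (A.count d = 1 ∧ X.count d = 0 ∧ B.count d = 1 ∧ Y.count d = 0) ∨
    (A.count d = 0 ∧ X.count d = 1 ∧ B.count d = 0 ∧ Y.count d = 1)) with k | k | k | k | k | k
  · obtain ⟨P, U, S, rfl, k1, k2, -⟩ := split_two k.1
    have e : ∀ β₁ β₂ β₃ β₄, sm (fl c β₁ β₂ β₃ β₄ (P ++ d :: (U ++ d :: S)) X B Y) d =
        fl c β₁ β₂ β₃ β₄ (P ++ (U.reverse ++ S)) X B Y := fun β₁ β₂ β₃ β₄ =>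
      (sm_eq (P := o β₁ c ++ P) (U := U) (by simp only [fl, List.append_assoc, List.cons_append]; rfl)
        (by simp [no, k1]) k2).trans (by simp [fl])
    rw [e, e]
    exact (same_fl c _ _ _ _ (fun a ha => hd a (by simp at ha ⊢; tauto)) hb).1
  · obtain ⟨P, U, S, rfl, k1, k2, -⟩ := split_two k.2.1
    have e : ∀ β₁ β₂ β₃ β₄, sm (fl c β₁ β₂ β₃ β₄ A (P ++ d :: (U ++ d :: S)) B Y) d =
        fl c β₁ β₂ β₃ β₄ A (P ++ (U.reverse ++ S)) B Y := fun β₁ β₂ β₃ β₄ =>
      (sm_eq (P := o β₁ c ++ (A ++ (o β₂ c ++ P))) (U := U)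
        (by simp only [fl, List.append_assoc, List.cons_append]; rfl)
        (by simp [no, k1, z k.1]) k2).trans (by simp [fl])
    rw [e, e]
    exact (same_fl c _ _ _ _ (fun a ha k => hd a ha (by simp at k ⊢; tauto)) hb).1
  · obtain ⟨P, U, S, rfl, k1, k2, -⟩ := split_two k.2.2.1
    have e : ∀ β₁ β₂ β₃ β₄, sm (fl c β₁ β₂ β₃ β₄ A X (P ++ d :: (U ++ d :: S)) Y) d =
        fl c β₁ β₂ β₃ β₄ A X (P ++ (U.reverse ++ S)) Y := fun β₁ β₂ β₃ β₄ =>
      (sm_eq (P := o β₁ c ++ (A ++ (o β₂ c ++ (X ++ (o β₃ c ++ P))))) (U := U)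
        (by simp only [fl, List.append_assoc, List.cons_append]; rfl)
        (by simp [no, k1, z k.1, z k.2.1]) k2).trans (by simp [fl])
    rw [e, e]
    exact (same_fl c _ _ _ _ (fun a ha => hd a (by simp at ha ⊢; tauto)) hb).1
  · obtain ⟨P, U, S, rfl, k1, k2, -⟩ := split_two k.2.2.2
    have e : ∀ β₁ β₂ β₃ β₄, sm (fl c β₁ β₂ β₃ β₄ A X B (P ++ d :: (U ++ d :: S))) d =
        fl c β₁ β₂ β₃ β₄ A X B (P ++ (U.reverse ++ S)) := fun β₁ β₂ β₃ β₄ =>
      (sm_eq (P := o β₁ c ++ (A ++ (o β₂ c ++ (X ++ (o β₃ c ++ (B ++ (o β₄ c ++ P))))))) (U := U)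
        (by simp only [fl, List.append_assoc]; rfl)
        (by simp [no, k1, z k.1, z k.2.1, z k.2.2.1]) k2).trans (by simp [fl])
    rw [e, e]
    exact (same_fl c _ _ _ _ (fun a ha k => hd a ha (by simp at k ⊢; tauto)) hb).1
  · obtain ⟨A₁, A₂, rfl, k1, k2⟩ := split_one' k.1
    obtain ⟨B₁, B₂, rfl, k3, -⟩ := split_one' k.2.2.1
    have e : ∀ β₁ β₂ β₃ β₄, sm (fl c β₁ β₂ β₃ β₄ (A₁ ++ d :: A₂) X (B₁ ++ d :: B₂) Y) d =
        fl c β₁ β₃ β₂ β₄ (A₁ ++ B₁.reverse) X.reverse (A₂.reverse ++ B₂) Y := fun β₁ β₂ β₃ β₄ =>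
      (sm_eq (P := o β₁ c ++ A₁) (U := A₂ ++ (o β₂ c ++ (X ++ (o β₃ c ++ B₁))))
        (by simp only [fl, List.append_assoc, List.cons_append]; rfl)
        (by simp [no, k1]) (by simp [no, k2, k3, z k.2.1])).trans (by simp [fl])
    rw [e, e]
    exact (same_fl c _ _ _ _ (fun a ha k => hd a (by simp at ha ⊢; tauto) (by simpa using k))
      (by omega)).1
  · obtain ⟨X₁, X₂, rfl, k1, k2⟩ := split_one' k.2.1
    obtain ⟨Y₁, Y₂, rfl, k3, -⟩ := split_one' k.2.2.2
    have e : ∀ β₁ β₂ β₃ β₄, sm (fl c β₁ β₂ β₃ β₄ A (X₁ ++ d :: X₂) B (Y₁ ++ d :: Y₂)) d =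
        fl c β₁ β₂ β₄ β₃ A (X₁ ++ Y₁.reverse) B.reverse (X₂.reverse ++ Y₂) := fun β₁ β₂ β₃ β₄ =>
      (sm_eq (P := o β₁ c ++ (A ++ (o β₂ c ++ X₁))) (U := X₂ ++ (o β₃ c ++ (B ++ (o β₄ c ++ Y₁))))
        (by simp only [fl, List.append_assoc, List.cons_append]; rfl)
        (by simp [no, k1, z k.1]) (by simp [no, k2, k3, z k.2.2.1])).trans (by simp [fl])
    rw [e, e]
    exact (same_fl c _ _ _ _ (fun a ha k => hd a (by simpa using ha) (by simp at k ⊢; tauto))
      (by omega)).1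

end Pool.Agent.MP_b13154_gt

end

-- part MP_b13154_gt.Chain
section

/-!
Smoothing a good crossing with a false twin is well defined on flype classes.
-/

namespace Pool.Agent.MP_b13154_gt

open Gr

theorem cnt_eq_zero_iff {a : ℕ} {l : List ℕ} : cnt a l = 0 ↔ Even (l.count a) :=
  ZMod.natCast_eq_zero_iff_even

theorem cnt_eq_one_iff {a : ℕ} {l : List ℕ} : cnt a l = 1 ↔ Odd (l.count a) :=
  ZMod.natCast_eq_one_iff_odd

theorem rev_of_inv : ∀ A B : List ℕ, (∀ a, a ∈ A ∨ a ∈ B → A.count a = 1 ∧ B.count a = 1) →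
    (∀ a ∈ A, ∀ b ∈ A, a ≠ b → inv a b A + inv a b B = 1) → B = A.reverse := by
  intro A
  induction A with
  | nil =>
    intro B h _
    refine List.eq_nil_iff_forall_not_mem.2 fun b hb => ?_
    simpa using (h b (Or.inr hb)).1
  | cons a A ih =>
    intro B h k
    obtain ⟨h1, h2⟩ := h a (by simp)
    have ha : a ∉ A := List.count_eq_zero.1 (by simpa using h1)
    obtain ⟨B₁, B₂, rfl, k1, k2⟩ := split_one' h2
    obtain rfl : B₂ = [] := by
      refine List.eq_nil_iff_forall_not_mem.2 fun b hb => ?_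
      have hab : a ≠ b := fun e => k2 (e ▸ hb)
      obtain ⟨h3, h4⟩ := h b (by simp [hb])
      have h5 := List.count_pos_iff.2 hb
      rw [List.count_cons_of_ne hab] at h3
      rw [List.count_append, List.count_cons_of_ne hab] at h4
      have := k a (by simp) b (List.mem_cons_of_mem _ (List.count_pos_iff.1 (by omega))) hab
      simp only [inv_cons_self, inv_append, inv_of_not_mem_left b ha, inv_of_not_mem_left b k1,
        inv_of_not_mem_left b k2, cnt, h3,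
        (by omega : List.count b B₂ = 1), List.count_eq_zero_of_not_mem k1] at this
      revert this
      simp
    rw [List.reverse_cons, ih B₁ (fun b hb => ?_) (fun b hb c hc hbc => ?_)]
    · have hab : a ≠ b := by
        rintro rfl
        tauto
      have := h b (by simp; tauto)
      simpa [List.count_cons_of_ne hab] using this
    · have hab : a ≠ b := fun e => ha (e ▸ hb)
      have hac : a ≠ c := fun e => ha (e ▸ hc)
      have := k b (by simp [hb]) c (by simp [hc]) hbc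
      simpa [inv_cons_ne hab, cnt_cons_ne hac] using this

theorem map_swap {a b : ℕ} {l : List ℕ} (ha : a ∉ l) (hb : b ∉ l) :
    l.map (Equiv.swap a b) = l := by
  conv_rhs => rw [← List.map_id l]
  exact List.map_congr_left fun x hx =>
    Equiv.swap_apply_of_ne_of_ne (fun e => ha (e ▸ hx)) fun e => hb (e ▸ hx)

theorem sm_twin_aux {c d : ℕ} {A X B Y w : List ℕ}
    (e : w = c :: (A ++ d :: (X ++ d :: (B ++ c :: Y)))) (h : DO w) (hc : (gr w).Conn)
    (hg : (gr w).Good c) (f : (gr w).FT c d) (hne : c ≠ d) : E (sm w c) (sm w d) := by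
  have e1 : w = [] ++ c :: ((A ++ d :: (X ++ d :: B)) ++ c :: Y) := by simp [e]
  have e2 : w = (c :: A) ++ d :: (X ++ d :: (B ++ c :: Y)) := by simp [e]
  have n1 := (e1 ▸ h).not_mem
  have n2 := (e2 ▸ h).not_mem
  simp only [List.mem_append, List.mem_cons, not_or] at n1 n2
  have r1 : ∀ y, (gr w).r c y ↔ cnt y (A ++ d :: (X ++ d :: B)) = 1 := fun y => h.r_of_eq e1
  have r2 : ∀ y, (gr w).r d y ↔ cnt y X = 1 := fun y => h.r_of_eq e2
  have hcount : ∀ a, a ∈ A ∨ a ∈ B → a ≠ c ∧ a ≠ d ∧ A.count a + B.count a = 2 ∧ a ∉ X ∧ a ∉ Y := by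
    intro a ha
    have hac : a ≠ c := by
      rintro rfl
      tauto
    have had : a ≠ d := by
      rintro rfl
      tauto
    have h1 := h a (by simp [e]; tauto)
    have h2 := f a
    rw [r1, r2] at h2
    simp only [cnt_append, cnt_cons_ne had.symm] at h2
    have h3 : cnt a (A ++ B) = 0 := by
      rw [cnt_append]
      revert h2
      generalize cnt a A = x, cnt a X = y, cnt a B = z
      revert x y z
      decide
    rw [cnt_eq_zero_iff, List.count_append] at h3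
    have h4 : 0 < A.count a + B.count a := by
      rcases ha with ha | ha <;> have := List.count_pos_iff.2 ha <;> omega
    simp only [e, List.count_cons_of_ne hac.symm, List.count_cons_of_ne had.symm,
      List.count_append] at h1
    obtain ⟨m, hm⟩ := h3
    exact ⟨hac, had, by omega, List.count_eq_zero.1 (by omega), List.count_eq_zero.1 (by omega)⟩
  have hx : ∀ x, x ∈ A ∨ x ∈ B → ¬ (gr w).r c x := by
    intro x hx
    obtain ⟨-, -, -, h4, -⟩ := hcount x hx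
    rw [f x, r2, cnt_of_not_mem h4]
    exact zero_ne_one
  have hxy : ∀ x, x ∈ A ∨ x ∈ B → ∀ y, ¬ (y ∈ A ∨ y ∈ B) →
      ((gr w).r x y ↔ cnt x B = 1 ∧ (gr w).r c y) := by
    intro x hx' y hy
    obtain ⟨h1, h2, -, h4, h5⟩ := hcount x hx'
    by_cases hyc : y = c
    · subst hyc
      exact ⟨fun k => absurd ((gr w).symm k) (hx x hx'), fun k => absurd k.2 ((gr w).irr _)⟩
    by_cases hyd : y = d
    · subst hyd
      exact ⟨fun k => absurd ((f x).2 ((gr w).symm k)) (hx x hx'), fun k => absurd k.2 f.not_r⟩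
    have h0 := h.cnt0 y
    have hxy : x ≠ y := fun k => hy (k ▸ hx')
    rw [not_or] at hy
    rw [f y, r2, h.r_iff]
    simp only [e, inv_append, cnt_append, inv_cons_ne h1.symm, inv_cons_ne h2.symm,
      cnt_cons_ne (Ne.symm hyc), cnt_cons_ne (Ne.symm hyd), cnt_of_not_mem hy.1,
      cnt_of_not_mem hy.2, inv_of_not_mem_right x hy.1, inv_of_not_mem_right x hy.2,
      inv_of_not_mem_left y h4, inv_of_not_mem_left y h5, cnt_of_not_mem h4, ne_eq, hxy,
      not_false_eq_true, true_and] at h0 ⊢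
    revert h0
    generalize cnt x A = p, cnt x B = q, cnt y X = r, cnt y Y = s
    revert p q r s
    decide
  have hT : (gr w).Thru c {x | x ∈ A ∨ x ∈ B} := by
    intro x hx'
    refine ⟨(hcount x hx').1, hx x hx', ?_⟩
    by_cases k : cnt x B = 1
    · exact Or.inl fun y hy => by simp [hxy x hx' y hy, k]
    · exact Or.inr fun y hy => by simp [hxy x hx' y hy, k]
  have hcV : c ∈ (gr w).V := mem_gr.2 (by simp [e])
  obtain ⟨y, hy⟩ := hc.exists_r hcV (mem_gr.2 (by simp [e])) hne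
  have hone : ∀ a, a ∈ A ∨ a ∈ B → A.count a = 1 ∧ B.count a = 1 := by
    intro a ha
    have h1 := hg.ft_of_thru hc hcV hT ha (mem_gr.2 (by simp [e]; tauto))
    obtain ⟨m, hm⟩ := cnt_eq_one_iff.1 ((hxy a ha y fun k => hx y k hy).1 ((h1 y).2 hy)).1
    have := (hcount a ha).2.2.1
    omega
  have hB : B = A.reverse := by
    refine rev_of_inv A B hone fun a ha b hb hab => ?_
    have h1 := hg _ hT a (Or.inl ha) b (Or.inl hb)
    obtain ⟨a1, a2, -, a4, a5⟩ := hcount a (Or.inl ha)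
    obtain ⟨b1, b2, -, b4, b5⟩ := hcount b (Or.inl hb)
    rw [h.r_iff] at h1
    have c1 : cnt a A = 1 := by simp [cnt, (hone a (Or.inl ha)).1]
    have c2 : cnt b B = 1 := by simp [cnt, (hone b (Or.inl hb)).2]
    simp only [e, inv_append, cnt_append, inv_cons_ne a1.symm, inv_cons_ne a2.symm,
      cnt_cons_ne b1.symm, cnt_cons_ne b2.symm, cnt_of_not_mem b4, cnt_of_not_mem b5,
      inv_of_not_mem_left b a4, inv_of_not_mem_left b a5, cnt_of_not_mem a4, ne_eq, hab, c1, c2,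
      not_false_eq_true, true_and] at h1
    revert h1
    generalize inv a b A = p, inv a b B = q, cnt a B = r
    revert p q r
    decide
  rw [sm_eq e1 (by simp) (by simp; tauto), sm_eq e2 (by simp; tauto) n2.2.1]
  have h1 := (same_fl c true false false true (A := A) (X := X.reverse) (B := B) (Y := Y)
    (fun a ha k => by
      have := hcount a ha
      simp at k
      tauto) rfl).1
  refine E.sy ((h1.tr (E.of (Move.ren (Equiv.swap c d) _))).cast (by simp [fl]) ?_)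
  simp only [fl, Bool.not_true, Bool.not_false, o_true, o_false, List.nil_append,
    List.cons_append, List.map_append, List.map_cons, Equiv.swap_apply_left, List.map_reverse]
  rw [map_swap (l := A) (by tauto) (by tauto), map_swap (l := X) (by tauto) (by tauto),
    map_swap (l := B) (by tauto) (by tauto), map_swap (l := Y) (by tauto) (by tauto), hB]
  simp

theorem sm_twin {c d : ℕ} {w : List ℕ} (h : DO w) (hc : (gr w).Conn) (hg : (gr w).Good c)
    (f : (gr w).FT c d) (hne : c ≠ d) (hcw : c ∈ w) (hdw : d ∈ w) : E (sm w c) (sm w d) := by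
  have aux : ∀ P S U Y, w = P ++ S → S ++ P = c :: (U ++ c :: Y) → U.count d = 2 →
      E (sm w c) (sm w d) := by
    intro P S U Y e e' hU
    subst e
    obtain ⟨A, X, B, rfl, -⟩ := split_two hU
    have s := same_rot P S
    have g := s.2.2 h
    exact (sm_rot (h c hcw)).tr ((sm_twin_aux (A := A) (X := X) (B := B) (Y := Y)
      (by simp [e']) (h.perm s.2.1) (g ▸ hc) (g ▸ hg) (g ▸ f) hne).tr (sm_rot (h d hdw)).sy)
  obtain ⟨P, U, S, e, -⟩ := split_two (h c hcw)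
  have h1 : cnt d U = 0 := by
    have := f.not_r
    rw [h.r_of_eq e] at this
    exact (z2 _).resolve_right this
  obtain ⟨m, hm⟩ := cnt_eq_zero_iff.1 h1
  have h2 := h d hdw
  simp only [e, List.count_append, List.count_cons_of_ne hne] at h2
  by_cases k : U.count d = 2
  · exact aux P (c :: (U ++ c :: S)) U (S ++ P) e (by simp) k
  · exact aux (P ++ c :: U) (c :: S) (S ++ P) U (by simp [e]) (by simp)
      (by rw [List.count_append]; omega)

def Nice (G : Gr) (c : ℕ) : Prop := c ∈ G.V ∧ G.Good c ∧ ∃ d ∈ G.V, c ≠ d ∧ G.FT c d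

theorem Nice.iso {G H : Gr} {σ : Equiv.Perm ℕ} (h : Iso σ G H) {c : ℕ} (k : Nice G c) :
    Nice H (σ c) := by
  obtain ⟨h1, h2, d, h3, h4, h5⟩ := k
  exact ⟨(h.1 c).2 h1, h.good h2, σ d, (h.1 d).2 h3, fun e => h4 (σ.injective e), h.ft h5⟩

def Rel (w v : List ℕ) : Prop :=
  (DO w ↔ DO v) ∧ (DO w → ∃ σ, Iso σ (gr w) (gr v) ∧
    ((gr w).Conn → ∀ c, Nice (gr w) c → E (sm w c) (sm v (σ c))))

theorem rel_of_same {w v : List ℕ} (s : Same w v)
    (k : DO w → (gr w).Conn → ∀ c, Nice (gr w) c → E (sm w c) (sm v c)) : Rel w v :=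
  ⟨⟨fun h => h.perm s.2.1, fun h => h.perm s.2.1.symm⟩,
    fun h => ⟨1, s.2.2 h ▸ Iso.refl _, k h⟩⟩

theorem rel_fl (c : ℕ) (b₁ b₂ b₃ b₄ : Bool) {A X B Y : List ℕ} (hd : ∀ a ∈ A ++ B, a ∉ X ++ Y)
    (hb : b₁.toNat + b₂.toNat + b₃.toNat + b₄.toNat = 2) :
    Rel (fl c b₁ b₂ b₃ b₄ A X B Y) (fl c (!b₁) (!b₂) (!b₃) (!b₄) A X B Y) := by
  have hd' : Dis A X B Y := fun a ha k => hd a (List.mem_append.2 ha) (List.mem_append.2 k)
  have s := same_fl c b₁ b₂ b₃ b₄ hd' hb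
  refine rel_of_same s fun h hc d hn => ?_
  have key : ∀ x, x ∈ (gr (fl c b₁ b₂ b₃ b₄ A X B Y)).V → x ≠ c →
      E (sm (fl c b₁ b₂ b₃ b₄ A X B Y) x) (sm (fl c (!b₁) (!b₂) (!b₃) (!b₄) A X B Y) x) := by
    intro x hx hxc
    refine sm_fl _ _ _ _ hd' hb hxc ?_
    have := h x (mem_gr.1 hx)
    rwa [(fl_perm c _ _ _ _ A X B Y hb).count_eq, List.count_cons_of_ne hxc.symm,
      List.count_cons_of_ne hxc.symm] at this
  by_cases e : d = c
  · obtain ⟨h1, h2, x, h3, h4, h5⟩ := hn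
    have g := s.2.2 h
    exact (sm_twin h hc h2 h5 h4 (mem_gr.1 h1) (mem_gr.1 h3)).tr ((key x h3 (e ▸ h4.symm)).tr
      (sm_twin (h.perm s.2.1) (g ▸ hc) (g ▸ h2) (g ▸ h5) h4 (mem_gr.1 (g ▸ h1))
        (mem_gr.1 (g ▸ h3))).sy)
  · exact key d hn.1 e

theorem rel_of_E {w v : List ℕ} (h : E w v) : Rel w v := by
  induction h with
  | rel w v h =>
    cases h with
    | rot a w =>
      exact rel_of_same (same_rot [a] w) fun h _ c hn => sm_rot (P := [a]) (h c (mem_gr.1 hn.1))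
    | rev => exact rel_of_same (same_rev w) fun h _ c hn => sm_rev (h c (mem_gr.1 hn.1))
    | ren σ =>
      refine ⟨⟨fun h => h.map σ, fun h => by simpa using h.map σ⁻¹⟩,
        fun h => ⟨σ, iso_map w σ, fun _ c hn => ?_⟩⟩
      rw [sm_map (h c (mem_gr.1 hn.1))]
      exact E.of (Move.ren σ _)
    | par c A X B Y h => simpa [fl] using rel_fl c true false true false h rfl
    | anti c A X B Y h => simpa [fl] using rel_fl c true false false true h rfl
    | turn c A X B Y h => simpa [fl] using rel_fl c true true false false h rfl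
  | refl w => exact rel_of_same Same.rfl fun _ _ _ _ => E.rfl
  | symm w v _ ih =>
    refine ⟨ih.1.symm, fun h => ?_⟩
    obtain ⟨σ, h1, h2⟩ := ih.2 (ih.1.2 h)
    exact ⟨σ⁻¹, h1.symm, fun hc c hn => by
      simpa using (h2 (h1.symm.conn hc) _ (hn.iso h1.symm)).sy⟩
  | trans w v u _ _ ih ih' =>
    refine ⟨ih.1.trans ih'.1, fun h => ?_⟩
    obtain ⟨σ, h1, h2⟩ := ih.2 h
    obtain ⟨τ, h3, h4⟩ := ih'.2 (ih.1.1 h)
    exact ⟨τ * σ, h1.trans h3, fun hc c hn => (h2 hc c hn).tr (h4 (h1.conn hc) _ (hn.iso h1))⟩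

def Prime (w : List ℕ) : Prop :=
  ∀ P U S : List ℕ, w = P ++ U ++ S → U ≠ [] → P ++ S ≠ [] → ∃ a ∈ U, a ∈ P ++ S

theorem prime_of_conn {w : List ℕ} (h : DO w) (hc : (gr w).Conn) : Prime w := by
  intro P U S e hU hPS
  by_contra hno
  push Not at hno
  obtain ⟨a, ha⟩ := List.exists_mem_of_ne_nil _ hU
  obtain ⟨b, hb⟩ := List.exists_mem_of_ne_nil _ hPS
  obtain ⟨x, hx, y, hy, hxy⟩ := hc {a | a ∈ U} ⟨a, mem_gr.2 (by simp [e, ha]), ha⟩
    ⟨b, mem_gr.2 (by simp [e] at hb ⊢; tauto), fun k => hno b k hb⟩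
  have h1 := hno x hx
  rw [List.mem_append, not_or] at h1
  have h2 := h.cnt0 x
  have h3 := hxy.2.1
  simp only [e, cnt_append, inv_append, cnt_of_not_mem h1.1, cnt_of_not_mem h1.2,
    inv_of_not_mem_left y h1.1, inv_of_not_mem_left y h1.2, inv_of_not_mem_right x hy,
    zero_add, add_zero, zero_mul] at h2 h3
  simp [h2] at h3

theorem conn_of_prime {w : List ℕ} (h : DO w) (hp : Prime w) : (gr w).Conn := by
  have key : ∀ (m : ℕ) (X : Set ℕ) (P U S : List ℕ), (∀ a ∈ X, ∀ b ∉ X, ¬ (gr w).r a b) →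
      w = P ++ U ++ S → U.length ≤ m → (∀ a ∈ U, a ∈ X → a ∉ P ++ S) → (∃ a ∈ U, a ∈ X) →
      (∃ a ∈ U, a ∉ X) → False := by
    intro m
    induction m with
    | zero =>
      rintro X P U S - - hl - ⟨a, ha, -⟩ -
      have := List.length_pos_of_mem ha
      omega
    | succ m ih =>
      rintro X P U S hX e hl hcl hb hr
      by_cases hch : ∃ c U₁ V U₂, U = U₁ ++ c :: (V ++ c :: U₂) ∧ c ∈ X ∧ ∃ r ∈ V, r ∉ X
      · obtain ⟨c, U₁, V, U₂, rfl, hc, hr'⟩ := hch
        have e' : w = (P ++ U₁) ++ c :: (V ++ c :: (U₂ ++ S)) := by simp [e]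
        have hcl' : ∀ a ∈ V, a ∉ X → a ∉ (P ++ U₁ ++ [c]) ++ c :: (U₂ ++ S) := by
          intro a ha haX
          have h1 := hX c hc a haX
          rw [h.r_of_eq e'] at h1
          obtain ⟨k, hk⟩ := cnt_eq_zero_iff.1 ((z2 _).resolve_right h1)
          have h2 := h a (by simp [e', ha])
          have h3 := List.count_pos_iff.2 ha
          have hac : c ≠ a := fun e => haX (e ▸ hc)
          rw [← List.count_eq_zero]
          simp only [e', List.count_append, List.count_cons_of_ne hac, List.count_nil] at h2 ⊢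
          omega
        by_cases hb' : ∃ a ∈ V, a ∈ X
        · refine ih Xᶜ (P ++ U₁ ++ [c]) V (c :: (U₂ ++ S))
            (fun a ha b hb k => hX b (not_not.1 hb) a ha ((gr w).symm k)) (by simp [e]) ?_ hcl' hr'
            (by simpa using hb')
          simp only [List.length_append, List.length_cons] at hl
          omega
        · obtain ⟨r, hr1, -⟩ := hr'
          obtain ⟨a, ha, ha'⟩ := hp (P ++ U₁ ++ [c]) V (c :: (U₂ ++ S)) (by simp [e])
            (List.ne_nil_of_mem hr1) (by simp)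
          exact hcl' a ha (fun k => hb' ⟨a, ha, k⟩) ha'
      · obtain ⟨R, x, T, rfl, hx, hR⟩ := first_of_exists U hb
        obtain ⟨J, T', e1, hJ, hT⟩ : ∃ J T', T = J ++ T' ∧ (∀ a ∈ J, a ∈ X) ∧
            (T' = [] ∨ ∃ r T'', T' = r :: T'' ∧ r ∉ X) := by
          by_cases k : ∃ a ∈ T, a ∉ X
          · obtain ⟨J, r, T'', e1, k1, k2⟩ := first_of_exists T k
            exact ⟨J, r :: T'', e1, fun a ha => not_not.1 (k2 a ha), Or.inr ⟨r, T'', rfl, k1⟩⟩
          · push Not at k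
            exact ⟨T, [], by simp, k, Or.inl rfl⟩
        subst e1
        obtain ⟨a, ha, ha'⟩ := hp (P ++ R) (x :: J) (T' ++ S) (by simp [e]) (by simp) (by
          obtain ⟨r, hr1, hr2⟩ := hr
          refine List.ne_nil_of_mem (a := r) ?_
          have : r ≠ x := fun k => hr2 (k ▸ hx)
          have : r ∉ J := fun k => hr2 (hJ r k)
          simp at hr1 ⊢
          tauto)
        have haX : a ∈ X := by
          rcases List.mem_cons.1 ha with k | k
          · exact k ▸ hx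
          · exact hJ a k
        have h1 := hcl a (by simp at ha ⊢; tauto) haX
        have h2 : a ∉ R := fun k => hR a k haX
        have h3 : a ∈ T' := by
          simp at ha' h1
          tauto
        rcases hT with rfl | ⟨r, T'', rfl, hr'⟩
        · simp at h3
        · obtain ⟨J₁, J₂, e2⟩ := List.append_of_mem ha
          obtain ⟨T₁, T₂, rfl⟩ := List.append_of_mem
            ((List.mem_cons.1 h3).resolve_left fun k => hr' (k ▸ haX))
          refine hch ⟨a, R ++ J₁, J₂ ++ r :: T₁, T₂, ?_, haX, r, by simp, hr'⟩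
          rw [← List.cons_append, e2]
          simp
  rintro X ⟨a, ha, ha'⟩ ⟨b, hb, hb'⟩
  by_contra hno
  push Not at hno
  exact key _ X [] w [] hno (by simp) le_rfl (by simp) ⟨a, mem_gr.1 ha, ha'⟩ ⟨b, mem_gr.1 hb, hb'⟩

end Pool.Agent.MP_b13154_gt

end

-- part MP_b13154_gt.Planar
section

/-!
Consequences of planarity: two-colourings of the faces and parity conditions.
-/

namespace Pool.Agent.MP_b13154_gt

open Gr

section Walk

variable {L L' : Type}

def inn (k : ℕ × Fin 4 → L) (x : ℕ × Fin 4) : L × L := (k (x.1, x.2 + 3), k (x.1, x.2))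

def out (k : ℕ × Fin 4 → L) (x : ℕ × Fin 4) : L × L := (k (x.1, x.2 + 2), k (x.1, x.2 + 1))

def Walk (k : ℕ × Fin 4 → L) : L × L → List (ℕ × Fin 4) → L × L → Prop
  | s, [], e => s = e
  | s, x :: t, e => s = inn k x ∧ Walk k (out k x) t e

variable {k k' : ℕ × Fin 4 → L}

theorem walk_append {s e : L × L} {t t' : List (ℕ × Fin 4)} :
    Walk k s (t ++ t') e ↔ ∃ m, Walk k s t m ∧ Walk k m t' e := by
  induction t generalizing s with
  | nil => simp [Walk]
  | cons x t ih => simp [Walk, ih, and_assoc]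

theorem Walk.map {s e : L × L} {t : List (ℕ × Fin 4)} (h : Walk k s t e) (ψ : L → L') :
    Walk (ψ ∘ k) (Prod.map ψ ψ s) t (Prod.map ψ ψ e) := by
  induction t generalizing s with
  | nil => exact congrArg _ h
  | cons x t ih => exact ⟨congrArg _ h.1, ih h.2⟩

theorem Walk.congr {s e : L × L} {t : List (ℕ × Fin 4)} (h : Walk k s t e)
    (hk : ∀ a ∈ t.map Prod.fst, ∀ j, k' (a, j) = k (a, j)) : Walk k' s t e := by
  induction t generalizing s with
  | nil => exact h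
  | cons x t ih =>
    have := hk x.1 (by simp)
    refine ⟨by rw [h.1, inn, inn, this, this], ?_⟩
    rw [show out k' x = out k x by rw [out, out, this, this]]
    exact ih h.2 fun a ha => hk a (List.mem_cons_of_mem _ ha)

def opp (x : ℕ × Fin 4) : ℕ × Fin 4 := (x.1, x.2 + 2)

theorem Walk.rev {s e : L × L} {t : List (ℕ × Fin 4)} (h : Walk k s t e) :
    Walk k e.swap (t.reverse.map opp) s.swap := by
  induction t generalizing s with
  | nil => exact congrArg _ (Eq.symm h)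
  | cons x t ih =>
    rw [List.reverse_cons, List.map_append, walk_append]
    have e1 : ∀ i : Fin 4, i + 2 + 3 = i + 1 ∧ i + 2 + 2 = i ∧ i + 2 + 1 = i + 3 := by decide
    refine ⟨_, ih h.2, ?_, ?_⟩
    · simp [inn, out, opp, e1]
    · rw [h.1]
      simp [Walk, inn, out, opp, e1]

theorem chain_iff (x y : ℕ × Fin 4) (t : List (ℕ × Fin 4)) :
    List.IsChain (fun x y => k (x.1, x.2 + 2) = k (y.1, y.2 + 3) ∧ k (x.1, x.2 + 1) = k (y.1, y.2))
      (x :: (t ++ [y])) ↔ Walk k (out k x) t (inn k y) := by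
  induction t generalizing x with
  | nil => simp [Walk, inn, out]
  | cons z t ih =>
    rw [List.cons_append, List.isChain_cons_cons, ih, Walk]
    simp [inn, out]

theorem cyc_iff (s₀ : L × L) (t : List (ℕ × Fin 4)) :
    List.IsChain (fun x y => k (x.1, x.2 + 2) = k (y.1, y.2 + 3) ∧ k (x.1, x.2 + 1) = k (y.1, y.2))
      (t ++ t.take 1) ↔ ∃ s, Walk k s t s := by
  cases t with
  | nil => exact ⟨fun _ => ⟨s₀, rfl⟩, fun _ => by simp⟩
  | cons x t =>
    rw [show (x :: t).take 1 = [x] by simp, List.cons_append, chain_iff]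
    simp [Walk]

end Walk

def par (x : ℕ × Fin 4) : ℕ × ℕ := (x.1, x.2.val % 2)

def Pl (n : ℕ) (w : List ℕ) : Prop :=
  ∃ (t : List (ℕ × Fin 4)) (k : ℕ × Fin 4 → ℕ) (s : ℕ × ℕ), t.map Prod.fst = w ∧
    (t.map par).Nodup ∧ Walk k s t s ∧ n + 2 ≤ ((w.toFinset ×ˢ Finset.univ).image k).card

theorem isDiagram_iff {n : ℕ} {w : List ℕ} :
    IsDiagram n w ↔ w.length = 2 * n ∧ DO w ∧ Prime w ∧ Pl n w := by
  refine and_congr_right fun _ => and_congr_right fun _ => and_congr_right fun _ => ?_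
  constructor
  · rintro ⟨t, k, h1, h2, h3, h4⟩
    obtain ⟨s, hs⟩ := (cyc_iff (0, 0) t).1 h3
    exact ⟨t, k, s, h1, h2, hs, h4⟩
  · rintro ⟨t, k, s, h1, h2, h3, h4⟩
    exact ⟨t, k, h1, h2, (cyc_iff (0, 0) t).2 ⟨s, h3⟩, h4⟩

theorem dec {t : List (ℕ × Fin 4)} {P U S : List ℕ} {a : ℕ}
    (e : t.map Prod.fst = P ++ a :: (U ++ a :: S)) (h : (t.map par).Nodup) :
    ∃ tP i tU j tS, t = tP ++ (a, i) :: (tU ++ (a, j) :: tS) ∧ tP.map Prod.fst = P ∧
      tU.map Prod.fst = U ∧ tS.map Prod.fst = S ∧ (j = i + 1 ∨ j = i + 3) := by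
  obtain ⟨tP, t₁, rfl, rfl, e1⟩ := List.map_eq_append_iff.1 e
  obtain ⟨⟨a₁, i⟩, t₂, rfl, rfl, e2⟩ := List.map_eq_cons_iff.1 e1
  obtain ⟨tU, t₃, rfl, rfl, e3⟩ := List.map_eq_append_iff.1 e2
  obtain ⟨⟨a₂, j⟩, tS, rfl, e4, rfl⟩ := List.map_eq_cons_iff.1 e3
  obtain rfl : a₂ = a₁ := e4
  refine ⟨tP, i, tU, j, tS, rfl, rfl, rfl, rfl, ?_⟩
  have h1 : i.val % 2 ≠ j.val % 2 := by
    intro k
    rw [List.map_append, List.map_cons] at h
    refine (List.nodup_cons.1 (List.nodup_append.1 h).2.1).1 ?_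
    simp [par, k]
  exact (by decide : ∀ i j : Fin 4, i.val % 2 ≠ j.val % 2 → j = i + 1 ∨ j = i + 3) i j h1

theorem card_of_DO {w : List ℕ} {n : ℕ} (h : DO w) (hl : w.length = 2 * n) :
    w.toFinset.card = n := by
  have := List.sum_toFinset_count_eq_length w
  rw [Finset.sum_congr rfl fun a ha => h a (List.mem_toFinset.1 ha)] at this
  simp at this
  omega

section Colour

variable {c : ℕ × Fin 4 → ZMod 2}

def sg (c : ℕ × Fin 4 → ZMod 2) (a : ℕ) : ZMod 2 := c (a, 0) + c (a, 1) + c (a, 2) + c (a, 3)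
def kap (c : ℕ × Fin 4 → ZMod 2) (a : ℕ) : ZMod 2 := c (a, 0) + c (a, 2)
def gam (c : ℕ × Fin 4 → ZMod 2) (x : ℕ × Fin 4) : ZMod 2 := c (x.1, x.2 + 3) + c (x.1, x.2)
def del (c : ℕ × Fin 4 → ZMod 2) (x : ℕ × Fin 4) : ZMod 2 := c (x.1, x.2 + 3) + c (x.1, x.2 + 2)

theorem loc (g : Fin 4 → ZMod 2) (i : Fin 4) :
    g (i + 2) + g (i + 1) = g (i + 3) + g i + (g 0 + g 1 + g 2 + g 3) ∧
    (g 0 + g 1 + g 2 + g 3 = 0 → g (i + 3) + g (i + 2) = g (i + 3) + g i + (g 0 + g 2) ∧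
      ∀ j, j = i + 1 ∨ j = i + 3 → g (j + 3) + g j = g (i + 3) + g i + (g 0 + g 2) ∧
        (g 0 + g 2 = 0 → g (j + 3) = g (i + 2) ∧ (g (i + 3) + g i = 0 → ∀ l, g l = g 0))) := by
  revert g i
  decide

theorem Walk.sum {s e : ZMod 2 × ZMod 2} {t : List (ℕ × Fin 4)} (h : Walk c s t e) :
    e.1 + e.2 = s.1 + s.2 + ((t.map Prod.fst).map (sg c)).sum ∧
      e.1 = s.1 + (t.map (del c)).sum := by
  induction t generalizing s with
  | nil => simp [show s = e from h]
  | cons x t ih =>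
    obtain ⟨h1, h2⟩ := ih h.2
    have := (loc (fun j => c (x.1, j)) x.2).1
    rw [h1, h2, h.1]
    simp only [inn, out, List.map_cons, List.sum_cons, sg, del] at this ⊢
    exact ⟨by linear_combination this, by linear_combination - two (c (x.1, x.2 + 3))⟩

theorem Walk.gam {s e : ZMod 2 × ZMod 2} {t t' : List (ℕ × Fin 4)} {x : ℕ × Fin 4}
    (h : Walk c s (t ++ x :: t') e) :
    gam c x = s.1 + s.2 + ((t.map Prod.fst).map (sg c)).sum := by
  obtain ⟨m, h1, h2, -⟩ := walk_append.1 h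
  rw [← h1.sum.1, h2]
  rfl

theorem Walk.loop {s e : ZMod 2 × ZMod 2} {tP tU tS : List (ℕ × Fin 4)} {a : ℕ} {i j : Fin 4}
    (h : Walk c s (tP ++ (a, i) :: (tU ++ (a, j) :: tS)) e) (hj : j = i + 1 ∨ j = i + 3)
    (ha : sg c a = 0) : kap c a = ((tU.map Prod.fst).map (sg c)).sum ∧
      (kap c a = 0 → (tU.map (del c)).sum = 0) := by
  obtain ⟨m, -, -, h2⟩ := walk_append.1 h
  obtain ⟨m', h3, h4, -⟩ := walk_append.1 h2
  obtain ⟨h5, h6⟩ := h3.sum
  obtain ⟨l1, l2⟩ := loc (fun j => c (a, j)) i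
  obtain ⟨l3, l4⟩ := (l2 ha).2 j hj
  rw [h4] at h5 h6
  simp only [inn, out, sg, kap] at *
  refine ⟨by linear_combination h5 + l1 - l3 + ha, fun k => ?_⟩
  linear_combination (l4 k).1 - h6

theorem del_eq {x : ℕ × Fin 4} (h : sg c x.1 = 0) : del c x = gam c x + kap c x.1 :=
  ((loc (fun j => c (x.1, j)) x.2).2 h).1

theorem sum_zero {α : Type} {l : List α} {f : α → ZMod 2} (h : ∀ a ∈ l, f a = 0) :
    (l.map f).sum = 0 := List.sum_eq_zero (by simpa using h)

theorem col_zero {t : List (ℕ × Fin 4)} {e : ZMod 2 × ZMod 2} (h : DO (t.map Prod.fst))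
    (hn : (t.map par).Nodup) (hw : Walk c (0, 0) t e) (hs : ∀ a ∈ t.map Prod.fst, sg c a = 0) :
    ∀ a ∈ t.map Prod.fst, ∀ j, c (a, j) = 0 := by
  have h1 : ∀ a ∈ t.map Prod.fst, ∀ j, c (a, j) = c (a, 0) := by
    intro a ha
    obtain ⟨P, U, S, e1, -⟩ := split_two (h a ha)
    obtain ⟨tP, i, tU, j, tS, rfl, rfl, rfl, rfl, hj⟩ := dec e1 hn
    have k1 := (hw.loop hj (hs a ha)).1
    have k2 := hw.gam
    rw [sum_zero fun b hb => hs b (by rw [e1]; simp only [List.mem_append, List.mem_cons]; tauto)]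
      at k1 k2
    exact ((((loc (fun j => c (a, j)) i).2 (hs a ha)).2 j hj).2 k1).2 (by simpa [gam] using k2)
  clear h hn hs
  induction t with
  | nil => simp
  | cons x t ih =>
    have h2 := h1 x.1 (by simp)
    have h3 : c (x.1, 0) = 0 := by
      rw [← h2 x.2]
      exact (congrArg Prod.snd hw.1).symm
    have h4 : out c x = (0, 0) := by rw [out, h2, h2 (x.2 + 1), h3]
    intro a ha j
    rcases List.mem_cons.1 ha with rfl | ha
    · rw [h2, h3]
    · exact ih (h4 ▸ hw.2) (fun a ha => h1 a (List.mem_cons_of_mem _ ha)) a ha j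

end Colour

theorem exists_col {n : ℕ} {t : List (ℕ × Fin 4)} {k : ℕ × Fin 4 → ℕ} {s : ℕ × ℕ}
    (h : DO (t.map Prod.fst)) (hl : (t.map Prod.fst).length = 2 * n) (hn : (t.map par).Nodup)
    (hw : Walk k s t s)
    (hc : n + 2 ≤ (((t.map Prod.fst).toFinset ×ˢ Finset.univ).image k).card)
    (f : ℕ → ZMod 2) (s' : ZMod 2 × ZMod 2) :
    ∃ c, Walk c s' t s' ∧ ∀ a ∈ t.map Prod.fst, sg c a = f a := by
  set V := (t.map Prod.fst).toFinset with hV
  set Λ := (V ×ˢ Finset.univ).image k with hΛ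
  let ex : (Λ → ZMod 2) → ℕ → ZMod 2 := fun χ l => if h : l ∈ Λ then χ ⟨l, h⟩ else 0
  let Φ : (Λ → ZMod 2) → (V → ZMod 2) × ZMod 2 × ZMod 2 :=
    fun χ => (fun a => sg (ex χ ∘ k) a, Prod.map (ex χ) (ex χ) s)
  have hinj : Function.Injective Φ := by
    intro χ₁ χ₂ e
    have e1 := congrArg Prod.fst e
    have e2 := congrArg Prod.snd e
    have h1 := hw.map fun l => ex χ₁ l - ex χ₂ l
    have h2 : Prod.map (fun l => ex χ₁ l - ex χ₂ l) (fun l => ex χ₁ l - ex χ₂ l) s = (0, 0) :=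
      Prod.ext (sub_eq_zero.2 (congrArg Prod.fst e2)) (sub_eq_zero.2 (congrArg Prod.snd e2))
    rw [h2] at h1
    have h3 := col_zero h hn h1 fun a ha => by
      have := congrFun e1 ⟨a, List.mem_toFinset.2 ha⟩
      simp only [Φ, sg, Function.comp] at this ⊢
      linear_combination this
    funext ⟨l, hl⟩
    obtain ⟨⟨a, j⟩, hx, rfl⟩ := Finset.mem_image.1 hl
    have := h3 a (List.mem_toFinset.1 (Finset.mem_product.1 hx).1) j
    simpa [ex, hl, sub_eq_zero] using this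
  have hbij : Function.Bijective Φ := by
    refine (Fintype.bijective_iff_injective_and_card Φ).2 ⟨hinj, le_antisymm
      (Fintype.card_le_of_injective Φ hinj) ?_⟩
    simp only [Fintype.card_prod, Fintype.card_fun, ZMod.card, Fintype.card_coe]
    rw [card_of_DO h hl]
    calc 2 ^ n * (2 * 2) = 2 ^ (n + 2) := by ring
      _ ≤ _ := Nat.pow_le_pow_right (by norm_num) hc
  obtain ⟨χ, hχ⟩ := hbij.2 (fun a => f a, s')
  refine ⟨ex χ ∘ k, ?_, fun a ha => congrFun (congrArg Prod.fst hχ) ⟨a, List.mem_toFinset.2 ha⟩⟩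
  have := hw.map (ex χ)
  rwa [show Prod.map (ex χ) (ex χ) s = s' from congrArg Prod.snd hχ] at this

def Par (w : List ℕ) : Prop := ∀ P z U S, w = P ++ z :: (U ++ z :: S) → (U.length : ZMod 2) = 0

theorem kap_eq {t : List (ℕ × Fin 4)} {c : ℕ × Fin 4 → ZMod 2} {s e : ZMod 2 × ZMod 2}
    {f : ℕ → ZMod 2} (hn : (t.map par).Nodup) (hw : Walk c s t e)
    (hs : ∀ a ∈ t.map Prod.fst, sg c a = f a) {P U S : List ℕ} {a : ℕ}
    (e : t.map Prod.fst = P ++ a :: (U ++ a :: S)) (ha : f a = 0) : kap c a = (U.map f).sum := by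
  obtain ⟨tP, i, tU, j, tS, rfl, rfl, rfl, rfl, hj⟩ := dec e hn
  rw [(hw.loop hj ((hs a (by simp)).trans ha)).1]
  congr 1
  exact List.map_congr_left fun b hb =>
    hs b (by rw [e]; simp only [List.mem_append, List.mem_cons]; tauto)

theorem IsDiagram.par {n : ℕ} {w : List ℕ} (h : IsDiagram n w) : Par w := by
  obtain ⟨hl, hd, -, t, k, s, rfl, hn, hw, hc⟩ := isDiagram_iff.1 h
  obtain ⟨c, h1, h2⟩ := exists_col hd hl hn hw hc (fun _ => 0) (0, 1)
  have h3 : ∀ a ∈ t.map Prod.fst, kap c a = 0 := fun a ha => by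
    obtain ⟨P, U, S, e, -⟩ := split_two (hd a ha)
    simpa using kap_eq hn h1 h2 e rfl
  have h4 : ∀ x ∈ t, del c x = 1 := fun x hx => by
    rw [del_eq (h2 _ (List.mem_map_of_mem hx)), h3 _ (List.mem_map_of_mem hx)]
    obtain ⟨t₁, t₂, rfl⟩ := List.append_of_mem hx
    rw [h1.gam, sum_zero fun b hb =>
      h2 b (by simp only [List.map_append, List.mem_append]; tauto)]
    simp
  intro P z U S e
  obtain ⟨tP, i, tU, j, tS, rfl, rfl, rfl, rfl, hj⟩ := dec e hn
  have := (h1.loop hj (h2 z (by simp))).2 (h3 z (by simp))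
  rw [List.map_congr_left (g := fun _ => 1) fun x hx => h4 x (by simp [hx])] at this
  simpa using this

theorem sum_ind (a : ℕ) (l : List ℕ) :
    (l.map fun b => if b = a then (1 : ZMod 2) else 0).sum = cnt a l := by
  induction l with
  | nil => simp
  | cons x l ih => simp [ih, cnt_cons]

theorem IsDiagram.c2_aux {n : ℕ} {w P U S : List ℕ} {p a : ℕ} (h : IsDiagram n w)
    (e : w = P ++ p :: (U ++ p :: S)) (ha : a ∉ U) (hne : p ≠ a) :
    (U.map fun v => inv v a w).sum = 0 := by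
  obtain ⟨hl, hd, -, t, k, s, rfl, hn, hw, hc⟩ := isDiagram_iff.1 h
  obtain ⟨c, h1, h2⟩ := exists_col hd hl hn hw hc (fun b => if b = a then 1 else 0) (0, cnt a P)
  have h3 : ∀ v ∈ t.map Prod.fst, v ≠ a → kap c v = inv v a (t.map Prod.fst) := fun v hv hva => by
    obtain ⟨P, U, S, e, -⟩ := split_two (hd v hv)
    rw [kap_eq hn h1 h2 e (if_neg hva), sum_ind, e, DO.inv_eq (e ▸ hd) hva]
  have h5 := kap_eq hn h1 h2 e (if_neg hne)
  rw [sum_ind, cnt_of_not_mem ha] at h5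
  obtain ⟨tP, i, tU, j, tS, e', rfl, rfl, rfl, hj⟩ := dec e hn
  have h6 := ((e' ▸ h1).loop hj ((h2 p (by simp [e'])).trans (if_neg hne))).2 h5
  rw [← h6, List.map_map]
  congr 1
  refine List.map_congr_left fun x hx => ?_
  have hxa : x.1 ≠ a := fun k => ha (k ▸ List.mem_map_of_mem hx)
  have hxt : x.1 ∈ t.map Prod.fst := List.mem_map_of_mem (by simp [e', hx])
  rw [del_eq ((h2 _ hxt).trans (if_neg hxa)), h3 _ hxt hxa]
  obtain ⟨t₁, t₂, rfl⟩ := List.append_of_mem hx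
  have h7 : Walk c (0, cnt a (tP.map Prod.fst))
      ((tP ++ (p, i) :: t₁) ++ x :: (t₂ ++ (p, j) :: tS)) (0, cnt a (tP.map Prod.fst)) := by
    simpa [e'] using h1
  rw [h7.gam, List.map_congr_left (g := fun b => if b = a then 1 else 0) fun b hb =>
    h2 b (by rw [e']; simp only [List.map_append, List.mem_append, List.map_cons,
      List.mem_cons] at hb ⊢; tauto), sum_ind]
  have : a ∉ t₁.map Prod.fst := fun k => ha (by simp only [List.map_append, List.mem_append]; tauto)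
  simp [cnt_cons_ne hne, cnt_of_not_mem this, two]

theorem IsDiagram.c2 {n : ℕ} {w : List ℕ} (h : IsDiagram n w) : (gr w).C2 := by
  have hd : DO w := h.2.1
  have aux : ∀ a p z P U S, w = P ++ p :: (U ++ p :: S) → a ∉ U → a ≠ p → (gr w).r a z →
      (gr w).r p z → ∃ z', z' ≠ z ∧ (gr w).r a z' ∧ (gr w).r p z' := by
    intro a p z P U S e ha hne h1 h2
    by_contra hno
    push Not at hno
    have h3 := h.c2_aux e ha hne.symm
    have h4 := (hd.r_of_eq e).1 h2
    rw [Finset.sum_list_map_count, Finset.sum_eq_single z] at h3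
    · rw [nsmul_eq_mul, h1.2.2] at h3
      rw [cnt] at h4
      simp [h4] at h3
    · intro b hb hbz
      rw [nsmul_eq_mul]
      rcases z2 (cnt b U) with k | k
      · rw [cnt] at k
        simp [k]
      rcases z2 (inv b a w) with k' | k'
      · simp [k']
      refine absurd ((hd.r_of_eq e).2 k) (hno b hbz ((gr w).symm (hd.r_iff.2 ⟨?_, k'⟩)))
      exact fun k => ha (k ▸ List.mem_toFinset.1 hb)
    · intro k
      rw [cnt_of_not_mem (by simpa using k)] at h4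
      exact absurd h4 zero_ne_one
  intro a p z hne hr h1 h2
  obtain ⟨P, U, S, e, -, k, -⟩ := split_two (hd p (mem_gr.1 ((gr w).mem h2)))
  by_cases ha : a ∈ U
  · have h3 : cnt a U = 0 :=
      (z2 _).resolve_right fun k => hr ((gr w).symm ((hd.r_of_eq e).2 k))
    obtain ⟨m, hm⟩ := cnt_eq_zero_iff.1 h3
    have h4 := hd a (mem_gr.1 ((gr w).mem h1))
    have h5 := List.count_pos_iff.2 ha
    simp only [e, List.count_append, List.count_cons_of_ne hne.symm] at h4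
    obtain ⟨U₁, U₂, U₃, rfl, -⟩ := split_two (d := a) (l := U) (by omega)
    obtain ⟨z', k1, k2, k3⟩ := aux p a z (P ++ p :: U₁) U₂ (U₃ ++ p :: S) (by simp [e])
      (fun k' => k (by simp [k'])) hne.symm h2 h1
    exact ⟨z', k1, k3, k2⟩
  · exact aux a p z P U S e ha hne h1 h2

open Classical in
theorem len_eq {w P U S : List ℕ} {z : ℕ} (h : DO w) (e : w = P ++ z :: (U ++ z :: S)) :
    (U.length : ZMod 2) = ∑ b ∈ (gr w).V, if (gr w).r z b then 1 else 0 := by
  rw [← List.sum_toFinset_count_eq_length U, Nat.cast_sum]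
  rw [Finset.sum_subset (s₂ := (gr w).V)]
  · refine Finset.sum_congr rfl fun b _ => ?_
    rw [h.r_of_eq e]
    rcases z2 (cnt b U) with k | k <;> simp [k, ← cnt.eq_1]
  · intro b hb
    exact mem_gr.2 (by simp [e, List.mem_toFinset.1 hb])
  · intro b _ hb
    exact cnt_of_not_mem (by simpa using hb)

theorem Par.same {w v : List ℕ} (h : Par w) (hd : DO w) (s : Same w v) : Par v := by
  intro P z U S e
  obtain ⟨P', U', S', e', -⟩ := split_two (hd z (s.2.1.mem_iff.2 (by simp [e])))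
  rw [len_eq (hd.perm s.2.1) e, s.2.2 hd, ← len_eq hd e', h _ _ _ _ e']

theorem Par.c1 {w : List ℕ} (h : Par w) (hd : DO w) : (gr w).C1 := by
  intro a z hz
  by_contra hno
  push Not at hno
  obtain ⟨P, U, S, e, -⟩ := split_two (hd a (mem_gr.1 ((gr w).mem hz)))
  have := h _ _ _ _ e
  rw [len_eq hd e, Finset.sum_eq_single z] at this
  · simp [hz] at this
  · exact fun b _ hb => if_neg (hno b hb)
  · exact fun k => absurd ((gr w).mem ((gr w).symm hz)) k

end Pool.Agent.MP_b13154_gt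

end
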